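import Pool.Agent.REL.NUNC.RingLe
import Pool.Agent.REL.NUI.Fin2
set_option linter.all false

/- part: Pool.Agent.WX.WindG -/
section
/-!
# Plan X, P1: the loops that wind round the cylinder cost a constant only, every loop weight `0 ≤ w`

* `ring_leG`: the gas of the separating polygons of the cylinder with `4 k` rows, weight `w / 2` for each polygon;
* `GC_leG`: the same in the words of `NUF`;
* `windUpG`: `‖ZZ w (2 k)‖ ≤ exp (C w) * NF w (PP (4 k) k) f0 ^ 2`.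
-/

set_option autoImplicit false

namespace WX

open Finset HexObs HexObs.LP Pool.Agent.NUN Pool.Agent.PLW Pool.Agent.NUF Pool.Agent.NUF.Cyl

open Classical in
/-- **The cylinder against two planar parallelograms, every weight.** -/
theorem ring_leG : ∃ C : ℝ, 0 < C ∧ ∀ (k : ℕ), 1 ≤ k → ∀ (w : ℝ), 0 ≤ w → ∀ (hN : 1 ≤ 4 * k) (A : Finset Pt),
    GP (fun E => w / 2 * xc ^ E.card) (((Cy (4 * k) hN).polys A).filter (Lab1 (2 * k))) ≤
      Real.exp (C * w) * LP.NF w (PP (4 * k) k) f0 ^ 2 := by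
  obtain ⟨C, hC, hmid⟩ := mid_sum 2
  refine ⟨C / 2, by positivity, ?_⟩
  intro k hk w hw hN A
  set Q := ((Cy (4 * k) hN).polys A).filter (Lab1 (2 * k)) with hQ
  set M := Q.filter (fun E =>
    (¬ ∃ E', LP.IsPoly E' ∧ VE E' ⊆ Bq (fc 0) k ∧ Nw E' (fc 0) ≠ 0 ∧ E = imE (Cy (4 * k) hN) E') ∧
    (¬ ∃ E', LP.IsPoly E' ∧ VE E' ⊆ Bq (fc (2 * k)) k ∧ Nw E' (fc (2 * k)) ≠ 0 ∧ E = imE (Cy (4 * k) hN) E')) with hM
  have hy : 0 ≤ w / 2 := by positivity
  have h1 := gas_le (Cy (4 * k) hN) (y := w / 2) hy (Fc_fc 0) (Fc_fc (2 * k))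
    (Bq_inj hN (f := fc 0) (s := k) (by omega)) (Bq_inj hN (f := fc (2 * k)) (s := k) (by omega)) A Q M
    (fun E hE => by
      by_cases c1 : ∃ E', LP.IsPoly E' ∧ VE E' ⊆ Bq (fc 0) k ∧ Nw E' (fc 0) ≠ 0 ∧ E = imE (Cy (4 * k) hN) E'
      · exact Or.inl c1
      · by_cases c2 : ∃ E', LP.IsPoly E' ∧ VE E' ⊆ Bq (fc (2 * k)) k ∧ Nw E' (fc (2 * k)) ≠ 0 ∧
            E = imE (Cy (4 * k) hN) E'
        · exact Or.inr (Or.inl c2)
        · exact Or.inr (Or.inr (mem_filter.2 ⟨hE, c1, c2⟩)))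
    (gasLo hN (2 * k) (w / 2) A)
  have h2 : ∑ E ∈ M, xc ^ E.card ≤ C := by
    refine hmid (4 * k) hN (2 * k) k (Bq (fc 0) k) (Bq (fc (2 * k)) k) M (by omega) (by omega)
      (fun v hv hv2 => mem_Bq.2 ⟨hv, hv2⟩) (fun v hv hv2 => mem_Bq.2 ⟨hv, hv2⟩) fun E hE => ?_
    obtain ⟨h3, h4, h5⟩ := mem_filter.1 hE
    obtain ⟨h6, h7⟩ := mem_filter.1 h3
    refine ⟨(Nm.mem_polys'.1 h6).1, ?_, h4, h5⟩
    have h8 : ∑ q ∈ E, ((cr (fc (2 * k)) q : ℤ) : ZMod 2) = 1 := h7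
    rw [h8]
    decide
  have h3 := NF_Bq (x := w) hw 0 k hk
  have h4 := NF_Bq (x := w) hw (2 * k) k hk
  have h5 : 0 ≤ Pool.Agent.NUN.NF xc (w / 2) (fc (2 * k)) (Bq (fc (2 * k)) k) :=
    le_trans zero_le_one (one_le_NF' hy _ _)
  have h6 : (0 : ℝ) ≤ LP.NF w (PP (4 * k) k) f0 := le_trans zero_le_one (one_le_NF hw _ _)
  refine h1.trans ?_
  rw [mul_comm (Real.exp (C / 2 * w)), sq]
  refine mul_le_mul (mul_le_mul h3 h4 h5 h6) (Real.exp_le_exp.2 ?_) (Real.exp_pos _).le (mul_nonneg h6 h6)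
  calc w / 2 * ∑ E ∈ M, xc ^ E.card ≤ w / 2 * C := mul_le_mul_of_nonneg_left h2 hy
    _ = C / 2 * w := by ring

open Classical in
theorem GC_leG : ∃ C : ℝ, 0 < C ∧ ∀ k : ℕ, 1 ≤ k → ∀ (w : ℝ), 0 ≤ w → ∀ (N : ℕ) (hN : 1 ≤ N), N = 4 * k →
    ∀ A : Finset Pt, Pool.Agent.NUNC.GC hN (2 * k) xc (w / 2) A ≤ Real.exp (C * w) * HexObs.LP.NF w (HexObs.LP.PP (4 * k) k) f0 ^ 2 := by
  obtain ⟨C, hC, h⟩ := ring_leG
  refine ⟨C, hC, ?_⟩
  rintro k hk w hw N hN rfl A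
  refine le_trans (le_of_eq ?_) (h k hk w hw hN A)
  unfold Pool.Agent.NUNC.GC
  congr 1
  ext E
  rw [Pool.Agent.NUNC.mem_odd, Finset.mem_filter, Nm.mem_polys', and_assoc]
  exact Iff.rfl

/-- **The loops that wind round the cylinder cost a constant only.** -/
theorem windUpG : ∃ C : ℝ, 0 < C ∧ ∀ k : ℕ, 1 ≤ k → ∀ w : ℝ, 0 ≤ w →
    ‖Pool.Agent.NUF.ZZ (w : ℂ) (2 * k)‖ ≤ Real.exp (C * w) * HexObs.LP.NF w (HexObs.LP.PP (4 * k) k) f0 ^ 2 := by
  obtain ⟨C, hC, h⟩ := GC_leG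
  refine ⟨C, hC, fun k hk w hw => ?_⟩
  have h1 : 1 ≤ 2 * (2 * k) := by omega
  exact Pool.Agent.NUNC.norm_ZZ_le (n' := w) hw (k := 2 * k) h1 fun m => h k hk w hw _ h1 (by ring) _

end WX
end


/- part: Pool.Agent.WX.Planar -/
section
/-!
# Plan X, P1: the planar consequences

The gas of nested disjoint polygons around one hexagon in the strip of `2 T` rows (every weight `w ≥ 0`) and the critical
mass of the polygons around one hexagon, from the cylinder.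

* `NF_exp`, `NF_lin`: `1 + w * mass ≤ NF w ≤ exp (w * mass)`, mass = `LL / 2`;
* `ll_le`, `s_le`: the mass of the polygons around a hexagon against the mass of the separating polygons of the cylinder;
* `nf_two`: two-sided bounds of `NF (2 cos π d)` from those of `P_N (2 cos π d)`;
* `mass_log`: `LL (PP T M) = (1 / (3 π)) log T + O(1)` from `(P_N).coeff 1 = (1 / (3 π)) log N + O(1)`.
-/

set_option autoImplicit false

namespace WX

open Finset HexObs HexObs.LP Polynomial Pool.Agent.NUF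
open NUI (ZP ZP_nonneg ZP_eq)

/-! ### 1. The gas and the mass -/

lemma LL_pf (Ω : Finset Pt) (f : Pt) : LL Ω f = ∑ E ∈ Pool.Agent.NUN.pf f Ω, xc ^ E.card := by
  unfold LL
  refine Finset.sum_congr ?_ fun _ _ => rfl
  ext E
  rw [Finset.mem_filter, Pool.Agent.NUN.mem_pf, mem_polys, and_assoc]

lemma LL_nonneg (Ω : Finset Pt) (f : Pt) : 0 ≤ LL Ω f := by
  rw [LL_pf]
  exact Finset.sum_nonneg fun E _ => (pow_pos xc_pos _).le

/-- the families of nested polygons against the exponential of the mass -/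
theorem NF_exp {w : ℝ} (hw : 0 ≤ w) {f : Pt} (hf : Fc f) (Ω : Finset Pt) :
    HexObs.LP.NF w Ω f ≤ Real.exp (w * (LL Ω f / 2)) := by
  classical
  rw [NF_eq_NUN, LL_pf]
  have hx := xc_pos
  have hy : 0 ≤ w / 2 := by positivity
  have key : ∀ n : ℕ, ∀ Ω : Finset Pt, Ω.card ≤ n → Pool.Agent.NUN.NF xc (w / 2) f Ω ≤
      Real.exp (w / 2 * ∑ E ∈ Pool.Agent.NUN.pf f Ω, xc ^ E.card) := by
    intro n
    induction n with
    | zero =>
      intro Ω hΩ
      have h0 : Pool.Agent.NUN.pf f Ω = ∅ := by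
        rw [Finset.eq_empty_iff_forall_notMem]
        intro E hE
        have := Pool.Agent.NUN.pf_inn_card hE
        omega
      rw [Pool.Agent.NUN.NF_eq, h0, Finset.sum_empty, Finset.sum_empty, mul_zero, Real.exp_zero, add_zero]
    | succ n ih =>
      intro Ω hΩ
      rcases Ω.eq_empty_or_nonempty with rfl | ⟨v, hv⟩
      · exact ih ∅ (by simp)
      · have hc : (Ω.erase v).card ≤ n := by
          rw [Finset.card_erase_of_mem hv]
          omega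
        have h1 := ih _ hc
        obtain ⟨S, hS⟩ : ∃ S, S = (Pool.Agent.NUN.pf f Ω).filter (fun E => v ∈ VE E) := ⟨_, rfl⟩
        have hsplit : ∑ E ∈ Pool.Agent.NUN.pf f Ω, xc ^ E.card =
            ∑ E ∈ Pool.Agent.NUN.pf f (Ω.erase v), xc ^ E.card + ∑ E ∈ S, xc ^ E.card := by
          rw [← Finset.sum_filter_add_sum_filter_not (Pool.Agent.NUN.pf f Ω) (fun E => v ∈ VE E), add_comm, hS]
          congr 1
          refine Finset.sum_congr ?_ fun _ _ => rfl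
          ext E
          rw [Finset.mem_filter, Pool.Agent.NUN.mem_pf, Pool.Agent.NUN.mem_pf]
          constructor
          · rintro ⟨⟨a, b, c⟩, d⟩
            exact ⟨a, fun u hu => Finset.mem_erase.2 ⟨fun e => d (e ▸ hu), b hu⟩, c⟩
          · rintro ⟨a, b, c⟩
            exact ⟨⟨a, fun u hu => (Finset.mem_erase.1 (b hu)).2, c⟩, fun h => (Finset.mem_erase.1 (b h)).1 rfl⟩
        have h2 : ∑ E ∈ S, w / 2 * xc ^ E.card * Pool.Agent.NUN.NF xc (w / 2) f (Ω \ VE E) ≤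
            ∑ E ∈ S, w / 2 * xc ^ E.card * Pool.Agent.NUN.NF xc (w / 2) f (Ω.erase v) := by
          refine Finset.sum_le_sum fun E hE => ?_
          refine mul_le_mul_of_nonneg_left ?_ (by positivity)
          refine Pool.Agent.PLW.NF_mono' hy f fun u hu => ?_
          obtain ⟨a, b⟩ := Finset.mem_sdiff.1 hu
          rw [hS] at hE
          exact Finset.mem_erase.2 ⟨fun e => b (e ▸ (Finset.mem_filter.1 hE).2), a⟩
        rw [Pool.Agent.NUN.NF_vertex' xc (w / 2) hf Ω v, hsplit, mul_add, Real.exp_add]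
        obtain ⟨s, hs⟩ : ∃ s, s = w / 2 * ∑ E ∈ S, xc ^ E.card := ⟨_, rfl⟩
        have hs0 : 0 ≤ s := by
          rw [hs]
          exact mul_nonneg hy (Finset.sum_nonneg fun E _ => (pow_pos hx _).le)
        have h3 : Pool.Agent.NUN.NF xc (w / 2) f (Ω.erase v) +
            ∑ E ∈ S, w / 2 * xc ^ E.card * Pool.Agent.NUN.NF xc (w / 2) f (Ω \ VE E) ≤
            Pool.Agent.NUN.NF xc (w / 2) f (Ω.erase v) * (1 + s) := by
          refine (add_le_add le_rfl h2).trans (le_of_eq ?_)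
          rw [← Finset.sum_mul, ← Finset.mul_sum, ← hs]
          ring
        rw [hS] at h3
        refine h3.trans ?_
        rw [← hs]
        have h4 : 1 + s ≤ Real.exp s := by
          have := Real.add_one_le_exp s
          linarith
        have h5 := Pool.Agent.PLW.one_le_NF' hy f (Ω.erase v)
        exact mul_le_mul h1 h4 (by linarith) (Real.exp_pos _).le
  refine (key _ Ω le_rfl).trans (le_of_eq ?_)
  congr 1
  ring

/-- the families with at most one polygon -/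
theorem NF_lin {w : ℝ} (hw : 0 ≤ w) (f : Pt) (Ω : Finset Pt) :
    1 + w * (LL Ω f / 2) ≤ HexObs.LP.NF w Ω f := by
  have hx := xc_pos
  rw [NF_eq_NUN, LL_pf, Pool.Agent.NUN.NF_eq]
  refine add_le_add le_rfl ?_
  rw [show w * ((∑ E ∈ Pool.Agent.NUN.pf f Ω, xc ^ E.card) / 2) = w / 2 * ∑ E ∈ Pool.Agent.NUN.pf f Ω, xc ^ E.card by ring,
    Finset.mul_sum]
  refine Finset.sum_le_sum fun E _ => ?_
  have h1 := Pool.Agent.PLW.one_le_NF' (show 0 ≤ w / 2 by positivity) f (inn Ω E)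
  have h2 : 0 ≤ w / 2 * xc ^ E.card := by positivity
  nlinarith

/-! ### 2. The polynomial of the cylinder near the weight 0 -/

lemma ZP_zero (N : ℕ) : (ZP N).coeff 0 = 1 := by
  rw [Polynomial.coeff_zero_eq_eval_zero]
  exact (Pool.Agent.NUB.ZZ_poly N).choose_spec.2.1

lemma ZP_split (N : ℕ) (w : ℝ) : ∃ n : ℕ, (ZP N).eval w =
    1 + w * (ZP N).coeff 1 + w ^ 2 * ∑ i ∈ range n, (ZP N).coeff (i + 2) * w ^ i ∧
    (ZP N).eval 1 = 1 + (ZP N).coeff 1 + ∑ i ∈ range n, (ZP N).coeff (i + 2) := by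
  refine ⟨(ZP N).natDegree, ?_, ?_⟩
  · rw [Polynomial.eval_eq_sum_range' (show (ZP N).natDegree < (ZP N).natDegree + 2 by omega) w,
      Finset.sum_range_succ', Finset.sum_range_succ', ZP_zero, Finset.mul_sum]
    have e : ∑ k ∈ range (ZP N).natDegree, (ZP N).coeff (k + 1 + 1) * w ^ (k + 1 + 1) =
        ∑ i ∈ range (ZP N).natDegree, w ^ 2 * ((ZP N).coeff (i + 2) * w ^ i) := by
      refine Finset.sum_congr rfl fun k _ => ?_
      rw [show k + 1 + 1 = k + 2 by ring, pow_add]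
      ring
    rw [e]
    simp only [zero_add, pow_one, pow_zero, mul_one]
    ring
  · rw [Polynomial.eval_eq_sum_range' (show (ZP N).natDegree < (ZP N).natDegree + 2 by omega) 1,
      Finset.sum_range_succ', Finset.sum_range_succ', ZP_zero]
    simp only [zero_add, one_pow, mul_one]
    ring

lemma ZP_ge (N : ℕ) {w : ℝ} (hw : 0 ≤ w) : 1 + w * (ZP N).coeff 1 ≤ (ZP N).eval w := by
  obtain ⟨n, h, -⟩ := ZP_split N w
  rw [h]
  have h1 : 0 ≤ ∑ i ∈ range n, (ZP N).coeff (i + 2) * w ^ i :=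
    Finset.sum_nonneg fun i _ => mul_nonneg (ZP_nonneg _ _) (pow_nonneg hw _)
  have h2 : 0 ≤ w ^ 2 := sq_nonneg w
  nlinarith

lemma ZP_le (N : ℕ) {w : ℝ} (hw : 0 ≤ w) (hw1 : w ≤ 1) :
    (ZP N).eval w ≤ 1 + w * (ZP N).coeff 1 + w ^ 2 * (ZP N).eval 1 := by
  obtain ⟨n, h, h'⟩ := ZP_split N w
  have h1 : ∑ i ∈ range n, (ZP N).coeff (i + 2) * w ^ i ≤ ∑ i ∈ range n, (ZP N).coeff (i + 2) :=
    Finset.sum_le_sum fun i _ => mul_le_of_le_one_right (ZP_nonneg _ _) (pow_le_one₀ hw hw1)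
  have h2 : ∑ i ∈ range n, (ZP N).coeff (i + 2) ≤ (ZP N).eval 1 := by
    rw [h']
    have := ZP_nonneg N 1
    linarith
  rw [h]
  have h3 : 0 ≤ w ^ 2 := sq_nonneg w
  have := mul_le_mul_of_nonneg_left (h1.trans h2) h3
  linarith

lemma ZP_one_nonneg (N : ℕ) : 0 ≤ (ZP N).eval 1 := by
  have := ZP_ge N (w := 1) zero_le_one
  have := ZP_nonneg N 1
  linarith

lemma ZZ_real (w : ℝ) (N : ℕ) : ZZ (w : ℂ) N = (((ZP N).eval w : ℝ) : ℂ) := by
  rw [ZP_eq]
  simpa using (Polynomial.aeval_algebraMap_apply ℂ w (ZP N))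

lemma ZP_eval_nonneg (N : ℕ) {w : ℝ} (hw : 0 ≤ w) : 0 ≤ (ZP N).eval w := by
  have := ZP_ge N hw
  have := ZP_nonneg N 1
  nlinarith [mul_nonneg hw (ZP_nonneg N 1)]

/-- the square of the planar gas against the polynomial of the cylinder -/
lemma NF_sq_le {w : ℝ} (hw : 0 ≤ w) {T : ℕ} (hT : 1 ≤ T) (M : ℕ) :
    HexObs.LP.NF w (HexObs.LP.PP T M) f0 ^ 2 ≤ (ZP (2 * T)).eval w := by
  obtain ⟨x, hx, hx1⟩ := NF_le_ZZ (n' := w) hw hT M
  rw [ZZ_real] at hx
  have hx2 : (ZP (2 * T)).eval w = x := by exact_mod_cast hx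
  rw [hx2]
  exact hx1

/-- the polynomial of the cylinder against the square of the planar gas -/
lemma ZP_le_NF : ∃ C : ℝ, 0 < C ∧ ∀ k : ℕ, 1 ≤ k → ∀ w : ℝ, 0 ≤ w →
    (ZP (2 * k)).eval w ≤ Real.exp (C * w) * HexObs.LP.NF w (HexObs.LP.PP (4 * k) k) f0 ^ 2 := by
  obtain ⟨C, hC, h⟩ := windUpG
  refine ⟨C, hC, fun k hk w hw => ?_⟩
  have h1 := h k hk w hw
  rw [ZZ_real, Complex.norm_real, Real.norm_eq_abs] at h1
  exact (le_abs_self _).trans h1

/-! ### 3. The mass -/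

/-- letting the weight tend to 0 -/
lemma le_of_lin {a b c : ℝ} (h : ∀ w : ℝ, 0 < w → w ≤ 1 → w * a ≤ w * b + w ^ 2 * c) : a ≤ b := by
  by_contra hcon
  push Not at hcon
  obtain ⟨w, hw⟩ : ∃ w, w = min 1 ((a - b) / (2 * (|c| + 1))) := ⟨_, rfl⟩
  have hc : 0 ≤ |c| := abs_nonneg c
  have hab : 0 < a - b := by linarith
  have hw0 : 0 < w := by
    rw [hw]
    exact lt_min one_pos (by positivity)
  have hw1 : w ≤ 1 := by rw [hw]; exact min_le_left _ _
  have hw2 : w * (2 * (|c| + 1)) ≤ a - b := by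
    have : w ≤ (a - b) / (2 * (|c| + 1)) := by rw [hw]; exact min_le_right _ _
    rwa [le_div_iff₀ (by positivity)] at this
  have h1 := h w hw0 hw1
  have h2 : w * a ≤ w * (b + w * c) := by nlinarith
  have h3 : a ≤ b + w * c := le_of_mul_le_mul_left h2 hw0
  have h4 : w * c ≤ w * |c| := mul_le_mul_of_nonneg_left (le_abs_self c) hw0.le
  nlinarith

/-- **the mass of the polygons around a hexagon in the strip of 2 T rows is at most half of the mass of the separating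
polygons of the cylinder of 4 T rows** (`LL` counts every polygon twice) -/
theorem ll_le {T : ℕ} (hT : 1 ≤ T) (M : ℕ) : LL (HexObs.LP.PP T M) f0 ≤ (ZP (2 * T)).coeff 1 := by
  refine le_of_lin (c := (ZP (2 * T)).eval 1) fun w hw hw1 => ?_
  have h1 := NF_sq_le hw.le hT M
  have h2 := NF_lin hw.le f0 (HexObs.LP.PP T M)
  have h3 := ZP_le (2 * T) hw.le hw1
  have h4 := LL_nonneg (HexObs.LP.PP T M) f0
  have h5 : (1 + w * (LL (HexObs.LP.PP T M) f0 / 2)) ^ 2 ≤ HexObs.LP.NF w (HexObs.LP.PP T M) f0 ^ 2 :=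
    pow_le_pow_left₀ (by positivity) h2 2
  nlinarith [sq_nonneg (w * (LL (HexObs.LP.PP T M) f0 / 2))]

/-- **and conversely up to a constant** -/
theorem s_le : ∃ C : ℝ, 0 < C ∧ ∀ k : ℕ, 1 ≤ k → (ZP (2 * k)).coeff 1 ≤ C + LL (HexObs.LP.PP (4 * k) k) f0 := by
  obtain ⟨C, hC, h⟩ := ZP_le_NF
  refine ⟨C, hC, fun k hk => ?_⟩
  obtain ⟨D, hD⟩ : ∃ D, D = C + LL (HexObs.LP.PP (4 * k) k) f0 := ⟨_, rfl⟩
  have h4 := LL_nonneg (HexObs.LP.PP (4 * k) k) f0
  have hD0 : 0 < D := by linarith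
  rw [← hD]
  refine le_of_lin (c := D ^ 2 * Real.exp D) fun w hw hw1 => ?_
  have h1 := h k hk w hw.le
  have h2 := ZP_ge (2 * k) hw.le
  have h3 := NF_exp hw.le HexObs.LP.Fc_f0 (HexObs.LP.PP (4 * k) k)
  have h0 : (0 : ℝ) ≤ HexObs.LP.NF w (HexObs.LP.PP (4 * k) k) f0 := le_trans zero_le_one (one_le_NF hw.le _ _)
  have h5 : HexObs.LP.NF w (HexObs.LP.PP (4 * k) k) f0 ^ 2 ≤ Real.exp (w * LL (HexObs.LP.PP (4 * k) k) f0) := by
    refine (pow_le_pow_left₀ h0 h3 2).trans (le_of_eq ?_)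
    rw [← Real.exp_nat_mul]
    congr 1
    push_cast
    ring
  have h6 : 1 + w * (ZP (2 * k)).coeff 1 ≤ Real.exp (w * D) := by
    refine h2.trans (h1.trans ((mul_le_mul_of_nonneg_left h5 (Real.exp_pos _).le).trans (le_of_eq ?_)))
    rw [← Real.exp_add, hD]
    congr 1
    ring
  have h7 : Real.exp (w * D) ≤ 1 + w * D + w ^ 2 * (D ^ 2 * Real.exp D) := by
    have hx0 : 0 ≤ w * D := by positivity
    have e1 : w * D ≤ D := mul_le_of_le_one_left hD0.le hw1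
    have e2 : Real.exp (w * D) - 1 ≤ w * D * Real.exp (w * D) := by
      have := Real.one_sub_le_exp_neg (w * D)
      have e3 : Real.exp (-(w * D)) * Real.exp (w * D) = 1 := by rw [← Real.exp_add]; simp
      nlinarith [Real.exp_pos (w * D)]
    have e4 : Real.exp (w * D) ≤ Real.exp D := Real.exp_le_exp.2 e1
    have e5 : Real.exp (w * D) - 1 ≤ w * D * (1 + w * D * Real.exp (w * D)) := by
      refine e2.trans (mul_le_mul_of_nonneg_left ?_ hx0)
      linarith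
    have e6 : w * D * Real.exp (w * D) ≤ w * D * Real.exp D := mul_le_mul_of_nonneg_left e4 hx0
    nlinarith
  linarith

/-! ### 4. Consequences of the law of the polynomial -/

lemma PP_mono {T T' M M' : ℕ} (h : T ≤ T') (h' : M ≤ M') : HexObs.LP.PP T M ⊆ HexObs.LP.PP T' M' := by
  intro v hv
  rw [mem_PP] at hv ⊢
  have h1 : (T : ℤ) ≤ T' := by exact_mod_cast h
  have h2 : (M : ℤ) ≤ M' := by exact_mod_cast h'
  exact ⟨hv.1, by linarith [hv.2.1], by linarith [hv.2.2]⟩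

lemma LL_mono {Ω Ω' : Finset Pt} (h : Ω ⊆ Ω') (f : Pt) : LL Ω f ≤ LL Ω' f := by
  rw [LL_pf, LL_pf]
  refine Finset.sum_le_sum_of_subset_of_nonneg (fun E hE => ?_) fun E _ _ => (pow_pos xc_pos _).le
  rw [Pool.Agent.NUN.mem_pf] at hE ⊢
  exact ⟨hE.1, hE.2.1.trans h, hE.2.2⟩

/-- the exponent of the cylinder -/
noncomputable def Ed (d : ℝ) : ℝ := 1 / 6 - 2 / 3 * d ^ 2

/-- **the planar gas, all weights `2 cos π d`, two-sided, with constants** -/
theorem nf_two (hP : ∃ c C : ℝ, 0 < c ∧ 0 < C ∧ ∀ N : ℕ, 1 ≤ N → ∀ d : ℝ, 0 ≤ d → d ≤ 1 / 2 →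
      c * (N : ℝ) ^ Ed d ≤ (ZP N).eval (2 * Real.cos (Real.pi * d)) ∧
      (ZP N).eval (2 * Real.cos (Real.pi * d)) ≤ C * (N : ℝ) ^ Ed d) :
    ∃ c C : ℝ, 0 < c ∧ 0 < C ∧ ∀ T M : ℕ, 1 ≤ T → ∀ d : ℝ, 0 ≤ d → d ≤ 1 / 2 →
      (T ≤ M → c * (T : ℝ) ^ (Ed d / 2) ≤ HexObs.LP.NF (2 * Real.cos (Real.pi * d)) (HexObs.LP.PP T M) f0) ∧
      HexObs.LP.NF (2 * Real.cos (Real.pi * d)) (HexObs.LP.PP T M) f0 ≤ C * (T : ℝ) ^ (Ed d / 2) := by
  obtain ⟨c, C, hc, hC, hP⟩ := hP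
  obtain ⟨K, hK, hW⟩ := ZP_le_NF
  obtain ⟨a, ha⟩ : ∃ a : ℝ, a = Real.sqrt (c / 4) / Real.exp K := ⟨_, rfl⟩
  have ha0 : 0 < a := by rw [ha]; positivity
  refine ⟨min a (1 / 2), Real.sqrt (2 * C), lt_min ha0 (by norm_num), by positivity, ?_⟩
  intro T M hT d hd0 hd1
  obtain ⟨w, hw⟩ : ∃ w, w = 2 * Real.cos (Real.pi * d) := ⟨_, rfl⟩
  have hpi := Real.pi_pos
  have hw0 : 0 ≤ w := by
    rw [hw]
    have := Real.cos_nonneg_of_neg_pi_div_two_le_of_le (x := Real.pi * d) (by nlinarith) (by nlinarith)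
    positivity
  have hw2 : w ≤ 2 := by
    rw [hw]
    have := Real.cos_le_one (Real.pi * d)
    linarith
  have hE0 : 0 ≤ Ed d := by unfold Ed; nlinarith
  have hE1 : Ed d ≤ 1 := by unfold Ed; nlinarith
  rw [← hw]
  have hT0 : (0 : ℝ) < T := by exact_mod_cast hT
  have hsq : ∀ x : ℝ, 0 < x → (x ^ (Ed d / 2)) ^ 2 = x ^ Ed d := by
    intro x hx
    rw [← Real.rpow_natCast, ← Real.rpow_mul hx.le]
    congr 1
    push_cast
    ring
  have hNF1 : (1 : ℝ) ≤ HexObs.LP.NF w (HexObs.LP.PP T M) f0 := one_le_NF hw0 _ _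
  constructor
  · intro hTM
    rcases Nat.lt_or_ge T 4 with h4 | h4
    · have h5 : (T : ℝ) ^ (Ed d / 2) ≤ 2 := by
        have e1 : (T : ℝ) ≤ 4 := by exact_mod_cast h4.le
        calc (T : ℝ) ^ (Ed d / 2) ≤ (4 : ℝ) ^ (Ed d / 2) := Real.rpow_le_rpow hT0.le e1 (by positivity)
          _ ≤ (4 : ℝ) ^ (1 / 2 : ℝ) := Real.rpow_le_rpow_of_exponent_le (by norm_num) (by linarith)
          _ = 2 := by
              rw [show (4 : ℝ) = 2 ^ (2 : ℝ) by norm_num, ← Real.rpow_mul (by norm_num)]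
              norm_num
      have h6 : min a (1 / 2) ≤ 1 / 2 := min_le_right _ _
      have h7 : 0 ≤ (T : ℝ) ^ (Ed d / 2) := by positivity
      nlinarith [mul_le_mul_of_nonneg_right h6 h7]
    · obtain ⟨k, hk⟩ : ∃ k, k = T / 4 := ⟨_, rfl⟩
      have hk1 : 1 ≤ k := by omega
      have hk4 : 4 * k ≤ T := by omega
      have hkT : T ≤ 4 * (2 * k) := by omega
      have h1 := (hP (2 * k) (by omega) d hd0 hd1).1
      rw [← hw] at h1
      have h2 := hW k hk1 w hw0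
      have h3 : HexObs.LP.NF w (HexObs.LP.PP (4 * k) k) f0 ≤ HexObs.LP.NF w (HexObs.LP.PP T M) f0 :=
        NF_mono hw0 f0 (PP_mono hk4 (by omega))
      have h0 : (0 : ℝ) ≤ HexObs.LP.NF w (HexObs.LP.PP (4 * k) k) f0 := le_trans zero_le_one (one_le_NF hw0 _ _)
      have h5 : Real.exp (K * w) ≤ Real.exp K ^ 2 := by
        rw [← Real.exp_nat_mul]
        apply Real.exp_le_exp.2
        push_cast
        nlinarith
      have h6 : (T : ℝ) ^ Ed d / 4 ≤ ((2 * k : ℕ) : ℝ) ^ Ed d := by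
        have e1 : (T : ℝ) ≤ 4 * ((2 * k : ℕ) : ℝ) := by exact_mod_cast hkT
        have e2 : (T : ℝ) ^ Ed d ≤ (4 * ((2 * k : ℕ) : ℝ)) ^ Ed d := Real.rpow_le_rpow hT0.le e1 hE0
        rw [Real.mul_rpow (by norm_num) (Nat.cast_nonneg _)] at e2
        have e3 : (4 : ℝ) ^ Ed d ≤ 4 := by
          calc (4 : ℝ) ^ Ed d ≤ (4 : ℝ) ^ (1 : ℝ) := Real.rpow_le_rpow_of_exponent_le (by norm_num) hE1
            _ = 4 := Real.rpow_one _
        have e4 : 0 ≤ ((2 * k : ℕ) : ℝ) ^ Ed d := by positivity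
        nlinarith
      have h7 : (a * (T : ℝ) ^ (Ed d / 2)) ^ 2 ≤ HexObs.LP.NF w (HexObs.LP.PP T M) f0 ^ 2 := by
        have e1 : (Real.exp K) ^ 2 * (a * (T : ℝ) ^ (Ed d / 2)) ^ 2 ≤
            (Real.exp K) ^ 2 * HexObs.LP.NF w (HexObs.LP.PP T M) f0 ^ 2 := by
          have e2 : (Real.exp K) ^ 2 * (a * (T : ℝ) ^ (Ed d / 2)) ^ 2 = c * ((T : ℝ) ^ Ed d / 4) := by
            rw [mul_pow, hsq _ hT0, ha, div_pow, Real.sq_sqrt (by positivity)]
            have := (Real.exp_pos K).ne'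
            field_simp
          rw [e2]
          calc c * ((T : ℝ) ^ Ed d / 4) ≤ c * ((2 * k : ℕ) : ℝ) ^ Ed d := mul_le_mul_of_nonneg_left h6 hc.le
            _ ≤ Real.exp (K * w) * HexObs.LP.NF w (HexObs.LP.PP (4 * k) k) f0 ^ 2 := h1.trans h2
            _ ≤ (Real.exp K) ^ 2 * HexObs.LP.NF w (HexObs.LP.PP T M) f0 ^ 2 :=
                mul_le_mul h5 (pow_le_pow_left₀ h0 h3 2) (sq_nonneg _) (sq_nonneg _)
        exact le_of_mul_le_mul_left e1 (by positivity)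
      have h8 : a * (T : ℝ) ^ (Ed d / 2) ≤ HexObs.LP.NF w (HexObs.LP.PP T M) f0 :=
        (abs_le_of_sq_le_sq' h7 (by linarith)).2
      exact (mul_le_mul_of_nonneg_right (min_le_left _ _) (by positivity)).trans h8
  · have h1 := NF_sq_le hw0 hT M
    have h2 := (hP (2 * T) (by omega) d hd0 hd1).2
    rw [← hw] at h2
    have h3 : ((2 * T : ℕ) : ℝ) ^ Ed d ≤ 2 * (T : ℝ) ^ Ed d := by
      push_cast
      rw [Real.mul_rpow (by norm_num) hT0.le]
      have e3 : (2 : ℝ) ^ Ed d ≤ 2 := by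
        calc (2 : ℝ) ^ Ed d ≤ (2 : ℝ) ^ (1 : ℝ) := Real.rpow_le_rpow_of_exponent_le (by norm_num) hE1
          _ = 2 := Real.rpow_one _
      exact mul_le_mul_of_nonneg_right e3 (by positivity)
    have h4 : HexObs.LP.NF w (HexObs.LP.PP T M) f0 ^ 2 ≤ (Real.sqrt (2 * C) * (T : ℝ) ^ (Ed d / 2)) ^ 2 := by
      rw [mul_pow, hsq _ hT0, Real.sq_sqrt (by positivity)]
      refine h1.trans (h2.trans ((mul_le_mul_of_nonneg_left h3 hC.le).trans (le_of_eq ?_)))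
      ring
    exact (abs_le_of_sq_le_sq' h4 (by positivity)).2

/-- **the mass of the polygons around a hexagon** (`LL` counts every polygon twice: the mass is `(1 / (6 π)) log T`) -/
theorem mass_log (hS : ∃ C : ℝ, ∀ N : ℕ, 1 ≤ N → |(ZP N).coeff 1 - 1 / (3 * Real.pi) * Real.log N| ≤ C) :
    ∃ C : ℝ, ∀ T M : ℕ, 1 ≤ T → T ≤ M →
      |LL (HexObs.LP.PP T M) f0 - 1 / (3 * Real.pi) * Real.log T| ≤ C := by
  obtain ⟨C, hS⟩ := hS
  obtain ⟨K, hK, hs⟩ := s_le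
  have hpi := Real.pi_pos
  have hC0 : 0 ≤ C := (abs_nonneg _).trans (hS 1 le_rfl)
  obtain ⟨g, hg⟩ : ∃ g : ℝ, g = 1 / (3 * Real.pi) := ⟨_, rfl⟩
  have hg0 : 0 < g := by rw [hg]; positivity
  have hg1 : g ≤ 1 := by
    rw [hg, div_le_one (by positivity)]
    have := Real.pi_gt_three
    linarith
  rw [← hg] at hS ⊢
  refine ⟨C + K + 3, fun T M hT hTM => ?_⟩
  have hT0 : (0 : ℝ) < T := by exact_mod_cast hT
  have hl2 : Real.log 2 ≤ 1 := by
    have := Real.log_two_lt_d9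
    linarith
  have hl4 : Real.log 4 ≤ 2 := by
    rw [show (4 : ℝ) = 2 ^ 2 by norm_num, Real.log_pow]
    push_cast
    linarith
  rw [abs_le]
  constructor
  · rcases Nat.lt_or_ge T 4 with h4 | h4
    · have h5 := LL_nonneg (HexObs.LP.PP T M) f0
      have h6 : Real.log T ≤ 2 := by
        have e1 : (T : ℝ) ≤ 4 := by exact_mod_cast h4.le
        exact (Real.log_le_log hT0 e1).trans hl4
      have h7 : g * Real.log T ≤ g * 2 := mul_le_mul_of_nonneg_left h6 hg0.le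
      linarith
    · obtain ⟨k, hk⟩ : ∃ k, k = T / 4 := ⟨_, rfl⟩
      have hk1 : 1 ≤ k := by omega
      have hk4 : 4 * k ≤ T := by omega
      have hkT : T ≤ 4 * (2 * k) := by omega
      have h1 := (abs_le.1 (hS (2 * k) (by omega))).1
      have h2 := hs k hk1
      have h3 := LL_mono (PP_mono hk4 (show k ≤ M by omega)) f0
      have h5 : Real.log T ≤ 2 + Real.log ((2 * k : ℕ) : ℝ) := by
        have e0 : (0 : ℝ) < ((2 * k : ℕ) : ℝ) := by exact_mod_cast (by omega : 0 < 2 * k)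
        have e1 : (T : ℝ) ≤ 4 * ((2 * k : ℕ) : ℝ) := by exact_mod_cast hkT
        have e2 := Real.log_le_log hT0 e1
        rw [Real.log_mul (by norm_num) e0.ne'] at e2
        linarith
      have h6 : g * Real.log T ≤ g * (2 + Real.log ((2 * k : ℕ) : ℝ)) := mul_le_mul_of_nonneg_left h5 hg0.le
      nlinarith
  · have h1 := ll_le hT M
    have h2 := (abs_le.1 (hS (2 * T) (by omega))).2
    have h3 : Real.log ((2 * T : ℕ) : ℝ) ≤ 1 + Real.log T := by
      push_cast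
      rw [Real.log_mul (by norm_num) hT0.ne']
      linarith
    have h4 : g * Real.log ((2 * T : ℕ) : ℝ) ≤ g * (1 + Real.log T) := mul_le_mul_of_nonneg_left h3 hg0.le
    nlinarith

end WX
end
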