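import Pool.Agent.REL.Base
set_option linter.all false

/-!
# Plan X: positivity of the amplitude and one constant for all weights

`P N` polynomials with coefficients `≥ 0` and `P N (0) = 1`,
`P N (w) = G w * N ^ (e w) + (-1) ^ N * H w * N ^ (e' w) + O (N ^ (e w - c))` uniformly in `w ∈ [0, 2]`, `e' < e` for `w > 0`.
Then `G` is continuous and positive, and `c0 * N ^ (e w) ≤ P N (w) ≤ C0 * N ^ (e w)` with constants for all `w`.

Positivity: `P N (√(w1 w)) ^ 2 ≤ P N (w1) * P N (w)` (Cauchy - Schwarz), at the first zero of `G`.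
-/

set_option autoImplicit false

noncomputable section

open Filter Topology Set

namespace WX

namespace PG

/-- Cauchy - Schwarz for polynomials with coefficients `≥ 0` -/
lemma cs {p : Polynomial ℝ} (hp : ∀ m, 0 ≤ p.coeff m) {x y z : ℝ} (hx : 0 ≤ x) (hy : 0 ≤ y) (h : z ^ 2 = x * y) :
    (p.eval z) ^ 2 ≤ p.eval x * p.eval y := by
  rw [Polynomial.eval_eq_sum_range, Polynomial.eval_eq_sum_range, Polynomial.eval_eq_sum_range]
  refine Finset.sum_sq_le_sum_mul_sum_of_sq_le_mul _ (fun i _ => mul_nonneg (hp i) (pow_nonneg hx i))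
    (fun i _ => mul_nonneg (hp i) (pow_nonneg hy i)) (fun i _ => le_of_eq ?_)
  calc (p.coeff i * z ^ i) ^ 2 = p.coeff i ^ 2 * (z ^ 2) ^ i := by ring
    _ = p.coeff i ^ 2 * (x * y) ^ i := by rw [h]
    _ = _ := by rw [mul_pow]; ring

lemma eval_mono {p : Polynomial ℝ} (hp : ∀ m, 0 ≤ p.coeff m) {x y : ℝ} (hx : 0 ≤ x) (h : x ≤ y) :
    p.eval x ≤ p.eval y := by
  rw [Polynomial.eval_eq_sum_range, Polynomial.eval_eq_sum_range]
  exact Finset.sum_le_sum fun i _ => mul_le_mul_of_nonneg_left (pow_le_pow_left₀ hx h i) (hp i)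

/-- the law with two modes -/
structure Law (P : ℕ → Polynomial ℝ) (e e' G H : ℝ → ℝ) (C c : ℝ) : Prop where
  coef : ∀ N m, 0 ≤ (P N).coeff m
  zero : ∀ N : ℕ, 1 ≤ N → (P N).eval 0 = 1
  ce : ContinuousOn e (Icc 0 2)
  ce' : ContinuousOn e' (Icc 0 2)
  lt : ∀ w ∈ Ioc (0 : ℝ) 2, e' w < e w
  e0 : e 0 = 0
  e'0 : e' 0 = 0
  hc : 0 < c
  law : ∀ N : ℕ, 1 ≤ N → ∀ w ∈ Icc (0 : ℝ) 2,
    |(P N).eval w - (G w * (N : ℝ) ^ (e w) + (-1) ^ N * H w * (N : ℝ) ^ (e' w))| ≤ C * (N : ℝ) ^ (e w - c)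

variable {P : ℕ → Polynomial ℝ} {e e' G H : ℝ → ℝ} {C c : ℝ}

/-- normalized -/
def R (P : ℕ → Polynomial ℝ) (e : ℝ → ℝ) (N : ℕ) (w : ℝ) : ℝ := (P N).eval w * (N : ℝ) ^ (-(e w))

lemma Law.C0 (h : Law P e e' G H C c) : 0 ≤ C := by
  have h1 := h.law 1 le_rfl 0 ⟨le_rfl, by norm_num⟩
  simp only [Nat.cast_one, Real.one_rpow, mul_one] at h1
  exact (abs_nonneg _).trans h1

lemma Law.norm (h : Law P e e' G H C c) {N : ℕ} (hN : 1 ≤ N) {w : ℝ} (hw : w ∈ Icc (0 : ℝ) 2) :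
    |R P e N w - (G w + (-1) ^ N * H w * (N : ℝ) ^ (-(e w - e' w)))| ≤ C * (N : ℝ) ^ (-c) := by
  have hN0 : (0 : ℝ) < N := by exact_mod_cast hN
  have h1 := h.law N hN w hw
  have h2 : (0 : ℝ) < (N : ℝ) ^ (-(e w)) := Real.rpow_pos_of_pos hN0 _
  have h3 := mul_le_mul_of_nonneg_right h1 h2.le
  have e1 : C * (N : ℝ) ^ (e w - c) * (N : ℝ) ^ (-(e w)) = C * (N : ℝ) ^ (-c) := by
    rw [mul_assoc, ← Real.rpow_add hN0]
    congr 2
    ring
  have e2 : |(P N).eval w - (G w * (N : ℝ) ^ (e w) + (-1) ^ N * H w * (N : ℝ) ^ (e' w))| * (N : ℝ) ^ (-(e w)) =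
      |R P e N w - (G w + (-1) ^ N * H w * (N : ℝ) ^ (-(e w - e' w)))| := by
    have e5 : ∀ x : ℝ, |x| * (N : ℝ) ^ (-(e w)) = |x * (N : ℝ) ^ (-(e w))| := fun x => by
      rw [abs_mul, abs_of_pos h2]
    rw [e5]
    congr 1
    have e3 : (N : ℝ) ^ (e w) * (N : ℝ) ^ (-(e w)) = 1 := by
      rw [← Real.rpow_add hN0]
      simp
    have e4 : (N : ℝ) ^ (e' w) * (N : ℝ) ^ (-(e w)) = (N : ℝ) ^ (-(e w - e' w)) := by
      rw [← Real.rpow_add hN0]
      congr 1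
      ring
    unfold R
    rw [← e4]
    linear_combination -(G w) * e3
  rw [e1, e2] at h3
  exact h3

lemma R_cont (h : Law P e e' G H C c) {N : ℕ} (hN : 1 ≤ N) : ContinuousOn (R P e N) (Icc 0 2) := by
  have hN0 : (0 : ℝ) < N := by exact_mod_cast hN
  refine ContinuousOn.mul (P N).continuous.continuousOn ?_
  exact ContinuousOn.rpow continuousOn_const h.ce.neg fun w _ => Or.inl hN0.ne'

lemma R_nonneg (h : Law P e e' G H C c) (N : ℕ) {w : ℝ} (hw : 0 ≤ w) : 0 ≤ R P e N w := by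
  refine mul_nonneg ?_ (Real.rpow_nonneg (Nat.cast_nonneg _) _)
  rw [Polynomial.eval_eq_sum_range]
  exact Finset.sum_nonneg fun i _ => mul_nonneg (h.coef N i) (pow_nonneg hw i)

lemma le_e (h : Law P e e' G H C c) {w : ℝ} (hw : w ∈ Icc (0 : ℝ) 2) : 0 ≤ e w - e' w := by
  rcases eq_or_lt_of_le hw.1 with h1 | h1
  · rw [← h1, h.e0, h.e'0]
    norm_num
  · linarith [h.lt w ⟨h1, hw.2⟩]

/-- `H` is bounded -/
lemma H_bdd (h : Law P e e' G H C c) : ∃ B : ℝ, 0 ≤ B ∧ ∀ w ∈ Icc (0 : ℝ) 2, |H w| ≤ B := by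
  obtain ⟨B1, hB1⟩ := isCompact_Icc.exists_bound_of_continuousOn (R_cont h le_rfl)
  obtain ⟨B2, hB2⟩ := isCompact_Icc.exists_bound_of_continuousOn (R_cont h (show 1 ≤ 2 by norm_num))
  have hC := h.C0
  have hm : (0 : ℝ) ∈ Icc (0 : ℝ) 2 := ⟨le_rfl, by norm_num⟩
  have hb1 : 0 ≤ B1 := (norm_nonneg _).trans (hB1 0 hm)
  have hb2 : 0 ≤ B2 := (norm_nonneg _).trans (hB2 0 hm)
  refine ⟨B1 + B2 + 2 * C, by positivity, fun w hw => ?_⟩
  have h1 := h.norm le_rfl hw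
  have h2 := h.norm (show 1 ≤ 2 by norm_num) hw
  have h3 := hB1 w hw
  have h4 := hB2 w hw
  rw [Real.norm_eq_abs] at h3 h4
  simp only [Nat.cast_one, Real.one_rpow, mul_one, pow_one, neg_one_mul] at h1
  have h5 : (2 : ℝ) ^ (-c) ≤ 1 := Real.rpow_le_one_of_one_le_of_nonpos (by norm_num) (by linarith [h.hc])
  have h6 : C * (2 : ℝ) ^ (-c) ≤ C := mul_le_of_le_one_right hC h5
  obtain ⟨q, hq⟩ : ∃ q : ℝ, q = (2 : ℝ) ^ (-(e w - e' w)) := ⟨_, rfl⟩
  have hq0 : 0 < q := by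
    rw [hq]
    exact Real.rpow_pos_of_pos two_pos _
  have h7 : ((-1 : ℝ) ^ 2) = 1 := by norm_num
  simp only [Nat.cast_ofNat] at h2
  rw [← hq, h7, one_mul] at h2
  have h8 : |H w * (1 + q)| ≤ B1 + B2 + 2 * C := by
    have e1 : H w * (1 + q) = (R P e 2 w - R P e 1 w) - ((R P e 2 w - (G w + H w * q)) - (R P e 1 w - (G w + -H w))) := by
      ring
    rw [e1]
    refine (abs_sub _ _).trans ?_
    have e2 := abs_sub (R P e 2 w) (R P e 1 w)
    have e3 := abs_sub (R P e 2 w - (G w + H w * q)) (R P e 1 w - (G w + -H w))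
    linarith
  rw [abs_mul, abs_of_pos (show 0 < 1 + q by linarith)] at h8
  have h9 : |H w| ≤ |H w| * (1 + q) := by nlinarith [abs_nonneg (H w)]
  linarith

lemma G_bdd (h : Law P e e' G H C c) : ∃ B : ℝ, 0 ≤ B ∧ ∀ w ∈ Icc (0 : ℝ) 2, |G w| ≤ B ∧ |H w| ≤ B := by
  obtain ⟨B1, hB1⟩ := isCompact_Icc.exists_bound_of_continuousOn (R_cont h le_rfl)
  obtain ⟨B2, hb2, hB2⟩ := H_bdd h
  have hC := h.C0
  have hm : (0 : ℝ) ∈ Icc (0 : ℝ) 2 := ⟨le_rfl, by norm_num⟩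
  have hb1 : 0 ≤ B1 := (norm_nonneg _).trans (hB1 0 hm)
  refine ⟨B1 + B2 + C, by positivity, fun w hw => ⟨?_, (hB2 w hw).trans (by linarith)⟩⟩
  have h1 := h.norm le_rfl hw
  have h3 := hB1 w hw
  have h4 := hB2 w hw
  rw [Real.norm_eq_abs] at h3
  simp only [Nat.cast_one, Real.one_rpow, mul_one, pow_one, neg_one_mul] at h1
  have e1 : G w = R P e 1 w + H w - (R P e 1 w - (G w + -H w)) := by ring
  rw [e1]
  refine (abs_sub _ _).trans ?_
  have e2 := abs_add_le (R P e 1 w) (H w)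
  linarith

lemma pow_tendsto {a : ℝ} (ha : 0 < a) : Tendsto (fun N : ℕ => (N : ℝ) ^ (-a)) atTop (𝓝 0) :=
  (tendsto_rpow_neg_atTop ha).comp tendsto_natCast_atTop_atTop

/-- `G` is continuous -/
lemma G_cont (h : Law P e e' G H C c) : ContinuousOn G (Icc 0 2) := by
  obtain ⟨B, hB, hH⟩ := H_bdd h
  have hC := h.C0
  obtain ⟨A, hA⟩ := isCompact_Icc.exists_bound_of_continuousOn (h.ce.sub h.ce')
  have hm : (0 : ℝ) ∈ Icc (0 : ℝ) 2 := ⟨le_rfl, by norm_num⟩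
  have hA0 : 0 ≤ A := (norm_nonneg _).trans (hA 0 hm)
  have hu : TendstoUniformlyOn (fun (N : ℕ) w => (R P e (N + 1) w + R P e (N + 2) w) / 2) G atTop (Icc 0 2) := by
    rw [Metric.tendstoUniformlyOn_iff]
    intro ε hε
    have t1 : Tendsto (fun N : ℕ => C * (((N + 1 : ℕ) : ℝ)) ^ (-c) + B * (A * (1 / (((N + 1 : ℕ) : ℝ))))) atTop (𝓝 0) := by
      have h1 : Tendsto (fun N : ℕ => (((N + 1 : ℕ) : ℝ)) ^ (-c)) atTop (𝓝 0) :=
        (pow_tendsto h.hc).comp (tendsto_add_atTop_nat 1)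
      have h2 : Tendsto (fun N : ℕ => 1 / (((N + 1 : ℕ) : ℝ))) atTop (𝓝 0) :=
        tendsto_one_div_atTop_nhds_zero_nat.comp (tendsto_add_atTop_nat 1)
      have h3 := (h1.const_mul C).add ((h2.const_mul A).const_mul B)
      simpa using h3
    filter_upwards [t1.eventually_lt_const hε] with N hN w hw
    refine lt_of_le_of_lt ?_ hN
    rw [dist_comm, Real.dist_eq]
    obtain ⟨n, hn⟩ : ∃ n, n = N + 1 := ⟨_, rfl⟩
    have hn1 : 1 ≤ n := by omega
    rw [show N + 2 = n + 1 by omega, ← hn]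
    have hn0 : (0 : ℝ) < n := by exact_mod_cast hn1
    have h1 := h.norm hn1 hw
    have h2 := h.norm (show 1 ≤ n + 1 by omega) hw
    have h3 : ((n + 1 : ℕ) : ℝ) ^ (-c) ≤ (n : ℝ) ^ (-c) :=
      Real.rpow_le_rpow_of_nonpos hn0 (by push_cast; linarith) (by linarith [h.hc])
    have h3' := mul_le_mul_of_nonneg_left h3 hC
    obtain ⟨a, ha⟩ : ∃ a, a = e w - e' w := ⟨_, rfl⟩
    have ha0 : 0 ≤ a := by rw [ha]; exact le_e h hw
    have haA : a ≤ A := by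
      have := hA w hw
      rw [Real.norm_eq_abs] at this
      rw [ha]
      exact (le_abs_self _).trans this
    rw [← ha] at h1 h2
    -- the two powers
    have h4 : |(n : ℝ) ^ (-a) - ((n + 1 : ℕ) : ℝ) ^ (-a)| ≤ A * (1 / n) := by
      have e1 : ((n + 1 : ℕ) : ℝ) ^ (-a) ≤ (n : ℝ) ^ (-a) :=
        Real.rpow_le_rpow_of_nonpos hn0 (by push_cast; linarith) (by linarith)
      rw [abs_of_nonneg (by linarith)]
      have e2 : ((n + 1 : ℕ) : ℝ) ^ (-a) = (n : ℝ) ^ (-a) * (1 + 1 / n) ^ (-a) := by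
        rw [← Real.mul_rpow hn0.le (by positivity)]
        congr 1
        push_cast
        field_simp
      have e3 : 1 - a * (1 / n) ≤ (1 + 1 / (n : ℝ)) ^ (-a) := by
        have h5 : Real.log (1 + 1 / (n : ℝ)) ≤ 1 / n := by
          have := Real.log_le_sub_one_of_pos (show (0 : ℝ) < 1 + 1 / n by positivity)
          linarith
        rw [Real.rpow_def_of_pos (by positivity)]
        have h6 := Real.add_one_le_exp (Real.log (1 + 1 / (n : ℝ)) * -a)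
        have h7 : a * Real.log (1 + 1 / (n : ℝ)) ≤ a * (1 / n) := mul_le_mul_of_nonneg_left h5 ha0
        linarith
      have e4 : (n : ℝ) ^ (-a) ≤ 1 := Real.rpow_le_one_of_one_le_of_nonpos (by exact_mod_cast hn1) (by linarith)
      have e5 : 0 < (n : ℝ) ^ (-a) := Real.rpow_pos_of_pos hn0 _
      have e6 : (n : ℝ) ^ (-a) - (n : ℝ) ^ (-a) * (1 + 1 / n) ^ (-a) ≤ (n : ℝ) ^ (-a) * (a * (1 / n)) := by
        have := mul_le_mul_of_nonneg_left e3 e5.le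
        linarith
      have e7 : (n : ℝ) ^ (-a) * (a * (1 / n)) ≤ 1 * (A * (1 / n)) :=
        mul_le_mul e4 (mul_le_mul_of_nonneg_right haA (by positivity)) (by positivity) (by norm_num)
      rw [e2]
      linarith
    have e0 : (R P e n w + R P e (n + 1) w) / 2 - G w =
        ((R P e n w - (G w + (-1) ^ n * H w * (n : ℝ) ^ (-a))) +
          (R P e (n + 1) w - (G w + (-1) ^ (n + 1) * H w * ((n + 1 : ℕ) : ℝ) ^ (-a)))) / 2 +
        ((-1) ^ n * H w) * ((n : ℝ) ^ (-a) - ((n + 1 : ℕ) : ℝ) ^ (-a)) / 2 := by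
      rw [pow_succ]
      ring
    rw [e0]
    refine (abs_add_le _ _).trans ?_
    have f1 : |((R P e n w - (G w + (-1) ^ n * H w * (n : ℝ) ^ (-a))) +
          (R P e (n + 1) w - (G w + (-1) ^ (n + 1) * H w * ((n + 1 : ℕ) : ℝ) ^ (-a)))) / 2| ≤ C * (n : ℝ) ^ (-c) := by
      rw [abs_div, abs_of_pos (show (0 : ℝ) < 2 by norm_num), div_le_iff₀ (by norm_num)]
      refine (abs_add_le _ _).trans ?_
      linarith
    have f2 : |((-1) ^ n * H w) * ((n : ℝ) ^ (-a) - ((n + 1 : ℕ) : ℝ) ^ (-a)) / 2| ≤ B * (A * (1 / n)) := by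
      rw [abs_div, abs_of_pos (show (0 : ℝ) < 2 by norm_num), abs_mul, abs_mul, abs_pow, abs_neg, abs_one, one_pow,
        one_mul]
      have h5 := mul_le_mul (hH w hw) h4 (abs_nonneg _) hB
      have h6 : 0 ≤ |H w| * |(n : ℝ) ^ (-a) - ((n + 1 : ℕ) : ℝ) ^ (-a)| := by positivity
      linarith
    linarith
  refine hu.continuousOn (Eventually.frequently (Eventually.of_forall fun N => ?_))
  exact ((R_cont h (by omega)).add (R_cont h (by omega))).div_const 2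

lemma G_zero (h : Law P e e' G H C c) : G 0 = 1 ∧ H 0 = 0 := by
  have hm : (0 : ℝ) ∈ Icc (0 : ℝ) 2 := ⟨le_rfl, by norm_num⟩
  have h1 : ∀ N : ℕ, 1 ≤ N → |1 - (G 0 + (-1) ^ N * H 0)| ≤ C * (N : ℝ) ^ (-c) := by
    intro N hN
    have := h.norm hN hm
    unfold R at this
    rw [h.zero N hN, h.e0, h.e'0] at this
    simpa using this
  have h2 : Tendsto (fun N : ℕ => C * (N : ℝ) ^ (-c)) atTop (𝓝 0) := by
    have := (pow_tendsto h.hc).const_mul C
    simpa using this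
  have h3 : |1 - (G 0 + H 0)| ≤ 0 := by
    refine ge_of_tendsto (h2.comp (tendsto_id.nsmul_atTop (show 0 < 2 by norm_num))) ?_
    filter_upwards [eventually_ge_atTop 1] with N hN
    have := h1 (2 • N) (by simp only [smul_eq_mul]; omega)
    simpa [pow_mul] using this
  have h4 : |1 - (G 0 - H 0)| ≤ 0 := by
    have t : Tendsto (fun N : ℕ => 2 * N + 1) atTop atTop :=
      tendsto_atTop_mono (fun N => by simp only [id]; omega) tendsto_id
    refine ge_of_tendsto (h2.comp t) ?_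
    filter_upwards with N
    have := h1 (2 * N + 1) (by omega)
    have e1 : (-1 : ℝ) ^ (2 * N + 1) = -1 := by
      rw [pow_succ, pow_mul]
      norm_num
    rw [e1] at this
    have e : 1 - (G 0 - H 0) = 1 - (G 0 + (-1) * H 0) := by ring
    rw [e]
    exact this
  have h5 := abs_nonpos_iff.1 h3
  have h6 := abs_nonpos_iff.1 h4
  constructor <;> linarith

/-- for `w > 0` the normalized values tend to `G w` -/
lemma R_tendsto (h : Law P e e' G H C c) {w : ℝ} (hw : w ∈ Ioc (0 : ℝ) 2) :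
    Tendsto (fun N : ℕ => R P e N w) atTop (𝓝 (G w)) := by
  have hw' : w ∈ Icc (0 : ℝ) 2 := ⟨hw.1.le, hw.2⟩
  have ha : 0 < e w - e' w := by linarith [h.lt w hw]
  rw [tendsto_iff_norm_sub_tendsto_zero]
  have h1 : Tendsto (fun N : ℕ => C * (N : ℝ) ^ (-c) + |H w| * (N : ℝ) ^ (-(e w - e' w))) atTop (𝓝 0) := by
    have := ((pow_tendsto h.hc).const_mul C).add ((pow_tendsto ha).const_mul |H w|)
    simpa using this
  refine squeeze_zero' (Eventually.of_forall fun N => norm_nonneg _) ?_ h1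
  filter_upwards [eventually_ge_atTop 1] with N hN
  have hN0 : (0 : ℝ) < N := by exact_mod_cast hN
  have h2 := h.norm hN hw'
  rw [Real.norm_eq_abs]
  have e1 : R P e N w - G w = (R P e N w - (G w + (-1) ^ N * H w * (N : ℝ) ^ (-(e w - e' w)))) +
      (-1) ^ N * H w * (N : ℝ) ^ (-(e w - e' w)) := by ring
  rw [e1]
  refine (abs_add_le _ _).trans (add_le_add h2 ?_)
  rw [abs_mul, abs_mul, abs_pow, abs_neg, abs_one, one_pow, one_mul,
    abs_of_pos (Real.rpow_pos_of_pos hN0 _)]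

lemma G_nonneg (h : Law P e e' G H C c) {w : ℝ} (hw : w ∈ Icc (0 : ℝ) 2) : 0 ≤ G w := by
  rcases eq_or_lt_of_le hw.1 with h1 | h1
  · rw [← h1, (G_zero h).1]
    norm_num
  · exact ge_of_tendsto' (R_tendsto h ⟨h1, hw.2⟩) fun N => R_nonneg h N hw.1

/-- upper bound -/
lemma upper (h : Law P e e' G H C c) : ∃ B : ℝ, 0 ≤ B ∧ ∀ N : ℕ, 1 ≤ N → ∀ w ∈ Icc (0 : ℝ) 2, R P e N w ≤ B := by
  obtain ⟨B, hB, hGH⟩ := G_bdd h
  have hC := h.C0
  refine ⟨2 * B + C, by positivity, fun N hN w hw => ?_⟩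
  have hN0 : (1 : ℝ) ≤ N := by exact_mod_cast hN
  have h1 := h.norm hN hw
  have h2 : (N : ℝ) ^ (-c) ≤ 1 := Real.rpow_le_one_of_one_le_of_nonpos hN0 (by linarith [h.hc])
  have h3 : (N : ℝ) ^ (-(e w - e' w)) ≤ 1 := Real.rpow_le_one_of_one_le_of_nonpos hN0 (by linarith [le_e h hw])
  have h4 : 0 ≤ (N : ℝ) ^ (-(e w - e' w)) := Real.rpow_nonneg (by linarith) _
  have h5 : |(-1) ^ N * H w * (N : ℝ) ^ (-(e w - e' w))| ≤ B := by
    rw [abs_mul, abs_mul, abs_pow, abs_neg, abs_one, one_pow, one_mul, abs_of_nonneg h4]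
    exact (mul_le_mul (hGH w hw).2 h3 h4 hB).trans (le_of_eq (mul_one _))
  have h6 := (abs_le.1 h1).2
  have h7 := (abs_le.1 h5).2
  have h8 := (abs_le.1 (hGH w hw).1).2
  have h9 : C * (N : ℝ) ^ (-c) ≤ C := mul_le_of_le_one_right hC h2
  linarith

/-- **positivity** -/
theorem G_pos (h : Law P e e' G H C c) {w : ℝ} (hw : w ∈ Icc (0 : ℝ) 2) : 0 < G w := by
  by_contra hcon
  have hz : G w = 0 := le_antisymm (not_lt.1 hcon) (G_nonneg h hw)
  have hm : (0 : ℝ) ∈ Icc (0 : ℝ) 2 := ⟨le_rfl, by norm_num⟩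
  -- the first zero
  obtain ⟨Z, hZ⟩ : ∃ Z : Set ℝ, Z = {w | w ∈ Icc (0 : ℝ) 2 ∧ G w = 0} := ⟨_, rfl⟩
  have hZc : IsCompact Z := by
    have h1 : IsClosed Z := by
      have := (G_cont h).preimage_isClosed_of_isClosed isClosed_Icc (isClosed_singleton (x := (0 : ℝ)))
      rw [hZ]
      exact this
    exact isCompact_Icc.of_isClosed_subset h1 (by rw [hZ]; exact fun x hx => hx.1)
  obtain ⟨v, hv⟩ := hZc.exists_isLeast ⟨w, by rw [hZ]; exact ⟨hw, hz⟩⟩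
  have hvZ := hv.1
  rw [hZ] at hvZ
  obtain ⟨hv1, hv2⟩ := hvZ
  have hv0 : 0 < v := by
    rcases eq_or_lt_of_le hv1.1 with h1 | h1
    · rw [← h1, (G_zero h).1] at hv2
      norm_num at hv2
    · exact h1
  have hvI : v ∈ Ioc (0 : ℝ) 2 := ⟨hv0, hv1.2⟩
  have hlt : ∀ u : ℝ, 0 ≤ u → u < v → 0 < G u := by
    intro u hu0 huv
    have hu : u ∈ Icc (0 : ℝ) 2 := ⟨hu0, huv.le.trans hv1.2⟩
    refine lt_of_le_of_ne (G_nonneg h hu) fun h0 => ?_
    have := hv.2 (show u ∈ Z by rw [hZ]; exact ⟨hu, h0.symm⟩)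
    linarith
  -- the rate at v
  obtain ⟨c', hc'⟩ : ∃ c', c' = min c (e v - e' v) := ⟨_, rfl⟩
  have hc0 : 0 < c' := by
    rw [hc']
    exact lt_min h.hc (by linarith [h.lt v hvI])
  have hc1 : c' ≤ c := by rw [hc']; exact min_le_left _ _
  have hc2 : c' ≤ e v - e' v := by rw [hc']; exact min_le_right _ _
  obtain ⟨B, hB, hup⟩ := upper h
  obtain ⟨B1, hB1, hGH⟩ := G_bdd h
  have hC := h.C0
  have hRv : ∀ N : ℕ, 1 ≤ N → R P e N v ≤ (B1 + C) * (N : ℝ) ^ (-c') := by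
    intro N hN
    have hN0 : (1 : ℝ) ≤ N := by exact_mod_cast hN
    have h1 := h.norm hN hv1
    rw [hv2, zero_add] at h1
    have h2 : (N : ℝ) ^ (-c) ≤ (N : ℝ) ^ (-c') := Real.rpow_le_rpow_of_exponent_le hN0 (by linarith)
    have h3 : (N : ℝ) ^ (-(e v - e' v)) ≤ (N : ℝ) ^ (-c') := Real.rpow_le_rpow_of_exponent_le hN0 (by linarith)
    have h4 : 0 ≤ (N : ℝ) ^ (-(e v - e' v)) := Real.rpow_nonneg (by linarith) _
    have h5 : |(-1) ^ N * H v * (N : ℝ) ^ (-(e v - e' v))| ≤ B1 * (N : ℝ) ^ (-c') := by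
      rw [abs_mul, abs_mul, abs_pow, abs_neg, abs_one, one_pow, one_mul, abs_of_nonneg h4]
      exact mul_le_mul (hGH v hv1).2 h3 h4 hB1
    have h6 := (abs_le.1 h1).2
    have h7 := (abs_le.1 h5).2
    have h8 := mul_le_mul_of_nonneg_left h2 hC
    linarith
  -- the choice of u
  have hev : ∃ u : ℝ, 0 < u ∧ u < v ∧ e v - c' / 2 < 2 * e u - e (u ^ 2 / v) := by
    have hc1' : ContinuousWithinAt e (Icc 0 2) v := h.ce v hv1
    have t0 : Tendsto (fun u : ℝ => u ^ 2 / v) (𝓝[<] v) (𝓝 v) := by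
      have h1 : ContinuousAt (fun u : ℝ => u ^ 2 / v) v := by fun_prop
      have h2 : Tendsto (fun u : ℝ => u ^ 2 / v) (𝓝 v) (𝓝 (v ^ 2 / v)) := h1
      rw [show v ^ 2 / v = v by field_simp] at h2
      exact h2.mono_left nhdsWithin_le_nhds
    have hin : ∀ᶠ u in 𝓝[<] v, 0 < u ∧ u < v := by
      filter_upwards [Ioo_mem_nhdsLT hv0] with u hu
      exact hu
    have t1 : Tendsto (fun u : ℝ => u ^ 2 / v) (𝓝[<] v) (𝓝[Icc 0 2] v) := by
      refine tendsto_nhdsWithin_iff.2 ⟨t0, ?_⟩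
      filter_upwards [hin] with u hu
      refine ⟨by positivity, ?_⟩
      rw [div_le_iff₀ hv0]
      nlinarith [hu.1, hu.2, hv1.2]
    have t2 : Tendsto (fun u : ℝ => u) (𝓝[<] v) (𝓝[Icc 0 2] v) := by
      refine tendsto_nhdsWithin_iff.2 ⟨nhdsWithin_le_nhds, ?_⟩
      filter_upwards [hin] with u hu
      exact ⟨hu.1.le, hu.2.le.trans hv1.2⟩
    have t3 : Tendsto (fun u : ℝ => 2 * e u - e (u ^ 2 / v)) (𝓝[<] v) (𝓝 (2 * e v - e v)) :=
      ((hc1'.tendsto.comp t2).const_mul 2).sub (hc1'.tendsto.comp t1)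
    have h2 := (t3.eventually_const_lt (show e v - c' / 2 < 2 * e v - e v by linarith)).and hin
    obtain ⟨u, hu1, hu2, hu3⟩ := h2.exists
    exact ⟨u, hu2, hu3, hu1⟩
  obtain ⟨u, hu0, huv, hue⟩ := hev
  have huI : u ∈ Ioc (0 : ℝ) 2 := ⟨hu0, huv.le.trans hv1.2⟩
  obtain ⟨x, hx⟩ : ∃ x, x = u ^ 2 / v := ⟨_, rfl⟩
  have hx0 : 0 < x := by rw [hx]; positivity
  have hxv : x ≤ 2 := by
    rw [hx, div_le_iff₀ hv0]
    nlinarith [hu0, huv, hv1.2]
  have hxI : x ∈ Icc (0 : ℝ) 2 := ⟨hx0.le, hxv⟩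
  have hxu : u ^ 2 = x * v := by
    rw [hx]
    field_simp
  rw [← hx] at hue
  have hGu := hlt u hu0.le huv
  -- the contradiction
  have key : ∀ N : ℕ, 1 ≤ N → R P e N u ^ 2 * (N : ℝ) ^ (2 * e u - e x - e v) ≤ R P e N x * R P e N v := by
    intro N hN
    have hN0 : (0 : ℝ) < N := by exact_mod_cast hN
    have h1 := cs (h.coef N) hx0.le hv0.le hxu
    have e1 : R P e N u ^ 2 * (N : ℝ) ^ (2 * e u - e x - e v) = ((P N).eval u) ^ 2 * (N : ℝ) ^ (-(e x) + -(e v)) := by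
      unfold R
      rw [mul_pow, mul_assoc, ← Real.rpow_natCast ((N : ℝ) ^ (-(e u))) 2, ← Real.rpow_mul hN0.le, ← Real.rpow_add hN0]
      congr 2
      push_cast
      ring
    have e2 : R P e N x * R P e N v = ((P N).eval x * (P N).eval v) * (N : ℝ) ^ (-(e x) + -(e v)) := by
      unfold R
      rw [Real.rpow_add hN0]
      ring
    rw [e1, e2]
    exact mul_le_mul_of_nonneg_right h1 (Real.rpow_nonneg hN0.le _)
  have hbig : Tendsto (fun N : ℕ => (G u / 2) ^ 2 * (N : ℝ) ^ (c' / 2)) atTop atTop := by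
    have h1 : Tendsto (fun N : ℕ => (N : ℝ) ^ (c' / 2)) atTop atTop :=
      (tendsto_rpow_atTop (by linarith)).comp tendsto_natCast_atTop_atTop
    exact h1.const_mul_atTop (by positivity)
  have hev1 : ∀ᶠ N : ℕ in atTop, G u / 2 < R P e N u := (R_tendsto h huI).eventually_const_lt (by linarith)
  obtain ⟨N, ⟨hN1, hN2⟩, hN3⟩ := ((hev1.and (hbig.eventually_gt_atTop (B * (B1 + C)))).and
    (eventually_ge_atTop 1)).exists
  have hN0 : (1 : ℝ) ≤ N := by exact_mod_cast hN3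
  have hN0' : (0 : ℝ) < N := by linarith
  have k1 := key N hN3
  have k2 := hRv N hN3
  have k3 := hup N hN3 x hxI
  have k4 : R P e N x * R P e N v ≤ B * ((B1 + C) * (N : ℝ) ^ (-c')) :=
    mul_le_mul k3 k2 (R_nonneg h N hv0.le) hB
  have k5 : (G u / 2) ^ 2 * (N : ℝ) ^ (-(c' / 2)) ≤ R P e N u ^ 2 * (N : ℝ) ^ (2 * e u - e x - e v) := by
    refine mul_le_mul (pow_le_pow_left₀ (by positivity) hN1.le 2)
      (Real.rpow_le_rpow_of_exponent_le hN0 (by linarith)) (Real.rpow_nonneg hN0'.le _) (by positivity)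
  have k6 : (G u / 2) ^ 2 * (N : ℝ) ^ (-(c' / 2)) ≤ B * ((B1 + C) * (N : ℝ) ^ (-c')) := k5.trans (k1.trans k4)
  have k7 : (G u / 2) ^ 2 * (N : ℝ) ^ (c' / 2) ≤ B * (B1 + C) := by
    have h1 := mul_le_mul_of_nonneg_right k6 (Real.rpow_nonneg hN0'.le c')
    have e1 : (G u / 2) ^ 2 * (N : ℝ) ^ (-(c' / 2)) * (N : ℝ) ^ c' = (G u / 2) ^ 2 * (N : ℝ) ^ (c' / 2) := by
      rw [mul_assoc, ← Real.rpow_add hN0']
      congr 2
      ring
    have e2 : B * ((B1 + C) * (N : ℝ) ^ (-c')) * (N : ℝ) ^ c' = B * (B1 + C) := by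
      rw [mul_assoc, mul_assoc, ← Real.rpow_add hN0']
      simp
    rw [e1, e2] at h1
    exact h1
  linarith

/-- `H` is small near `0` -/
lemma H_small (h : Law P e e' G H C c) {ε : ℝ} (hε : 0 < ε) : ∃ δ : ℝ, 0 < δ ∧ ∀ w ∈ Icc (0 : ℝ) 2, w < δ → |H w| ≤ ε := by
  have hC := h.C0
  have hm : (0 : ℝ) ∈ Icc (0 : ℝ) 2 := ⟨le_rfl, by norm_num⟩
  have h2 : Tendsto (fun N : ℕ => C * (N : ℝ) ^ (-c)) atTop (𝓝 0) := by
    have := (pow_tendsto h.hc).const_mul C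
    simpa using this
  obtain ⟨N, hN, hN1⟩ := ((h2.eventually_lt_const (show (0 : ℝ) < ε / 8 by positivity)).and
    (eventually_ge_atTop 1)).exists
  have hN0 : (0 : ℝ) < N := by exact_mod_cast hN1
  have c1 : ContinuousWithinAt (R P e N) (Icc 0 2) 0 := R_cont h hN1 0 hm
  have c2 : ContinuousWithinAt G (Icc 0 2) 0 := G_cont h 0 hm
  have c3 : ContinuousWithinAt (fun w => (N : ℝ) ^ (-(e w - e' w))) (Icc 0 2) 0 := by
    have : ContinuousOn (fun w => (N : ℝ) ^ (-(e w - e' w))) (Icc 0 2) :=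
      ContinuousOn.rpow continuousOn_const (h.ce.sub h.ce').neg fun w _ => Or.inl hN0.ne'
    exact this 0 hm
  have r0 : R P e N 0 = 1 := by
    unfold R
    rw [h.zero N hN1, h.e0]
    simp
  have q0 : (N : ℝ) ^ (-(e 0 - e' 0)) = 1 := by
    rw [h.e0, h.e'0]
    simp
  have t1 : ∀ᶠ w in 𝓝[Icc 0 2] (0 : ℝ), |R P e N w - 1| < ε / 8 := by
    have := c1.tendsto
    rw [r0] at this
    have h3 := (Metric.tendsto_nhds.1 this) (ε / 8) (by positivity)
    exact h3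
  have t2 : ∀ᶠ w in 𝓝[Icc 0 2] (0 : ℝ), |G w - 1| < ε / 8 := by
    have := c2.tendsto
    rw [(G_zero h).1] at this
    have h3 := (Metric.tendsto_nhds.1 this) (ε / 8) (by positivity)
    exact h3
  have t3 : ∀ᶠ w in 𝓝[Icc 0 2] (0 : ℝ), 1 / 2 < (N : ℝ) ^ (-(e w - e' w)) := by
    have := c3.tendsto
    rw [q0] at this
    exact this.eventually_const_lt (by norm_num)
  obtain ⟨δ, hδ, hb⟩ := Metric.mem_nhdsWithin_iff.1 (t1.and (t2.and t3))
  refine ⟨δ, hδ, fun w hw hwδ => ?_⟩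
  obtain ⟨h4, h5, h6⟩ := hb ⟨by rw [Metric.mem_ball, Real.dist_eq, sub_zero, abs_of_nonneg hw.1]; exact hwδ, hw⟩
  have h7 := h.norm hN1 hw
  have h8 : |(-1) ^ N * H w * (N : ℝ) ^ (-(e w - e' w))| ≤ ε / 2 := by
    have e1 : (-1) ^ N * H w * (N : ℝ) ^ (-(e w - e' w)) = (R P e N w - 1) - (G w - 1) -
        (R P e N w - (G w + (-1) ^ N * H w * (N : ℝ) ^ (-(e w - e' w)))) := by ring
    rw [e1]
    refine (abs_sub _ _).trans ?_
    have e2 := abs_sub (R P e N w - 1) (G w - 1)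
    linarith
  rw [abs_mul, abs_mul, abs_pow, abs_neg, abs_one, one_pow, one_mul,
    abs_of_pos (show 0 < (N : ℝ) ^ (-(e w - e' w)) by linarith)] at h8
  have h9 : |H w| * (1 / 2) ≤ |H w| * (N : ℝ) ^ (-(e w - e' w)) := mul_le_mul_of_nonneg_left h6.le (abs_nonneg _)
  linarith

/-- **one constant for all weights** -/
theorem lower (h : Law P e e' G H C c) : ∃ c0 : ℝ, 0 < c0 ∧ ∀ N : ℕ, 1 ≤ N → ∀ w ∈ Icc (0 : ℝ) 2, c0 ≤ R P e N w := by
  have hm : (0 : ℝ) ∈ Icc (0 : ℝ) 2 := ⟨le_rfl, by norm_num⟩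
  have hC := h.C0
  obtain ⟨B, hB, hH⟩ := H_bdd h
  -- the least value of G
  obtain ⟨z, hz, hzm⟩ := isCompact_Icc.exists_isMinOn ⟨(0 : ℝ), hm⟩ (G_cont h)
  obtain ⟨γ, hγ⟩ : ∃ γ, γ = G z := ⟨_, rfl⟩
  have hγ0 : 0 < γ := by rw [hγ]; exact G_pos h hz
  have hGγ : ∀ w ∈ Icc (0 : ℝ) 2, γ ≤ G w := fun w hw => by rw [hγ]; exact hzm hw
  obtain ⟨δ, hδ, hHδ⟩ := H_small h (show (0 : ℝ) < γ / 4 by positivity)
  -- the least gap on [δ, 2]
  obtain ⟨a0, ha0, hgap⟩ : ∃ a0 : ℝ, 0 < a0 ∧ ∀ w ∈ Icc (0 : ℝ) 2, δ ≤ w → a0 ≤ e w - e' w := by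
    rcases le_or_gt δ 2 with h1 | h1
    · have hc1 : ContinuousOn (fun w => e w - e' w) (Icc δ 2) :=
        (h.ce.sub h.ce').mono (Icc_subset_Icc hδ.le le_rfl)
      obtain ⟨y, hy, hym⟩ := isCompact_Icc.exists_isMinOn ⟨δ, le_rfl, h1⟩ hc1
      refine ⟨e y - e' y, by linarith [h.lt y ⟨hδ.trans_le hy.1, hy.2⟩], fun w hw hwδ => hym ⟨hwδ, hw.2⟩⟩
    · exact ⟨1, one_pos, fun w hw hwδ => absurd hw.2 (by linarith)⟩
  have t1 : Tendsto (fun N : ℕ => C * (N : ℝ) ^ (-c) + B * (N : ℝ) ^ (-a0)) atTop (𝓝 0) := by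
    have := ((pow_tendsto h.hc).const_mul C).add ((pow_tendsto ha0).const_mul B)
    simpa using this
  obtain ⟨N0, hN0⟩ := eventually_atTop.1 (t1.eventually_lt_const (show (0 : ℝ) < γ / 4 by positivity))
  obtain ⟨A, hA⟩ := isCompact_Icc.exists_bound_of_continuousOn h.ce
  have hA0 : 0 ≤ A := (norm_nonneg _).trans (hA 0 hm)
  refine ⟨min (γ / 4) (((N0 + 1 : ℕ) : ℝ) ^ (-A)), lt_min (by positivity)
    (Real.rpow_pos_of_pos (by positivity) _), fun N hN w hw => ?_⟩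
  have hN1 : (1 : ℝ) ≤ N := by exact_mod_cast hN
  rcases Nat.lt_or_ge N N0 with hlt | hge
  · -- small N
    refine (min_le_right _ _).trans ?_
    have h1 : 1 ≤ (P N).eval w := by
      rw [← h.zero N hN]
      exact eval_mono (h.coef N) le_rfl hw.1
    have h2 : e w ≤ A := by
      have := hA w hw
      rw [Real.norm_eq_abs] at this
      exact (le_abs_self _).trans this
    have h3 : (((N0 + 1 : ℕ) : ℝ)) ^ (-A) ≤ (N : ℝ) ^ (-A) := by
      refine Real.rpow_le_rpow_of_nonpos (by linarith) ?_ (by linarith)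
      exact_mod_cast (by omega : N ≤ N0 + 1)
    have h4 : (N : ℝ) ^ (-A) ≤ (N : ℝ) ^ (-(e w)) := Real.rpow_le_rpow_of_exponent_le hN1 (by linarith)
    have h5 : 0 ≤ (N : ℝ) ^ (-(e w)) := Real.rpow_nonneg (by linarith) _
    unfold R
    nlinarith
  · refine (min_le_left _ _).trans ?_
    have h1 := h.norm hN hw
    have h2 := hN0 N hge
    have h3 : 0 ≤ B * (N : ℝ) ^ (-a0) := mul_nonneg hB (Real.rpow_nonneg (by linarith) _)
    have h3' : 0 ≤ C * (N : ℝ) ^ (-c) := mul_nonneg hC (Real.rpow_nonneg (by linarith) _)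
    have h4 : 0 ≤ (N : ℝ) ^ (-(e w - e' w)) := Real.rpow_nonneg (by linarith) _
    have h5 : |(-1) ^ N * H w * (N : ℝ) ^ (-(e w - e' w))| ≤ γ / 4 + B * (N : ℝ) ^ (-a0) := by
      rw [abs_mul, abs_mul, abs_pow, abs_neg, abs_one, one_pow, one_mul, abs_of_nonneg h4]
      rcases lt_or_ge w δ with hwδ | hwδ
      · have h6 : (N : ℝ) ^ (-(e w - e' w)) ≤ 1 :=
          Real.rpow_le_one_of_one_le_of_nonpos hN1 (by linarith [le_e h hw])
        have h7 := mul_le_mul (hHδ w hw hwδ) h6 h4 (by positivity)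
        linarith
      · have h6 : (N : ℝ) ^ (-(e w - e' w)) ≤ (N : ℝ) ^ (-a0) :=
          Real.rpow_le_rpow_of_exponent_le hN1 (by linarith [hgap w hw hwδ])
        have h7 := mul_le_mul (hH w hw) h6 h4 hB
        linarith
    have h6 := (abs_le.1 h1).1
    have h7 := (abs_le.1 h5).1
    have h8 := hGγ w hw
    linarith

/-- **two sided bound** -/
theorem main (h : Law P e e' G H C c) : ContinuousOn G (Icc 0 2) ∧ (∀ w ∈ Icc (0 : ℝ) 2, 0 < G w) ∧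
    ∃ c0 C0 : ℝ, 0 < c0 ∧ 0 < C0 ∧ ∀ N : ℕ, 1 ≤ N → ∀ w ∈ Icc (0 : ℝ) 2,
      c0 * (N : ℝ) ^ (e w) ≤ (P N).eval w ∧ (P N).eval w ≤ C0 * (N : ℝ) ^ (e w) := by
  obtain ⟨c0, hc0, hl⟩ := lower h
  obtain ⟨B, hB, hu⟩ := upper h
  refine ⟨G_cont h, fun w hw => G_pos h hw, c0, B + 1, hc0, by linarith, fun N hN w hw => ?_⟩
  have hN0 : (0 : ℝ) < N := by exact_mod_cast hN
  have e1 : (P N).eval w = R P e N w * (N : ℝ) ^ (e w) := by
    unfold R
    rw [mul_assoc, ← Real.rpow_add hN0]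
    simp
  have h1 : 0 ≤ (N : ℝ) ^ (e w) := Real.rpow_nonneg hN0.le _
  rw [e1]
  exact ⟨mul_le_mul_of_nonneg_right (hl N hN w hw) h1,
    mul_le_mul_of_nonneg_right ((hu N hN w hw).trans (by linarith)) h1⟩

/-- the parameter of the weight -/
def dW (w : ℝ) : ℝ := Real.arccos (w / 2) / Real.pi

lemma dW_mem {w : ℝ} (hw : w ∈ Icc (0 : ℝ) 2) : dW w ∈ Icc (0 : ℝ) (1 / 2) := by
  have hpi := Real.pi_pos
  refine ⟨div_nonneg (Real.arccos_nonneg _) hpi.le, ?_⟩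
  unfold dW
  rw [div_le_iff₀ hpi]
  have h1 : Real.arccos (w / 2) ≤ Real.arccos 0 := Real.arccos_le_arccos (by linarith [hw.1])
  rw [Real.arccos_zero] at h1
  linarith

lemma dW_cos {w : ℝ} (hw : w ∈ Icc (0 : ℝ) 2) : 2 * Real.cos (Real.pi * dW w) = w := by
  have hpi := Real.pi_pos
  unfold dW
  rw [mul_div_cancel₀ _ hpi.ne', Real.cos_arccos (by linarith [hw.1]) (by linarith [hw.2])]
  ring

lemma cos_dW {d : ℝ} (hd : d ∈ Icc (0 : ℝ) (1 / 2)) : dW (2 * Real.cos (Real.pi * d)) = d := by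
  have hpi := Real.pi_pos
  unfold dW
  rw [mul_div_cancel_left₀ _ (two_ne_zero), Real.arccos_cos (by nlinarith [hd.1]) (by nlinarith [hd.2])]
  field_simp

lemma cos_mem {d : ℝ} (hd : d ∈ Icc (0 : ℝ) (1 / 2)) : 2 * Real.cos (Real.pi * d) ∈ Icc (0 : ℝ) 2 := by
  have hpi := Real.pi_pos
  have h1 := Real.cos_nonneg_of_mem_Icc (x := Real.pi * d) ⟨by nlinarith [hd.1], by nlinarith [hd.2]⟩
  have h2 := Real.cos_le_one (Real.pi * d)
  constructor <;> linarith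

lemma dW_cont : Continuous dW := (Real.continuous_arccos.comp (continuous_id.div_const 2)).div_const _

/-- **the law with two modes in `d`: positivity of the amplitude and one constant for all weights `2 cos (π d) ∈ [0, 2]`** -/
theorem law_two {P : ℕ → Polynomial ℝ} {g h : ℝ → ℝ} {C c : ℝ} (hP : ∀ N m, 0 ≤ (P N).coeff m)
    (h0 : ∀ N : ℕ, 1 ≤ N → (P N).eval 0 = 1) (hc : 0 < c)
    (hL : ∀ N : ℕ, 1 ≤ N → ∀ d ∈ Icc (0 : ℝ) (1 / 2), |(P N).eval (2 * Real.cos (Real.pi * d)) -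
      (g d * (N : ℝ) ^ (1 / 6 - 2 / 3 * d ^ 2) + (-1) ^ N * h d * (N : ℝ) ^ (1 / 6 - 2 / 3 * (1 - d) ^ 2))| ≤
      C * (N : ℝ) ^ (1 / 6 - 2 / 3 * d ^ 2 - c)) :
    ContinuousOn g (Icc 0 (1 / 2)) ∧ (∀ d ∈ Icc (0 : ℝ) (1 / 2), 0 < g d) ∧
    ∃ c0 C0 : ℝ, 0 < c0 ∧ 0 < C0 ∧ ∀ N : ℕ, 1 ≤ N → ∀ d ∈ Icc (0 : ℝ) (1 / 2),
      c0 * (N : ℝ) ^ (1 / 6 - 2 / 3 * d ^ 2) ≤ (P N).eval (2 * Real.cos (Real.pi * d)) ∧
      (P N).eval (2 * Real.cos (Real.pi * d)) ≤ C0 * (N : ℝ) ^ (1 / 6 - 2 / 3 * d ^ 2) := by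
  have hpi := Real.pi_pos
  have z0 : dW 0 = 1 / 2 := by
    unfold dW
    rw [zero_div, Real.arccos_zero]
    field_simp
  have hlaw : Law P (fun w => 1 / 6 - 2 / 3 * dW w ^ 2) (fun w => 1 / 6 - 2 / 3 * (1 - dW w) ^ 2)
      (fun w => g (dW w)) (fun w => h (dW w)) C c := by
    refine ⟨hP, h0, ?_, ?_, ?_, ?_, ?_, hc, ?_⟩
    · exact (continuous_const.sub (continuous_const.mul (dW_cont.pow 2))).continuousOn
    · exact (continuous_const.sub (continuous_const.mul ((continuous_const.sub dW_cont).pow 2))).continuousOn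
    · intro w hw
      have h1 := dW_mem ⟨hw.1.le, hw.2⟩
      have h2 : dW w ≠ 1 / 2 := by
        intro h3
        have h4 := dW_cos ⟨hw.1.le, hw.2⟩
        rw [h3, show Real.pi * (1 / 2) = Real.pi / 2 by ring, Real.cos_pi_div_two] at h4
        linarith [hw.1]
      have h3 : dW w < 1 / 2 := lt_of_le_of_ne h1.2 h2
      nlinarith
    · simp only [z0]
      norm_num
    · simp only [z0]
      norm_num
    · intro N hN w hw
      have h1 := hL N hN (dW w) (dW_mem hw)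
      rw [dW_cos hw] at h1
      exact h1
  obtain ⟨m1, m2, c0, C0, hc0, hC0, m3⟩ := main hlaw
  refine ⟨?_, ?_, c0, C0, hc0, hC0, fun N hN d hd => ?_⟩
  · have hcs : ContinuousOn (fun d : ℝ => 2 * Real.cos (Real.pi * d)) (Icc 0 (1 / 2)) := by fun_prop
    refine (m1.comp hcs fun d hd => cos_mem hd).congr fun d hd => ?_
    simp only [Function.comp_apply, cos_dW hd]
  · intro d hd
    have := m2 _ (cos_mem hd)
    simp only [cos_dW hd] at this
    exact this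
  · have := m3 N hN _ (cos_mem hd)
    simp only [cos_dW hd] at this
    exact this

end PG

end WX
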