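import Pool.Agent.REL.PV.XvF
import Pool.Agent.REL.WND.DefsZ
import Pool.Agent.REL.PV.U1V
import Pool.Agent.REL.PV.LevFV
set_option linter.all false

/- part: Pool.Agent.WX.NvG -/
section
/-!
# Plan X: the function with legs and anti-legs, graded by the number of quanta (helper96)

`nvn n z z' x y` : the part of `PV.nv z z' x y` with `n` quanta in each group (`n ≤ 2 m`).

* `sum_nvn`, `nvn_gen`, `nvn_tendsto`, `nvn_diff`, `nvn_big` (`n > 2 m`), `nvn_perm`;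
* **`nvn_leg`** : `nvn n (x₀ + 3 l) z' (x₀, x) (x₀, y) = nvn n x₀ z' x y` (A1);
* **`nvn_neg`** : `nvn (2 m - n) (-z) (-z') (-x) (-y) = nvn n z z' x y` (A2).
-/

set_option autoImplicit false
set_option linter.unusedSectionVars false

noncomputable section

open Complex Filter Topology

namespace WX

open NUP1 (l lpos St sta nq crq qu)
open PBR (rh)
open PBX (DZ Lg Rws SpA pull K3 DZ_eq DZ_tendsto pull_ne pull_re pull_Rws pull_tendsto)
open Pool.Agent.PB (cn Pf Lp Nu LS LS_open Hgt Lg_unif Lg_tendsto bd_im pull_Hgt DS_eq_zero cn_succ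
  sub_re_le sin_hgt mem_LS mem_LS3 pull_cons DZ_perm diff_of_joint gn_im gc_re den_row mem_LS_neg
  pre_Nu)
open PV (LV PfV AV nv hV DTV DSV_neg DSV_bridge DSV_leg LV_SpA PfV_tendsto PfV_diff PfV_leg PfV_perm
  Ga_bd staV_diff den_rowV)
open PVN (LL LL_flip LL_eq sta_div LVs RR2 RR2_neg Nu_PN DS_cn Th_div)
open WND (mem_St sum_flip)

variable {m : ℕ}

/-- **the part with `n` quanta** -/
def nvn (n : ℕ) (z z' : ℂ) (x y : Fin m → ℂ) : ℂ :=
  PfV z z' x y * DZ (cn m) (cn m) (LV z z') (LV z z') x y n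

theorem sum_nvn (z z' : ℂ) (x y : Fin m → ℂ) :
    ∑ n ∈ Finset.range (2 * m + 1), nvn n z z' x y = nv z z' x y := by
  unfold nvn PV.nv
  rw [Finset.mul_sum]

/-- pairwise different heights -/
theorem nvn_gen (n : ℕ) {z z' : ℂ} {x y : Fin m → ℂ} (hz : z ∈ LS) (hz' : |z'.re| < 7 / 10 * l)
    (hx : Rws x) (hy : Rws y) (ix : Hgt x) (iy : Hgt y) :
    nvn n z z' x y = PfV z z' x y *
      Pool.Agent.PB.DS n x y (hV (cn m) z z' x y) (hV (cn m) z z' y x) := by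
  unfold nvn
  rw [DZ_eq ix iy hx hy (LV_SpA hz hz') (LV_SpA hz hz'), DSV_bridge]

/-- joint continuity -/
theorem nvn_tendsto (n : ℕ) {E : Type*} {F : Filter E} [F.IsCountablyGenerated] {z : E → ℂ}
    {x y : E → Fin m → ℂ} {z0 z' : ℂ} {x0 y0 : Fin m → ℂ} (tz : Tendsto z F (𝓝 z0))
    (tx : ∀ i, Tendsto (fun e => x e i) F (𝓝 (x0 i)))
    (ty : ∀ i, Tendsto (fun e => y e i) F (𝓝 (y0 i))) (hx : ∀ᶠ e in F, Rws (x e))
    (hy : ∀ᶠ e in F, Rws (y e)) (hx0 : Rws x0) (hy0 : Rws y0) (hz : z0 ∈ LS)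
    (hz' : |z'.re| < 7 / 10 * l) :
    Tendsto (fun e => nvn n (z e) z' (x e) (y e)) F (𝓝 (nvn n z0 z' x0 y0)) := by
  have h1 := PfV_tendsto tz tx ty hx0 hy0 hz hz'
  obtain ⟨D, hD, hb⟩ := Lg_unif tz hz
  obtain ⟨D', hD', hb'⟩ := Ga_bd hz'
  have tl : ∀ u : ℂ, u.re ∈ K3 → Tendsto (fun e => LV (z e) z' u) F (𝓝 (LV z0 z' u)) :=
    fun u hu => (Lg_tendsto tz hz hu).mul_const _
  have h2 : Tendsto (fun e => DZ (cn m) (cn m) (LV (z e) z') (LV (z e) z') (x e) (y e) n) F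
      (𝓝 (DZ (cn m) (cn m) (LV z0 z') (LV z0 z') x0 y0 n)) := by
    refine DZ_tendsto (R := (∑ j, |(x0 j).im| + 1) + (∑ j, |(y0 j).im| + 1)) (cn m) (cn m) ?_ hx0 hy0
      tx ty (s := fun e => LV (z e) z') (t := fun e => LV (z e) z') (s0 := LV z0 z')
      (t0 := LV z0 z') (D := D * D') (by positivity) ?_ tl tl n
    · filter_upwards [hx, hy, bd_im tx, bd_im ty] with e h1 h2 h3 h4
      have s1 : 0 ≤ ∑ j, |(x0 j).im| := Finset.sum_nonneg fun _ _ => abs_nonneg _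
      have s2 : 0 ≤ ∑ j, |(y0 j).im| := Finset.sum_nonneg fun _ _ => abs_nonneg _
      exact ⟨h1, h2, fun i => (h3 i).trans (by linarith), fun i => (h4 i).trans (by linarith)⟩
    · filter_upwards [hb] with e he
      have hm : Measurable (LV (z e) z') := (PBX.Lg_meas _ _).mul (PBX.Lg_meas _ _)
      have hn : ∀ u : ℂ, u.re ∈ K3 → ‖LV (z e) z' u‖ ≤ D * D' := fun u hu => by
        rw [PV.LV_Ga, norm_mul]
        exact mul_le_mul (he u hu) (hb' u hu) (norm_nonneg _) hD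
      exact ⟨hm, hm, fun u hu => ⟨hn u hu, hn u hu⟩⟩
  exact h1.mul h2

theorem DSVn_diff (n : ℕ) (c c' z' : ℂ) {x y : Fin m → ℂ} {z : ℂ} (hz : z ∈ LS) (hx : Rws x)
    (hy : Rws y) : DifferentiableAt ℂ
      (fun z => Pool.Agent.PB.DS n x y (hV c z z' x y) (hV c' z z' y x)) z := by
  unfold Pool.Agent.PB.DS
  refine DifferentiableAt.fun_sum fun a _ => DifferentiableAt.fun_sum fun b _ => ?_
  exact ((staV_diff c z' y a hz hx).mul (staV_diff c' z' x b hz hy)).mul_const _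

/-- **analyticity in the legs** -/
theorem nvn_diff (n : ℕ) {z' : ℂ} (hz' : |z'.re| < 7 / 10 * l) {x y : Fin m → ℂ} (hx : Rws x)
    (hy : Rws y) : DifferentiableOn ℂ (fun z => nvn n z z' x y) LS := by
  refine diff_of_joint (F := 𝓝[>] (0 : ℝ)) (D := fun z e => nvn n z z' (pull x e) (pull y e))
    (fun z hz => ?_) LS_open ?_
  · have t2 : ∀ (x : Fin m → ℂ) (i : Fin m), Tendsto (fun p : ℂ × ℝ => pull x p.2 i)
        (𝓝 z ×ˢ 𝓝[>] 0) (𝓝 (x i)) := fun x i => (pull_tendsto x i).comp tendsto_snd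
    exact nvn_tendsto n (F := 𝓝 z ×ˢ 𝓝[>] (0 : ℝ)) (z := fun p => p.1) (x := fun p => pull x p.2)
      (y := fun p => pull y p.2) tendsto_fst (t2 x) (t2 y)
      (Eventually.of_forall fun p => pull_Rws hx p.2) (Eventually.of_forall fun p => pull_Rws hy p.2)
      hx hy hz hz'
  · filter_upwards [pull_Hgt x, pull_Hgt y] with e h1 h2
    have rx := pull_Rws hx e
    have ry := pull_Rws hy e
    have : DifferentiableOn ℂ (fun z => PfV z z' (pull x e) (pull y e) *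
        Pool.Agent.PB.DS n (pull x e) (pull y e) (hV (cn m) z z' (pull x e) (pull y e))
          (hV (cn m) z z' (pull y e) (pull x e))) LS := fun z hz =>
      ((PfV_diff rx ry hz hz').mul (DSVn_diff n (cn m) (cn m) z' hz rx ry)).differentiableWithinAt
    exact this.congr fun z hz => nvn_gen n hz hz' rx ry h1 h2

/-- more than `2 m` quanta -/
theorem nvn_big {n : ℕ} (hn : 2 * m < n) {z z' : ℂ} {x y : Fin m → ℂ} (hz : z ∈ LS)
    (hz' : |z'.re| < 7 / 10 * l) (hx : Rws x) (hy : Rws y) : nvn n z z' x y = 0 := by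
  have t : Tendsto (fun e => nvn n z z' (pull x e) (pull y e)) (𝓝[>] (0 : ℝ))
      (𝓝 (nvn n z z' x y)) :=
    nvn_tendsto n (z := fun _ => z) tendsto_const_nhds (pull_tendsto x) (pull_tendsto y)
      (Eventually.of_forall fun e => pull_Rws hx e) (Eventually.of_forall fun e => pull_Rws hy e)
      hx hy hz hz'
  refine tendsto_nhds_unique (t.congr' ?_) tendsto_const_nhds
  filter_upwards [pull_Hgt x, pull_Hgt y] with e h1 h2
  rw [nvn_gen n hz hz' (pull_Rws hx e) (pull_Rws hy e) h1 h2, DS_eq_zero hn, mul_zero]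

theorem nvn_perm (n : ℕ) (z z' : ℂ) (x : Fin m → ℂ) (σ : Equiv.Perm (Fin m)) :
    nvn n z z' (fun i => x (σ i)) (fun i => x (σ i)) = nvn n z z' x x := by
  unfold nvn
  rw [PfV_perm, DZ_perm]

/-! ### (A1) -/

theorem cnV_sgn (n k : ℕ) (z z' : ℂ) (x y : Fin m → ℂ) :
    Pool.Agent.PB.DS n x y (hV (cn k) z z' x y) (hV (cn k) z z' y x) =
      Pool.Agent.PB.DS n x y (hV (sin (2 * l) / sin l) z z' x y)
        (hV (sin (2 * l) / sin l) z z' y x) := by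
  induction k with
  | zero => simp [Pool.Agent.PB.cn]
  | succ k ih => rw [cn_succ, DSV_neg, ih]

theorem nvn_leg_gen (n : ℕ) {x0 z' : ℂ} {x y : Fin m → ℂ} (hz' : |z'.re| < 7 / 10 * l)
    (h0 : |x0.re| ≤ l / 2) (hx : Rws x)
    (hy : Rws y) (ix : Hgt (Fin.cons x0 x : Fin (m + 1) → ℂ))
    (iy : Hgt (Fin.cons x0 y : Fin (m + 1) → ℂ)) :
    nvn n (x0 + 3 * l) z' (Fin.cons x0 x : Fin (m + 1) → ℂ) (Fin.cons x0 y : Fin (m + 1) → ℂ) =
      nvn n x0 z' x y := by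
  have ix' : Hgt x := fun i j hij => by
    simpa using ix i.succ j.succ fun h => hij (Fin.succ_injective _ h)
  have iy' : Hgt y := fun i j hij => by
    simpa using iy i.succ j.succ fun h => hij (Fin.succ_injective _ h)
  have kx : ∀ i, (x i).im ≠ x0.im := fun i => by simpa using ix i.succ 0 (Fin.succ_ne_zero i)
  have ky : ∀ i, (y i).im ≠ x0.im := fun i => by simpa using iy i.succ 0 (Fin.succ_ne_zero i)
  have key := DSV_leg n (cn m) (cn m) x0 z' (x := x) (y := y) (fun i => (sin_hgt (kx i)).1)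
    (fun i => (sin_hgt (kx i)).2) (fun i => (sin_hgt (ky i)).1) (fun i => (sin_hgt (ky i)).2)
  rw [nvn_gen n (mem_LS3 h0) hz' (Pool.Agent.PB.Rws.cons h0 hx) (Pool.Agent.PB.Rws.cons h0 hy) ix iy,
    nvn_gen n (mem_LS h0) hz' hx hy ix' iy', cn_succ, DSV_neg, key,
    PfV_leg hz' h0 hx hy]

/-- **(A1), `n` quanta, all rows** -/
theorem nvn_leg (n : ℕ) {x0 z' : ℂ} {x y : Fin m → ℂ} (hz' : |z'.re| < 7 / 10 * l)
    (h0 : |x0.re| ≤ l / 2) (hx : Rws x) (hy : Rws y) :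
    nvn n (x0 + 3 * l) z' (Fin.cons x0 x : Fin (m + 1) → ℂ) (Fin.cons x0 y : Fin (m + 1) → ℂ) =
      nvn n x0 z' x y := by
  have rx := Pool.Agent.PB.Rws.cons h0 hx
  have ry := Pool.Agent.PB.Rws.cons h0 hy
  set px : ℝ → Fin m → ℂ := fun e i => pull (Fin.cons x0 x : Fin (m + 1) → ℂ) e i.succ with hpx
  set py : ℝ → Fin m → ℂ := fun e i => pull (Fin.cons x0 y : Fin (m + 1) → ℂ) e i.succ with hpy
  have rpx : ∀ e, Rws (px e) := fun e i => pull_Rws rx e i.succ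
  have rpy : ∀ e, Rws (py e) := fun e i => pull_Rws ry e i.succ
  have t1 : Tendsto (fun e => nvn n (x0 + 3 * l) z' (pull (Fin.cons x0 x : Fin (m + 1) → ℂ) e)
      (pull (Fin.cons x0 y : Fin (m + 1) → ℂ) e)) (𝓝[>] (0 : ℝ))
      (𝓝 (nvn n (x0 + 3 * l) z' (Fin.cons x0 x : Fin (m + 1) → ℂ)
        (Fin.cons x0 y : Fin (m + 1) → ℂ))) :=
    nvn_tendsto n (z := fun _ => x0 + 3 * l) tendsto_const_nhds (pull_tendsto _) (pull_tendsto _)
      (Eventually.of_forall fun e => pull_Rws rx e) (Eventually.of_forall fun e => pull_Rws ry e)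
      rx ry (mem_LS3 h0) hz'
  have t2 : Tendsto (fun e => nvn n x0 z' (px e) (py e)) (𝓝[>] (0 : ℝ)) (𝓝 (nvn n x0 z' x y)) :=
    nvn_tendsto n (z := fun _ => x0) tendsto_const_nhds
      (fun i => by simpa using pull_tendsto (Fin.cons x0 x : Fin (m + 1) → ℂ) i.succ)
      (fun i => by simpa using pull_tendsto (Fin.cons x0 y : Fin (m + 1) → ℂ) i.succ)
      (Eventually.of_forall rpx) (Eventually.of_forall rpy) hx hy (mem_LS h0) hz'
  refine tendsto_nhds_unique (t1.congr' ?_) t2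
  filter_upwards [pull_Hgt (Fin.cons x0 x : Fin (m + 1) → ℂ),
    pull_Hgt (Fin.cons x0 y : Fin (m + 1) → ℂ)] with e h1 h2
  rw [pull_cons x0 x e] at h1 ⊢
  rw [pull_cons x0 y e] at h2 ⊢
  exact nvn_leg_gen n hz' h0 (rpx e) (rpy e) h1 h2

/-! ### (A2) -/

/-- the part of the state sum with `n` quanta in each group -/
def SVn (n : ℕ) (z z' : ℂ) (x y : Fin m → ℂ) : ℂ :=
  ∑ a ∈ St m n, ∑ b ∈ St m n, PBS.tm z x y a b / (LL z' x a * LL z' y b)

theorem SVn_neg {n : ℕ} (hn : n ≤ 2 * m) (z z' : ℂ) (x y : Fin m → ℂ) :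
    SVn (2 * m - n) (-z) (-z') (-x) (-y) = SVn n z z' x y := by
  unfold SVn
  rw [sum_flip hn]
  refine Finset.sum_congr rfl fun a _ => ?_
  rw [sum_flip hn]
  exact Finset.sum_congr rfl fun b _ => by rw [PBS.tm_flip, LL_flip, LL_flip]

/-- generic rows: the part of the state sum in terms of quanta -/
theorem SVn_eq (n : ℕ) {z z' : ℂ} {x y : Fin m → ℂ} (hx : ∀ i j, i ≠ j → NUP1.Mu.Gn (x i - x j))
    (hy : ∀ i j, i ≠ j → NUP1.Mu.Gn (y i - y j)) (hxy : ∀ i j, NUP1.Mu.Gc (x i - y j))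
    (zx : ∀ i, sin (z - x i + 2 * l) ≠ 0 ∧ sin (z - x i + 3 * l) ≠ 0)
    (zy : ∀ i, sin (z - y i + 2 * l) ≠ 0 ∧ sin (z - y i + 3 * l) ≠ 0)
    (wx : ∀ i, sin (z' - x i + 2 * l) ≠ 0 ∧ sin (z' - x i + 3 * l) ≠ 0)
    (wy : ∀ i, sin (z' - y i + 2 * l) ≠ 0 ∧ sin (z' - y i + 3 * l) ≠ 0) :
    SVn n z z' x y = Nu z x * Nu z y / ((∏ i, Lp z' (x i)) * ∏ i, Lp z' (y i)) *
      PBX.DS (cn m) (cn m) (LVs z z') (LVs z z') x y n := by
  have s1 := NUP1.Mu.sin1_ne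
  have hh : ∀ u v : Fin m → ℂ, (fun w => NUP1.Leg.hr (-(sin (2 * l) / sin l)) u v w * LVs z z' w) =
      fun w => NUP1.Mu.hrow (2 * sin l) u v w * PBS.Th z w / PBS.Th z' w := by
    intro u v
    funext w
    rw [mul_div_assoc, Th_div, NUP1.Mu.hrow_eq]
    unfold NUP1.Leg.hr NUP1.hh
    have : -2 * sin (2 * (l : ℂ)) / (2 * sin l) = -(sin (2 * l) / sin l) := by
      field_simp
    rw [this]
  rw [DS_cn]
  unfold PBX.DS SVn
  rw [hh, hh, Finset.mul_sum]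
  refine Finset.sum_congr rfl fun a ha => ?_
  rw [Finset.mul_sum]
  refine Finset.sum_congr rfl fun b hb => ?_
  rw [mem_St] at ha hb
  have hab : ∑ i, (a i : ℤ) = ∑ j, (b j : ℤ) := by
    have h1 := NUP1.Mu.sum_nq a
    have h2 := NUP1.Mu.sum_nq b
    simp only [NUP1.Mu.nq_eq] at h1 h2
    rw [ha] at h1
    rw [hb] at h2
    linarith
  rw [PBS.tm_eq hx hy hxy zx zy a b hab, pre_Nu, pre_Nu, LL_eq wx, LL_eq wy,
    sta_div x (fun w => NUP1.Mu.hrow (2 * sin l) x y w * PBS.Th z w) (PBS.Th z') a,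
    sta_div y (fun w => NUP1.Mu.hrow (2 * sin l) y x w * PBS.Th z w) (PBS.Th z') b]
  simp only [div_eq_mul_inv, mul_inv]
  ring

/-- generic rows: the part of the normalised state sum -/
theorem nvn_SVn (n : ℕ) {z z' : ℂ} {x y : Fin m → ℂ} (hz : z ∈ LS) (hz' : |z'.re| < 7 / 10 * l)
    (hx : Rws x) (hy : Rws y) (ix : Hgt x) (iy : Hgt y) : nvn n z z' x y =
      rh (z - z') ^ 2 * (SVn n z z' x y * (2 / 3 * rh 0 * (RR2 z' x * RR2 z' y)) / PBS.PN z x y) := by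
  have g1 : ∀ i j, i ≠ j → NUP1.Mu.Gn (x i - x j) := fun i j hij =>
    gn_im (by rw [sub_im]; exact sub_ne_zero.2 (ix i j hij))
  have g2 : ∀ i j, i ≠ j → NUP1.Mu.Gn (y i - y j) := fun i j hij =>
    gn_im (by rw [sub_im]; exact sub_ne_zero.2 (iy i j hij))
  have g3 : ∀ i j, NUP1.Mu.Gc (x i - y j) := fun i j => gc_re (sub_re_le (hx i) (hy j))
  have den : ∀ {u : Fin m → ℂ}, Rws u → ∀ i, sin (z - u i + 2 * l) ≠ 0 ∧
      sin (z - u i + 3 * l) ≠ 0 := by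
    intro u hu i
    obtain ⟨h1, h2⟩ := den_row hz (hu i)
    refine ⟨h1, ?_⟩
    rwa [show z - (u i - (l : ℂ)) + 2 * l = z - u i + 3 * l by ring] at h2
  have e : nvn n z z' x y = PfV z z' x y *
      PBX.DS (cn m) (cn m) (LVs z z') (LVs z z') x y n := by
    unfold nvn
    rw [DZ_eq ix iy hx hy (LV_SpA hz hz') (LV_SpA hz hz') n]
    rfl
  have h := Nu_PN z x y
  rw [e, SVn_eq n g1 g2 g3 (den hx) (den hy) (fun i => den_rowV hz' (hx i))
    (fun i => den_rowV hz' (hy i))]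
  unfold PV.PfV PV.AV PVN.RR2
  rw [Finset.prod_div_distrib, Finset.prod_div_distrib]
  generalize PBX.DS (cn m) (cn m) (LVs z z') (LVs z z') x y n = S
  generalize (∏ i, Lp z' (x i)) = A
  generalize (∏ i, Lp z' (y i)) = B
  generalize (∏ i, rh (z' - x i) ^ 2) = A'
  generalize (∏ i, rh (z' - y i) ^ 2) = B'
  rw [show rh (z - z') ^ 2 * (Nu z x * Nu z y / (A * B) * S * (2 / 3 * rh 0 * (A' * B')) /
      PBS.PN z x y) = rh (z - z') ^ 2 * (2 / 3 * rh 0) * (A' / A * (B' / B)) *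
      (Nu z x * Nu z y / PBS.PN z x y) * S by
    rw [div_mul_div_comm A' A]
    ring, h]
  ring

/-- **(A2), `n` quanta, all rows** -/
theorem nvn_neg {n : ℕ} (hn : n ≤ 2 * m) {z z' : ℂ} (hz : |z.re| < 7 / 5 * l)
    (hz' : |z'.re| < 7 / 10 * l) {x y : Fin m → ℂ}
    (hx : Rws x) (hy : Rws y) : nvn (2 * m - n) (-z) (-z') (-x) (-y) = nvn n z z' x y := by
  obtain ⟨h1, h2⟩ := mem_LS_neg hz
  have hz2 : |(-z').re| < 7 / 10 * l := by rwa [neg_re, abs_neg]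
  have t1 : Tendsto (fun e => nvn (2 * m - n) (-z) (-z') (-pull x e) (-pull y e)) (𝓝[>] (0 : ℝ))
      (𝓝 (nvn (2 * m - n) (-z) (-z') (-x) (-y))) :=
    nvn_tendsto (2 * m - n) (z := fun _ => -z) (x := fun e => -pull x e) (y := fun e => -pull y e)
      tendsto_const_nhds
      (fun i => (pull_tendsto x i).neg) (fun i => (pull_tendsto y i).neg)
      (Eventually.of_forall fun e => Pool.Agent.PB.Rws.neg (pull_Rws hx e))
      (Eventually.of_forall fun e => Pool.Agent.PB.Rws.neg (pull_Rws hy e))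
      (Pool.Agent.PB.Rws.neg hx) (Pool.Agent.PB.Rws.neg hy) h2 hz2
  have t2 : Tendsto (fun e => nvn n z z' (pull x e) (pull y e)) (𝓝[>] (0 : ℝ))
      (𝓝 (nvn n z z' x y)) :=
    nvn_tendsto n (z := fun _ => z) tendsto_const_nhds (pull_tendsto x) (pull_tendsto y)
      (Eventually.of_forall fun e => pull_Rws hx e) (Eventually.of_forall fun e => pull_Rws hy e)
      hx hy h1 hz'
  refine tendsto_nhds_unique (t1.congr' ?_) t2
  filter_upwards [pull_Hgt x, pull_Hgt y] with e ex ey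
  have rx := pull_Rws hx e
  have ry := pull_Rws hy e
  rw [nvn_SVn _ h2 hz2 (Pool.Agent.PB.Rws.neg rx) (Pool.Agent.PB.Rws.neg ry)
    (Pool.Agent.PB.Hgt.neg ex) (Pool.Agent.PB.Hgt.neg ey), nvn_SVn _ h1 hz' rx ry ex ey, SVn_neg hn,
    PBS.PN_neg, RR2_neg, RR2_neg, show -z - -z' = -(z - z') by ring, PBR.rh_neg]

end WX

end
end


/- part: Pool.Agent.WX.NvZ -/
section
/-!
# Plan X: the function with legs and anti-legs, weight `ζ ^ (m - n)` (helper96)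

`nvz ζ z z' x y = ∑ n ≤ 2 m, ζ ^ (m - n) * nvn n z z' x y`; `xz ζ mu z` (rows `mu` in both groups,
anti-legs at `0`, all `|Re z| < 43 l / 10`); **`vt d mu z = ga d z * xz (zt d) mu z`** (`WND.ga`,
`WND.zt d = exp (i π d)`).

* `nvz_one`, `nvz_tendsto` (joint in `ζ`, legs, rows), `nvz_diff`, `nvz_perm`; **`nvz_leg`** (factor
  `ζ`), **`nvz_neg`** (`ζ → ζ⁻¹`);
* `xz_one`, `xz_right`, `xz_left`, `xz_even`, `xz_diff`, `xz_perm`, `xz_tendsto`, `xz_leg`, `xz_leg'`;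
* `vt_zero` (`d = 0`: the function `xN` of plan V), `vt_even`, `vt_diff`, `vt_perm`, `vt_tendsto`,
  **`vt_leg`**, **`vt_leg'`**, **`vt_zeros`**: literally the relations of `xN`;
* `fVz`, `fVxz`, `fVt`, `fVxt`: rows `0`, one moved row: `fVt_diff`, `fVxt_diff`, `fVxt_zero`,
  `fVxt_leg`, `fVxt_leg'`, `fVt_even`, `fVt_zeros`, `fVxt_zeros`.
-/

set_option autoImplicit false
set_option linter.unusedSectionVars false

noncomputable section

open Complex Filter Topology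

namespace WX

open NUP1 (l lpos)
open PBX (Rws pull pull_re pull_Rws pull_tendsto)
open Pool.Agent.PB (LS LS_open Hgt mem_LS mem_LS3 mem_LS_neg pull_Hgt neg_cons cons_swap GS
  mem_closure_GS zero_rowsW Rws_zero Rws_cons)
open PV (nv xN fV fVx z0_lt)
open WND (ga zt zt_ne zt_neg zt_zero ga_add ga_sub ga_neg ga_diff sub3_re)

variable {m : ℕ}

/-! ### all rows, the strip `LS` -/

/-- **the function with weight `ζ`** -/
def nvz (ζ z z' : ℂ) (x y : Fin m → ℂ) : ℂ :=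
  ∑ n ∈ Finset.range (2 * m + 1), ζ ^ ((m : ℤ) - n) * nvn n z z' x y

theorem nvz_one (z z' : ℂ) (x y : Fin m → ℂ) : nvz 1 z z' x y = nv z z' x y := by
  unfold nvz
  rw [← sum_nvn]
  exact Finset.sum_congr rfl fun n _ => by rw [one_zpow, one_mul]

/-- joint continuity -/
theorem nvz_tendsto {E : Type*} {F : Filter E} [F.IsCountablyGenerated] {ζ z : E → ℂ}
    {x y : E → Fin m → ℂ} {ζ0 z0 z' : ℂ} {x0 y0 : Fin m → ℂ} (tζ : Tendsto ζ F (𝓝 ζ0))
    (hζ : ζ0 ≠ 0) (tz : Tendsto z F (𝓝 z0))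
    (tx : ∀ i, Tendsto (fun e => x e i) F (𝓝 (x0 i)))
    (ty : ∀ i, Tendsto (fun e => y e i) F (𝓝 (y0 i))) (hx : ∀ᶠ e in F, Rws (x e))
    (hy : ∀ᶠ e in F, Rws (y e)) (hx0 : Rws x0) (hy0 : Rws y0) (hz : z0 ∈ LS)
    (hz' : |z'.re| < 7 / 10 * l) :
    Tendsto (fun e => nvz (ζ e) (z e) z' (x e) (y e)) F (𝓝 (nvz ζ0 z0 z' x0 y0)) := by
  unfold nvz
  exact tendsto_finsetSum _ fun n _ => (tζ.zpow₀ _ (Or.inl hζ)).mul
    (nvn_tendsto n tz tx ty hx hy hx0 hy0 hz hz')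

/-- **analyticity in the legs** -/
theorem nvz_diff (ζ : ℂ) {z' : ℂ} (hz' : |z'.re| < 7 / 10 * l) {x y : Fin m → ℂ} (hx : Rws x)
    (hy : Rws y) : DifferentiableOn ℂ (fun z => nvz ζ z z' x y) LS := by
  unfold nvz
  exact DifferentiableOn.fun_sum fun n _ => (nvn_diff n hz' hx hy).const_mul _

theorem nvz_perm (ζ z z' : ℂ) (x : Fin m → ℂ) (σ : Equiv.Perm (Fin m)) :
    nvz ζ z z' (fun i => x (σ i)) (fun i => x (σ i)) = nvz ζ z z' x x := by
  unfold nvz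
  exact Finset.sum_congr rfl fun n _ => by rw [nvn_perm]

/-- **(A1)** -/
theorem nvz_leg {ζ : ℂ} (hζ : ζ ≠ 0) {x0 z' : ℂ} {x y : Fin m → ℂ} (hz' : |z'.re| < 7 / 10 * l)
    (h0 : |x0.re| ≤ l / 2) (hx : Rws x) (hy : Rws y) :
    nvz ζ (x0 + 3 * l) z' (Fin.cons x0 x : Fin (m + 1) → ℂ) (Fin.cons x0 y : Fin (m + 1) → ℂ) =
      ζ * nvz ζ x0 z' x y := by
  unfold nvz
  have e : ∀ n ∈ Finset.range (2 * (m + 1) + 1), ζ ^ (((m + 1 : ℕ) : ℤ) - n) *
      nvn n (x0 + 3 * l) z' (Fin.cons x0 x : Fin (m + 1) → ℂ) (Fin.cons x0 y : Fin (m + 1) → ℂ) =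
      ζ * (ζ ^ ((m : ℤ) - n) * nvn n x0 z' x y) := by
    intro n _
    rw [nvn_leg n hz' h0 hx hy, show ((m + 1 : ℕ) : ℤ) - n = 1 + ((m : ℤ) - n) by push_cast; ring,
      zpow_add₀ hζ, zpow_one, mul_assoc]
  rw [Finset.sum_congr rfl e, ← Finset.mul_sum]
  congr 1
  symm
  refine Finset.sum_subset (Finset.range_mono (by omega)) fun n _ hn => ?_
  rw [Finset.mem_range] at hn
  rw [nvn_big (by omega) (mem_LS h0) hz' hx hy, mul_zero]

/-- **(A2)** -/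
theorem nvz_neg (ζ : ℂ) {z z' : ℂ} (hz : |z.re| < 7 / 5 * l) (hz' : |z'.re| < 7 / 10 * l)
    {x y : Fin m → ℂ} (hx : Rws x)
    (hy : Rws y) : nvz ζ⁻¹ (-z) (-z') (-x) (-y) = nvz ζ z z' x y := by
  unfold nvz
  refine (Finset.sum_range_reflect _ (2 * m + 1)).symm.trans ?_
  refine Finset.sum_congr rfl fun n hn => ?_
  rw [Finset.mem_range] at hn
  have h2 : 2 * m + 1 - 1 - n = 2 * m - n := by omega
  rw [h2, nvn_neg (by omega) hz hz' hx hy, inv_zpow, ← zpow_neg]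
  congr 2
  push_cast [show n ≤ 2 * m by omega]
  ring

theorem nvz_neg0 (ζ : ℂ) {z : ℂ} (hz : |z.re| < 7 / 5 * l) {x y : Fin m → ℂ} (hx : Rws x)
    (hy : Rws y) : nvz ζ⁻¹ (-z) 0 (-x) (-y) = nvz ζ z 0 x y := by
  have h := nvz_neg ζ (z' := 0) hz z0_lt hx hy
  rwa [neg_zero] at h

/-! ### rows `mu` in both groups, anti-legs at `0`, the whole strip -/

/-- **legs at `z`, anti-legs at `0`, rows `mu` in both groups, weight `ζ`** -/
def xz (ζ : ℂ) (mu : Fin m → ℂ) (z : ℂ) : ℂ :=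
  if 0 ≤ z.re then nvz ζ z 0 mu mu else nvz ζ⁻¹ (-z) 0 (-mu) (-mu)

theorem xz_one (mu : Fin m → ℂ) (z : ℂ) : xz 1 mu z = xN mu z := by
  unfold xz PV.xN
  rw [inv_one, nvz_one, nvz_one]

theorem xz_right (ζ : ℂ) {mu : Fin m → ℂ} (hmu : Rws mu) {z : ℂ} (hz : z ∈ LS) :
    xz ζ mu z = nvz ζ z 0 mu mu := by
  unfold xz
  split_ifs with h
  · rfl
  · have hl := lpos
    obtain ⟨h1, h2⟩ := hz
    rw [not_le] at h
    exact nvz_neg0 ζ (by rw [abs_lt]; constructor <;> linarith) hmu hmu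

theorem xz_left (ζ : ℂ) {mu : Fin m → ℂ} (hmu : Rws mu) {z : ℂ} (hz : -z ∈ LS) :
    xz ζ mu z = nvz ζ⁻¹ (-z) 0 (-mu) (-mu) := by
  unfold xz
  split_ifs with h
  · have hl := lpos
    obtain ⟨h1, h2⟩ := hz
    have h3 : -(7 / 5 * l) < (-z).re := h1
    rw [neg_re] at h3
    exact (nvz_neg0 ζ (by rw [abs_lt]; constructor <;> linarith) hmu hmu).symm
  · rfl

/-- **(A2)** -/
theorem xz_even (ζ : ℂ) {mu : Fin m → ℂ} (hmu : Rws mu) {z : ℂ} (hz : |z.re| < 43 / 10 * l) :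
    xz ζ⁻¹ (-mu) (-z) = xz ζ mu z := by
  have hl := lpos
  obtain ⟨h1, h2⟩ := abs_lt.1 hz
  rcases le_or_gt 0 z.re with h | h
  · rw [xz_right ζ hmu (z := z) ⟨by linarith, h2⟩, xz_left ζ⁻¹ (Pool.Agent.PB.Rws.neg hmu) (z := -z)
      (by rw [neg_neg]; exact ⟨by linarith, h2⟩), neg_neg, neg_neg, inv_inv]
  · have h3 : -z ∈ LS := ⟨by rw [neg_re]; linarith, by rw [neg_re]; linarith⟩
    rw [xz_left ζ hmu h3, xz_right ζ⁻¹ (Pool.Agent.PB.Rws.neg hmu) h3]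

/-- **analyticity** -/
theorem xz_diff (ζ : ℂ) {mu : Fin m → ℂ} (hmu : Rws mu) :
    DifferentiableOn ℂ (xz ζ mu) {z | |z.re| < 43 / 10 * l} := by
  have hl := lpos
  intro z hz
  obtain ⟨h1, h2⟩ := abs_lt.1 (show |z.re| < 43 / 10 * l from hz)
  refine DifferentiableAt.differentiableWithinAt ?_
  rcases le_or_gt 0 z.re with h | h
  · have hL : z ∈ LS := ⟨by linarith, h2⟩
    have d := (nvz_diff ζ z0_lt hmu hmu).differentiableAt (LS_open.mem_nhds hL)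
    refine d.congr_of_eventuallyEq ?_
    filter_upwards [LS_open.mem_nhds hL] with w hw
    exact xz_right ζ hmu hw
  · have hL : -z ∈ LS := ⟨by rw [neg_re]; linarith, by rw [neg_re]; linarith⟩
    have d := (nvz_diff ζ⁻¹ z0_lt (Pool.Agent.PB.Rws.neg hmu)
      (Pool.Agent.PB.Rws.neg hmu)).differentiableAt (LS_open.mem_nhds hL)
    have d2 : DifferentiableAt ℂ ((fun w : ℂ => nvz ζ⁻¹ w 0 (-mu) (-mu)) ∘ fun w => -w) z :=
      DifferentiableAt.comp z d differentiableAt_id.neg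
    refine d2.congr_of_eventuallyEq ?_
    have hop : IsOpen {w : ℂ | -w ∈ LS} := LS_open.preimage continuous_neg
    filter_upwards [hop.mem_nhds hL] with w hw
    exact xz_left ζ hmu hw

theorem xz_perm (ζ : ℂ) (mu : Fin m → ℂ) (σ : Equiv.Perm (Fin m)) (z : ℂ) :
    xz ζ (fun i => mu (σ i)) z = xz ζ mu z := by
  unfold xz
  rw [nvz_perm ζ z 0 mu σ]
  split_ifs
  · rfl
  · exact nvz_perm ζ⁻¹ (-z) 0 (-mu) σ

/-- joint continuity -/
theorem xz_tendsto {E : Type*} {F : Filter E} [F.IsCountablyGenerated] {ζ z : E → ℂ}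
    {x : E → Fin m → ℂ} {ζ0 z0 : ℂ} {x0 : Fin m → ℂ} (tζ : Tendsto ζ F (𝓝 ζ0)) (hζ : ζ0 ≠ 0)
    (tz : Tendsto z F (𝓝 z0)) (tx : ∀ i, Tendsto (fun e => x e i) F (𝓝 (x0 i)))
    (hx : ∀ᶠ e in F, Rws (x e)) (hx0 : Rws x0) (hz : |z0.re| < 43 / 10 * l) :
    Tendsto (fun e => xz (ζ e) (x e) (z e)) F (𝓝 (xz ζ0 x0 z0)) := by
  have hl := lpos
  obtain ⟨h1, h2⟩ := abs_lt.1 hz
  rcases le_or_gt 0 z0.re with h | h
  · have hL : z0 ∈ LS := ⟨by linarith, h2⟩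
    rw [xz_right ζ0 hx0 hL]
    refine (nvz_tendsto tζ hζ tz tx tx hx hx hx0 hx0 hL z0_lt).congr' ?_
    filter_upwards [hx, tz.eventually (LS_open.mem_nhds hL)] with e he hze
    exact (xz_right (ζ e) he hze).symm
  · have hL : -z0 ∈ LS := ⟨by rw [neg_re]; linarith, by rw [neg_re]; linarith⟩
    rw [xz_left ζ0 hx0 hL]
    refine (nvz_tendsto (ζ := fun e => (ζ e)⁻¹) (z := fun e => -z e) (x := fun e => -x e)
      (y := fun e => -x e) (tζ.inv₀ hζ) (inv_ne_zero hζ) tz.neg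
      (fun i => (tx i).neg) (fun i => (tx i).neg)
      (hx.mono fun e he => Pool.Agent.PB.Rws.neg he)
      (hx.mono fun e he => Pool.Agent.PB.Rws.neg he) (Pool.Agent.PB.Rws.neg hx0)
      (Pool.Agent.PB.Rws.neg hx0) hL z0_lt).congr' ?_
    filter_upwards [hx, tz.neg.eventually (LS_open.mem_nhds hL)] with e he hze
    exact (xz_left (ζ e) he hze).symm

/-- **(A1), legs to the right** -/
theorem xz_leg {ζ : ℂ} (hζ : ζ ≠ 0) {x0 : ℂ} {mu : Fin m → ℂ} (h0 : |x0.re| ≤ l / 2)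
    (hmu : Rws mu) :
    xz ζ (Fin.cons x0 mu : Fin (m + 1) → ℂ) (x0 + 3 * l) = ζ * xz ζ mu x0 := by
  rw [xz_right ζ (Pool.Agent.PB.Rws.cons h0 hmu) (mem_LS3 h0), xz_right ζ hmu (mem_LS h0),
    nvz_leg hζ z0_lt h0 hmu hmu]

/-- **(A1), legs to the left** -/
theorem xz_leg' {ζ : ℂ} (hζ : ζ ≠ 0) {x0 : ℂ} {mu : Fin m → ℂ} (h0 : |x0.re| ≤ l / 2)
    (hmu : Rws mu) :
    xz ζ (Fin.cons x0 mu : Fin (m + 1) → ℂ) (x0 - 3 * l) = ζ⁻¹ * xz ζ mu x0 := by
  have hl := lpos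
  have h0' : |(-x0).re| ≤ l / 2 := by rwa [neg_re, abs_neg]
  have e : -(x0 - 3 * (l : ℂ)) = -x0 + 3 * l := by ring
  have hx : |x0.re| < 43 / 10 * l := by linarith
  rw [← xz_even ζ (Pool.Agent.PB.Rws.cons h0 hmu) (sub3_re h0), neg_cons, e,
    xz_leg (inv_ne_zero hζ) h0' (Pool.Agent.PB.Rws.neg hmu), xz_even ζ hmu hx]

/-! ### the function without the monodromy -/

/-- **the function with twist `d`, without the monodromy** -/
def vt (d : ℂ) (mu : Fin m → ℂ) (z : ℂ) : ℂ := ga d z * xz (zt d) mu z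

theorem vt_zero (mu : Fin m → ℂ) (z : ℂ) : vt 0 mu z = xN mu z := by
  unfold vt WND.ga
  rw [zt_zero, xz_one]
  simp

theorem vt_even (d : ℂ) {mu : Fin m → ℂ} (hmu : Rws mu) {z : ℂ} (hz : |z.re| < 43 / 10 * l) :
    vt (-d) (-mu) (-z) = vt d mu z := by
  unfold vt
  rw [ga_neg, zt_neg, xz_even (zt d) hmu hz]

theorem vt_diff (d : ℂ) {mu : Fin m → ℂ} (hmu : Rws mu) :
    DifferentiableOn ℂ (vt d mu) {z | |z.re| < 43 / 10 * l} :=
  (ga_diff d).differentiableOn.mul (xz_diff (zt d) hmu)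

theorem vt_perm (d : ℂ) (mu : Fin m → ℂ) (σ : Equiv.Perm (Fin m)) (z : ℂ) :
    vt d (fun i => mu (σ i)) z = vt d mu z := by
  unfold vt
  rw [xz_perm]

/-- joint continuity -/
theorem vt_tendsto {E : Type*} {F : Filter E} [F.IsCountablyGenerated] {d z : E → ℂ}
    {x : E → Fin m → ℂ} {d0 z0 : ℂ} {x0 : Fin m → ℂ} (td : Tendsto d F (𝓝 d0))
    (tz : Tendsto z F (𝓝 z0)) (tx : ∀ i, Tendsto (fun e => x e i) F (𝓝 (x0 i)))
    (hx : ∀ᶠ e in F, Rws (x e)) (hx0 : Rws x0) (hz : |z0.re| < 43 / 10 * l) :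
    Tendsto (fun e => vt (d e) (x e) (z e)) F (𝓝 (vt d0 x0 z0)) := by
  unfold vt
  refine Tendsto.mul ?_ (xz_tendsto ?_ (zt_ne d0) tz tx hx hx0 hz)
  · unfold WND.ga
    exact (Complex.continuous_exp.tendsto _).comp ((td.const_mul _).mul tz)
  · unfold WND.zt
    exact (Complex.continuous_exp.tendsto _).comp ((td.const_mul _).mul_const _)

/-- **(A1), legs to the right** -/
theorem vt_leg (d : ℂ) {x0 : ℂ} {mu : Fin m → ℂ} (h0 : |x0.re| ≤ l / 2) (hmu : Rws mu) :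
    vt d (Fin.cons x0 mu : Fin (m + 1) → ℂ) (x0 + 3 * l) = vt d mu x0 := by
  unfold vt
  rw [ga_add, xz_leg (zt_ne d) h0 hmu]
  have := zt_ne d
  field_simp

/-- **(A1), legs to the left** -/
theorem vt_leg' (d : ℂ) {x0 : ℂ} {mu : Fin m → ℂ} (h0 : |x0.re| ≤ l / 2) (hmu : Rws mu) :
    vt d (Fin.cons x0 mu : Fin (m + 1) → ℂ) (x0 - 3 * l) = vt d mu x0 := by
  unfold vt
  rw [ga_sub, xz_leg' (zt_ne d) h0 hmu]
  have := zt_ne d
  field_simp

/-- the difference vanishes at the rows -/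
theorem vt_node (d : ℂ) {x : Fin (m + 1) → ℂ} (hx : Rws x) (j : Fin (m + 1)) :
    vt d x (x j + 3 * l) - vt d x (x j - 3 * l) = 0 := by
  have hx' : Rws fun i : Fin m => x (Equiv.swap 0 j i.succ) := fun i => hx _
  rw [← vt_perm d x (Equiv.swap 0 j) (x j + 3 * l), ← vt_perm d x (Equiv.swap 0 j) (x j - 3 * l),
    cons_swap, vt_leg d (hx j) hx', vt_leg' d (hx j) hx', sub_self]

theorem vt_node' (d : ℂ) {x : Fin m → ℂ} (hx : Rws x) (j : Fin m) :
    vt d x (x j + 3 * l) - vt d x (x j - 3 * l) = 0 := by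
  rcases m with _ | m
  · exact j.elim0
  · exact vt_node d hx j

/-- **the zeros of the difference** -/
theorem vt_zeros (d : ℂ) {mu : Fin m → ℂ} (hmu : Rws mu) :
    ∃ Q : ℂ → ℂ, DifferentiableOn ℂ Q {z | |z.re| < 13 / 10 * l} ∧
      ∀ z, vt d mu (z + 3 * l) - vt d mu (z - 3 * l) = (∏ j, (z - mu j)) * Q z := by
  have hl := lpos
  set Ω : Set ℂ := {z | |z.re| < 13 / 10 * l} with hΩ
  have hop : IsOpen Ω := isOpen_lt (continuous_abs.comp Complex.continuous_re) continuous_const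
  set R : ℝ := ∑ j, |(mu j).im| + 1 with hR
  set U : Set ℂ := {z | |z.re| < l ∧ |z.im| < R} with hU
  have hUo : IsOpen U := (isOpen_lt (continuous_abs.comp Complex.continuous_re)
    continuous_const).inter (isOpen_lt (continuous_abs.comp Complex.continuous_im) continuous_const)
  have hUb : Bornology.IsBounded U := by
    refine (Metric.isBounded_iff_subset_closedBall (0 : ℂ)).2 ⟨l + R, fun z hz => ?_⟩
    rw [Metric.mem_closedBall, dist_zero_right]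
    have := Complex.norm_le_abs_re_add_abs_im z
    linarith [hz.1, hz.2]
  have hUc : closure U ⊆ Ω := by
    have h1 : closure U ⊆ {z : ℂ | |z.re| ≤ l} := by
      refine closure_minimal (fun z hz => hz.1.le) ?_
      exact isClosed_le (continuous_abs.comp Complex.continuous_re) continuous_const
    intro z hz
    have h2 : |z.re| ≤ l := h1 hz
    show |z.re| < 13 / 10 * l
    linarith
  have e1 : ∀ z : ℂ, (z + 3 * (l : ℂ)).re = z.re + 3 * l := fun z => by simp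
  have e2 : ∀ z : ℂ, (z - 3 * (l : ℂ)).re = z.re - 3 * l := fun z => by simp
  have k1 : ∀ z ∈ Ω, |(z + 3 * (l : ℂ)).re| < 43 / 10 * l := by
    intro z hz
    obtain ⟨h1, h2⟩ := abs_lt.1 (show |z.re| < 13 / 10 * l from hz)
    rw [e1, abs_lt]
    constructor <;> linarith
  have k2 : ∀ z ∈ Ω, |(z - 3 * (l : ℂ)).re| < 43 / 10 * l := by
    intro z hz
    obtain ⟨h1, h2⟩ := abs_lt.1 (show |z.re| < 13 / 10 * l from hz)
    rw [e2, abs_lt]
    constructor <;> linarith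
  have hdom : IsOpen {z : ℂ | |z.re| < 43 / 10 * l} :=
    isOpen_lt (continuous_abs.comp Complex.continuous_re) continuous_const
  obtain ⟨-, Q, hQ, hfQ⟩ := zero_rowsW (ι := Fin m) hop hUo hUb hUc (c := mu) (S := GS m)
    (D := fun z y => vt d y (z + 3 * l) - vt d y (z - 3 * l))
    (fun j => by
      have h1 := hmu j
      have h2 := PBX.im_le mu j
      exact ⟨by linarith, by linarith⟩)
    (mem_closure_GS hmu)
    (fun y hy i j hij => by
      by_contra hne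
      exact hy.2 i j hne (by rw [hij]))
    (fun y hy z hz => by
      have d1 : DifferentiableAt ℂ (fun z : ℂ => vt d y (z + 3 * l)) z :=
        DifferentiableAt.comp z ((vt_diff d hy.1).differentiableAt (hdom.mem_nhds (k1 z hz)))
          (differentiableAt_id.add_const _)
      have d2 : DifferentiableAt ℂ (fun z : ℂ => vt d y (z - 3 * l)) z :=
        DifferentiableAt.comp z ((vt_diff d hy.1).differentiableAt (hdom.mem_nhds (k2 z hz)))
          (differentiableAt_id.sub_const _)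
      exact (d1.sub d2).differentiableWithinAt)
    (fun z hz => by
      have tr : ∀ i, Tendsto (fun p : ℂ × (Fin m → ℂ) => p.2 i) (𝓝 z ×ˢ 𝓝[GS m] mu)
          (𝓝 (mu i)) := fun i =>
        (((continuous_apply i).tendsto mu).mono_left nhdsWithin_le_nhds).comp tendsto_snd
      have hrw : ∀ᶠ p : ℂ × (Fin m → ℂ) in 𝓝 z ×ˢ 𝓝[GS m] mu, Rws p.2 := by
        have h1 : ∀ᶠ y in 𝓝[GS m] mu, Rws y := by
          filter_upwards [self_mem_nhdsWithin] with y hy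
          exact hy.1
        exact tendsto_snd.eventually h1
      exact (vt_tendsto (F := 𝓝 z ×ˢ 𝓝[GS m] mu) (d := fun _ => d) (z := fun p => p.1 + 3 * l)
        (x := fun p => p.2) tendsto_const_nhds
        (tendsto_fst.add_const _) tr hrw hmu (k1 z hz)).sub
        (vt_tendsto (F := 𝓝 z ×ˢ 𝓝[GS m] mu) (d := fun _ => d) (z := fun p => p.1 - 3 * l)
        (x := fun p => p.2) tendsto_const_nhds
        (tendsto_fst.sub_const _) tr hrw hmu (k2 z hz)))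
    (by
      filter_upwards [self_mem_nhdsWithin] with y hy j
      exact vt_node' d hy.1 j)
  exact ⟨Q, hQ, hfQ⟩

/-! ### the rows `0` and one moved row -/

/-- `N` rows at `0`, weight `ζ` -/
def fVz (ζ : ℂ) (N : ℕ) (z : ℂ) : ℂ := xz ζ (fun _ : Fin N => (0 : ℂ)) z

/-- one row at `x`, `N` rows at `0`, weight `ζ` -/
def fVxz (ζ : ℂ) (N : ℕ) (x z : ℂ) : ℂ :=
  xz ζ (Fin.cons x (fun _ : Fin N => (0 : ℂ)) : Fin (N + 1) → ℂ) z

/-- `N` rows at `0` -/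
def fVt (d : ℂ) (N : ℕ) (z : ℂ) : ℂ := vt d (fun _ : Fin N => (0 : ℂ)) z

/-- one row at `x`, `N` rows at `0` -/
def fVxt (d : ℂ) (N : ℕ) (x z : ℂ) : ℂ :=
  vt d (Fin.cons x (fun _ : Fin N => (0 : ℂ)) : Fin (N + 1) → ℂ) z

theorem fVt_ga (d : ℂ) (N : ℕ) (z : ℂ) : fVt d N z = ga d z * fVz (zt d) N z := rfl

theorem fVxt_ga (d : ℂ) (N : ℕ) (x z : ℂ) : fVxt d N x z = ga d z * fVxz (zt d) N x z := rfl

theorem fVt_at0 (d : ℂ) (N : ℕ) : fVt d N 0 = fVz (zt d) N 0 := by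
  rw [fVt_ga]
  unfold WND.ga
  simp

theorem fVz_one (N : ℕ) (z : ℂ) : fVz 1 N z = fV N z := xz_one _ z

theorem fVxz_one (N : ℕ) (x z : ℂ) : fVxz 1 N x z = fVx N x z := xz_one _ z

theorem fVt_d0 (N : ℕ) (z : ℂ) : fVt 0 N z = fV N z := vt_zero _ z

theorem fVxt_d0 (N : ℕ) (x z : ℂ) : fVxt 0 N x z = fVx N x z := vt_zero _ z

theorem fVt_diff (d : ℂ) (N : ℕ) : DifferentiableOn ℂ (fVt d N) {z | |z.re| < 43 / 10 * l} :=
  vt_diff d (Rws_zero N)

theorem fVxt_diff (d : ℂ) (N : ℕ) {x : ℂ} (h : |x.re| ≤ l / 2) :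
    DifferentiableOn ℂ (fVxt d N x) {z | |z.re| < 43 / 10 * l} := vt_diff d (Rws_cons h)

theorem fVxt_zero (d : ℂ) (N : ℕ) (z : ℂ) : fVxt d N 0 z = fVt d (N + 1) z := by
  unfold fVxt fVt
  congr 1
  funext i
  refine Fin.cases ?_ (fun j => ?_) i
  · simp
  · simp

/-- **(A1)** -/
theorem fVxt_leg (d : ℂ) (N : ℕ) {x : ℂ} (h : |x.re| ≤ l / 2) :
    fVxt d N x (x + 3 * l) = fVt d N x :=
  vt_leg d h (Rws_zero N)

theorem fVxt_leg' (d : ℂ) (N : ℕ) {x : ℂ} (h : |x.re| ≤ l / 2) :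
    fVxt d N x (x - 3 * l) = fVt d N x :=
  vt_leg' d h (Rws_zero N)

theorem fVt_even (d : ℂ) (N : ℕ) {z : ℂ} (hz : |z.re| < 43 / 10 * l) :
    fVt (-d) N (-z) = fVt d N z := by
  have h := vt_even d (Rws_zero N) hz
  have e : -(fun _ : Fin N => (0 : ℂ)) = fun _ : Fin N => (0 : ℂ) := by
    funext i
    simp
  rw [e] at h
  exact h

/-- the zeros of the difference, rows `0` -/
theorem fVt_zeros (d : ℂ) (N : ℕ) : ∃ Q : ℂ → ℂ, DifferentiableOn ℂ Q {z | |z.re| < 13 / 10 * l} ∧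
    ∀ z, fVt d N (z + 3 * l) - fVt d N (z - 3 * l) = z ^ N * Q z := by
  obtain ⟨Q, hQ, h⟩ := vt_zeros d (Rws_zero N)
  refine ⟨Q, hQ, fun z => ?_⟩
  have := h z
  simp only [sub_zero, Finset.prod_const, Finset.card_univ, Fintype.card_fin] at this
  exact this

/-- the zeros of the difference, one moved row -/
theorem fVxt_zeros (d : ℂ) (N : ℕ) {x : ℂ} (hx : |x.re| ≤ l / 2) :
    ∃ Q : ℂ → ℂ, DifferentiableOn ℂ Q {z | |z.re| < 13 / 10 * l} ∧
      ∀ z, fVxt d N x (z + 3 * l) - fVxt d N x (z - 3 * l) = (z - x) * z ^ N * Q z := by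
  obtain ⟨Q, hQ, h⟩ := vt_zeros d (Rws_cons (N := N) hx)
  refine ⟨Q, hQ, fun z => ?_⟩
  have := h z
  rw [Fin.prod_univ_succ] at this
  simp only [Fin.cons_zero, Fin.cons_succ, sub_zero, Finset.prod_const, Finset.card_univ,
    Fintype.card_fin] at this
  exact this

end WX

end
end


/- part: Pool.Agent.WX.U01 -/
section
/-!
# Plan X: bounds of the functions with weight `ζ` (helper96)

`‖ζ‖ = 1` everywhere; the constants do not depend on `ζ`.

* `nvn_FF`: the part with `n` quanta is the `n`-th term of the functional of `famV`;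
* `nvz_le`, **`fVxz_le`**, **`fVz_le`**: `(k + 1) ^ (3/4 + δ) exp (4 |Im z|)`, `|Re z| < 37/10 l`;
* `V0X`, `V1X` and `v0x : V0X 2`, `v1x : V1X`: the bounds of plan V, uniform in `ζ`.
-/

set_option autoImplicit false
set_option linter.unusedSectionVars false

noncomputable section

open Complex MeasureTheory Set Filter Topology
open scoped ENNReal

namespace WX

open NUP1 (l)
open PBL (mu1)
open PV (nv nv_FL LV PfV famV log_succ_mono uxV)
open Pool.Agent.PB (Rws_cons cn)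
open PBX (DZ)

attribute [local instance] NUSea.seaP

/-- the part with `n` quanta is the `n`-th term of the functional of `famV` -/
theorem nvn_FF {ep e1 J : ℝ} (hep0 : 0 < ep) (hep : ep ≤ 1 / 100) {k : ℕ} {x z : ℂ}
    (hx : |x.re| ≤ l / 10) (h1 : -(9 / 10 * l) ≤ z.re) (h2 : z.re < 37 / 10 * l)
    (hcur : ∀ (r : ℕ) (O : Fin r → NUO.Xo), NUCR.CurB ep (PBU.cr e1 J (k + 1) r O)
      (PBU.cr' e1 J (k + 1) r O)) (n : ℕ) :
    nvn n z 0 (mu1 k x) (mu1 k x) = famV.Pf (k + 1) (x, z) *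
      PBF.FF (famV.Z ep (k + 1) (x, z)) (NUSea.O.par0 (k + 1)) n n (PBU.cr e1 J (k + 1))
        (PBU.cr' e1 J (k + 1)) (fun _ _ _ _ _ => 1) := by
  have hl := NUP1.lpos
  have e : PVS.ZV (4 / 3 * (1 - ep)) (mu1 k x) [I, -I] [] z 0 = famV.Z ep (k + 1) (x, z) := by
    have : PVS.ZV (4 / 3 * (1 - ep)) (mu1 k x) [I, -I] [] z 0 =
        PV.ZV (4 / 3 * (1 - ep)) (mu1 k x) [I, -I] [] z 0 := by
      unfold PV.ZV PVS.ZV
      rw [show LV z 0 = PVS.LgV z 0 from funext fun u => (PVS.LgV_eq z 0 u).symm]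
    rw [this]
    rfl
  rw [← e]
  unfold nvn
  have hLV : LV z 0 = PVS.LgV z 0 := funext fun u => (PVS.LgV_eq z 0 u).symm
  rw [hLV]
  change PfV z 0 (mu1 k x) (mu1 k x) * _ = PfV z 0 (mu1 k x) (mu1 k x) * _
  congr 1
  exact PVS.DZ_ZV (P := NUSea.O.par0 (k + 1)) (ep := ep) (β := 4 / 3 * (1 - ep))
    (PBX.ParC_par0 (k + 1)) (PBX.rad_low (k + 1)) hep0 hep (by linarith) (by linarith)
    (x := mu1 k x) (PBT.rws_mu1 k (by linarith)) (ex := [I, -I]) (ex0 := [])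
    (by
      intro w hw
      rw [List.mem_cons, List.mem_singleton] at hw
      rcases hw with rfl | rfl
      · rw [Complex.I_re, abs_zero]
        positivity
      · rw [Complex.neg_re, Complex.I_re, neg_zero, abs_zero]
        positivity) (by simp) (z := z) (z' := 0) h1 h2 (by rw [Complex.zero_re, abs_zero]; positivity)
    (n := n) (η := PBU.cr e1 J (k + 1)) (η' := PBU.cr' e1 J (k + 1))
    (fun r _ => Filter.Eventually.of_forall fun O => hcur r O)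

theorem enorm_zpow {ζ : ℂ} (hζ : ‖ζ‖ = 1) (k : ℤ) : ‖ζ ^ k‖ₑ = 1 := by
  rw [← ofReal_norm, norm_zpow, hζ, one_zpow, ENNReal.ofReal_one]

/-- **the bound for `Re z ≥ -9/10 l`** -/
theorem nvz_le (hX : PBU.UX famV) {δ : ℝ} (hδ : 0 < δ) : ∃ m0 : ℕ, ∀ k : ℕ, m0 ≤ k →
    ∀ ζ : ℂ, ‖ζ‖ = 1 → ∀ x z : ℂ,
    |x.re| ≤ l / 10 → |x.im| ≤ 2 → -(9 / 10 * l) ≤ z.re → z.re < 37 / 10 * l →
    |z.im| ≤ 3 / 20 * Real.log (k + 1 : ℕ) + 2 →
    ‖nvz ζ z 0 (mu1 k x) (mu1 k x)‖ ≤ ((k + 1 : ℕ) : ℝ) ^ (3 / 4 + δ) * Real.exp (4 * |z.im|) := by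
  obtain ⟨ep, e1, J, h1, h2, h3, h4, h5, hU⟩ := hX.pick 0 1 (ε := δ) (a := 1 / 100) hδ (by norm_num)
  obtain ⟨m1, H1⟩ := hU.mass le_rfl
  obtain ⟨mc, -, Hcur⟩ := PBF.curZ_crs h3 h4 h5 h1
  refine ⟨max m1 mc, fun k hk ζ hζ x z hx hx' z1 z2 z3 => ?_⟩
  have k1 : m1 ≤ k + 1 := ((le_max_left _ _).trans hk).trans (Nat.le_succ k)
  have k2 : mc ≤ k + 1 := ((le_max_right _ _).trans hk).trans (Nat.le_succ k)
  have e0 : nvz ζ z 0 (mu1 k x) (mu1 k x) = ∑ n ∈ Finset.range (2 * (k + 1) + 1),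
      ζ ^ (((k + 1 : ℕ) : ℤ) - n) * (famV.Pf (k + 1) (x, z) *
      PBF.FF (famV.Z ep (k + 1) (x, z)) (NUSea.O.par0 (k + 1)) n n (PBU.cr e1 J (k + 1))
        (PBU.cr' e1 J (k + 1)) (fun _ _ _ _ _ => 1)) := by
    unfold nvz
    exact Finset.sum_congr rfl fun n _ => by
      rw [nvn_FF h1 h2 hx z1 z2 fun r O => Hcur (k + 1) k2 r O]
  have key : ‖nvz ζ z 0 (mu1 k x) (mu1 k x)‖ₑ ≤ PBU.FS famV ep e1 J (k + 1) (x, z) (fun _ => 1)
      (fun _ _ _ _ _ => 1) := by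
    rw [e0]
    have ht : famV.top (k + 1) = 2 * (k + 1) := rfl
    unfold PBU.FS
    rw [ht]
    refine (enorm_sum_le _ _).trans (Finset.sum_le_sum fun n _ => ?_)
    rw [enorm_mul, enorm_zpow hζ, one_mul, enorm_mul, one_mul]
    refine mul_le_mul' le_rfl ?_
    refine (PBF.FF_le _).trans (le_of_eq ?_)
    rw [PBF.FA_eq_FE]
    simp only [enorm_one]
  have h6 := key.trans (H1 (k + 1) k1 (x, z) ⟨hx, hx', z1, z2, z3⟩)
  rw [← ofReal_norm] at h6
  have hk0 : (0 : ℝ) < ((k + 1 : ℕ) : ℝ) := by positivity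
  have h7 : famV.bd (k + 1) (x, z) = ((k + 1 : ℕ) : ℝ) ^ (3 / 4 : ℝ) * Real.exp (4 * |z.im|) := rfl
  rw [h7, ENNReal.ofReal_le_ofReal_iff (by positivity)] at h6
  refine h6.trans (le_of_eq ?_)
  rw [← mul_assoc, ← Real.rpow_add hk0]
  congr 2
  ring

/-- **the bound of the function with one moved row** -/
theorem fVxz_le (hX : PBU.UX famV) {δ : ℝ} (hδ : 0 < δ) : ∃ m0 : ℕ, ∀ k : ℕ, m0 ≤ k →
    ∀ ζ : ℂ, ‖ζ‖ = 1 → ∀ x z : ℂ,
    |x.re| ≤ l / 10 → |x.im| ≤ 2 → |z.re| < 37 / 10 * l →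
    |z.im| ≤ 3 / 20 * Real.log (k + 1 : ℕ) + 2 →
    ‖fVxz ζ k x z‖ ≤ ((k + 1 : ℕ) : ℝ) ^ (3 / 4 + δ) * Real.exp (4 * |z.im|) := by
  obtain ⟨m0, H⟩ := nvz_le hX hδ
  refine ⟨m0, fun k hk ζ hζ x z hx hx' hz hz' => ?_⟩
  have hl := NUP1.lpos
  obtain ⟨z1, z2⟩ := abs_lt.1 hz
  unfold fVxz xz
  split_ifs with h
  · exact H k hk ζ hζ x z hx hx' (by linarith) z2 hz'
  · rw [not_le] at h
    have e : -(Fin.cons x (fun _ : Fin k => (0 : ℂ)) : Fin (k + 1) → ℂ) = mu1 k (-x) := by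
      unfold PBL.mu1
      funext i
      refine Fin.cases ?_ (fun j => ?_) i
      · simp
      · simp
    rw [e]
    have := H k hk ζ⁻¹ (by rw [norm_inv, hζ, inv_one]) (-x) (-z) (by rwa [neg_re, abs_neg])
      (by rwa [neg_im, abs_neg])
      (by rw [neg_re]; linarith) (by rw [neg_re]; linarith) (by rwa [neg_im, abs_neg])
    rwa [neg_im, abs_neg] at this

/-- `N + 1` rows at `0` -/
theorem fVxz_zero (ζ : ℂ) (N : ℕ) (z : ℂ) : fVxz ζ N 0 z = fVz ζ (N + 1) z := by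
  unfold fVxz fVz
  congr 1
  funext i
  refine Fin.cases ?_ (fun j => ?_) i
  · simp
  · simp

/-- **the bound of the function at the rows `0`** -/
theorem fVz_le (hX : PBU.UX famV) {δ : ℝ} (hδ : 0 < δ) : ∃ m0 : ℕ, ∀ j : ℕ, m0 ≤ j →
    ∀ ζ : ℂ, ‖ζ‖ = 1 → ∀ z : ℂ,
    |z.re| < 37 / 10 * l → |z.im| ≤ 3 / 20 * Real.log j + 2 →
    ‖fVz ζ j z‖ ≤ (j : ℝ) ^ (3 / 4 + δ) * Real.exp (4 * |z.im|) := by
  obtain ⟨m0, H⟩ := fVxz_le hX hδ
  refine ⟨m0 + 1, fun j hj ζ hζ z hz hz' => ?_⟩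
  have hl := NUP1.lpos
  obtain ⟨k, rfl⟩ : ∃ k, j = k + 1 := ⟨j - 1, by omega⟩
  rw [← fVxz_zero]
  exact H k (by omega) ζ hζ 0 z (by simp; positivity) (by simp) hz hz'

/-! ### the bounds in the words of the function side -/

/-- crude bound, all weights -/
def V0X (C : ℝ) : Prop :=
  (∀ᶠ j : ℕ in atTop, ∀ w : ℂ, ‖w‖ = 1 → ∀ z : ℂ, |z.re| ≤ 18 / 5 * l →
    |z.im| ≤ 3 / 20 * Real.log j + 1 → ‖fVz w j z‖ ≤ (j : ℝ) ^ C) ∧
  ∀ᶠ j : ℕ in atTop, ∀ w : ℂ, ‖w‖ = 1 → ∀ s ∈ Icc (0 : ℝ) 1, ∀ z : ℂ, |z.re| ≤ 18 / 5 * l →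
    |z.im| ≤ 3 / 20 * Real.log j + 1 → ‖fVxz w j (I * s) z‖ ≤ (j : ℝ) ^ C

/-- the bound at height `O(1)`, all weights -/
def V1X : Prop := ∀ ε : ℝ, 0 < ε → ∀ᶠ j : ℕ in atTop, ∀ w : ℂ, ‖w‖ = 1 →
  ∀ s ∈ Icc (0 : ℝ) 1, ∀ t ∈ Icc (0 : ℝ) 1, ‖fVxz w j (I * s) (I * t)‖ ≤ (j : ℝ) ^ (3 / 4 + ε)

/-- **(V1)** -/
theorem v1x_of (hX : PBU.UX famV) : V1X := by
  intro ε hε
  obtain ⟨m1, H1⟩ := fVxz_le hX (show 0 < min (ε / 2) (1 / 4) by positivity)
  have hl := NUP1.lpos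
  set δ : ℝ := min (ε / 2) (1 / 4) with hδ
  have hδ0 : 0 < δ := by positivity
  have hδ1 : δ ≤ 1 / 4 := min_le_right _ _
  have hδ2 : δ ≤ ε / 2 := min_le_left _ _
  filter_upwards [eventually_ge_atTop m1, eventually_ge_atTop 1,
    PBV.ev_pow (2 * Real.exp 4) (show 3 / 4 + δ < 3 / 4 + ε by linarith)]
    with j h1 h2 h3 w hw s hs t ht
  have hj : (1 : ℝ) ≤ j := by exact_mod_cast h2
  have hlog : 0 ≤ Real.log (j + 1 : ℕ) := Real.log_nonneg (by push_cast; linarith)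
  have k1 := H1 j h1 w hw (I * s) (I * t) (by simp; positivity)
    (by simp [abs_of_nonneg hs.1]; linarith [hs.2]) (by simp; positivity)
    (by simp [abs_of_nonneg ht.1]; push_cast at hlog; linarith [ht.2])
  refine k1.trans (le_trans ?_ h3)
  have e1 : (I * (t : ℂ)).im = t := by simp
  rw [e1, abs_of_nonneg ht.1]
  calc ((j + 1 : ℕ) : ℝ) ^ (3 / 4 + δ) * Real.exp (4 * t) ≤ (2 * (j : ℝ) ^ (3 / 4 + δ)) * Real.exp 4 := by
        refine mul_le_mul (PBV.succ_pow (by linarith) (by linarith) h2)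
          (Real.exp_le_exp.2 (by linarith [ht.2])) (Real.exp_pos _).le (by positivity)
    _ = _ := by ring

/-- **(V0)** -/
theorem v0x_of (hX : PBU.UX famV) : V0X 2 := by
  obtain ⟨m0, H0⟩ := fVz_le hX (show (0 : ℝ) < 1 / 10 by norm_num)
  obtain ⟨m1, H1⟩ := fVxz_le hX (show (0 : ℝ) < 1 / 10 by norm_num)
  have hl := NUP1.lpos
  have key : ∀ j : ℕ, 1 ≤ j → ∀ y : ℝ, |y| ≤ 3 / 20 * Real.log j + 1 →
      (j : ℝ) ^ (3 / 4 + 1 / 10 : ℝ) * Real.exp (4 * |y|) ≤ Real.exp 4 * (j : ℝ) ^ (3 / 2 : ℝ) := by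
    intro j hj y hy
    have hj' : (0 : ℝ) < j := by exact_mod_cast hj
    have hj1 : (1 : ℝ) ≤ j := by exact_mod_cast hj
    have e1 : (j : ℝ) ^ (3 / 4 + 1 / 10 : ℝ) * (j : ℝ) ^ (3 / 5 : ℝ) ≤ (j : ℝ) ^ (3 / 2 : ℝ) := by
      rw [← Real.rpow_add hj']
      exact Real.rpow_le_rpow_of_exponent_le hj1 (by norm_num)
    have e2 : Real.exp (4 * |y|) ≤ Real.exp 4 * (j : ℝ) ^ (3 / 5 : ℝ) := by
      rw [Real.rpow_def_of_pos hj', ← Real.exp_add]
      refine Real.exp_le_exp.2 ?_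
      linarith
    calc (j : ℝ) ^ (3 / 4 + 1 / 10 : ℝ) * Real.exp (4 * |y|) ≤
        (j : ℝ) ^ (3 / 4 + 1 / 10 : ℝ) * (Real.exp 4 * (j : ℝ) ^ (3 / 5 : ℝ)) :=
          mul_le_mul_of_nonneg_left e2 (by positivity)
      _ = Real.exp 4 * ((j : ℝ) ^ (3 / 4 + 1 / 10 : ℝ) * (j : ℝ) ^ (3 / 5 : ℝ)) := by ring
      _ ≤ _ := mul_le_mul_of_nonneg_left e1 (Real.exp_pos _).le
  constructor
  · filter_upwards [eventually_ge_atTop m0, eventually_ge_atTop 1,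
      PBV.ev_pow (Real.exp 4) (show (3 / 2 : ℝ) < 2 by norm_num)] with j h1 h2 h3 w hw z hz hz'
    exact (H0 j h1 w hw z (by linarith) (by linarith)).trans ((key j h2 _ hz').trans h3)
  · filter_upwards [eventually_ge_atTop m1, eventually_ge_atTop 1,
      PBV.ev_pow (2 * Real.exp 4) (show (3 / 2 : ℝ) < 2 by norm_num)]
      with j h1 h2 h3 w hw s hs z hz hz'
    have hj : (1 : ℝ) ≤ j := by exact_mod_cast h2
    have hlog := log_succ_mono j h2
    have k1 := H1 j h1 w hw (I * s) z (by simp; positivity)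
      (by simp [abs_of_nonneg hs.1]; linarith [hs.2]) (by linarith) (by linarith)
    refine k1.trans (le_trans ?_ h3)
    calc ((j + 1 : ℕ) : ℝ) ^ (3 / 4 + 1 / 10 : ℝ) * Real.exp (4 * |z.im|) ≤
        (2 * (j : ℝ) ^ (3 / 4 + 1 / 10 : ℝ)) * Real.exp (4 * |z.im|) :=
          mul_le_mul_of_nonneg_right (PBV.succ_pow (by norm_num) (by norm_num) h2) (Real.exp_pos _).le
      _ = 2 * ((j : ℝ) ^ (3 / 4 + 1 / 10 : ℝ) * Real.exp (4 * |z.im|)) := by ring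
      _ ≤ 2 * (Real.exp 4 * (j : ℝ) ^ (3 / 2 : ℝ)) :=
          mul_le_mul_of_nonneg_left (key j h2 _ hz') (by norm_num)
      _ = _ := by ring

/-- **no hypothesis** -/
theorem v1x : V1X := v1x_of uxV

/-- **no hypothesis** -/
theorem v0x : V0X 2 := v0x_of uxV

end WX

end
end
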