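import Pool.Agent.REL.PB.EPrOf
import Pool.Agent.REL.WX.RecXF
import Pool.Agent.REL.PV.AnV
import Pool.Agent.REL.PV.LevFV
import Pool.Agent.REL.PV.MeanV
import Pool.Agent.REL.PV.ZLegV
import Pool.Agent.REL.WND.ZLegZ
import Pool.Agent.REL.WND.ZLegFX
import Pool.Agent.REL.WX.U01
import Pool.Agent.REL.WND.HDVZ
import Pool.Agent.REL.WND.LevV
import Pool.Agent.REL.WND.FunW
import Pool.Agent.REL.WND.FunWI
import Pool.Agent.REL.PB.Rec2F
import Pool.Agent.REL.PV.FNval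
set_option linter.all false

/- part: Pool.Agent.WX.FunX -/
section
/-!
# Plan X: the function side of plan V with a twist, uniform in an index (helper12)

`f i j` = the function of plan V with `j` rows at `0`, twist `d i`, without the monodromy; `Psi i j z x` =
the same with one more row at `x` (both groups), anti-legs at `0`.

* `FunHX d C f Psi`: zeros at the rows and crude bound (`FD`), `Psi i j z 0 = f i (j + 1) z`, (A1)
  `Psi i j (x + 3l) x = f i j x`, (V1) `‖Psi i j (i t) x‖ ≤ j^(3/4+ε)`, all uniform in `i`;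
* `EPrX p d Psi`: the first order identity with the twisted derivative;
* **`FunHX.out`**: the two-step relation of ALL the coefficients `|k| ≤ K` (`nuX κ = 3/8 - (2/3) κ²`,
  `κ = k + d i`), the parity relation, the crude bound and the expansion, one constant for all indices.
-/

set_option autoImplicit false

noncomputable section

open Complex MeasureTheory Set Filter Topology
open Pool.Agent.PB.Rec (EL EL_coef EL_add EL_sub EL_le ReR seg Bx)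
open PBV (FD aL σL aL_pos σL_pos σL_lt two_σL pi_div_aL kL log_ev bK aK pow_ev one_le_aL ball_box rP rM
  field_diff mem_seg0)

namespace WXF

variable {ι : Type*}

/-- the exponent of the mode `κ` -/
def nuX (κ : ℝ) : ℝ := 3 / 8 - 2 / 3 * κ ^ 2

/-- the hypotheses of the function side, with a twist -/
structure FunHX (d : ι → ℝ) (C : ℝ) (f : ι → ℕ → ℂ → ℂ) (Psi : ι → ℕ → ℂ → ℂ → ℂ) : Prop where
  dd : ∀ i, |d i| ≤ 1
  ff : ∀ᶠ j : ℕ in atTop, ∀ i, FD aL σL 1 0 C j (f i j)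
  fp : ∀ᶠ j : ℕ in atTop, ∀ i, ∀ x ∈ seg 0, FD aL σL 1 0 C j (fun z => Psi i j z x)
  p0 : ∀ᶠ j : ℕ in atTop, ∀ i z, Psi i j z 0 = f i (j + 1) z
  a1 : ∀ᶠ j : ℕ in atTop, ∀ i, ∀ x ∈ seg 0, Psi i j (x + aL) x = f i j x
  up : ∀ ε : ℝ, 0 < ε → ∀ᶠ j : ℕ in atTop, ∀ i, ∀ x ∈ seg 0, ∀ t ∈ Icc (0 : ℝ) 1,
    ‖Psi i j (I * t) x‖ ≤ (j : ℝ) ^ (3 / 4 + ε)

/-- (E_V) with a twist, first order form, uniform in the index -/
def EPrX (p : ℝ) (d : ι → ℝ) (Psi : ι → ℕ → ℂ → ℂ → ℂ) : Prop :=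
  ∃ C' : ℝ, ∀ᶠ j : ℕ in atTop, ∀ i, ∀ s ∈ Icc (0 : ℝ) 1, ∀ t ∈ Icc (0 : ℝ) 1, ∃ D : ℂ,
    HasDerivAt (fun s : ℝ => Psi i j (I * t) (I * s)) D s ∧
    ‖D - (1 / j : ℝ) * OpX (8 / 3) (1 / 2) (1 / 8) (d i) (fun z => Psi i j z (I * s))
      (exp (I * (8 / 3 : ℝ) * (I * s))) (I * t)‖ ≤ C' * (j : ℝ) ^ (p - 1)

variable {d : ι → ℝ} {C : ℝ} {f : ι → ℕ → ℂ → ℂ} {Psi : ι → ℕ → ℂ → ℂ → ℂ}

/-- K-terms of `f` -/
theorem FunHX.kf (h : FunHX d C f Psi) (e : ℝ) {ρ : ℝ} (hρ : 0 ≤ ρ) (hρσ : ρ < σL) :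
    ∃ K0 : ℕ, ∀ K ≥ K0, ∀ᶠ j : ℕ in atTop, ∀ i, ∀ z : ℂ, |z.re| ≤ aL + ρ → |z.im| ≤ 2 →
      ‖f i j z - EL (8 / 3) K (bK (f i) j) z‖ ≤ (j : ℝ) ^ (-e) := by
  obtain ⟨K0, hK0⟩ := kL C e hρ hρσ
  refine ⟨K0, fun K hK => ?_⟩
  obtain ⟨V, -, hV⟩ := hK0 K hK
  filter_upwards [hV, h.ff, log_ev (25 / 3)] with j h1 h2 h3 i z hz hzi
  exact (h1 _ (h2 i)).1 z hz (by linarith)

/-- K-terms of `Psi (., x)` -/
theorem FunHX.kp (h : FunHX d C f Psi) (e : ℝ) {ρ : ℝ} (hρ : 0 ≤ ρ) (hρσ : ρ < σL) :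
    ∃ K0 : ℕ, ∀ K ≥ K0, ∀ᶠ j : ℕ in atTop, ∀ i, ∀ x ∈ seg 0, ∀ z : ℂ, |z.re| ≤ aL + ρ → |z.im| ≤ 2 →
      ‖Psi i j z x - EL (8 / 3) K (aK (Psi i) j x) z‖ ≤ (j : ℝ) ^ (-e) := by
  obtain ⟨K0, hK0⟩ := kL C e hρ hρσ
  refine ⟨K0, fun K hK => ?_⟩
  obtain ⟨V, -, hV⟩ := hK0 K hK
  filter_upwards [hV, h.fp, log_ev (25 / 3)] with j h1 h2 h3 i x hx z hz hzi
  exact (h1 _ (h2 i x hx)).1 z hz (by linarith)

/-- `Psi` in the box -/
theorem FunHX.bd (h : FunHX d C f Psi) {ε : ℝ} (hε : 0 < ε) : ∀ᶠ j : ℕ in atTop, ∀ i, ∀ x ∈ seg 0,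
    ∀ z : ℂ, |z.re| ≤ aL → |z.im| ≤ 2 → ‖Psi i j z x‖ ≤ (j : ℝ) ^ (3 / 4 + ε) := by
  obtain ⟨K0, hK0⟩ := kL C 1 (ρ := 0) le_rfl σL_pos
  obtain ⟨V, hV0, hV⟩ := hK0 K0 le_rfl
  set E : ℝ := (2 * K0 + 1) * Real.exp (|(8 / 3 : ℝ)| * K0 * 2) with hE
  have hE0 : 0 < E := by positivity
  filter_upwards [hV, h.fp, h.up (ε / 2) (by positivity), log_ev (25 / 3),
    pow_ev (show 0 < ε / 2 by positivity) (1 + E * (V * 2)), eventually_ge_atTop 1]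
    with j h1 h2 h3 h4 h5 h6 i x hx z hz hzi
  have hj1 : (1 : ℝ) ≤ j := by exact_mod_cast h6
  have hj0 : (0 : ℝ) < j := by linarith
  obtain ⟨k1, k2⟩ := h1 _ (h2 i x hx)
  set S : ℝ := (j : ℝ) ^ (3 / 4 + ε / 2) with hS
  have hS1 : 1 ≤ S := Real.one_le_rpow hj1 (by positivity)
  have hm1 : (j : ℝ) ^ (-(1 : ℝ)) ≤ 1 := Real.rpow_le_one_of_one_le_of_nonpos hj1 (by norm_num)
  have e1 := k1 z (by linarith) (by linarith)
  have e2 : ‖EL (8 / 3) K0 (PBV.kc aL σL (1 / 5) j (fun z => Psi i j z x)) z‖ ≤ E * (V * (2 * S)) := by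
    refine (EL_le (fun k hk => (k2 S (h3 i x hx) k hk).trans
      (mul_le_mul_of_nonneg_left (show S + (j : ℝ) ^ (-(1 : ℝ)) ≤ 2 * S by linarith) hV0.le)) z).trans ?_
    rw [hE]
    gcongr
  have e3 : Psi i j z x = (Psi i j z x - EL (8 / 3) K0 (PBV.kc aL σL (1 / 5) j (fun z => Psi i j z x)) z) +
      EL (8 / 3) K0 (PBV.kc aL σL (1 / 5) j (fun z => Psi i j z x)) z := by ring
  have e4 : ‖Psi i j z x‖ ≤ (1 + E * (V * 2)) * S := by
    rw [e3]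
    refine (norm_add_le _ _).trans ?_
    have : E * (V * (2 * S)) = E * (V * 2) * S := by ring
    rw [this] at e2
    rw [add_mul, one_mul]
    linarith
  calc ‖Psi i j z x‖ ≤ (1 + E * (V * 2)) * S := e4
    _ ≤ (j : ℝ) ^ (ε / 2) * S := by gcongr
    _ = (j : ℝ) ^ (3 / 4 + ε) := by
      rw [hS, ← Real.rpow_add hj0]
      congr 1
      ring

/-- the function and its derivatives in the legs -/
theorem FunHX.dbd (h : FunHX d C f Psi) {ε : ℝ} (hε : 0 < ε) : ∀ᶠ j : ℕ in atTop, ∀ i, ∀ x ∈ seg 0,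
    ∀ t ∈ Icc (0 : ℝ) 1, ‖Psi i j (I * t) x‖ ≤ (j : ℝ) ^ (3 / 4 + ε) ∧
      ‖deriv (fun z => Psi i j z x) (I * t)‖ ≤ (j : ℝ) ^ (3 / 4 + ε) ∧
      ‖deriv (deriv fun z => Psi i j z x) (I * t)‖ ≤ (j : ℝ) ^ (3 / 4 + ε) := by
  filter_upwards [h.bd (show 0 < ε / 2 by positivity), h.fp, h.up ε hε, log_ev (20 / 3),
    pow_ev (show 0 < ε / 2 by positivity) 16, eventually_ge_atTop 1] with j h1 h2 h2' h3 h4 h5 i x hx t ht
  have hj1 : (1 : ℝ) ≤ j := by exact_mod_cast h5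
  have hj0 : (0 : ℝ) < j := by linarith
  have key := Pool.Agent.PB.Rec.cauchy2 (f := fun z => Psi i j z x) (z := I * t) (r := 1 / 2)
    (ε := (j : ℝ) ^ (3 / 4 + ε / 2)) (by norm_num)
    (fun z hz => ((h2 i x hx).df z (by
      have := ball_box ht hz
      have := σL_pos
      linarith) (by
      rw [two_σL]
      have := ball_box ht hz
      linarith)).differentiableWithinAt)
    (fun z hz => h1 i x hx z (ball_box ht hz).1 (ball_box ht hz).2)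
  have e0 : 0 < (j : ℝ) ^ (3 / 4 + ε / 2) := by positivity
  have e1 : (j : ℝ) ^ (3 / 4 + ε) = (j : ℝ) ^ (ε / 2) * (j : ℝ) ^ (3 / 4 + ε / 2) := by
    rw [← Real.rpow_add hj0]
    congr 1
    ring
  refine ⟨h2' i x hx t ht, ?_, ?_⟩
  · refine key.1.trans ?_
    rw [e1, div_le_iff₀ (by norm_num)]
    nlinarith
  · refine key.2.trans ?_
    rw [e1, div_le_iff₀ (by norm_num)]
    nlinarith

/-- **the output of the function side of plan V with a twist** -/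
theorem FunHX.out (h : FunHX d C f Psi) {p : ℝ} (hp0 : 0 ≤ p) (hp : p ≤ 1) (hE : EPrX p d Psi) :
    ∃ (K : ℕ) (C' : ℝ), 0 ≤ C' ∧
      (∀ᶠ j : ℕ in atTop, ∀ i, ∀ k ∈ Finset.Icc (-(K : ℤ)) K,
        ‖bK (f i) (j + 2) k * (1 - ((2 * nuX (k + d i) / j : ℝ) : ℂ)) - bK (f i) j k‖ ≤
          C' * (j : ℝ) ^ (p - 1)) ∧
      (∀ᶠ j : ℕ in atTop, ∀ i, ∀ k ∈ Finset.Icc (-(K : ℤ)) K,
        ‖bK (f i) (j + 1) k - (-1) ^ k * bK (f i) j k‖ ≤ C') ∧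
      (∀ᶠ j : ℕ in atTop, ∀ i, ∀ k ∈ Finset.Icc (-(K : ℤ)) K, ‖bK (f i) j k‖ ≤ C' * (j : ℝ) ^ (1 : ℝ)) ∧
      ∀ᶠ j : ℕ in atTop, ∀ i, ∀ z : ℂ, |z.re| ≤ aL → |z.im| ≤ 2 →
        ‖f i j z - EL (8 / 3) K (bK (f i) j) z‖ ≤ (j : ℝ) ^ (-(1 : ℝ)) := by
  have hpi := Real.pi_pos
  obtain ⟨C1, hE⟩ := hE
  set ρ : ℝ := σL / 2 with hρ
  have hρ0 : 0 < ρ := by
    have := σL_pos
    positivity
  have hρ1 : ρ < σL := by
    have := σL_pos
    linarith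
  obtain ⟨K1, hK1⟩ := h.kf 1 hρ0.le hρ1
  obtain ⟨K2, hK2⟩ := h.kp 1 hρ0.le hρ1
  set K := max K1 K2 with hK
  have hk1 := hK1 K (le_max_left _ _)
  have hk2 := hK2 K (le_max_right _ _)
  set C2 : ℝ := max C1 1 with hC2
  have hC21 : 1 ≤ C2 := le_max_right _ _
  have hC2' : C1 ≤ C2 := le_max_left _ _
  have pw1 : ∀ j : ℕ, 1 ≤ j → (j : ℝ) ^ (-(1 : ℝ)) ≤ (j : ℝ) ^ (p - 1) := fun j hj =>
    Real.rpow_le_rpow_of_exponent_le (by exact_mod_cast hj) (by linarith)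
  have key := chainX (w := 8 / 3) (L := aL) (R := aL + ρ) (γ := 1 / 2) (α := 1 / 8) (p := p) (e0 := 1)
    (C := C2) (by norm_num) (by unfold aL; ring)
    (by rw [abs_of_pos aL_pos]; linarith) hp (by norm_num) hp (by linarith)
    K h.dd (n := f) (Psi := Psi) (b := fun i => bK (f i)) (a := fun i => aK (Psi i)) ?_ ?_ ?_ ?_ ?_ ?_ ?_
  · obtain ⟨C', hC'0, h1, h2, h3⟩ := key
    refine ⟨K, C', hC'0, ?_, ?_, h3, ?_⟩
    · filter_upwards [h1] with j hj i k hk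
      have e1 : (1 : ℂ) - ((2 * nuX (k + d i) / j : ℝ) : ℂ) = 1 - 4 * lamX (8 / 3) (1 / 2) (1 / 8) (d i) k / j := by
        unfold lamX nuX
        push_cast
        ring
      rw [e1]
      exact hj i k hk
    · filter_upwards [h2] with j hj i k hk
      have e1 := hj i k hk
      rw [sub_self, Real.rpow_zero, mul_one] at e1
      exact e1
    · filter_upwards [hk1] with j hj i z hz hzi
      exact hj i z (by linarith) hzi
  · -- differentiability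
    filter_upwards [h.fp, log_ev (20 / 3)] with j hj hL i x hx z hz
    refine ((hj i x hx).df z ?_ ?_).differentiableWithinAt
    · linarith [hz.1]
    · rw [two_σL]
      linarith [hz.2]
  · -- K-terms of Psi
    filter_upwards [hk2, eventually_ge_atTop 1] with j hj hj1 i x hx z hz
    refine (hj i x hx z hz.1.le hz.2.le).trans ((pw1 j hj1).trans ?_)
    have : 0 ≤ (j : ℝ) ^ (p - 1) := by positivity
    nlinarith
  · filter_upwards [hk1, eventually_ge_atTop 1] with j hj hj1 i z hz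
    refine (hj i z hz.1.le hz.2.le).trans ((pw1 j hj1).trans ?_)
    have : 0 ≤ (j : ℝ) ^ (p - 1) := by positivity
    nlinarith
  · filter_upwards [h.up (1 / 4) (by norm_num)] with j hj i x hx t ht
    refine (hj i x hx t ht).trans ?_
    rw [show (3 / 4 : ℝ) + 1 / 4 = 1 by norm_num]
    have : 0 ≤ (j : ℝ) ^ (1 : ℝ) := by positivity
    nlinarith
  · filter_upwards [hE] with j hj i s hs t ht
    obtain ⟨D, h1, h2⟩ := hj i s hs t ht
    refine ⟨D, h1, h2.trans ?_⟩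
    have : 0 ≤ (j : ℝ) ^ (p - 1) := by positivity
    gcongr
  · filter_upwards [h.p0] with j hj i z _
    exact hj i z
  · filter_upwards [h.a1] with j hj i x hx
    exact hj i x hx

end WXF
end
end


/- part: Pool.Agent.WX.CloseX -/
section
/-!
# Plan X: `(E_V)` with an arbitrary coefficient (helper91)

Weight `PVLX.wG (PVX.ZFV ep) cf e1 J j s t` with the one body functions of plan V (`PV.ZFV ep`), coefficient
`cf j s t n`.

* `mainX`: the form of `PBEM.E2V_of`;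
* `HDX`, `OneX`, `ZLX`, `LVX`: the four inputs (first Ward identity, mass, derivatives in the height of
  the legs, identities of level two);
* **`closeXG`**: `PVF.E2V p Psi`, `1 / 10 ≤ p ≤ 1`;
* `cX zz`: the coefficient `ζ ^ (m - n)` times the prefactor of plan V, `m = j + 1`, `ζ = zz j`.
-/

set_option autoImplicit false
set_option linter.unusedSectionVars false

noncomputable section

open Complex MeasureTheory Filter Topology Set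
open scoped ENNReal

namespace WX

open NUO NUP1S NUP1S.Ab NUP1S.AbC NUGC PBF PBFunc PBU PBWP PBLX PVLX PV PVL
open NUP1 hiding Kd
open PBEI (rowS y1 y2 Apl Ami Bch)
open PBV (wm)
open WND (tw norm_tw_mul)

attribute [local instance] NUSea.seaP

/-- the weight of plan V with the coefficient `cf` -/
abbrev wX (ep : ℝ) (cf : ℕ → ℝ → ℝ → ℕ → ℂ) (e1 J : ℝ) (j : ℕ) (s t : ℝ) :
    CfN (2 * (j + 1)) → ℂ := wG (PVX.ZFV ep) cf e1 J j s t

theorem wX_cFV (ep e1 J : ℝ) : wX ep PVX.cFV e1 J = PVX.wSV ep e1 J := rfl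

/-- **the main term**, coefficient `cf` -/
def mainX (cf : ℕ → ℝ → ℝ → ℕ → ℂ) (ep e1 J : ℝ) (j : ℕ) (s t : ℝ) : ℂ :=
  (∫ q, F (mN (2 * (j + 1))) (wX ep cf e1 J j s t) (fun ω =>
      Vp (rh0 j s) (eC e1 J j) (Apl (rowS j s) 0 q) ω * Vp (rh0 j s) (eC e1 J j) (Bch q) ω) ∂wm) +
    ((∫ q, F (mN (2 * (j + 1))) (wX ep cf e1 J j s t) (fun ω =>
        Vm (eC e1 J j) (Ami (rowS j s) 0 q) ω * Vm (eC e1 J j) (Bch q) ω) ∂wm) +
      2 * F (mN (2 * (j + 1))) (wX ep cf e1 J j s t) (fun ω =>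
        Vm (eC e1 J j) (PBEI.uF (rowS j s) 0) ω * SN (NUSea.O.par0 (j + 1)) (eC e1 J j) ω) -
      ((PBV.rP j s : ℂ) - (PBV.rM j s : ℂ)) / 2 * F (mN (2 * (j + 1))) (wX ep cf e1 J j s t)
        (fun ω => SN (NUSea.O.par0 (j + 1)) (eC e1 J j) ω *
          SN (NUSea.O.par0 (j + 1)) (eC e1 J j) ω)) +
    F (mN (2 * (j + 1))) (wX ep cf e1 J j s t)
      (Vp (rh0 j s) (eC e1 J j) (fun z => PBEI.qF (rowS j s) 0 t z - PBEI.qF (rowS j s) 0 0 z))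

/-- **input 1**: the first Ward identity -/
def HDX (Psi : ℕ → ℂ → ℂ → ℂ) (cf : ℕ → ℝ → ℝ → ℕ → ℂ) (p : ℝ) : Prop :=
  ∃ a0 : ℝ, 0 < a0 ∧ ∀ ep e1 J : ℝ, SmallP a0 ep e1 J → ∃ C : ℝ, 0 ≤ C ∧
    ∀ᶠ j : ℕ in atTop, ∀ s ∈ Icc (0 : ℝ) 1, ∀ t ∈ Icc (0 : ℝ) 1, ∃ D : ℂ,
      HasDerivAt (fun s : ℝ => Psi j (I * t) (I * s)) D s ∧
      ‖((j + 1 : ℝ) : ℂ) * D - mainX cf ep e1 J j s t‖ ≤ C * (j : ℝ) ^ p

/-- **input 2**: the mass of the family is the function -/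
def OneX (Psi : ℕ → ℂ → ℂ → ℂ) (cf : ℕ → ℝ → ℝ → ℕ → ℂ) : Prop :=
  ∃ a0 : ℝ, 0 < a0 ∧ ∀ ep e1 J : ℝ, SmallP a0 ep e1 J →
    ∀ᶠ j : ℕ in atTop, ∀ s ∈ Icc (0 : ℝ) 1, ∀ t ∈ Icc (0 : ℝ) 1,
      F (mN (2 * (j + 1))) (wX ep cf e1 J j s t) (fun _ => 1) = Psi j (I * t) (I * s)

/-- **input 3**: the derivatives in the height of the legs -/
def ZLX (Psi : ℕ → ℂ → ℂ → ℂ) (cf : ℕ → ℝ → ℝ → ℕ → ℂ) (p : ℝ) : Prop :=
  ∃ a0 : ℝ, 0 < a0 ∧ ∀ ep e1 J : ℝ, SmallP a0 ep e1 J → ∃ C : ℝ, 0 ≤ C ∧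
    ∀ᶠ j : ℕ in atTop, ∀ s ∈ Icc (0 : ℝ) 1, ∀ t ∈ Icc (0 : ℝ) 1,
      ‖F (mN (2 * (j + 1))) (wX ep cf e1 J j s t) (Vp (rh0 j s) (eC e1 J j) (PBEI.h0T t)) +
        (I * deriv (fun z => Psi j z (I * s)) (I * t) -
          PVLg.p0V t * Psi j (I * t) (I * s))‖ ≤ C * (j : ℝ) ^ p ∧
      ‖F (mN (2 * (j + 1))) (wX ep cf e1 J j s t) (fun ω =>
          Vp (rh0 j s) (eC e1 J j) (PBEI.h0T t) ω * Vp (rh0 j s) (eC e1 J j) (PBEI.h0T t) ω) +
        F (mN (2 * (j + 1))) (wX ep cf e1 J j s t) (Vp (rh0 j s) (eC e1 J j) (PBEI.g2T t)) -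
        (-deriv (deriv fun z => Psi j z (I * s)) (I * t) -
          2 * PVLg.p0V t * (I * deriv (fun z => Psi j z (I * s)) (I * t)) +
          (PVLg.p0V t ^ 2 - PVLg.p1V t) * Psi j (I * t) (I * s))‖ ≤ C * (j : ℝ) ^ p

/-- **input 4**: the identities of level two -/
def LVX (cf : ℕ → ℝ → ℝ → ℕ → ℂ) : Prop :=
  ∃ a0 : ℝ, 0 < a0 ∧ ∀ ep e1 J : ℝ, SmallP a0 ep e1 J →
      ∃ (K th dp : ℕ → ℝ) (C : ℝ), 0 ≤ C ∧
        (∀ᶠ j : ℕ in atTop, ∀ s ∈ Icc (0 : ℝ) 1, ∀ t ∈ Icc (0 : ℝ) 1,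
          PBEM.LevD y1 y2 (19 / 10) (mN (2 * (j + 1))) (wX ep cf e1 J j s t)
            (Vp (rh0 j s) (eC e1 J j)) (Vm (eC e1 J j)) (SN (NUSea.O.par0 (j + 1)) (eC e1 J j))
            (K j) (th j) (dp j) (fun u => PBEI.mfL t u - PBEI.mfL 0 u) PBEI.sg' wm
            (Apl (rowS j s) 0) (Ami (rowS j s) 0) Bch) ∧
        ∀ e : ℝ, 1 / 10 ≤ e → e ≤ 1 → ∀ j : ℕ, 1 ≤ j →
          2 * K j * th j ≤ C * (j : ℝ) ^ e ∧ dp j ≤ C * (j : ℝ) ^ e

/-- **`(E_V)`, arbitrary coefficient** -/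
theorem closeXG {Psi : ℕ → ℂ → ℂ → ℂ} {cf : ℕ → ℝ → ℝ → ℕ → ℂ} {p : ℝ} (hp : 1 / 10 ≤ p)
    (hp1 : p ≤ 1) (hL : LVX cf) (hD : HDX Psi cf p) (hO : OneX Psi cf) (hZ : ZLX Psi cf p) :
    PVF.E2V p Psi := by
  obtain ⟨a1, ha1, H1⟩ := hL
  obtain ⟨a2, ha2, H2⟩ := hD
  obtain ⟨a3, ha3, H3⟩ := hZ
  obtain ⟨a4, ha4, H4⟩ := hO
  obtain ⟨a0, h0⟩ : ∃ a0 : ℝ, a0 = min (min a1 a2) (min (min a3 a4) (1 / 10)) := ⟨_, rfl⟩
  have ha0 : 0 < a0 := by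
    rw [h0]
    exact lt_min (lt_min ha1 ha2) (lt_min (lt_min ha3 ha4) (by norm_num))
  have e1' : a0 ≤ a1 := by rw [h0]; exact (min_le_left _ _).trans (min_le_left _ _)
  have e2' : a0 ≤ a2 := by rw [h0]; exact (min_le_left _ _).trans (min_le_right _ _)
  have e3' : a0 ≤ a3 := by
    rw [h0]; exact (min_le_right _ _).trans ((min_le_left _ _).trans (min_le_left _ _))
  have e5' : a0 ≤ a4 := by
    rw [h0]; exact (min_le_right _ _).trans ((min_le_left _ _).trans (min_le_right _ _))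
  have e4' : a0 ≤ 1 / 10 := by rw [h0]; exact (min_le_right _ _).trans (min_le_right _ _)
  obtain ⟨J, hJ0, hJ⟩ : ∃ J : ℝ, 0 ≤ J ∧ Real.exp (-(2 * Real.pi * J)) ≤ a0 / 10 := by
    have h1 : Tendsto (fun J : ℝ => Real.exp (-(2 * Real.pi * J))) atTop (𝓝 0) := by
      refine Real.tendsto_exp_atBot.comp ?_
      exact (tendsto_neg_atTop_atBot).comp (tendsto_id.const_mul_atTop (by positivity))
    have h2 := h1.eventually (Iic_mem_nhds (show (0 : ℝ) < a0 / 10 by positivity))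
    obtain ⟨J, h3, h4⟩ := (h2.and (eventually_ge_atTop (0 : ℝ))).exists
    exact ⟨J, h4, h3⟩
  have hP : SmallP a0 (a0 / 10) (a0 / 10) J :=
    ⟨by positivity, by linarith, by positivity, by linarith, hJ0, by linarith⟩
  obtain ⟨K, th, dp, C1, hC1, hL, hs⟩ := H1 _ _ _ (hP.mono e1')
  obtain ⟨C2, hC2, hD⟩ := H2 _ _ _ (hP.mono e2')
  obtain ⟨C3, hC3, hZ⟩ := H3 _ _ _ (hP.mono e3')
  have h1' := H4 _ _ _ (hP.mono e5')
  refine PBEM.E2V_of (a' := 19 / 10) (C := C1 + C2 + C3) (by norm_num) (by norm_num)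
    (Ω := fun j => CfN (2 * (j + 1))) (μ := fun j => mN (2 * (j + 1)))
    (w := fun j s t => wX (a0 / 10) cf (a0 / 10) J j s t)
    (V := fun j s _ => Vp (rh0 j s) (eC (a0 / 10) J j))
    (Vm := fun j _ _ => Vm (eC (a0 / 10) J j))
    (S := fun j _ _ => SN (NUSea.O.par0 (j + 1)) (eC (a0 / 10) J j))
    (K := K) (th := th) (δp := dp) (δ0 := fun j => C2 * (j : ℝ) ^ p)
    (δ1 := fun j => C3 * (j : ℝ) ^ p) (p0 := PVLg.p0V) (p1 := PVLg.p1V)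
    (fun t _ => PV.mV_h0 t) (fun t _ => PV.mV_g2_deriv t) hL ?_ ?_ ?_ ?_
  · filter_upwards [hD] with j h s hs t ht
    obtain ⟨D, h1, h2⟩ := h s hs t ht
    exact ⟨D, h1, h2⟩
  · filter_upwards [h1'] with j h s hs t ht
    have e := h s hs t ht
    have e' : F (mN (2 * (j + 1))) (wX (a0 / 10) cf (a0 / 10) J j s t) (fun _ => 1) -
        Psi j (I * t) (I * s) = 0 := sub_eq_zero.2 e
    show ‖F (mN (2 * (j + 1))) (wX (a0 / 10) cf (a0 / 10) J j s t) (fun _ => 1) -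
        Psi j (I * t) (I * s)‖ ≤ _
    rw [e', norm_zero]
    positivity
  · filter_upwards [hZ] with j h s hs t ht
    exact h s hs t ht
  · filter_upwards [eventually_ge_atTop 1] with j hj
    obtain ⟨h1, h2⟩ := hs p hp hp1 j hj
    have hx : (0 : ℝ) ≤ (j : ℝ) ^ p := by positivity
    refine ⟨?_, ?_, ?_, ?_, ?_⟩
    · exact mul_le_mul_of_nonneg_right (by linarith) hx
    · exact h1.trans (mul_le_mul_of_nonneg_right (by linarith) hx)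
    · exact h2.trans (mul_le_mul_of_nonneg_right (by linarith) hx)
    · exact mul_nonneg hC3 hx
    · exact mul_le_mul_of_nonneg_right (by linarith) hx

/-! ### the sector weight -/

/-- the coefficient `ζ ^ (m - n)` times the prefactor of plan V, `m = j + 1`, `ζ = zz j` -/
def cX (zz : ℕ → ℂ) (j : ℕ) (s t : ℝ) (n : ℕ) : ℂ :=
  tw (zz j) (j + 1) n * PfV (I * t) 0 (rowS j s) (rowS j s)

theorem norm_cX {zz : ℕ → ℂ} (h : ∀ j, ‖zz j‖ = 1) (j : ℕ) (s t : ℝ) (n : ℕ) :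
    ‖cX zz j s t n‖ = ‖PVX.cFV j s t n‖ := norm_tw_mul (h j) _ _ _

end WX

end
end


/- part: Pool.Agent.WND.ZLegVX -/
section
/-!
# Plan X, (Z) at the function with one anti-leg, winding weight (helper61)

Rows `i s, 0, …, 0` (`j + 1` rows), legs at `i t`, anti-legs at `0`, coefficient `u j n`,
`‖u j n‖ = 1`.

* `NvU u m z x`: the function `PfV z 0 x x * ∑ n ≤ 2 m, u n * DZ .. n`, literally;
* `NvU_FF`: its values on the imaginary axis;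
* **`zlegVu`**: the two derivative lines of `zlegV_of`, for any `f` with
  `f j (i s) (i τ) = NvU (u j) (j + 1) (i τ) (i s, 0, …, 0)`;
* **`F_oneVu`**: `F[1] = f j (i s) (i t)`;
* **`zlegVX`**, `F_oneVX`: `u j n = ζ ^ (j + 1 - n)`, `ζ = zz j`, `‖zz j‖ = 1`.
-/

set_option autoImplicit false
set_option linter.unusedSectionVars false
set_option linter.unusedVariables false

noncomputable section

open Complex MeasureTheory Finset Filter Topology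
open scoped ENNReal

namespace PVLg

open NUO NUP1S NUP1S.AbC
open _root_.NUGC hiding ex
open NUCR PBF PBFunc
open PBI (Stt)
open NUMF (l P)
open PBU (Fam UB DN BC nu1)
open PBLg
open PBX (Lg XX gP DZ Rws)
open Pool.Agent.PB (Pf cn)
open PBR (rh)
open PBL (mu1)
open PV (LV ZV AV PfV famV)
open WND (T0u T1u T2u WTu T0u_eq tw norm_tw)

attribute [local instance] NUSea.seaP

/-- the function with the coefficient `u n` -/
def NvU {m : ℕ} (u : ℕ → ℂ) (z : ℂ) (x : Fin m → ℂ) : ℂ :=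
  PfV z 0 x x * ∑ n ∈ range (2 * m + 1), u n * DZ (cn m) (cn m) (LV z 0) (LV z 0) x x n

/-- **the function on the imaginary axis** -/
theorem NvU_FF {ep e1 J : ℝ} (hep : 0 < ep) (hep1 : ep ≤ 1 / 100) (he : 0 < e1)
    (he1 : e1 ≤ 1 / 100) (hJ : 0 ≤ J) : ∀ᶠ j : ℕ in atTop, ∀ (u : ℕ → ℂ) (s τ : ℝ),
    NvU u (I * τ) (mu1 j (I * s)) = RV τ * (ccV j s τ * ∑ n ∈ range (2 * (j + 1) + 1), u n *
      FF (Zm (Z0V (4 / 3 * (1 - ep)) (mu1 j (I * s)) [I, -I] [] 0) (lgK (I * τ)))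
        (NUSea.O.par0 (j + 1)) n n (PBU.cr e1 J (j + 1)) (PBU.cr' e1 J (j + 1))
        (fun _ _ _ _ _ => 1)) := by
  have hl := NUMF.l_pos
  have hl1 : NUP1.l = l := rfl
  obtain ⟨mc, -, Hcur⟩ := curZ_crs he he1 hJ hep
  filter_upwards [eventually_ge_atTop mc] with j h1 u s τ
  have hRws : Rws (mu1 j (I * s)) := fun i => by
    rw [mu1_re, hl1, abs_zero]
    positivity
  unfold NvU
  rw [PfV_eq, mul_assoc]
  congr 2
  refine Finset.sum_congr rfl fun n _ => ?_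
  congr 1
  rw [← ZV_Zm, ← ZV_ZV, LV_LgV]
  refine PVS.DZ_ZV (P := NUSea.O.par0 (j + 1)) (PBX.ParC_par0 (j + 1)) (PBX.rad_low (j + 1)) hep
    hep1 (by linarith) (by linarith) hRws (ex := [I, -I]) (ex0 := []) ?_ (by simp) ?_ ?_ ?_
    (fun r _ => Eventually.of_forall fun O => Hcur (j + 1) (by omega) r O)
  · intro w hw
    rw [List.mem_cons, List.mem_singleton] at hw
    rcases hw with rfl | rfl
    · rw [Complex.I_re, abs_zero, hl1]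
      positivity
    · rw [Complex.neg_re, Complex.I_re, neg_zero, abs_zero, hl1]
      positivity
  · rw [re_It, hl1]
    linarith
  · rw [re_It, hl1]
    positivity
  · rw [Complex.zero_re, abs_zero, hl1]
    positivity

/-- the weight of the family with an anti-leg, coefficient `u j n` -/
abbrev wVu (ep e1 J : ℝ) (u : ℕ → ℕ → ℂ) (j : ℕ) (s t : ℝ) : CfN (2 * (j + 1)) → ℂ :=
  wFu famV ep e1 J (fun s t => ((I * s, I * t) : ℂ × ℂ)) u j s t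

/-- **(Z)**: the derivatives in the height of the legs, one anti-leg; `3 e1 + ε ≤ c` -/
theorem zlegVu {u : ℕ → ℕ → ℂ} (hu : ∀ j n, ‖u j n‖ = 1) {ep e1 J K ε c : ℝ} {p : ℕ}
    (hU : UB famV ep e1 J p K ε) (hp : 0 < p)
    (hK : 6 ≤ K) (hep : 0 < ep) (hep1 : ep ≤ 1 / 100) (he : 0 < e1) (he1 : e1 ≤ 1 / 100)
    (hJ : 0 ≤ J) (hc : 3 * e1 + ε ≤ c) {f : ℕ → ℂ → ℂ → ℂ}
    (hf : ∀ (j : ℕ) (s τ : ℝ), |s| ≤ 1 → f j (I * s) (I * τ) =
      NvU (u j) (I * τ) (mu1 j (I * s))) {S : Set ℂ} (hS' : IsOpen S)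
    (hmem : ∀ τ : ℝ, I * (τ : ℂ) ∈ S)
    (hfd : ∀ (j : ℕ) (s : ℝ), |s| ≤ 1 → DifferentiableOn ℂ (f j (I * s)) S) :
    ∃ C : ℝ, 0 < C ∧ ∀ᶠ j : ℕ in atTop, ∀ s t : ℝ, |s| ≤ 1 → |t| ≤ 1 →
      ‖PBFunc.F (mN (2 * (j + 1))) (wVu ep e1 J u j s t)
          (Vp (rhS (hS j s)) (fun _ => PBU.cr e1 J (j + 1)) (PBEI.h0T t)) +
        (I * deriv (fun z => f j (I * s) z) (I * t) - p0V t * f j (I * s) (I * t))‖ ≤
          C * (j : ℝ) ^ c ∧
      ‖PBFunc.F (mN (2 * (j + 1))) (wVu ep e1 J u j s t)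
          (fun ω => Vp (rhS (hS j s)) (fun _ => PBU.cr e1 J (j + 1)) (PBEI.h0T t) ω *
            Vp (rhS (hS j s)) (fun _ => PBU.cr e1 J (j + 1)) (PBEI.h0T t) ω) +
        PBFunc.F (mN (2 * (j + 1))) (wVu ep e1 J u j s t)
          (Vp (rhS (hS j s)) (fun _ => PBU.cr e1 J (j + 1)) (PBEI.g2T t)) -
        (-deriv (deriv fun z => f j (I * s) z) (I * t) -
          2 * p0V t * (I * deriv (fun z => f j (I * s) z) (I * t)) +
          (p0V t ^ 2 - p1V t) * f j (I * s) (I * t))‖ ≤ C * (j : ℝ) ^ c := by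
  have hE := Real.exp_pos 4
  refine (legV ep).zlegU hu hU hp hK hep he he1 hJ hasDerivAt_RV hasDerivAt_p0V
    (f := fun j s z => f j (I * s) z) hS' hmem hfd ?_ (b := 3 / 4) (B := Real.exp 4) hE.le ?_
    (by linarith)
  · filter_upwards [NvU_FF hep hep1 he he1 hJ] with j h s τ hs
    rw [hf j s τ hs]
    exact h (u j) s τ
  · intro j s t hs ht
    show ((j + 1 : ℕ) : ℝ) ^ (3 / 4 : ℝ) * Real.exp (4 * |(I * (t : ℂ)).im|) ≤ _
    rw [show (I * (t : ℂ)).im = t by simp, mul_comm]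
    refine mul_le_mul_of_nonneg_right (Real.exp_le_exp.2 (by linarith)) (by positivity)

/-- **the value of the functional at `1`** -/
theorem F_oneVu {u : ℕ → ℕ → ℂ} (hu : ∀ j n, ‖u j n‖ = 1) {ep e1 J K ε : ℝ} {p : ℕ}
    (hU : UB famV ep e1 J p K ε) (hK : 1 ≤ K) (hep : 0 < ep)
    (hep1 : ep ≤ 1 / 100) (he : 0 < e1) (he1 : e1 ≤ 1 / 100) (hJ : 0 ≤ J) :
    ∀ᶠ j : ℕ in atTop, ∀ s t : ℝ, |s| ≤ 1 →
      PBFunc.F (mN (2 * (j + 1))) (wVu ep e1 J u j s t) (fun _ => 1) =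
        NvU (u j) (I * t) (mu1 j (I * s)) := by
  filter_upwards [(legV ep).legH hU hK he he1 hJ, NvU_FF hep hep1 he he1 hJ] with j hH hf s t hs
  have H := hH s hs
  have hw : wVu ep e1 J u j s t = fun x => RV t *
      WTu (Z0V (4 / 3 * (1 - ep)) (mu1 j (I * s)) [I, -I] [] 0) (NUSea.O.par0 (j + 1))
        (2 * (j + 1)) (fun _ => PBU.cr e1 J (j + 1)) (fun _ => PBU.cr' e1 J (j + 1))
        (u j) (ccV j s) t x := by
    unfold WTu wVu wFu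
    rw [(legV ep).Z, (legV ep).Pf, ← wN_smul]
    congr 1
    funext n
    ring
  rw [hw, F_smul, hf (u j) s t]
  congr 1
  exact T0u_eq H (hu j) t

/-! ### the winding weight -/

/-- **(Z)** with the winding weight `zz j` at the level `j` -/
theorem zlegVX {zz : ℕ → ℂ} (hz : ∀ j, ‖zz j‖ = 1) {ep e1 J K ε c : ℝ} {p : ℕ}
    (hU : UB famV ep e1 J p K ε) (hp : 0 < p)
    (hK : 6 ≤ K) (hep : 0 < ep) (hep1 : ep ≤ 1 / 100) (he : 0 < e1) (he1 : e1 ≤ 1 / 100)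
    (hJ : 0 ≤ J) (hc : 3 * e1 + ε ≤ c) {f : ℕ → ℂ → ℂ → ℂ}
    (hf : ∀ (j : ℕ) (s τ : ℝ), |s| ≤ 1 → f j (I * s) (I * τ) =
      NvU (tw (zz j) (j + 1)) (I * τ) (mu1 j (I * s))) {S : Set ℂ} (hS' : IsOpen S)
    (hmem : ∀ τ : ℝ, I * (τ : ℂ) ∈ S)
    (hfd : ∀ (j : ℕ) (s : ℝ), |s| ≤ 1 → DifferentiableOn ℂ (f j (I * s)) S) :
    ∃ C : ℝ, 0 < C ∧ ∀ᶠ j : ℕ in atTop, ∀ s t : ℝ, |s| ≤ 1 → |t| ≤ 1 →
      ‖PBFunc.F (mN (2 * (j + 1))) (wVu ep e1 J (fun j => tw (zz j) (j + 1)) j s t)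
          (Vp (rhS (hS j s)) (fun _ => PBU.cr e1 J (j + 1)) (PBEI.h0T t)) +
        (I * deriv (fun z => f j (I * s) z) (I * t) - p0V t * f j (I * s) (I * t))‖ ≤
          C * (j : ℝ) ^ c ∧
      ‖PBFunc.F (mN (2 * (j + 1))) (wVu ep e1 J (fun j => tw (zz j) (j + 1)) j s t)
          (fun ω => Vp (rhS (hS j s)) (fun _ => PBU.cr e1 J (j + 1)) (PBEI.h0T t) ω *
            Vp (rhS (hS j s)) (fun _ => PBU.cr e1 J (j + 1)) (PBEI.h0T t) ω) +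
        PBFunc.F (mN (2 * (j + 1))) (wVu ep e1 J (fun j => tw (zz j) (j + 1)) j s t)
          (Vp (rhS (hS j s)) (fun _ => PBU.cr e1 J (j + 1)) (PBEI.g2T t)) -
        (-deriv (deriv fun z => f j (I * s) z) (I * t) -
          2 * p0V t * (I * deriv (fun z => f j (I * s) z) (I * t)) +
          (p0V t ^ 2 - p1V t) * f j (I * s) (I * t))‖ ≤ C * (j : ℝ) ^ c :=
  zlegVu (fun j n => norm_tw (hz j) _ _) hU hp hK hep hep1 he he1 hJ hc hf hS' hmem hfd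

theorem F_oneVX {zz : ℕ → ℂ} (hz : ∀ j, ‖zz j‖ = 1) {ep e1 J K ε : ℝ} {p : ℕ}
    (hU : UB famV ep e1 J p K ε) (hK : 1 ≤ K) (hep : 0 < ep)
    (hep1 : ep ≤ 1 / 100) (he : 0 < e1) (he1 : e1 ≤ 1 / 100) (hJ : 0 ≤ J) :
    ∀ᶠ j : ℕ in atTop, ∀ s t : ℝ, |s| ≤ 1 →
      PBFunc.F (mN (2 * (j + 1))) (wVu ep e1 J (fun j => tw (zz j) (j + 1)) j s t) (fun _ => 1) =
        NvU (tw (zz j) (j + 1)) (I * t) (mu1 j (I * s)) :=
  F_oneVu (fun j n => norm_tw (hz j) _ _) hU hK hep hep1 he he1 hJ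

end PVLg

end
end


/- part: Pool.Agent.WX.ZLX -/
section
/-!
# Plan X: the inputs `ZLX` and `OneX` of `closeXG` (helper61)

* `fVxz_NvU`: `fVxz ζ j (i s) (i τ)` is `NvU (ζ ^ (j + 1 - n))` of `WND/ZLegVX`;
* `zlX_of`, `oneX_of`: coefficient `cX zz`, `‖zz j‖ = 1`, any function with the same values on the
  imaginary axis, analytic near it;
* **`zlX`**: `ZLX (fun j z x => fVxz (zz j) j x z) (cX zz) p`, `1 / 10 ≤ p`;
* **`oneX`**: `OneX (fun j z x => fVxz (zz j) j x z) (cX zz)`.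
-/

set_option autoImplicit false
set_option linter.unusedSectionVars false

noncomputable section

open Complex MeasureTheory Filter Topology Set

namespace WX

open NUO NUP1S NUP1S.Ab NUP1S.AbC NUGC PBF PBFunc PBU PBWP PBLX PVLX PV PVL PVX PVLg
open PBEI (rowS)
open PBL (mu1)
open WND (tw norm_tw)

attribute [local instance] NUSea.seaP

/-- **input `ZLX`** -/
theorem zlX_of {zz : ℕ → ℂ} (hz : ∀ j, ‖zz j‖ = 1) {Psi : ℕ → ℂ → ℂ → ℂ}
    (hf : ∀ (j : ℕ) (s τ : ℝ), |s| ≤ 1 → Psi j (I * τ) (I * s) =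
      NvU (tw (zz j) (j + 1)) (I * τ) (mu1 j (I * s))) {S : Set ℂ} (hS : IsOpen S)
    (hmem : ∀ τ : ℝ, I * (τ : ℂ) ∈ S)
    (hfd : ∀ (j : ℕ) (s : ℝ), |s| ≤ 1 → DifferentiableOn ℂ (fun z => Psi j z (I * s)) S)
    {p : ℝ} (hp : 1 / 10 ≤ p) : ZLX Psi (cX zz) p := by
  obtain ⟨a3, ha3, H3⟩ := uxV 2 6 (1 / 100) (by norm_num)
  refine ⟨a3, ha3, fun ep e1 J hP => ?_⟩
  have hU : UB famV ep e1 J 2 6 (1 / 100) := H3 _ _ _ hP.ep0 hP.e0 hP.J0 hP.sm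
  obtain ⟨C3, hC3, hZ⟩ := zlegVX hz hU (by norm_num) le_rfl hP.ep0 hP.ep1 hP.e0 hP.e1' hP.J0
    (c := p) (by have := hP.e1'; linarith) (f := fun j x z => Psi j z x) hf hS hmem hfd
  have er : ∀ (j : ℕ) (s : ℝ), PBLg.rhS (PBLg.hS j s) = rh0 j s := fun j s =>
    (funext (PBLg.rhoR_hS j s)).symm
  refine ⟨C3, hC3.le, ?_⟩
  filter_upwards [hZ] with j h s hs t ht
  have h1 := h s t (abs_le.2 ⟨by linarith [hs.1], hs.2⟩) (abs_le.2 ⟨by linarith [ht.1], ht.2⟩)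
  rw [er] at h1
  exact h1

/-- **input `OneX`** -/
theorem oneX_of {zz : ℕ → ℂ} (hz : ∀ j, ‖zz j‖ = 1) {Psi : ℕ → ℂ → ℂ → ℂ}
    (hf : ∀ (j : ℕ) (s τ : ℝ), |s| ≤ 1 → Psi j (I * τ) (I * s) =
      NvU (tw (zz j) (j + 1)) (I * τ) (mu1 j (I * s))) : OneX Psi (cX zz) := by
  obtain ⟨a3, ha3, H3⟩ := uxV 2 6 (1 / 100) (by norm_num)
  refine ⟨a3, ha3, fun ep e1 J hP => ?_⟩
  have hU : UB famV ep e1 J 2 6 (1 / 100) := H3 _ _ _ hP.ep0 hP.e0 hP.J0 hP.sm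
  filter_upwards [F_oneVX hz hU (by norm_num) hP.ep0 hP.ep1 hP.e0 hP.e1' hP.J0]
    with j h s hs t ht
  have hs' : |s| ≤ 1 := abs_le.2 ⟨by linarith [hs.1], hs.2⟩
  rw [hf j s t hs']
  exact h s t hs'

/-! ### the function -/

theorem fVxz_NvU (ζ : ℂ) (j : ℕ) (s τ : ℝ) :
    fVxz ζ j (I * s) (I * τ) = NvU (tw ζ (j + 1)) (I * τ) (mu1 j (I * s)) := by
  have e0 : fVxz ζ j (I * s) (I * τ) = nvz ζ (I * τ) 0 (mu1 j (I * s)) (mu1 j (I * s)) := by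
    unfold fVxz xz
    rw [if_pos (by rw [re_It])]
    rfl
  rw [e0]
  unfold nvz nvn NvU tw
  rw [Finset.mul_sum]
  exact Finset.sum_congr rfl fun n _ => by ring

/-- **input `ZLX`** of `closeXG` -/
theorem zlX {zz : ℕ → ℂ} (hz : ∀ j, ‖zz j‖ = 1) {p : ℝ} (hp : 1 / 10 ≤ p) :
    ZLX (fun j z x => fVxz (zz j) j x z) (cX zz) p := by
  have hl := NUP1.Bd.l_pos
  refine zlX_of hz (fun j s τ _ => fVxz_NvU (zz j) j s τ)
    (S := {z : ℂ | |z.re| < 43 / 10 * NUP1.l})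
    (isOpen_lt (continuous_abs.comp Complex.continuous_re) continuous_const) (fun τ => ?_)
    (fun j s _ => xz_diff (zz j) (Pool.Agent.PB.Rws_cons (by rw [re_It, abs_zero]; positivity))) hp
  show |(I * (τ : ℂ)).re| < 43 / 10 * NUP1.l
  rw [re_It, abs_zero]
  positivity

/-- **input `OneX`** of `closeXG` -/
theorem oneX {zz : ℕ → ℂ} (hz : ∀ j, ‖zz j‖ = 1) :
    OneX (fun j z x => fVxz (zz j) j x z) (cX zz) :=
  oneX_of hz fun j s τ _ => fVxz_NvU (zz j) j s τ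

end WX

end
end


/- part: Pool.Agent.WX.HDX -/
section
/-!
# Plan X: input 1 of `closeXG` (helper5)

* `fVxz_SV`: 96's `fVxz ζ j x z` on the imaginary axis is `WNDH.SV ζ j z x`;
* **`hdX`**: `HDX (fun j z x => fVxz (zz j) j x z) (cX zz) p` for `1 / 10 ≤ p`;
* `hdX_unif`: the same, one constant for all weights.
-/

set_option autoImplicit false
set_option linter.unusedSectionVars false

noncomputable section

open Complex MeasureTheory Filter Topology Set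

namespace WX

attribute [local instance] NUSea.seaP

open PBX (DZ)
open PV (PfV LV)

theorem mainX_mainGV (cf : ℕ → ℝ → ℝ → ℕ → ℂ) (ep e1 J : ℝ) (j : ℕ) (s t : ℝ) :
    mainX cf ep e1 J j s t = WNDH.mainGV e1 J j s t (wX ep cf e1 J j s t) := rfl

/-- the function on the imaginary axis -/
theorem fVxz_SV (ζ : ℂ) (j : ℕ) (s t : ℝ) :
    fVxz ζ j (I * s) (I * t) = WNDH.SV ζ j (I * t) (I * s) := by
  have hre : (0 : ℝ) ≤ (I * (t : ℂ)).re := by simp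
  show xz ζ (Fin.cons (I * (s : ℂ)) (fun _ : Fin j => (0 : ℂ)) : Fin (j + 1) → ℂ) (I * t) = _
  unfold xz
  rw [if_pos hre]
  unfold nvz nvn WNDH.SV
  rw [Finset.mul_sum]
  refine Finset.sum_congr rfl fun n _ => ?_
  show WND.tw ζ (j + 1) n * (PfV (I * (t : ℂ)) 0
      (Fin.cons (I * (s : ℂ)) (fun _ : Fin j => (0 : ℂ)) : Fin (j + 1) → ℂ)
      (Fin.cons (I * (s : ℂ)) (fun _ : Fin j => (0 : ℂ)) : Fin (j + 1) → ℂ) *
    DZ (NUP1.Leg.cc (j + 1)) (NUP1.Leg.cc (j + 1)) (LV (I * t) 0) (LV (I * t) 0)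
      (Fin.cons (I * (s : ℂ)) (fun _ : Fin j => (0 : ℂ)) : Fin (j + 1) → ℂ)
      (Fin.cons (I * (s : ℂ)) (fun _ : Fin j => (0 : ℂ)) : Fin (j + 1) → ℂ) n) = _
  ring

/-- **input 1 of `closeXG`**, one constant for all weights -/
theorem hdX_unif {p : ℝ} (hp : 1 / 10 ≤ p) :
    ∃ a0 : ℝ, 0 < a0 ∧ ∀ ep e1 J : ℝ, PBLX.SmallP a0 ep e1 J → ∃ C : ℝ, 0 ≤ C ∧
      ∀ᶠ j : ℕ in atTop, ∀ s ∈ Icc (0 : ℝ) 1, ∀ t ∈ Icc (0 : ℝ) 1, ∀ ζ : ℂ, ‖ζ‖ = 1 → ∃ D : ℂ,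
        HasDerivAt (fun s : ℝ => fVxz ζ j (I * s) (I * t)) D s ∧
        ‖((j + 1 : ℝ) : ℂ) * D - mainX (fun j s t n => WND.tw ζ (j + 1) n * PVX.cFV j s t n)
          ep e1 J j s t‖ ≤ C * (j : ℝ) ^ p := by
  obtain ⟨a0, ha0, H⟩ := WNDH.hD_unifV hp
  refine ⟨a0, ha0, fun ep e1 J hP => ?_⟩
  obtain ⟨C, hC, h⟩ := H ep e1 J hP
  refine ⟨C, hC, ?_⟩
  filter_upwards [h] with j hj s hs t ht ζ hζ
  obtain ⟨D, h1, h2⟩ := hj s hs t ht ζ hζ
  refine ⟨D, ?_, h2⟩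
  have e : (fun s : ℝ => fVxz ζ j (I * s) (I * t)) =
      fun s : ℝ => WNDH.SV ζ j (I * t) (I * s) := funext fun s => fVxz_SV ζ j s t
  rw [e]
  exact h1

/-- **input 1 of `closeXG`** -/
theorem hdX {zz : ℕ → ℂ} (hz : ∀ j, ‖zz j‖ = 1) {p : ℝ} (hp : 1 / 10 ≤ p) :
    HDX (fun j z x => fVxz (zz j) j x z) (cX zz) p := by
  obtain ⟨a0, ha0, H⟩ := hdX_unif hp
  refine ⟨a0, ha0, fun ep e1 J hP => ?_⟩
  obtain ⟨C, hC, h⟩ := H ep e1 J hP
  refine ⟨C, hC, ?_⟩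
  filter_upwards [h] with j hj s hs t ht
  exact hj s hs t ht (zz j) (hz j)

end WX

end
end


/- part: Pool.Agent.WX.LvX -/
section
/-!
# Plan X: the identities of level two at the sector weight (helper91)

* **`lvX`**: input 4 of `closeXG` (helper38's `levFVZ`);
* `PsiX zz j z x = fVxz (zz j) j x z`;
* `e2x_of`: `PVF.E2V p` of the function with sector weight from the three other inputs.
-/

set_option autoImplicit false

noncomputable section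

open Complex Filter Topology Set

namespace WX

theorem cX_eq : cX = WNX.cZV := rfl

/-- **input 4 of `closeXG`** -/
theorem lvX {cf : ℕ → ℝ → ℝ → ℕ → ℂ} (h : WNX.SNmV cf) : LVX cf := by
  obtain ⟨a0, ha0, H⟩ := WNX.levFVZ
  refine ⟨a0, ha0, fun ep e1 J hp => ?_⟩
  obtain ⟨K, th, dp, C, hC, h1, h2⟩ := H ep e1 J hp
  exact ⟨K, th, dp, C, hC, h1 cf h, h2⟩

/-- the function of plan X, `zz j` at the level `j` -/
abbrev PsiX (zz : ℕ → ℂ) (j : ℕ) (z x : ℂ) : ℂ := fVxz (zz j) j x z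

/-- **`(E_V)` with the sector weight**, from the three other inputs -/
theorem e2x_of {zz : ℕ → ℂ} (h : ∀ j, ‖zz j‖ = 1) {p : ℝ} (hp : 1 / 10 ≤ p) (hp1 : p ≤ 1)
    (hD : HDX (PsiX zz) (cX zz) p) (hO : OneX (PsiX zz) (cX zz)) (hZ : ZLX (PsiX zz) (cX zz) p) :
    PVF.E2V p fun j z x => fVxz (zz j) j x z :=
  closeXG hp hp1 (lvX (WNX.SNmV_cZV h)) hD hO hZ

end WX

end
end


/- part: Pool.Agent.WX.E2x -/
section
/-!
# Plan X: `(E_V)` with the sector weight, no hypothesis (helper91)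

* **`e2X`**: `PVF.E2V p` of `fVxz (zz j) j` for every sequence `zz` on the unit circle,
  `1 / 10 ≤ p ≤ 1`;
* **`e2XU`**: the same with one constant for all weights on the unit circle.
-/

set_option autoImplicit false

noncomputable section

open Complex Filter Topology Set

namespace WX

/-- **`(E_V)` with the sector weight** -/
theorem e2X {zz : ℕ → ℂ} (h : ∀ j, ‖zz j‖ = 1) {p : ℝ} (hp : 1 / 10 ≤ p) (hp1 : p ≤ 1) :
    PVF.E2V p fun j z x => fVxz (zz j) j x z :=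
  e2x_of h hp hp1 (hdX h hp) (oneX h) (zlX h hp)

/-- **`(E_V)`, one constant for all weights on the unit circle** -/
theorem e2XU {p : ℝ} (hp : 1 / 10 ≤ p) (hp1 : p ≤ 1) : ∃ C' : ℝ, ∀ᶠ j : ℕ in atTop,
    ∀ ζ : ℂ, ‖ζ‖ = 1 → ∀ s ∈ Icc (0 : ℝ) 1, ∀ t ∈ Icc (0 : ℝ) 1, ∃ D : ℂ,
    HasDerivAt (fun s : ℝ => fVxz ζ j (I * s) (I * t)) D s ∧
    ‖((j + 1 : ℝ) : ℂ) * D -
      ((((PBV.rP j s - PBV.rM j s) / 2 : ℝ) : ℂ) * fVxz ζ j (I * s) (I * t) +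
      (((PBV.rP j s - PBV.rM j s) / 8 : ℝ) : ℂ) *
        deriv (deriv fun z => fVxz ζ j (I * s) z) (I * t))‖ ≤ C' * (j : ℝ) ^ p := by
  obtain ⟨C, hC⟩ := WNDS.unif_of_seq (D := {ζ : ℂ // ‖ζ‖ = 1})
    (P := fun j ζ C' => ∀ s ∈ Icc (0 : ℝ) 1, ∀ t ∈ Icc (0 : ℝ) 1, ∃ D : ℂ,
      HasDerivAt (fun s : ℝ => fVxz ζ j (I * s) (I * t)) D s ∧
      ‖((j + 1 : ℝ) : ℂ) * D -
        ((((PBV.rP j s - PBV.rM j s) / 2 : ℝ) : ℂ) * fVxz ζ j (I * s) (I * t) +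
        (((PBV.rP j s - PBV.rM j s) / 8 : ℝ) : ℂ) *
          deriv (deriv fun z => fVxz ζ j (I * s) z) (I * t))‖ ≤ C' * (j : ℝ) ^ p)
    (fun j ζ C C' hCC h s hs t ht => by
      obtain ⟨D, h1, h2⟩ := h s hs t ht
      exact ⟨D, h1, h2.trans (mul_le_mul_of_nonneg_right hCC (by positivity))⟩)
    (fun zz => by
      obtain ⟨C, hC⟩ := e2X (zz := fun j => (zz j : ℂ)) (fun j => (zz j).2) hp hp1
      exact ⟨C, hC⟩)
  exact ⟨C, hC.mono fun j hj ζ hζ => hj ⟨ζ, hζ⟩⟩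

end WX

end
end


/- part: Pool.Agent.WX.FunXI -/
section
/-!
# Plan X: the function side of plan V with a twist, literal, no hypothesis (helper12)

`fVt d N z = ga d z * fVz (zt d) N z` (helper96); inputs `WX.v0x`, `WX.v1x` (helper96), `WX.e2XU` (helper91).

* `OpX_ga`: the twisted operator on `ga d * F`; `eprV_point`: (E_V) at one point;
* `funHX_fVt`, `eprX_fVt`; **`funX`**: the output of `FunHX.out` for `fVt (d i)`, any index type,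
  `|d i| ≤ 1`, `1/10 ≤ p ≤ 1`.
-/

set_option autoImplicit false

noncomputable section

open Complex MeasureTheory Set Filter Topology
open Pool.Agent.PB.Rec (seg EL)
open PBV (FD aL σL aL_pos σL_pos σL_lt two_σL log_ev bK aK pow_ev rP rM field_diff aL_eq σL_eq
  strip_open seg_Is FD_zero FD_cons ball_box)
open WND (ga zt)
open WX (fVz fVxz fVt fVxt)
open NUP1 (l lpos)
open WNDF (ga_leib norm_ga_le norm_ga_inv_le ga_ne ga_strip)

namespace WXF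

variable {ι : Type*}

/-- **the twisted operator on `ga d * F`** -/
theorem OpX_ga {F : ℂ → ℂ} {U : Set ℂ} (hU : IsOpen U) (hF : DifferentiableOn ℂ F U) (d γ α : ℝ)
    (y : ℂ) {z : ℂ} (hz : z ∈ U) :
    OpX (8 / 3) γ α d (fun z => ga d z * F z) y z =
      ga d z * ((y⁻¹ - y) * (γ * F z + α * deriv (deriv F) z)) := by
  obtain ⟨-, h2⟩ := ga_leib hU hF (d : ℂ) hz
  unfold OpX
  push_cast
  rw [h2]
  ring

/-- **(E_V) at one point: from the gas form to the first order form** -/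
theorem eprV_point {j : ℕ} (hj : 1 ≤ j) {p C1 M s : ℝ} (hs : s ∈ Icc (0 : ℝ) 1) {D g0 g2 : ℂ}
    (d0 : ‖g0‖ ≤ M) (d2 : ‖g2‖ ≤ M)
    (hD1 : ‖((j + 1 : ℝ) : ℂ) * D - ((((rP j s - rM j s) / 2 : ℝ) : ℂ) * g0 +
      (((rP j s - rM j s) / 8 : ℝ) : ℂ) * g2)‖ ≤ C1 * (j : ℝ) ^ p) :
    ‖D - ((1 / j : ℝ) : ℂ) * (((exp (I * (8 / 3 : ℝ) * (I * s)))⁻¹ - exp (I * (8 / 3 : ℝ) * (I * s))) *
        (((1 / 2 : ℝ) : ℂ) * g0 + ((1 / 8 : ℝ) : ℂ) * g2))‖ ≤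
      |C1| * (j : ℝ) ^ (p - 1) + 2 * Real.exp (8 / 3) ^ 2 * (M / (j : ℝ) ^ 2) := by
  set Y : ℝ := Real.exp (8 / 3) with hY
  have hY1 : 1 ≤ Y := Real.one_le_exp (by norm_num)
  have hM0 : 0 ≤ M := (norm_nonneg _).trans d0
  have hj1 : (1 : ℝ) ≤ j := by exact_mod_cast hj
  have hj0 : (0 : ℝ) < j := by linarith
  set E : ℝ := Real.exp (8 / 3 * s) with hEd
  have hE0 : 0 < E := Real.exp_pos _
  have hEY : E ≤ Y := Real.exp_le_exp.2 (by linarith [hs.2])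
  have hE0' : 0 < E⁻¹ := by positivity
  have hE1 : 1 ≤ E := Real.one_le_exp (by linarith [hs.1])
  have hEY' : E⁻¹ ≤ Y := (inv_le_one_of_one_le₀ hE1).trans hY1
  have hEm : Real.exp (-(8 / 3 * s)) = E⁻¹ := by rw [hEd, Real.exp_neg]
  -- y
  have hy : exp (I * (8 / 3 : ℝ) * (I * s)) = ((E⁻¹ : ℝ) : ℂ) := by
    rw [← hEm, ofReal_exp]
    congr 1
    push_cast
    linear_combination (8 / 3 * s : ℂ) * I_sq
  have hy' : (exp (I * (8 / 3 : ℝ) * (I * s)))⁻¹ = ((E : ℝ) : ℂ) := by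
    rw [hy, ofReal_inv, inv_inv]
  rw [hy', hy]
  -- the two fields
  set A : ℝ := E / (j + E) with hA
  set B : ℝ := E⁻¹ / (j + E⁻¹) with hB
  have hrP : rP j s = (j + 1) * A := by
    unfold rP
    rw [← hEd, hA, mul_div_assoc]
  have hrM : rM j s = (j + 1) * B := by
    unfold rM
    rw [hEm, hB, mul_div_assoc]
  have hA1 := field_diff hj1 hE0 hEY
  have hB1 := field_diff hj1 hE0' hEY'
  rw [← hA] at hA1
  rw [← hB] at hB1
  have pw : (j : ℝ) ^ p = (j : ℝ) * (j : ℝ) ^ (p - 1) := by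
    rw [Real.rpow_sub hj0, Real.rpow_one]
    field_simp
  -- first part
  have p1 : ‖D - ((((A - B) / 2 : ℝ) : ℂ) * g0 + (((A - B) / 8 : ℝ) : ℂ) * g2)‖ ≤
      |C1| * (j : ℝ) ^ (p - 1) := by
    have e1 : ((j + 1 : ℝ) : ℂ) * D - ((((rP j s - rM j s) / 2 : ℝ) : ℂ) * g0 +
        (((rP j s - rM j s) / 8 : ℝ) : ℂ) * g2) = ((j + 1 : ℝ) : ℂ) *
        (D - ((((A - B) / 2 : ℝ) : ℂ) * g0 + (((A - B) / 8 : ℝ) : ℂ) * g2)) := by
      rw [hrP, hrM]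
      push_cast
      ring
    rw [e1, norm_mul, norm_real, Real.norm_of_nonneg (by linarith)] at hD1
    have e3 : (j : ℝ) * ‖D - ((((A - B) / 2 : ℝ) : ℂ) * g0 + (((A - B) / 8 : ℝ) : ℂ) * g2)‖ ≤
        (j : ℝ) * (|C1| * (j : ℝ) ^ (p - 1)) := by
      have e4 : 0 ≤ (j : ℝ) ^ p := by positivity
      calc _ ≤ ((j : ℝ) + 1) * ‖D - ((((A - B) / 2 : ℝ) : ℂ) * g0 + (((A - B) / 8 : ℝ) : ℂ) * g2)‖ := by
            have := norm_nonneg (D - ((((A - B) / 2 : ℝ) : ℂ) * g0 + (((A - B) / 8 : ℝ) : ℂ) * g2))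
            nlinarith
        _ ≤ C1 * (j : ℝ) ^ p := hD1
        _ ≤ |C1| * (j : ℝ) ^ p := by
            gcongr
            exact le_abs_self _
        _ = _ := by rw [pw]; ring
    exact le_of_mul_le_mul_left e3 hj0
  -- second part
  have p2 : ‖((((A - B) / 2 : ℝ) : ℂ) * g0 + (((A - B) / 8 : ℝ) : ℂ) * g2) -
      ((1 / j : ℝ) : ℂ) * ((((E : ℝ) : ℂ) - ((E⁻¹ : ℝ) : ℂ)) * (((1 / 2 : ℝ) : ℂ) * g0 +
        ((1 / 8 : ℝ) : ℂ) * g2))‖ ≤ 2 * Y ^ 2 * (M / (j : ℝ) ^ 2) := by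
    have e1 : ((((A - B) / 2 : ℝ) : ℂ) * g0 + (((A - B) / 8 : ℝ) : ℂ) * g2) -
      ((1 / j : ℝ) : ℂ) * ((((E : ℝ) : ℂ) - ((E⁻¹ : ℝ) : ℂ)) * (((1 / 2 : ℝ) : ℂ) * g0 +
        ((1 / 8 : ℝ) : ℂ) * g2)) =
      (((A - E / j) - (B - E⁻¹ / j) : ℝ) : ℂ) * (1 / 2 * g0 + 1 / 8 * g2) := by
      push_cast
      ring
    have hQ : ‖(((A - E / j) - (B - E⁻¹ / j) : ℝ) : ℂ)‖ ≤ 2 * (Y ^ 2 / j ^ 2) := by
      rw [norm_real, Real.norm_eq_abs]
      exact (abs_sub _ _).trans (by linarith)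
    have hn : ‖(1 / 2 * g0 + 1 / 8 * g2 : ℂ)‖ ≤ M := by
      refine (norm_add_le _ _).trans ?_
      rw [norm_mul, norm_mul]
      have c1 : ‖(1 / 2 : ℂ)‖ = 1 / 2 := by norm_num
      have c2 : ‖(1 / 8 : ℂ)‖ = 1 / 8 := by norm_num
      rw [c1, c2]
      linarith
    rw [e1, norm_mul]
    calc _ ≤ 2 * (Y ^ 2 / j ^ 2) * M := mul_le_mul hQ hn (norm_nonneg _) (by positivity)
      _ = _ := by ring
  have e5 : D - ((1 / j : ℝ) : ℂ) * ((((E : ℝ) : ℂ) - ((E⁻¹ : ℝ) : ℂ)) * (((1 / 2 : ℝ) : ℂ) * g0 +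
        ((1 / 8 : ℝ) : ℂ) * g2)) =
      (D - ((((A - B) / 2 : ℝ) : ℂ) * g0 + (((A - B) / 8 : ℝ) : ℂ) * g2)) +
      (((((A - B) / 2 : ℝ) : ℂ) * g0 + (((A - B) / 8 : ℝ) : ℂ) * g2) -
      ((1 / j : ℝ) : ℂ) * ((((E : ℝ) : ℂ) - ((E⁻¹ : ℝ) : ℂ)) * (((1 / 2 : ℝ) : ℂ) * g0 +
        ((1 / 8 : ℝ) : ℂ) * g2))) := by ring
  rw [e5]
  exact (norm_add_le _ _).trans (add_le_add p1 p2)

/-- **the hypotheses of the function side** -/
theorem funHX_fVt {d : ι → ℝ} (hd : ∀ i, |d i| ≤ 1) :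
    FunHX d (1 + 2) (fun i => fVt (d i : ℂ)) (fun i j z x => fVxt (d i : ℂ) j x z) := by
  have hl := lpos
  have hs : aL + σL = 18 / 5 * l := by
    rw [aL_eq, σL_eq]
    ring
  have hr : aL + σL < 43 / 10 * l := by
    rw [hs]
    linarith
  have hr' : σL < 13 / 10 * l := by
    rw [σL_eq]
    linarith
  have ha : ((aL : ℝ) : ℂ) = 3 * l := by
    rw [aL_eq]
    push_cast
    ring
  refine ⟨hd, ?_, ?_, ?_, ?_, ?_⟩
  · filter_upwards [WX.v0x.1, ga_strip (Dd := 1) le_rfl, eventually_ge_atTop 1] with j hj hg hj1 i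
    have hj0 : (0 : ℝ) < j := by exact_mod_cast hj1
    obtain ⟨Q, hQ, hz⟩ := WX.fVt_zeros (d i : ℂ) j
    refine FD_zero hr hr' (fun z h => (WX.fVt_diff (d i : ℂ) j).differentiableAt ((strip_open _).mem_nhds h))
      (fun z h => hQ.differentiableAt ((strip_open _).mem_nhds h)) (fun z _ => ?_) ?_
    · rw [ha]
      exact hz z
    · intro z h1 h2
      rw [two_σL] at h2
      rw [hs] at h1
      rw [WX.fVt_ga, norm_mul, Real.rpow_add hj0]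
      exact mul_le_mul (hg _ (hd i) z h2) (hj _ (WND.norm_zt _) z h1 h2) (norm_nonneg _) (by positivity)
  · filter_upwards [WX.v0x.2, ga_strip (Dd := 1) le_rfl, eventually_ge_atTop 1] with j hj hg hj1 i x hx
    have hj0 : (0 : ℝ) < j := by exact_mod_cast hj1
    obtain ⟨s, hs1, rfl⟩ := seg_Is hx
    have hx0 : |(I * (s : ℂ)).re| ≤ l / 2 := by
      simp
      linarith
    obtain ⟨Q, hQ, hz⟩ := WX.fVxt_zeros (d i : ℂ) j hx0
    refine FD_cons hj1 (x := I * s) (by simp) (by simp [abs_of_nonneg hs1.1, hs1.2]) hr hr'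
      (fun z h => (WX.fVxt_diff (d i : ℂ) j hx0).differentiableAt ((strip_open _).mem_nhds h))
      (fun z h => hQ.differentiableAt ((strip_open _).mem_nhds h)) (fun z _ => ?_) ?_
    · rw [ha]
      exact hz z
    · intro z h1 h2
      rw [two_σL] at h2
      rw [hs] at h1
      rw [WX.fVxt_ga, norm_mul, Real.rpow_add hj0]
      exact mul_le_mul (hg _ (hd i) z h2) (hj _ (WND.norm_zt _) s hs1 z h1 h2) (norm_nonneg _) (by positivity)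
  · exact Filter.Eventually.of_forall fun j i z => WX.fVxt_zero (d i : ℂ) j z
  · refine Filter.Eventually.of_forall fun j i x hx => ?_
    obtain ⟨s, hs1, rfl⟩ := seg_Is hx
    have hx0 : |(I * (s : ℂ)).re| ≤ l / 2 := by
      simp
      linarith
    have := WX.fVxt_leg (d i : ℂ) j hx0
    rw [ha]
    exact this
  · intro ε hε
    filter_upwards [WX.v1x (ε / 2) (by positivity),
      pow_ev (show 0 < ε / 2 by positivity) (Real.exp (8 / 3 * 1)), eventually_ge_atTop 1]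
      with j hj hE hj1 i x hx t ht
    have hj0 : (0 : ℝ) < j := by exact_mod_cast hj1
    obtain ⟨s, hs1, rfl⟩ := seg_Is hx
    show ‖fVxt (d i : ℂ) j (I * s) (I * t)‖ ≤ (j : ℝ) ^ (3 / 4 + ε)
    rw [WX.fVxt_ga, norm_mul]
    have e1 := hj _ (WND.norm_zt (d i)) s hs1 t ht
    have e2 : ‖ga (d i : ℂ) (I * t)‖ ≤ Real.exp (8 / 3 * 1) := by
      refine (norm_ga_le (hd i) _).trans ?_
      apply Real.exp_le_exp.2
      have e3 : |(I * (t : ℂ)).im| ≤ 1 := by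
        simp [abs_of_nonneg ht.1, ht.2]
      nlinarith
    calc ‖ga (d i : ℂ) (I * t)‖ * ‖fVxz (zt (d i)) j (I * s) (I * t)‖
        ≤ (j : ℝ) ^ (ε / 2) * (j : ℝ) ^ (3 / 4 + ε / 2) :=
          mul_le_mul (e2.trans hE) e1 (norm_nonneg _) (by positivity)
      _ = (j : ℝ) ^ (3 / 4 + ε) := by
        rw [← Real.rpow_add hj0]
        congr 1
        ring

/-- **the first order identity with a twist** -/
theorem eprX_fVt {d : ι → ℝ} (hd : ∀ i, |d i| ≤ 1) {p : ℝ} (hp : 1 / 10 ≤ p) (hp1 : p ≤ 1) :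
    EPrX p d (fun i j z x => fVxt (d i : ℂ) j x z) := by
  have hl := lpos
  obtain ⟨C1, hE⟩ := WX.e2XU hp hp1
  have hH := funHX_fVt hd
  set Y : ℝ := Real.exp (8 / 3) with hY
  have hY1 : 1 ≤ Y := Real.one_le_exp (by norm_num)
  refine ⟨Y * (|C1| + 2 * Y ^ 2 * (Y * 16)), ?_⟩
  filter_upwards [hE, hH.dbd (show (0 : ℝ) < 1 / 4 by norm_num), eventually_ge_atTop 1]
    with j a1 a2 a3 i s hs t ht
  have hj1 : (1 : ℝ) ≤ j := by exact_mod_cast a3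
  have hj0 : (0 : ℝ) < j := by linarith
  obtain ⟨D, hD1, hD2⟩ := a1 _ (WND.norm_zt (d i)) s hs t ht
  have hx : I * (s : ℂ) ∈ seg 0 := ⟨s, hs, by simp⟩
  have hx0 : |(I * (s : ℂ)).re| ≤ l / 2 := by
    simp
    linarith
  obtain ⟨b0, b1, b2⟩ := a2 i _ hx t ht
  rw [show (3 / 4 : ℝ) + 1 / 4 = 1 by norm_num, Real.rpow_one] at b0 b1 b2
  set F : ℂ → ℂ := fVxz (zt (d i)) j (I * s) with hF
  set U : Set ℂ := {z | |z.re| < 43 / 10 * l} with hU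
  have hUo : IsOpen U := strip_open _
  have hFd : DifferentiableOn ℂ F U := WX.xz_diff (zt (d i)) (Pool.Agent.PB.Rws_cons hx0)
  have hzU : I * (t : ℂ) ∈ U := by
    show |(I * (t : ℂ)).re| < 43 / 10 * l
    simp
    linarith
  have hfun : (fun z => fVxt (d i : ℂ) j (I * s) z) = fun z => ga (d i : ℂ) z * F z := by
    funext z
    rw [WX.fVxt_ga]
  have hgt : |(I * (t : ℂ)).im| ≤ 1 := by simp [abs_of_nonneg ht.1, ht.2]
  have hga : ‖ga (d i : ℂ) (I * t)‖ ≤ Y := by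
    refine (norm_ga_le (hd i) _).trans ?_
    rw [hY]
    apply Real.exp_le_exp.2
    nlinarith
  have hga' : ‖(ga (d i : ℂ) (I * t))⁻¹‖ ≤ Y := by
    refine (norm_ga_inv_le (hd i) _).trans ?_
    rw [hY]
    apply Real.exp_le_exp.2
    nlinarith
  have hgne := ga_ne (d i : ℂ) (I * t)
  -- the values of F
  obtain ⟨-, l2⟩ := ga_leib hUo hFd (d i : ℂ) hzU
  rw [← hfun] at l2
  have hn : ‖I * (8 / 3) * ((d i : ℝ) : ℂ)‖ ≤ 8 / 3 := by
    rw [norm_mul, norm_mul, norm_I, one_mul, norm_real, Real.norm_eq_abs]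
    have e1 : ‖(8 / 3 : ℂ)‖ = 8 / 3 := by norm_num
    rw [e1]
    exact mul_le_of_le_one_right (by norm_num) (hd i)
  have e0 : ga (d i : ℂ) (I * t) * F (I * t) = fVxt (d i : ℂ) j (I * s) (I * t) := by rw [WX.fVxt_ga]
  rw [e0] at l2
  have m0 : ‖F (I * t)‖ ≤ Y * 16 * (j : ℝ) := by
    have e1 : F (I * t) = (ga (d i : ℂ) (I * t))⁻¹ * fVxt (d i : ℂ) j (I * s) (I * t) := by
      rw [← e0, inv_mul_cancel_left₀ hgne]
    rw [e1, norm_mul]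
    calc _ ≤ Y * (j : ℝ) := mul_le_mul hga' b0 (norm_nonneg _) (by positivity)
      _ ≤ _ := by nlinarith
  have m2 : ‖deriv (deriv F) (I * t)‖ ≤ Y * 16 * (j : ℝ) := by
    have e1 : deriv (deriv F) (I * t) = (ga (d i : ℂ) (I * t))⁻¹ *
        (deriv (deriv fun z => fVxt (d i : ℂ) j (I * s) z) (I * t) +
          2 * (I * (8 / 3) * (d i : ℝ)) * deriv (fun z => fVxt (d i : ℂ) j (I * s) z) (I * t) +
          (I * (8 / 3) * (d i : ℝ)) ^ 2 * fVxt (d i : ℂ) j (I * s) (I * t)) := by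
      rw [l2, inv_mul_cancel_left₀ hgne]
    rw [e1, norm_mul]
    have e2 : ‖deriv (deriv fun z => fVxt (d i : ℂ) j (I * s) z) (I * t) +
          2 * (I * (8 / 3) * (d i : ℝ)) * deriv (fun z => fVxt (d i : ℂ) j (I * s) z) (I * t) +
          (I * (8 / 3) * (d i : ℝ)) ^ 2 * fVxt (d i : ℂ) j (I * s) (I * t)‖ ≤ 16 * (j : ℝ) := by
      refine (norm_add_le _ _).trans ((add_le_add (norm_add_le _ _) le_rfl).trans ?_)
      rw [norm_mul (2 * (I * (8 / 3) * ((d i : ℝ) : ℂ))), norm_mul (2 : ℂ),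
        norm_mul ((I * (8 / 3) * ((d i : ℝ) : ℂ)) ^ 2), norm_pow]
      have e4 : ‖(2 : ℂ)‖ = 2 := by norm_num
      rw [e4]
      have e5 : ‖I * (8 / 3) * ((d i : ℝ) : ℂ)‖ ^ 2 ≤ (8 / 3 : ℝ) ^ 2 := by gcongr
      have e6 := mul_le_mul e5 b0 (norm_nonneg _) (by norm_num : (0 : ℝ) ≤ (8 / 3) ^ 2)
      have e7 := mul_le_mul hn b1 (norm_nonneg _) (by norm_num : (0 : ℝ) ≤ 8 / 3)
      linarith
    calc _ ≤ Y * (16 * (j : ℝ)) := mul_le_mul hga' e2 (norm_nonneg _) (by positivity)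
      _ = _ := by ring
  have key := eprV_point a3 hs m0 m2 hD2
  refine ⟨ga (d i : ℂ) (I * t) * D, ?_, ?_⟩
  · have h2 := hD1.const_mul (ga (d i : ℂ) (I * t))
    refine h2.congr_of_eventuallyEq (Eventually.of_forall fun s' => ?_)
    show fVxt (d i : ℂ) j (I * s') (I * t) = _
    rw [WX.fVxt_ga]
  · rw [hfun, OpX_ga hUo hFd (d i) (1 / 2) (1 / 8) _ hzU]
    have e2 : ga (d i : ℂ) (I * t) * D - ((1 / j : ℝ) : ℂ) * (ga (d i : ℂ) (I * t) *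
        (((exp (I * (8 / 3 : ℝ) * (I * s)))⁻¹ - exp (I * (8 / 3 : ℝ) * (I * s))) *
          (((1 / 2 : ℝ) : ℂ) * F (I * t) + ((1 / 8 : ℝ) : ℂ) * deriv (deriv F) (I * t)))) =
        ga (d i : ℂ) (I * t) * (D - ((1 / j : ℝ) : ℂ) *
        (((exp (I * (8 / 3 : ℝ) * (I * s)))⁻¹ - exp (I * (8 / 3 : ℝ) * (I * s))) *
          (((1 / 2 : ℝ) : ℂ) * F (I * t) + ((1 / 8 : ℝ) : ℂ) * deriv (deriv F) (I * t)))) := by ring
    rw [e2, norm_mul]
    refine (mul_le_mul hga key (norm_nonneg _) (by positivity)).trans ?_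
    have e3 : Y * 16 * (j : ℝ) / (j : ℝ) ^ 2 ≤ Y * 16 * (j : ℝ) ^ (p - 1) := by
      rw [mul_div_assoc]
      refine mul_le_mul_of_nonneg_left ?_ (by positivity)
      have e4 : (j : ℝ) / (j : ℝ) ^ 2 = (j : ℝ) ^ (-1 : ℝ) := by
        rw [Real.rpow_neg_one]
        field_simp
      rw [e4]
      exact Real.rpow_le_rpow_of_exponent_le hj1 (by linarith)
    have e5 : 2 * Real.exp (8 / 3) ^ 2 * (Y * 16 * (j : ℝ) / (j : ℝ) ^ 2) ≤
        2 * Y ^ 2 * (Y * 16 * (j : ℝ) ^ (p - 1)) := by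
      rw [← hY]
      gcongr
    calc Y * (|C1| * (j : ℝ) ^ (p - 1) + 2 * Real.exp (8 / 3) ^ 2 * (Y * 16 * (j : ℝ) / (j : ℝ) ^ 2))
        ≤ Y * (|C1| * (j : ℝ) ^ (p - 1) + 2 * Y ^ 2 * (Y * 16 * (j : ℝ) ^ (p - 1))) := by gcongr
      _ = _ := by ring

/-- **THE FUNCTION SIDE OF PLAN V WITH A TWIST, LITERAL, NO HYPOTHESIS** -/
theorem funX {d : ι → ℝ} (hd : ∀ i, |d i| ≤ 1) {p : ℝ} (hp : 1 / 10 ≤ p) (hp1 : p ≤ 1) :
    ∃ (K : ℕ) (C' : ℝ), 0 ≤ C' ∧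
      (∀ᶠ j : ℕ in atTop, ∀ i, ∀ k ∈ Finset.Icc (-(K : ℤ)) K,
        ‖bK (fVt (d i : ℂ)) (j + 2) k * (1 - ((2 * nuX (k + d i) / j : ℝ) : ℂ)) -
          bK (fVt (d i : ℂ)) j k‖ ≤ C' * (j : ℝ) ^ (p - 1)) ∧
      (∀ᶠ j : ℕ in atTop, ∀ i, ∀ k ∈ Finset.Icc (-(K : ℤ)) K,
        ‖bK (fVt (d i : ℂ)) (j + 1) k - (-1) ^ k * bK (fVt (d i : ℂ)) j k‖ ≤ C') ∧
      (∀ᶠ j : ℕ in atTop, ∀ i, ∀ k ∈ Finset.Icc (-(K : ℤ)) K,
        ‖bK (fVt (d i : ℂ)) j k‖ ≤ C' * (j : ℝ) ^ (1 : ℝ)) ∧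
      ∀ᶠ j : ℕ in atTop, ∀ i, ∀ z : ℂ, |z.re| ≤ aL → |z.im| ≤ 2 →
        ‖fVt (d i : ℂ) j z - EL (8 / 3) K (bK (fVt (d i : ℂ)) j) z‖ ≤ (j : ℝ) ^ (-(1 : ℝ)) :=
  (funHX_fVt hd).out (by linarith) hp1 (eprX_fVt hd hp hp1)

end WXF
end
end


/- part: Pool.Agent.WX.SeqX -/
section
/-!
# Plan X: the scalar sequences with a twist, uniform in an index (helper31)

`b i j`, `ν i`; two steps: `‖b i (j + 2) (1 - 2 ν i / j) - b i j‖ ≤ C j^(p-1)`.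

* `contrX`: `ν i ≤ ν' < p`: `‖b i j‖ ≤ B j^p`, one `B`;
* `keptX`: `p + δ ≤ ν i ≤ 1`, `‖b i (j + 1) - σ b i j‖ ≤ C j^p`, `σ = ±1`:
  `‖b i j - g i σ^j j^(ν i)‖ ≤ C' j^p`, `‖g i‖ ≤ C'`, one `C'`;
* `all_of_evX`: from all large sizes to all sizes.
-/

set_option autoImplicit false

open Filter Topology

namespace WX

variable {ι : Type*}

/-! ### a contracted mode -/

/-- one step -/
theorem contr_step {g g' ν p C B x : ℝ} (hx : 2 ≤ x) (hν : 0 ≤ ν) (hνp : ν < p) (hB : 0 ≤ B)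
    (hBC : C ≤ B * (p - ν)) (hx2 : 4 * p * (1 + ν) ≤ (p - ν) * x) (hνx : 2 * ν < x)
    (h : g' * (1 - 2 * ν / x) ≤ g + C * x ^ (p - 1)) (hg : g ≤ B * x ^ p) :
    g' ≤ B * (x + 2) ^ p := by
  have hx0 : 0 < x := by linarith
  have hp : 0 < p := by linarith
  set y : ℝ := 2 / x with hy
  have hy0 : 0 < y := by positivity
  have hyx : x * y = 2 := by
    rw [hy]
    field_simp
  have hy1 : y ≤ 1 := by
    rw [hy, div_le_one hx0]
    exact hx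
  have e0 : 2 * ν / x = ν * y := by
    rw [hy]
    ring
  have h0 : 0 < 1 - ν * y := by
    rw [← e0, sub_pos, div_lt_one hx0]
    exact hνx
  have hxp : 0 < x ^ p := Real.rpow_pos_of_pos hx0 _
  have e1 : x ^ (p - 1) = x ^ p * (y / 2) := by
    rw [Real.rpow_sub hx0, Real.rpow_one, hy]
    field_simp
  have e2 : (x + 2) ^ p = x ^ p * (1 + y) ^ p := by
    rw [← Real.mul_rpow hx0.le (by positivity)]
    congr 1
    rw [hy]
    field_simp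
  -- the lower bound of the power
  have hl : 0 < 1 + y := by linarith
  have hlog2 : y - y ^ 2 ≤ Real.log (1 + y) := by
    have h5 := Real.one_sub_inv_le_log_of_pos hl
    have h6 : y - y ^ 2 ≤ 1 - (1 + y)⁻¹ := by
      have h7 : 1 - (1 + y)⁻¹ - (y - y ^ 2) = y ^ 3 / (1 + y) := by
        field_simp
        ring
      have : 0 ≤ y ^ 3 / (1 + y) := by positivity
      linarith
    linarith
  have e3 : 1 + p * (y - y ^ 2) ≤ (1 + y) ^ p := by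
    rw [Real.rpow_def_of_pos hl]
    have h1 := Real.add_one_le_exp (Real.log (1 + y) * p)
    have h2 : p * (y - y ^ 2) ≤ Real.log (1 + y) * p := by
      rw [mul_comm (Real.log (1 + y))]
      exact mul_le_mul_of_nonneg_left hlog2 hp.le
    linarith
  have e4 : 1 + (p - ν) * (y / 2) ≤ (1 + y) ^ p * (1 - ν * y) := by
    refine le_trans ?_ (mul_le_mul_of_nonneg_right e3 h0.le)
    have h1 : (1 + p * (y - y ^ 2)) * (1 - ν * y) - (1 + (p - ν) * (y / 2)) =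
        y * ((p - ν) / 2 - p * (1 + ν) * y) + p * ν * y ^ 3 := by ring
    have h2 : p * (1 + ν) * y ≤ (p - ν) / 2 := by
      have h3 : 4 * p * (1 + ν) * y ≤ (p - ν) * x * y := mul_le_mul_of_nonneg_right hx2 hy0.le
      rw [mul_assoc (p - ν), hyx] at h3
      linarith
    have h4 : 0 ≤ y * ((p - ν) / 2 - p * (1 + ν) * y) := mul_nonneg hy0.le (by linarith)
    have h5 : 0 ≤ p * ν * y ^ 3 := by positivity
    linarith
  rw [e0] at h
  refine le_of_mul_le_mul_right (le_trans h ?_) h0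
  rw [e1, e2]
  calc g + C * (x ^ p * (y / 2)) ≤ B * x ^ p + B * (p - ν) * (x ^ p * (y / 2)) := by
        have : 0 ≤ x ^ p * (y / 2) := by positivity
        gcongr
    _ = B * x ^ p * (1 + (p - ν) * (y / 2)) := by ring
    _ ≤ B * x ^ p * ((1 + y) ^ p * (1 - ν * y)) := by gcongr
    _ = _ := by ring

/-- **a contracted mode, real, uniform in the index** -/
theorem contr_real {g : ι → ℕ → ℝ} {ν p e C : ℝ} (hν : 0 ≤ ν) (hνp : ν < p)
    (hg : ∀ᶠ j : ℕ in atTop, ∀ i, g i j ≤ C * (j : ℝ) ^ e)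
    (h : ∀ᶠ j : ℕ in atTop, ∀ i, g i (j + 2) * (1 - 2 * ν / j) ≤ g i j + C * (j : ℝ) ^ (p - 1)) :
    ∃ B : ℝ, 0 ≤ B ∧ ∀ᶠ j : ℕ in atTop, ∀ i, g i j ≤ B * (j : ℝ) ^ p := by
  have hp : 0 < p := by linarith
  have hev : ∀ᶠ j : ℕ in atTop, max 2 (max (4 * p * (1 + ν) / (p - ν)) (2 * ν + 1)) ≤ (j : ℝ) :=
    tendsto_natCast_atTop_atTop.eventually_ge_atTop _
  obtain ⟨J, hJ⟩ := eventually_atTop.1 ((h.and hev).and hg)
  set B : ℝ := max (max (|C| * (J : ℝ) ^ e * (J : ℝ) ^ (-p))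
    (|C| * ((J + 1 : ℕ) : ℝ) ^ e * ((J + 1 : ℕ) : ℝ) ^ (-p))) (|C| / (p - ν)) with hB
  have hpν : 0 < p - ν := by linarith
  have hB2 : |C| / (p - ν) ≤ B := le_max_right _ _
  have hB0 : 0 ≤ B := le_trans (by positivity) hB2
  have hBC : C ≤ B * (p - ν) := by
    rw [div_le_iff₀ hpν] at hB2
    exact (le_abs_self C).trans hB2
  have hpos : ∀ j ≥ J, (2 : ℝ) ≤ (j : ℝ) := fun j hj => le_trans (le_max_left _ _) (hJ j hj).1.2
  have base : ∀ (i : ι) (m : ℕ), J ≤ m → |C| * (m : ℝ) ^ e * (m : ℝ) ^ (-p) ≤ B →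
      g i m ≤ B * (m : ℝ) ^ p := by
    intro i m hm hh
    have hi0 : (0 : ℝ) < m := by linarith [hpos m hm]
    have h1 := (hJ m hm).2 i
    have h2 : (m : ℝ) ^ (-p) * (m : ℝ) ^ p = 1 := by
      rw [← Real.rpow_add hi0, neg_add_cancel, Real.rpow_zero]
    have h3 : 0 ≤ (m : ℝ) ^ e := by positivity
    calc g i m ≤ C * (m : ℝ) ^ e := h1
      _ ≤ |C| * (m : ℝ) ^ e := mul_le_mul_of_nonneg_right (le_abs_self C) h3
      _ = |C| * (m : ℝ) ^ e * (m : ℝ) ^ (-p) * (m : ℝ) ^ p := by rw [mul_assoc, h2, mul_one]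
      _ ≤ B * (m : ℝ) ^ p := mul_le_mul_of_nonneg_right hh (by positivity)
  refine ⟨B, hB0, eventually_atTop.2 ⟨J, fun j hj i => ?_⟩⟩
  have key : ∀ n : ℕ, g i (J + n) ≤ B * ((J + n : ℕ) : ℝ) ^ p ∧
      g i (J + n + 1) ≤ B * ((J + n + 1 : ℕ) : ℝ) ^ p := by
    intro n
    induction n with
    | zero =>
      refine ⟨?_, ?_⟩
      · rw [Nat.add_zero]
        exact base i J le_rfl ((le_max_left _ _).trans (le_max_left _ _))
      · rw [Nat.add_zero]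
        exact base i (J + 1) (by omega) ((le_max_right _ _).trans (le_max_left _ _))
    | succ n ih =>
      refine ⟨by rw [← Nat.add_assoc]; exact ih.2, ?_⟩
      obtain ⟨⟨a1, a2⟩, -⟩ := hJ (J + n) (by omega)
      have b1 : (2 : ℝ) ≤ ((J + n : ℕ) : ℝ) := (le_max_left _ _).trans a2
      have b2 : 4 * p * (1 + ν) ≤ (p - ν) * ((J + n : ℕ) : ℝ) := by
        have := ((le_max_left _ _).trans (le_max_right _ _)).trans a2
        rw [div_le_iff₀ hpν] at this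
        linarith
      have b3 : 2 * ν < ((J + n : ℕ) : ℝ) := by
        have := ((le_max_right _ _).trans (le_max_right _ _)).trans a2
        linarith
      have := contr_step b1 hν hνp hB0 hBC b2 b3 (a1 i) ih.1
      have e : ((J + (n + 1) + 1 : ℕ) : ℝ) = ((J + n : ℕ) : ℝ) + 2 := by
        push_cast
        ring
      rw [e, show J + (n + 1) + 1 = J + n + 2 by ring]
      exact this
  obtain ⟨n, rfl⟩ := Nat.exists_eq_add_of_le hj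
  exact (key n).1

/-- **a contracted mode, uniform in the index** -/
theorem contrX {b : ι → ℕ → ℂ} {ν : ι → ℝ} {ν' p e C : ℝ} (hν' : 0 ≤ ν') (hp : ν' < p)
    (hν : ∀ i, ν i ≤ ν') (hb : ∀ᶠ j : ℕ in atTop, ∀ i, ‖b i j‖ ≤ C * (j : ℝ) ^ e)
    (h2 : ∀ᶠ j : ℕ in atTop, ∀ i, ‖b i (j + 2) * (1 - ((2 * ν i / j : ℝ) : ℂ)) - b i j‖ ≤
      C * (j : ℝ) ^ (p - 1)) :
    ∃ B : ℝ, 0 ≤ B ∧ ∀ᶠ j : ℕ in atTop, ∀ i, ‖b i j‖ ≤ B * (j : ℝ) ^ p := by
  refine contr_real (g := fun i j => ‖b i j‖) hν' hp hb ?_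
  filter_upwards [h2, eventually_ge_atTop 1] with j hj hj1 i
  have hj0 : (0 : ℝ) < j := by exact_mod_cast hj1
  have h3 : 1 - 2 * ν' / j ≤ ‖(1 - ((2 * ν i / j : ℝ) : ℂ))‖ := by
    have e : (1 - ((2 * ν i / j : ℝ) : ℂ)) = ((1 - 2 * ν i / j : ℝ) : ℂ) := by push_cast; ring
    rw [e, Complex.norm_real, Real.norm_eq_abs]
    refine le_trans ?_ (le_abs_self _)
    have : 2 * ν i / j ≤ 2 * ν' / j := by
      have := hν i
      gcongr
    linarith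
  have h4 : ‖b i (j + 2)‖ * ‖(1 - ((2 * ν i / j : ℝ) : ℂ))‖ ≤ ‖b i j‖ + C * (j : ℝ) ^ (p - 1) := by
    rw [← norm_mul]
    have h5 := norm_sub_norm_le (b i (j + 2) * (1 - ((2 * ν i / j : ℝ) : ℂ))) (b i j)
    linarith [hj i]
  exact (mul_le_mul_of_nonneg_left h3 (norm_nonneg _)).trans h4

/-! ### a kept mode -/

/-- the second order error of the power, two steps -/
theorem pow_step2 {x μ : ℝ} (hx : 2 ≤ x) (hμ : 0 ≤ μ) (hμ1 : μ ≤ 1) :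
    |(x + 2) ^ (-μ) - (1 - 2 * μ / x) * x ^ (-μ)| ≤ 8 * x ^ (-μ - 2) := by
  have hx0 : 0 < x := by linarith
  have h := PVF.pow_step (x := x / 2) (μ := μ) (by linarith) hμ hμ1
  have h2 : (0 : ℝ) < 2 ^ (-μ) := by positivity
  have e1 : (x + 2) ^ (-μ) = 2 ^ (-μ) * (x / 2 + 1) ^ (-μ) := by
    rw [← Real.mul_rpow (by norm_num) (by positivity)]
    congr 1
    ring
  have e2 : x ^ (-μ) = 2 ^ (-μ) * (x / 2) ^ (-μ) := by
    rw [← Real.mul_rpow (by norm_num) (by positivity)]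
    congr 1
    ring
  have e3 : x ^ (-μ - 2) = 2 ^ (-μ) * (x / 2) ^ (-μ - 2) / 4 := by
    have : x ^ (-μ - 2) = 2 ^ (-μ - 2) * (x / 2) ^ (-μ - 2) := by
      rw [← Real.mul_rpow (by norm_num) (by positivity)]
      congr 1
      ring
    rw [this, Real.rpow_sub (by norm_num : (0 : ℝ) < 2) (-μ) 2]
    norm_num
    ring
  have e4 : (x + 2) ^ (-μ) - (1 - 2 * μ / x) * x ^ (-μ) =
      2 ^ (-μ) * ((x / 2 + 1) ^ (-μ) - (1 - μ / (x / 2)) * (x / 2) ^ (-μ)) := by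
    rw [e1, e2]
    have : 2 * μ / x = μ / (x / 2) := by
      field_simp
    rw [this]
    ring
  rw [e4, abs_mul, abs_of_pos h2, e3]
  calc 2 ^ (-μ) * |(x / 2 + 1) ^ (-μ) - (1 - μ / (x / 2)) * (x / 2) ^ (-μ)| ≤
      2 ^ (-μ) * (2 * (x / 2) ^ (-μ - 2)) := by gcongr
    _ = _ := by ring

/-- the mode divided by its power -/
noncomputable def nrm (b : ι → ℕ → ℂ) (ν : ι → ℝ) (i : ι) (j : ℕ) : ℂ :=
  b i j * (((j : ℝ) ^ (-ν i) : ℝ) : ℂ)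

theorem nrm_step {b : ι → ℕ → ℂ} {ν : ι → ℝ} {p e C : ℝ} (hν : ∀ i, 0 ≤ ν i) (hν1 : ∀ i, ν i ≤ 1)
    (he : e ≤ p + 1)
    (h2 : ∀ᶠ j : ℕ in atTop, ∀ i, ‖b i (j + 2) * (1 - ((2 * ν i / j : ℝ) : ℂ)) - b i j‖ ≤
      C * (j : ℝ) ^ (p - 1))
    (hb : ∀ᶠ j : ℕ in atTop, ∀ i, ‖b i j‖ ≤ C * (j : ℝ) ^ e) :
    ∃ C' : ℝ, 0 ≤ C' ∧ ∀ᶠ j : ℕ in atTop, ∀ i, ‖nrm b ν i (j + 2) - nrm b ν i j‖ ≤
      C' * (j : ℝ) ^ (-(1 + (ν i - p))) := by
  refine ⟨8 * (2 ^ |e| * |C|) + |C|, by positivity, ?_⟩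
  filter_upwards [h2, (tendsto_add_atTop_nat 2).eventually hb, eventually_ge_atTop 2] with j h1 h4 h3 i
  have hj2 : (2 : ℝ) ≤ j := by exact_mod_cast h3
  have hj1 : (1 : ℝ) ≤ j := by linarith
  have hj0 : (0 : ℝ) < j := by linarith
  have e1 : nrm b ν i (j + 2) - nrm b ν i j =
      b i (j + 2) * ((((j : ℝ) + 2) ^ (-ν i) - (1 - 2 * ν i / j) * (j : ℝ) ^ (-ν i) : ℝ) : ℂ) +
      (b i (j + 2) * (1 - ((2 * ν i / j : ℝ) : ℂ)) - b i j) * (((j : ℝ) ^ (-ν i) : ℝ) : ℂ) := by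
    unfold nrm
    push_cast
    ring
  rw [e1]
  refine (norm_add_le _ _).trans ?_
  rw [norm_mul, norm_mul, Complex.norm_real, Complex.norm_real, Real.norm_eq_abs, Real.norm_eq_abs,
    abs_of_pos (Real.rpow_pos_of_pos hj0 (-ν i))]
  have h5 := pow_step2 hj2 (hν i) (hν1 i)
  have hbj : ‖b i (j + 2)‖ ≤ 2 ^ |e| * |C| * (j : ℝ) ^ e := by
    have h6 : ‖b i (j + 2)‖ ≤ C * ((j + 2 : ℕ) : ℝ) ^ e := h4 i
    have h7 : ((j + 2 : ℕ) : ℝ) ^ e ≤ 2 ^ |e| * (j : ℝ) ^ e := by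
      have h8 : ((j + 2 : ℕ) : ℝ) = (((j + 2 : ℕ) : ℝ) / j) * j := by
        field_simp
      have h9 : 1 ≤ ((j + 2 : ℕ) : ℝ) / j := by
        rw [one_le_div hj0]
        push_cast
        linarith
      have h10 : ((j + 2 : ℕ) : ℝ) / j ≤ 2 := by
        rw [div_le_iff₀ hj0]
        push_cast
        linarith
      calc ((j + 2 : ℕ) : ℝ) ^ e = (((j + 2 : ℕ) : ℝ) / j) ^ e * (j : ℝ) ^ e := by
            rw [← Real.mul_rpow (by positivity) hj0.le, ← h8]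
        _ ≤ (((j + 2 : ℕ) : ℝ) / j) ^ |e| * (j : ℝ) ^ e := by
            gcongr
            exact le_abs_self e
        _ ≤ 2 ^ |e| * (j : ℝ) ^ e := by gcongr
    have h11 : 0 ≤ ((j + 2 : ℕ) : ℝ) ^ e := by positivity
    calc ‖b i (j + 2)‖ ≤ C * ((j + 2 : ℕ) : ℝ) ^ e := h6
      _ ≤ |C| * ((j + 2 : ℕ) : ℝ) ^ e := mul_le_mul_of_nonneg_right (le_abs_self C) h11
      _ ≤ |C| * (2 ^ |e| * (j : ℝ) ^ e) := by gcongr
      _ = _ := by ring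
  have g1 : ‖b i (j + 2)‖ * |((j : ℝ) + 2) ^ (-ν i) - (1 - 2 * ν i / j) * (j : ℝ) ^ (-ν i)| ≤
      (2 ^ |e| * |C| * (j : ℝ) ^ e) * (8 * (j : ℝ) ^ (-ν i - 2)) := by gcongr
  have g2 : ‖b i (j + 2) * (1 - ((2 * ν i / j : ℝ) : ℂ)) - b i j‖ * (j : ℝ) ^ (-ν i) ≤
      (|C| * (j : ℝ) ^ (p - 1)) * (j : ℝ) ^ (-ν i) := by
    have h6 : ‖b i (j + 2) * (1 - ((2 * ν i / j : ℝ) : ℂ)) - b i j‖ ≤ |C| * (j : ℝ) ^ (p - 1) :=
      (h1 i).trans (mul_le_mul_of_nonneg_right (le_abs_self C) (by positivity))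
    gcongr
  have g3 : (j : ℝ) ^ e * (j : ℝ) ^ (-ν i - 2) ≤ (j : ℝ) ^ (-(1 + (ν i - p))) := by
    rw [← Real.rpow_add hj0]
    exact Real.rpow_le_rpow_of_exponent_le hj1 (by linarith)
  have g4 : (j : ℝ) ^ (p - 1) * (j : ℝ) ^ (-ν i) = (j : ℝ) ^ (-(1 + (ν i - p))) := by
    rw [← Real.rpow_add hj0]
    congr 1
    ring
  have g5 : (2 ^ |e| * |C| * (j : ℝ) ^ e) * (8 * (j : ℝ) ^ (-ν i - 2)) ≤
      8 * (2 ^ |e| * |C|) * (j : ℝ) ^ (-(1 + (ν i - p))) := by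
    calc _ = 8 * (2 ^ |e| * |C|) * ((j : ℝ) ^ e * (j : ℝ) ^ (-ν i - 2)) := by ring
      _ ≤ _ := by gcongr
  have g6 : (|C| * (j : ℝ) ^ (p - 1)) * (j : ℝ) ^ (-ν i) = |C| * (j : ℝ) ^ (-(1 + (ν i - p))) := by
    rw [mul_assoc, g4]
  rw [g6] at g2
  linarith

/-- **limits along the two parities, with a rate, uniform in the index** -/
theorem nrm_lim {G : ι → ℕ → ℂ} {c : ι → ℝ} {c0 C : ℝ} (hc0 : 0 < c0) (hc : ∀ i, c0 ≤ c i)
    (hc1 : ∀ i, c i ≤ 1)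
    (h : ∀ᶠ j : ℕ in atTop, ∀ i, ‖G i (j + 2) - G i j‖ ≤ C * (j : ℝ) ^ (-(1 + c i))) :
    ∃ (g : ι → ℕ → ℂ) (C' : ℝ), 0 ≤ C' ∧ ∀ᶠ j : ℕ in atTop, ∀ i,
      ‖G i j - g i (j % 2)‖ ≤ C' * (j : ℝ) ^ (-(c i)) := by
  obtain ⟨J, hJ⟩ := eventually_atTop.1 h
  have h1 := WNDF.seq_limW (ι := ι × Fin 2) (G := fun i m => G i.1 (2 * m + i.2)) (c := fun i => c i.1)
    (c0 := c0) (C := |C|) hc0 (fun i => hc i.1) (fun i => hc1 i.1) (by
      filter_upwards [eventually_ge_atTop J, eventually_ge_atTop 1] with m hm hm1 i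
      have hm0 : (0 : ℝ) < m := by exact_mod_cast hm1
      have h2 := hJ (2 * m + i.2) (by omega) i.1
      have e : 2 * (m + 1) + (i.2 : ℕ) = 2 * m + i.2 + 2 := by ring
      rw [e]
      refine h2.trans ?_
      have h3 : ((2 * m + i.2 : ℕ) : ℝ) ^ (-(1 + c i.1)) ≤ (m : ℝ) ^ (-(1 + c i.1)) := by
        refine Real.rpow_le_rpow_of_nonpos hm0 ?_ (by linarith [hc i.1])
        have : m ≤ 2 * m + (i.2 : ℕ) := by omega
        exact_mod_cast this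
      have h4 : 0 ≤ ((2 * m + i.2 : ℕ) : ℝ) ^ (-(1 + c i.1)) := by positivity
      calc C * ((2 * m + i.2 : ℕ) : ℝ) ^ (-(1 + c i.1)) ≤ |C| * ((2 * m + i.2 : ℕ) : ℝ) ^ (-(1 + c i.1)) :=
            mul_le_mul_of_nonneg_right (le_abs_self C) h4
        _ ≤ _ := by gcongr)
  obtain ⟨g, C', hC', hg⟩ := h1
  obtain ⟨M, hM⟩ := eventually_atTop.1 hg
  refine ⟨fun i r => if hr : r < 2 then g (i, ⟨r, hr⟩) else 0, 3 * C', by positivity,
    eventually_atTop.2 ⟨2 * M + 2, fun j hj i => ?_⟩⟩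
  have hr : j % 2 < 2 := Nat.mod_lt _ (by norm_num)
  have h5 := hM (j / 2) (by omega) (i, ⟨j % 2, hr⟩)
  have e : 2 * (j / 2) + j % 2 = j := Nat.div_add_mod j 2
  simp only [e] at h5
  simp only [hr, dif_pos]
  refine h5.trans ?_
  have hj0 : (0 : ℝ) < j := by
    have : 0 < j := by omega
    exact_mod_cast this
  have h6 : (j : ℝ) / 3 ≤ ((j / 2 : ℕ) : ℝ) := by
    have h7 : j ≤ 3 * (j / 2) := by omega
    have h8 : (j : ℝ) ≤ 3 * ((j / 2 : ℕ) : ℝ) := by exact_mod_cast h7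
    linarith
  have h9 : ((j / 2 : ℕ) : ℝ) ^ (-(c i)) ≤ 3 * (j : ℝ) ^ (-(c i)) := by
    calc ((j / 2 : ℕ) : ℝ) ^ (-(c i)) ≤ ((j : ℝ) / 3) ^ (-(c i)) :=
          Real.rpow_le_rpow_of_nonpos (by positivity) h6 (by linarith [hc i])
      _ = (j : ℝ) ^ (-(c i)) * 3 ^ (c i) := by
          rw [Real.div_rpow hj0.le (by norm_num), Real.rpow_neg (by norm_num : (0 : ℝ) ≤ 3), div_inv_eq_mul]
      _ ≤ (j : ℝ) ^ (-(c i)) * 3 := by
          have : (3 : ℝ) ^ (c i) ≤ 3 ^ (1 : ℝ) :=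
            Real.rpow_le_rpow_of_exponent_le (by norm_num) (hc1 i)
          rw [Real.rpow_one] at this
          gcongr
      _ = _ := by ring
  calc C' * ((j / 2 : ℕ) : ℝ) ^ (-(c i)) ≤ C' * (3 * (j : ℝ) ^ (-(c i))) := by gcongr
    _ = _ := by ring

/-- **a kept mode, uniform in the index** -/
theorem keptX {b : ι → ℕ → ℂ} {ν : ι → ℝ} {σ : ℂ} (hσ : σ = 1 ∨ σ = -1) {p δ e C : ℝ} (hp : 0 ≤ p)
    (hδ : 0 < δ) (hν : ∀ i, p + δ ≤ ν i) (hν1 : ∀ i, ν i ≤ 1) (he : e ≤ p + 1)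
    (h2 : ∀ᶠ j : ℕ in atTop, ∀ i, ‖b i (j + 2) * (1 - ((2 * ν i / j : ℝ) : ℂ)) - b i j‖ ≤
      C * (j : ℝ) ^ (p - 1))
    (hb : ∀ᶠ j : ℕ in atTop, ∀ i, ‖b i j‖ ≤ C * (j : ℝ) ^ e)
    (hj : ∀ᶠ j : ℕ in atTop, ∀ i, ‖b i (j + 1) - σ * b i j‖ ≤ C * (j : ℝ) ^ p) :
    ∃ (g : ι → ℂ) (C' : ℝ), 0 ≤ C' ∧ (∀ i, ‖g i‖ ≤ C') ∧ ∀ᶠ j : ℕ in atTop, ∀ i,
      ‖b i j - g i * σ ^ j * (((j : ℝ) ^ (ν i) : ℝ) : ℂ)‖ ≤ C' * (j : ℝ) ^ p := by
  have hσ1 : ‖σ‖ = 1 := by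
    rcases hσ with rfl | rfl <;> simp
  have hσ2 : σ * σ = 1 := by
    rcases hσ with rfl | rfl <;> simp
  have hν0 : ∀ i, 0 ≤ ν i := fun i => by linarith [hν i]
  obtain ⟨C1, hC1, h3⟩ := nrm_step hν0 hν1 he h2 hb
  obtain ⟨g, C2, hC2, h4⟩ := nrm_lim (G := nrm b ν) (c := fun i => ν i - p) (c0 := δ) (C := C1) hδ
    (fun i => by linarith [hν i]) (fun i => by linarith [hν1 i]) h3
  -- the value with the power put back
  have h5 : ∀ᶠ j : ℕ in atTop, ∀ i, ‖b i j - g i (j % 2) * (((j : ℝ) ^ (ν i) : ℝ) : ℂ)‖ ≤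
      C2 * (j : ℝ) ^ p := by
    filter_upwards [h4, eventually_ge_atTop 1] with j a1 a2 i
    have hj0 : (0 : ℝ) < j := by exact_mod_cast a2
    have hne : (j : ℝ) ^ (-ν i) * (j : ℝ) ^ (ν i) = 1 := by
      rw [← Real.rpow_add hj0, neg_add_cancel, Real.rpow_zero]
    have e1 : b i j - g i (j % 2) * (((j : ℝ) ^ (ν i) : ℝ) : ℂ) =
        (nrm b ν i j - g i (j % 2)) * (((j : ℝ) ^ (ν i) : ℝ) : ℂ) := by
      have : (((j : ℝ) ^ (-ν i) : ℝ) : ℂ) * (((j : ℝ) ^ (ν i) : ℝ) : ℂ) = 1 := by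
        rw [← Complex.ofReal_mul, hne, Complex.ofReal_one]
      unfold nrm
      rw [sub_mul, mul_assoc, this, mul_one]
    rw [e1, norm_mul, Complex.norm_real, Real.norm_of_nonneg (by positivity)]
    have h6 := a1 i
    calc _ ≤ C2 * (j : ℝ) ^ (-(ν i - p)) * (j : ℝ) ^ (ν i) := by gcongr
      _ = C2 * (j : ℝ) ^ p := by
        rw [mul_assoc, ← Real.rpow_add hj0]
        congr 2
        ring
  -- the constants are bounded
  have h6 : ∃ C3 : ℝ, 0 ≤ C3 ∧ ∀ i, ‖g i 0‖ ≤ C3 ∧ ‖g i 1‖ ≤ C3 := by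
    obtain ⟨J, hJ⟩ := eventually_atTop.1 ((h4.and hb).and (eventually_ge_atTop 1))
    have hgen : ∀ j ≥ J, ∀ i, ‖g i (j % 2)‖ ≤ |C| * (j : ℝ) ^ e + C2 := by
      intro j hjJ i
      obtain ⟨⟨a1, a2⟩, a3⟩ := hJ j hjJ
      have hj1 : (1 : ℝ) ≤ j := by exact_mod_cast a3
      have e1 : g i (j % 2) = nrm b ν i j - (nrm b ν i j - g i (j % 2)) := by ring
      rw [e1]
      refine (norm_sub_le _ _).trans ?_
      have e2 : ‖nrm b ν i j‖ ≤ |C| * (j : ℝ) ^ e := by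
        unfold nrm
        rw [norm_mul, Complex.norm_real, Real.norm_of_nonneg (by positivity)]
        have e3 : (j : ℝ) ^ (-ν i) ≤ 1 := Real.rpow_le_one_of_one_le_of_nonpos hj1 (by linarith [hν0 i])
        have e4 : ‖b i j‖ ≤ |C| * (j : ℝ) ^ e :=
          (a2 i).trans (mul_le_mul_of_nonneg_right (le_abs_self C) (by positivity))
        calc ‖b i j‖ * (j : ℝ) ^ (-ν i) ≤ ‖b i j‖ * 1 := by gcongr
          _ ≤ _ := by rw [mul_one]; exact e4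
      have e5 : ‖nrm b ν i j - g i (j % 2)‖ ≤ C2 := by
        refine (a1 i).trans ?_
        have : (j : ℝ) ^ (-(ν i - p)) ≤ 1 :=
          Real.rpow_le_one_of_one_le_of_nonpos hj1 (by linarith [hν i])
        calc _ ≤ C2 * 1 := by gcongr
          _ = C2 := mul_one _
      linarith
    refine ⟨max (|C| * ((2 * J : ℕ) : ℝ) ^ e + C2) (|C| * ((2 * J + 1 : ℕ) : ℝ) ^ e + C2), ?_, fun i => ⟨?_, ?_⟩⟩
    · exact le_max_of_le_left (by positivity)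
    · have h7 := hgen (2 * J) (by omega) i
      rw [show 2 * J % 2 = 0 by omega] at h7
      exact le_max_of_le_left h7
    · have h7 := hgen (2 * J + 1) (by omega) i
      rw [show (2 * J + 1) % 2 = 1 by omega] at h7
      exact le_max_of_le_right h7
  obtain ⟨C3, hC3, h7⟩ := h6
  have hgle : ∀ i j, ‖g i (j % 2)‖ ≤ C3 := by
    intro i j
    rcases Nat.mod_two_eq_zero_or_one j with h | h <;> rw [h]
    · exact (h7 i).1
    · exact (h7 i).2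
  -- the parities are joined
  have h8 : ∀ i, g i 1 = σ * g i 0 := by
    intro i
    have hT : ∀ᶠ m : ℕ in atTop, ‖g i 1 - σ * g i 0‖ ≤
        (4 * C2 + C3 + |C|) * ((2 * m : ℕ) : ℝ) ^ (-δ) := by
      obtain ⟨J, hJ⟩ := eventually_atTop.1 ((h5.and hj).and (eventually_ge_atTop 1))
      filter_upwards [eventually_ge_atTop (J + 1)] with m hm
      obtain ⟨⟨a1, a2⟩, a3⟩ := hJ (2 * m) (by omega)
      obtain ⟨⟨c1, -⟩, -⟩ := hJ (2 * m + 1) (by omega)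
      have b1 := a1 i
      have b2 := a2 i
      have b3 := c1 i
      rw [show 2 * m % 2 = 0 by omega] at b1
      rw [show (2 * m + 1) % 2 = 1 by omega] at b3
      set x : ℝ := ((2 * m : ℕ) : ℝ) with hx
      have hx2 : 2 ≤ x := by
        rw [hx]
        have : 2 ≤ 2 * m := by omega
        exact_mod_cast this
      have hx1 : 1 ≤ x := by linarith
      have hx0 : 0 < x := by linarith
      have ex : ((2 * m + 1 : ℕ) : ℝ) = x + 1 := by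
        rw [hx]
        push_cast
        ring
      rw [ex] at b3
      set X : ℝ := x ^ (ν i) with hX
      set X' : ℝ := (x + 1) ^ (ν i) with hX'
      have hX0 : 0 < X := by positivity
      have hxp : 1 ≤ x ^ p := Real.one_le_rpow hx1 hp
      have hXX : |X' - X| ≤ x ^ p := by
        have h9 : X ≤ X' := Real.rpow_le_rpow hx0.le (by linarith) (hν0 i)
        have h10 : X' ≤ X + 1 ^ (ν i) :=
          Real.rpow_add_le_add_rpow hx0.le zero_le_one (hν0 i) (hν1 i)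
        rw [Real.one_rpow] at h10
        rw [abs_of_nonneg (by linarith)]
        linarith
      have hp1 : p ≤ 1 := by linarith [hν i, hν1 i]
      have hxp2 : (x + 1) ^ p ≤ 2 * x ^ p := by
        calc (x + 1) ^ p ≤ (2 * x) ^ p := Real.rpow_le_rpow (by linarith) (by linarith) hp
          _ = 2 ^ p * x ^ p := Real.mul_rpow (by norm_num) hx0.le
          _ ≤ 2 ^ (1 : ℝ) * x ^ p := by
            have : (2 : ℝ) ^ p ≤ 2 ^ (1 : ℝ) := Real.rpow_le_rpow_of_exponent_le (by norm_num) hp1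
            gcongr
          _ = _ := by rw [Real.rpow_one]
      have e1 : (g i 1 - σ * g i 0) * (X : ℂ) = (b i (2 * m + 1) - σ * b i (2 * m)) -
          (b i (2 * m + 1) - g i 1 * (X' : ℂ)) + σ * (b i (2 * m) - g i 0 * (X : ℂ)) -
          g i 1 * ((X' - X : ℝ) : ℂ) := by
        push_cast
        ring
      have h11 : ‖g i 1 - σ * g i 0‖ * X ≤ (4 * C2 + C3 + |C|) * x ^ p := by
        have h12 : ‖(g i 1 - σ * g i 0) * (X : ℂ)‖ = ‖g i 1 - σ * g i 0‖ * X := by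
          rw [norm_mul, Complex.norm_real, Real.norm_of_nonneg hX0.le]
        rw [← h12, e1]
        have h13 : ‖g i 1 * ((X' - X : ℝ) : ℂ)‖ ≤ C3 * x ^ p := by
          rw [norm_mul, Complex.norm_real, Real.norm_eq_abs]
          exact mul_le_mul (h7 i).2 hXX (abs_nonneg _) hC3
        have h14 : ‖σ * (b i (2 * m) - g i 0 * (X : ℂ))‖ ≤ C2 * x ^ p := by
          rw [norm_mul, hσ1, one_mul]
          exact b1
        have h15 : ‖b i (2 * m + 1) - g i 1 * (X' : ℂ)‖ ≤ C2 * (2 * x ^ p) :=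
          b3.trans (mul_le_mul_of_nonneg_left hxp2 hC2)
        have h16 : ‖b i (2 * m + 1) - σ * b i (2 * m)‖ ≤ |C| * x ^ p :=
          b2.trans (mul_le_mul_of_nonneg_right (le_abs_self C) (by positivity))
        refine (norm_sub_le _ _).trans ?_
        refine (add_le_add ((norm_add_le _ _).trans (add_le_add (norm_sub_le _ _) le_rfl)) le_rfl).trans ?_
        have h17 : 0 ≤ C2 * x ^ p := by positivity
        linarith
      have h18 : x ^ p = x ^ (-(ν i - p)) * X := by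
        rw [hX, ← Real.rpow_add hx0]
        congr 1
        ring
      have h19 : x ^ (-(ν i - p)) ≤ x ^ (-δ) :=
        Real.rpow_le_rpow_of_exponent_le hx1 (by linarith [hν i])
      have h20 : ‖g i 1 - σ * g i 0‖ * X ≤ (4 * C2 + C3 + |C|) * x ^ (-(ν i - p)) * X := by
        rw [mul_assoc, ← h18]
        exact h11
      refine (le_of_mul_le_mul_right h20 hX0).trans ?_
      gcongr
    have hlim : Tendsto (fun m : ℕ => (4 * C2 + C3 + |C|) * ((2 * m : ℕ) : ℝ) ^ (-δ)) atTop (𝓝 0) := by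
      have h9 : Tendsto (fun m : ℕ => ((2 * m : ℕ) : ℝ)) atTop atTop :=
        tendsto_natCast_atTop_atTop.comp (tendsto_id.const_mul_atTop' (by norm_num))
      have h10 := ((tendsto_rpow_neg_atTop hδ).comp h9).const_mul (4 * C2 + C3 + |C|)
      rw [mul_zero] at h10
      exact h10
    have h9 : ‖g i 1 - σ * g i 0‖ ≤ 0 := ge_of_tendsto hlim hT
    exact sub_eq_zero.1 (norm_le_zero_iff.1 h9)
  refine ⟨fun i => g i 0, max C2 C3, le_max_of_le_left hC2, fun i => le_max_of_le_right (h7 i).1, ?_⟩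
  filter_upwards [h5] with j hjj i
  have hpar : g i (j % 2) = g i 0 * σ ^ j := by
    rcases Nat.even_or_odd' j with ⟨m, rfl | rfl⟩
    · rw [show 2 * m % 2 = 0 by omega, pow_mul, pow_two, hσ2, one_pow, mul_one]
    · rw [show (2 * m + 1) % 2 = 1 by omega, pow_succ, pow_mul, pow_two, hσ2, one_pow, one_mul, h8 i,
        mul_comm]
  rw [← hpar]
  exact (hjj i).trans (mul_le_mul_of_nonneg_right (le_max_left _ _) (by positivity))

/-! ### from all large sizes to all sizes -/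

/-- **one constant for all sizes** -/
theorem all_of_evX {A : ι → ℕ → ℝ} {p C : ℝ} (h : ∀ᶠ j : ℕ in atTop, ∀ i, |A i j| ≤ C * (j : ℝ) ^ p)
    (hb : ∀ j : ℕ, 1 ≤ j → ∃ B : ℝ, ∀ i, |A i j| ≤ B) :
    ∃ C' : ℝ, 0 ≤ C' ∧ ∀ j : ℕ, 1 ≤ j → ∀ i, |A i j| ≤ C' * (j : ℝ) ^ p := by
  obtain ⟨J, hJ⟩ := eventually_atTop.1 h
  have h1 : ∀ n : ℕ, ∃ C' : ℝ, 0 ≤ C' ∧ ∀ j : ℕ, 1 ≤ j → j ≤ n → ∀ i, |A i j| ≤ C' * (j : ℝ) ^ p := by
    intro n
    induction n with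
    | zero => exact ⟨0, le_rfl, fun j h1 h2 => absurd h1 (by omega)⟩
    | succ n ih =>
      obtain ⟨C1, hC1, h1⟩ := ih
      obtain ⟨B, hB⟩ := hb (n + 1) (by omega)
      have hn0 : (0 : ℝ) < ((n + 1 : ℕ) : ℝ) := by positivity
      have hnp : 0 < ((n + 1 : ℕ) : ℝ) ^ p := Real.rpow_pos_of_pos hn0 _
      refine ⟨max C1 (|B| / ((n + 1 : ℕ) : ℝ) ^ p), le_max_of_le_left hC1, fun j h2 h3 i => ?_⟩
      have hj0 : 0 ≤ (j : ℝ) ^ p := by positivity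
      rcases Nat.lt_or_ge j (n + 1) with h4 | h4
      · exact (h1 j h2 (by omega) i).trans (mul_le_mul_of_nonneg_right (le_max_left _ _) hj0)
      · obtain rfl : j = n + 1 := by omega
        refine ((hB i).trans (le_abs_self B)).trans ?_
        rw [← div_le_iff₀ hnp]
        exact le_max_right _ _
  obtain ⟨C1, hC1, h2⟩ := h1 J
  refine ⟨max C1 C, le_max_of_le_left hC1, fun j hj i => ?_⟩
  have hj0 : 0 ≤ (j : ℝ) ^ p := by positivity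
  rcases Nat.lt_or_ge j J with h4 | h4
  · exact (h2 j hj h4.le i).trans (mul_le_mul_of_nonneg_right (le_max_left _ _) hj0)
  · exact (hJ j h4 i).trans (mul_le_mul_of_nonneg_right (le_max_right _ _) hj0)

end WX
end


/- part: Pool.Agent.WX.AsmX -/
section
/-!
# Plan X: the laws at the rows `0` from the coefficients (helper31)

`b i j k` = coefficients of the function with `j` rows and twist `d i`, `f0 i j` = its value at `0`.

* `ChX p d b f0`: the two-step relation of all coefficients `|k| ≤ K`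
  (`1 - 2 (3/8 - (2/3) (k + d i)²) / j`), the parity relation, the crude bound, `f0 = ∑ b`;
* **`ChX.two`**: `2/5 ≤ d i ≤ 3/5`: `f0 i j = g i j^ν(d) + h i (-1)^j j^ν(1 - d) + O(j^(1/10))`;
* **`ChX.one`**: `|d i| ≤ 2/5`: `f0 i j = g i j^ν(d) + O(j^(3/20))`, `ν(κ) = 3/8 - (2/3) κ²`.
-/

set_option autoImplicit false

noncomputable section

open Filter Topology Set

namespace WX

variable {ι : Type*}

/-- the output of the function side at the rows `0` -/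
structure ChX (p : ℝ) (d : ι → ℝ) (b : ι → ℕ → ℤ → ℂ) (f0 : ι → ℕ → ℂ) (K : ℕ) (C : ℝ) : Prop where
  C0 : 0 ≤ C
  two : ∀ᶠ j : ℕ in atTop, ∀ i, ∀ k ∈ Finset.Icc (-(K : ℤ)) K,
    ‖b i (j + 2) k * (1 - ((2 * (3 / 8 - 2 / 3 * ((k : ℝ) + d i) ^ 2) / j : ℝ) : ℂ)) - b i j k‖ ≤
      C * (j : ℝ) ^ (p - 1)
  par : ∀ᶠ j : ℕ in atTop, ∀ i, ∀ k ∈ Finset.Icc (-(K : ℤ)) K,
    ‖b i (j + 1) k - (-1) ^ k * b i j k‖ ≤ C
  bd : ∀ᶠ j : ℕ in atTop, ∀ i, ∀ k ∈ Finset.Icc (-(K : ℤ)) K, ‖b i j k‖ ≤ C * (j : ℝ) ^ (1 : ℝ)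
  sum : ∀ᶠ j : ℕ in atTop, ∀ i, ‖f0 i j - ∑ k ∈ Finset.Icc (-(K : ℤ)) K, b i j k‖ ≤ C

variable {p : ℝ} {d : ι → ℝ} {b : ι → ℕ → ℤ → ℂ} {f0 : ι → ℕ → ℂ} {K : ℕ} {C : ℝ}

/-- restriction of the index -/
theorem ChX.comp {ι' : Type*} (h : ChX p d b f0 K C) (φ : ι' → ι) :
    ChX p (fun i => d (φ i)) (fun i => b (φ i)) (fun i => f0 (φ i)) K C := by
  refine ⟨h.C0, ?_, ?_, ?_, ?_⟩
  · filter_upwards [h.two] with j hj i
    exact hj (φ i)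
  · filter_upwards [h.par] with j hj i
    exact hj (φ i)
  · filter_upwards [h.bd] with j hj i
    exact hj (φ i)
  · filter_upwards [h.sum] with j hj i
    exact hj (φ i)

/-- the error with a larger exponent -/
theorem ChX.mono (h : ChX p d b f0 K C) {p' : ℝ} (hp : p ≤ p') : ChX p' d b f0 K C := by
  refine ⟨h.C0, ?_, h.par, h.bd, h.sum⟩
  filter_upwards [h.two, eventually_ge_atTop 1] with j hj hj1 i k hk
  refine (hj i k hk).trans (mul_le_mul_of_nonneg_left ?_ h.C0)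
  exact Real.rpow_le_rpow_of_exponent_le (by exact_mod_cast hj1) (by linarith)

/-- the coefficients, zero outside of the range -/
def trX (K : ℕ) (b : ι → ℕ → ℤ → ℂ) (k : ℤ) (i : ι) (j : ℕ) : ℂ :=
  if k ∈ Finset.Icc (-(K : ℤ)) K then b i j k else 0

theorem ChX.two' (h : ChX p d b f0 K C) (k : ℤ) : ∀ᶠ j : ℕ in atTop, ∀ i,
    ‖trX K b k i (j + 2) * (1 - ((2 * (3 / 8 - 2 / 3 * ((k : ℝ) + d i) ^ 2) / j : ℝ) : ℂ)) -
      trX K b k i j‖ ≤ C * (j : ℝ) ^ (p - 1) := by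
  filter_upwards [h.two] with j hj i
  unfold trX
  split_ifs with hk
  · exact hj i k hk
  · rw [zero_mul, sub_zero, norm_zero]
    have := h.C0
    positivity

theorem ChX.par' (h : ChX p d b f0 K C) (hp : 0 ≤ p) (k : ℤ) : ∀ᶠ j : ℕ in atTop, ∀ i,
    ‖trX K b k i (j + 1) - (-1) ^ k * trX K b k i j‖ ≤ C * (j : ℝ) ^ p := by
  filter_upwards [h.par, eventually_ge_atTop 1] with j hj hj1 i
  have hC := h.C0
  have h1 : 1 ≤ (j : ℝ) ^ p := Real.one_le_rpow (by exact_mod_cast hj1) hp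
  unfold trX
  split_ifs with hk
  · refine (hj i k hk).trans ?_
    nlinarith
  · rw [mul_zero, sub_zero, norm_zero]
    positivity

theorem ChX.bd' (h : ChX p d b f0 K C) (k : ℤ) : ∀ᶠ j : ℕ in atTop, ∀ i,
    ‖trX K b k i j‖ ≤ C * (j : ℝ) ^ (1 : ℝ) := by
  filter_upwards [h.bd] with j hj i
  unfold trX
  split_ifs with hk
  · exact hj i k hk
  · rw [norm_zero]
    have := h.C0
    positivity

/-- the value as a sum over the kept modes, up to a contracted rest -/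
theorem ChX.rest (h : ChX p d b f0 K C) (hp : 0 ≤ p) {ν' : ℝ} (hν' : 0 ≤ ν') (hνp : ν' < p)
    (S : Finset ℤ) (hS : ∀ k : ℤ, k ∉ S → ∀ i, 3 / 8 - 2 / 3 * ((k : ℝ) + d i) ^ 2 ≤ ν') :
    ∃ B : ℝ, 0 ≤ B ∧ ∀ᶠ j : ℕ in atTop, ∀ i, ‖f0 i j - ∑ k ∈ S, trX K b k i j‖ ≤ B * (j : ℝ) ^ p := by
  have h1 : ∀ k : ℤ, k ∉ S → ∃ B : ℝ, 0 ≤ B ∧ ∀ᶠ j : ℕ in atTop, ∀ i,
      ‖trX K b k i j‖ ≤ B * (j : ℝ) ^ p := fun k hk =>
    contrX (b := trX K b k) (ν := fun i => 3 / 8 - 2 / 3 * ((k : ℝ) + d i) ^ 2) hν' hνp (hS k hk)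
      (h.bd' k) (h.two' k)
  choose! B hB0 hB using h1
  set T : Finset ℤ := Finset.Icc (-(K : ℤ)) K \ S with hT
  have hT' : ∀ k ∈ T, k ∉ S := fun k hk => (Finset.mem_sdiff.1 hk).2
  have h2 : ∀ᶠ j : ℕ in atTop, ∀ k ∈ T, ∀ i, ‖trX K b k i j‖ ≤ B k * (j : ℝ) ^ p := by
    rw [Filter.eventually_all_finset]
    exact fun k hk => hB k (hT' k hk)
  refine ⟨C + ∑ k ∈ T, B k, ?_, ?_⟩
  · exact add_nonneg h.C0 (Finset.sum_nonneg fun k hk => hB0 k (hT' k hk))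
  filter_upwards [h2, h.sum, eventually_ge_atTop 1] with j a1 a2 a3 i
  have hj1 : (1 : ℝ) ≤ j := by exact_mod_cast a3
  have hjp : 1 ≤ (j : ℝ) ^ p := Real.one_le_rpow hj1 hp
  have e1 : ∑ k ∈ Finset.Icc (-(K : ℤ)) K, b i j k =
      ∑ k ∈ S, trX K b k i j + ∑ k ∈ T, trX K b k i j := by
    have e2 : ∑ k ∈ Finset.Icc (-(K : ℤ)) K, b i j k = ∑ k ∈ Finset.Icc (-(K : ℤ)) K, trX K b k i j :=
      Finset.sum_congr rfl fun k hk => by unfold trX; rw [if_pos hk]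
    have e3 : ∑ k ∈ S, trX K b k i j = ∑ k ∈ Finset.Icc (-(K : ℤ)) K ∩ S, trX K b k i j := by
      symm
      refine Finset.sum_subset Finset.inter_subset_right fun k hk hk' => ?_
      unfold trX
      rw [if_neg]
      intro hk2
      exact hk' (Finset.mem_inter.2 ⟨hk2, hk⟩)
    rw [e2, e3, hT]
    exact (Finset.sum_inter_add_sum_sdiff _ _ _).symm
  have e4 : f0 i j - ∑ k ∈ S, trX K b k i j = (f0 i j - ∑ k ∈ Finset.Icc (-(K : ℤ)) K, b i j k) +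
      ∑ k ∈ T, trX K b k i j := by
    rw [e1]
    ring
  rw [e4]
  refine (norm_add_le _ _).trans ?_
  have e5 : ‖∑ k ∈ T, trX K b k i j‖ ≤ (∑ k ∈ T, B k) * (j : ℝ) ^ p := by
    refine (norm_sum_le _ _).trans ?_
    rw [Finset.sum_mul]
    exact Finset.sum_le_sum fun k hk => a1 k hk i
  have e6 : C ≤ C * (j : ℝ) ^ p := by
    have := h.C0
    nlinarith
  have e7 := a2 i
  rw [add_mul]
  linarith

/-- **two modes**, `2/5 ≤ d ≤ 3/5` -/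
theorem ChX.law_two (h : ChX (1 / 10) d b f0 K C) (hd : ∀ i, d i ∈ Icc (2 / 5 : ℝ) (3 / 5)) :
    ∃ (g h : ι → ℂ) (C' : ℝ), 0 ≤ C' ∧ (∀ i, ‖g i‖ ≤ C') ∧ (∀ i, ‖h i‖ ≤ C') ∧
      ∀ᶠ j : ℕ in atTop, ∀ i, ‖f0 i j - (g i * (((j : ℝ) ^ (3 / 8 - 2 / 3 * (d i) ^ 2) : ℝ) : ℂ) +
        (-1) ^ j * h i * (((j : ℝ) ^ (3 / 8 - 2 / 3 * (1 - d i) ^ 2) : ℝ) : ℂ))‖ ≤
          C' * (j : ℝ) ^ (1 / 10 : ℝ) := by
  obtain ⟨B, hB, h1⟩ := h.rest (ν' := 0) (by norm_num) le_rfl (by norm_num) {0, -1} (by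
    intro k hk i
    simp only [Finset.mem_insert, Finset.mem_singleton, not_or] at hk
    obtain ⟨d1, d2⟩ := hd i
    have h2 : (7 / 5 : ℝ) ^ 2 ≤ ((k : ℝ) + d i) ^ 2 := by
      rcases lt_or_ge k 0 with h3 | h3
      · have h4 : (k : ℝ) ≤ -2 := by
          have : k ≤ -2 := by omega
          exact_mod_cast this
        nlinarith
      · have h4 : (1 : ℝ) ≤ k := by
          have : 1 ≤ k := by omega
          exact_mod_cast this
        nlinarith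
    linarith)
  have hk1 : ∀ i, (1 / 10 : ℝ) + 7 / 200 ≤ 3 / 8 - 2 / 3 * (((0 : ℤ) : ℝ) + d i) ^ 2 := by
    intro i
    obtain ⟨d1, d2⟩ := hd i
    push_cast
    nlinarith
  have hk2 : ∀ i, (1 / 10 : ℝ) + 7 / 200 ≤ 3 / 8 - 2 / 3 * (((-1 : ℤ) : ℝ) + d i) ^ 2 := by
    intro i
    obtain ⟨d1, d2⟩ := hd i
    push_cast
    nlinarith
  have hle : ∀ (k : ℤ) (i : ι), 3 / 8 - 2 / 3 * ((k : ℝ) + d i) ^ 2 ≤ 1 := by
    intro k i
    nlinarith [sq_nonneg ((k : ℝ) + d i)]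
  obtain ⟨g, C1, hC1, hg, h2⟩ := keptX (b := trX K b 0) (σ := 1) (Or.inl rfl) (p := 1 / 10)
    (δ := 7 / 200) (e := 1) (by norm_num) (by norm_num) hk1 (hle 0) (by norm_num) (h.two' 0) (h.bd' 0)
    (by
      have := h.par' (by norm_num) 0
      rw [zpow_zero] at this
      exact this)
  obtain ⟨g', C2, hC2, hg', h3⟩ := keptX (b := trX K b (-1)) (σ := -1) (Or.inr rfl) (p := 1 / 10)
    (δ := 7 / 200) (e := 1) (by norm_num) (by norm_num) hk2 (hle (-1)) (by norm_num) (h.two' (-1))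
    (h.bd' (-1)) (by
      have := h.par' (by norm_num) (-1)
      rw [show ((-1 : ℂ)) ^ (-1 : ℤ) = -1 by norm_num] at this
      exact this)
  refine ⟨g, g', B + C1 + C2, by positivity, fun i => by linarith [hg i], fun i => by linarith [hg' i], ?_⟩
  filter_upwards [h1, h2, h3] with j a1 a2 a3 i
  have b1 := a1 i
  have b2 := a2 i
  have b3 := a3 i
  rw [Finset.sum_pair (by norm_num)] at b1
  rw [one_pow, mul_one] at b2
  have e1 : (((0 : ℤ) : ℝ) + d i) ^ 2 = d i ^ 2 := by push_cast; ring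
  have e2 : (((-1 : ℤ) : ℝ) + d i) ^ 2 = (1 - d i) ^ 2 := by push_cast; ring
  rw [e1] at b2
  rw [e2] at b3
  have e3 : f0 i j - (g i * (((j : ℝ) ^ (3 / 8 - 2 / 3 * (d i) ^ 2) : ℝ) : ℂ) +
        (-1) ^ j * g' i * (((j : ℝ) ^ (3 / 8 - 2 / 3 * (1 - d i) ^ 2) : ℝ) : ℂ)) =
      (f0 i j - (trX K b 0 i j + trX K b (-1) i j)) +
      (trX K b 0 i j - g i * (((j : ℝ) ^ (3 / 8 - 2 / 3 * (d i) ^ 2) : ℝ) : ℂ)) +
      (trX K b (-1) i j - g' i * (-1) ^ j * (((j : ℝ) ^ (3 / 8 - 2 / 3 * (1 - d i) ^ 2) : ℝ) : ℂ)) := by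
    ring
  rw [e3]
  refine (norm_add₃_le).trans ?_
  rw [add_mul, add_mul]
  linarith

/-- **one mode**, `|d| ≤ 2/5` -/
theorem ChX.law_one (h : ChX (1 / 10) d b f0 K C) (hd : ∀ i, |d i| ≤ 2 / 5) :
    ∃ (g : ι → ℂ) (C' : ℝ), 0 ≤ C' ∧ (∀ i, ‖g i‖ ≤ C') ∧
      ∀ᶠ j : ℕ in atTop, ∀ i, ‖f0 i j - g i * (((j : ℝ) ^ (3 / 8 - 2 / 3 * (d i) ^ 2) : ℝ) : ℂ)‖ ≤
          C' * (j : ℝ) ^ (3 / 20 : ℝ) := by
  have h' : ChX (3 / 20) d b f0 K C := h.mono (by norm_num)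
  obtain ⟨B, hB, h1⟩ := h'.rest (ν' := 27 / 200) (by norm_num) (by norm_num) (by norm_num) {0} (by
    intro k hk i
    simp only [Finset.mem_singleton] at hk
    obtain ⟨d1, d2⟩ := abs_le.1 (hd i)
    have h2 : (3 / 5 : ℝ) ^ 2 ≤ ((k : ℝ) + d i) ^ 2 := by
      rcases lt_or_ge k 0 with h3 | h3
      · have h4 : (k : ℝ) ≤ -1 := by
          have : k ≤ -1 := by omega
          exact_mod_cast this
        nlinarith
      · have h4 : (1 : ℝ) ≤ k := by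
          have : 1 ≤ k := by omega
          exact_mod_cast this
        nlinarith
    linarith)
  have hk1 : ∀ i, (3 / 20 : ℝ) + 7 / 200 ≤ 3 / 8 - 2 / 3 * (((0 : ℤ) : ℝ) + d i) ^ 2 := by
    intro i
    obtain ⟨d1, d2⟩ := abs_le.1 (hd i)
    push_cast
    nlinarith
  have hle : ∀ (i : ι), 3 / 8 - 2 / 3 * (((0 : ℤ) : ℝ) + d i) ^ 2 ≤ 1 := by
    intro i
    nlinarith [sq_nonneg (((0 : ℤ) : ℝ) + d i)]
  obtain ⟨g, C1, hC1, hg, h2⟩ := keptX (b := trX K b 0) (σ := 1) (Or.inl rfl) (p := 3 / 20)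
    (δ := 7 / 200) (e := 1) (by norm_num) (by norm_num) hk1 hle (by norm_num) (h'.two' 0) (h'.bd' 0)
    (by
      have := h'.par' (by norm_num) 0
      rw [zpow_zero] at this
      exact this)
  refine ⟨g, B + C1, by positivity, fun i => by linarith [hg i], ?_⟩
  filter_upwards [h1, h2] with j a1 a2 i
  have b1 := a1 i
  have b2 := a2 i
  rw [Finset.sum_singleton] at b1
  rw [one_pow, mul_one] at b2
  have e1 : (((0 : ℤ) : ℝ) + d i) ^ 2 = d i ^ 2 := by push_cast; ring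
  rw [e1] at b2
  have e3 : f0 i j - g i * (((j : ℝ) ^ (3 / 8 - 2 / 3 * (d i) ^ 2) : ℝ) : ℂ) =
      (f0 i j - trX K b 0 i j) +
      (trX K b 0 i j - g i * (((j : ℝ) ^ (3 / 8 - 2 / 3 * (d i) ^ 2) : ℝ) : ℂ)) := by
    ring
  rw [e3]
  refine (norm_add_le _ _).trans ?_
  rw [add_mul]
  linarith

/-! ### real functions, all sizes -/

theorem div_out {κ X C1 Y : ℝ} (hκ : 0 < κ) (h : κ * X ≤ C1 * Y) : X ≤ C1 / κ * Y := by
  have e : C1 / κ * Y = C1 * Y / κ := by ring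
  rw [e, le_div_iff₀ hκ, mul_comm]
  exact h

/-- **the two-mode law of a real function, all sizes** -/
theorem two_real {F : ℝ → ℕ → ℝ} {κ : ℝ} (hκ : 0 < κ) {b : {d : ℝ // |d| ≤ 3 / 5} → ℕ → ℤ → ℂ}
    (h : ChX (1 / 10) (fun i => i.1) b (fun i j => ((κ * F i.1 j : ℝ) : ℂ)) K C)
    (hF : ∀ N : ℕ, 1 ≤ N → ∃ B : ℝ, ∀ d : ℝ, |F d N| ≤ B) :
    ∃ (G H : ℝ → ℝ) (C' : ℝ), 0 ≤ C' ∧ ∀ N : ℕ, 1 ≤ N → ∀ d ∈ Icc (2 / 5 : ℝ) (3 / 5),
      |F d N - (G d * (N : ℝ) ^ (3 / 8 - 2 / 3 * d ^ 2) +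
        (-1) ^ N * H d * (N : ℝ) ^ (3 / 8 - 2 / 3 * (1 - d) ^ 2))| ≤ C' * (N : ℝ) ^ (1 / 10 : ℝ) := by
  have h1 := h.comp (ι' := Icc (2 / 5 : ℝ) (3 / 5)) (fun i => ⟨i.1, by
    rw [abs_le]
    constructor <;> linarith [i.2.1, i.2.2]⟩)
  obtain ⟨g, g', C1, hC1, hg, hg', h2⟩ := h1.law_two (fun i => i.2)
  have h3 := all_of_evX (ι := Icc (2 / 5 : ℝ) (3 / 5)) (p := 1 / 10) (C := C1 / κ)
    (A := fun i j => F i.1 j - ((g i).re / κ * (j : ℝ) ^ (3 / 8 - 2 / 3 * i.1 ^ 2) +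
        (-1) ^ j * ((g' i).re / κ) * (j : ℝ) ^ (3 / 8 - 2 / 3 * (1 - i.1) ^ 2))) ?_ ?_
  · obtain ⟨C', hC', h4⟩ := h3
    refine ⟨fun d => if hd : d ∈ Icc (2 / 5 : ℝ) (3 / 5) then (g ⟨d, hd⟩).re / κ else 0,
      fun d => if hd : d ∈ Icc (2 / 5 : ℝ) (3 / 5) then (g' ⟨d, hd⟩).re / κ else 0, C', hC',
      fun N hN d hd => ?_⟩
    simp only [dif_pos hd]
    exact h4 N hN ⟨d, hd⟩
  · filter_upwards [h2] with j hj i
    have e1 := hj i
    have e2 := (Complex.abs_re_le_norm _).trans e1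
    have e3 : ((((κ * F i.1 j : ℝ) : ℂ)) - (g i * (((j : ℝ) ^ (3 / 8 - 2 / 3 * i.1 ^ 2) : ℝ) : ℂ) +
        (-1) ^ j * g' i * (((j : ℝ) ^ (3 / 8 - 2 / 3 * (1 - i.1) ^ 2) : ℝ) : ℂ))).re =
        κ * (F i.1 j - ((g i).re / κ * (j : ℝ) ^ (3 / 8 - 2 / 3 * i.1 ^ 2) +
        (-1) ^ j * ((g' i).re / κ) * (j : ℝ) ^ (3 / 8 - 2 / 3 * (1 - i.1) ^ 2))) := by
      have e4 : ((-1 : ℂ) ^ j * g' i * (((j : ℝ) ^ (3 / 8 - 2 / 3 * (1 - i.1) ^ 2) : ℝ) : ℂ)) =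
          (((-1 : ℝ) ^ j * (j : ℝ) ^ (3 / 8 - 2 / 3 * (1 - i.1) ^ 2) : ℝ) : ℂ) * g' i := by
        push_cast
        ring
      rw [e4, Complex.sub_re, Complex.add_re, Complex.ofReal_re, Complex.re_mul_ofReal,
        Complex.re_ofReal_mul]
      field_simp
    rw [e3, abs_mul, abs_of_pos hκ] at e2
    exact div_out hκ e2
  · intro j hj
    obtain ⟨B, hB⟩ := hF j hj
    have hj1 : (1 : ℝ) ≤ j := by exact_mod_cast hj
    refine ⟨B + (C1 / κ * (j : ℝ) ^ (1 : ℝ) + C1 / κ * (j : ℝ) ^ (1 : ℝ)), fun i => ?_⟩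
    have p1 : ∀ x : ℝ, 0 ≤ (j : ℝ) ^ (3 / 8 - 2 / 3 * x ^ 2) ∧
        (j : ℝ) ^ (3 / 8 - 2 / 3 * x ^ 2) ≤ (j : ℝ) ^ (1 : ℝ) := fun x =>
      ⟨by positivity, Real.rpow_le_rpow_of_exponent_le hj1 (by nlinarith [sq_nonneg x])⟩
    have p2 : |(g i).re / κ * (j : ℝ) ^ (3 / 8 - 2 / 3 * i.1 ^ 2)| ≤ C1 / κ * (j : ℝ) ^ (1 : ℝ) := by
      rw [abs_mul, abs_div, abs_of_pos hκ, abs_of_nonneg (p1 i.1).1]
      have := (Complex.abs_re_le_norm (g i)).trans (hg i)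
      have := (p1 i.1).2
      gcongr
    have p3 : |(-1) ^ j * ((g' i).re / κ) * (j : ℝ) ^ (3 / 8 - 2 / 3 * (1 - i.1) ^ 2)| ≤
        C1 / κ * (j : ℝ) ^ (1 : ℝ) := by
      rw [abs_mul, abs_mul, abs_pow, abs_neg, abs_one, one_pow, one_mul, abs_div, abs_of_pos hκ,
        abs_of_nonneg (p1 (1 - i.1)).1]
      have := (Complex.abs_re_le_norm (g' i)).trans (hg' i)
      have := (p1 (1 - i.1)).2
      gcongr
    refine (abs_sub _ _).trans ?_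
    exact add_le_add (hB i.1) ((abs_add_le _ _).trans (add_le_add p2 p3))

/-- **the one-mode law of a real function, all sizes** -/
theorem one_real {F : ℝ → ℕ → ℝ} {κ : ℝ} (hκ : 0 < κ) {b : {d : ℝ // |d| ≤ 3 / 5} → ℕ → ℤ → ℂ}
    (h : ChX (1 / 10) (fun i => i.1) b (fun i j => ((κ * F i.1 j : ℝ) : ℂ)) K C)
    (hF : ∀ N : ℕ, 1 ≤ N → ∃ B : ℝ, ∀ d : ℝ, |F d N| ≤ B) :
    ∃ (G : ℝ → ℝ) (C' : ℝ), 0 ≤ C' ∧ ∀ N : ℕ, 1 ≤ N → ∀ d : ℝ, |d| ≤ 2 / 5 →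
      |F d N - G d * (N : ℝ) ^ (3 / 8 - 2 / 3 * d ^ 2)| ≤ C' * (N : ℝ) ^ (3 / 20 : ℝ) := by
  have h1 := h.comp (ι' := {d : ℝ // |d| ≤ 2 / 5}) (fun i => ⟨i.1, i.2.trans (by norm_num)⟩)
  obtain ⟨g, C1, hC1, hg, h2⟩ := h1.law_one (fun i => i.2)
  have h3 := all_of_evX (ι := {d : ℝ // |d| ≤ 2 / 5}) (p := 3 / 20) (C := C1 / κ)
    (A := fun i j => F i.1 j - (g i).re / κ * (j : ℝ) ^ (3 / 8 - 2 / 3 * i.1 ^ 2)) ?_ ?_
  · obtain ⟨C', hC', h4⟩ := h3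
    refine ⟨fun d => if hd : |d| ≤ 2 / 5 then (g ⟨d, hd⟩).re / κ else 0, C', hC', fun N hN d hd => ?_⟩
    simp only [dif_pos hd]
    exact h4 N hN ⟨d, hd⟩
  · filter_upwards [h2] with j hj i
    have e1 := hj i
    have e2 := (Complex.abs_re_le_norm _).trans e1
    have e3 : ((((κ * F i.1 j : ℝ) : ℂ)) - g i * (((j : ℝ) ^ (3 / 8 - 2 / 3 * i.1 ^ 2) : ℝ) : ℂ)).re =
        κ * (F i.1 j - (g i).re / κ * (j : ℝ) ^ (3 / 8 - 2 / 3 * i.1 ^ 2)) := by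
      rw [Complex.sub_re, Complex.ofReal_re, Complex.re_mul_ofReal]
      field_simp
    rw [e3, abs_mul, abs_of_pos hκ] at e2
    exact div_out hκ e2
  · intro j hj
    obtain ⟨B, hB⟩ := hF j hj
    have hj1 : (1 : ℝ) ≤ j := by exact_mod_cast hj
    refine ⟨B + C1 / κ * (j : ℝ) ^ (1 : ℝ), fun i => ?_⟩
    have p1 : 0 ≤ (j : ℝ) ^ (3 / 8 - 2 / 3 * i.1 ^ 2) := by positivity
    have p1' : (j : ℝ) ^ (3 / 8 - 2 / 3 * i.1 ^ 2) ≤ (j : ℝ) ^ (1 : ℝ) :=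
      Real.rpow_le_rpow_of_exponent_le hj1 (by nlinarith [sq_nonneg i.1])
    have p2 : |(g i).re / κ * (j : ℝ) ^ (3 / 8 - 2 / 3 * i.1 ^ 2)| ≤ C1 / κ * (j : ℝ) ^ (1 : ℝ) := by
      rw [abs_mul, abs_div, abs_of_pos hκ, abs_of_nonneg p1]
      have := (Complex.abs_re_le_norm (g i)).trans (hg i)
      gcongr
    refine (abs_sub _ _).trans ?_
    exact add_le_add (hB i.1) p2

end WX

end
end


/- part: Pool.Agent.WX.FNz -/
section
/-!
# Plan X: the value of the function without legs, loop weight `ζ + ζ⁻¹` (helper96)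

* **`FNz_val`**: `FNz ζ N = W0 N * ZZ (ζ + ζ⁻¹) N / bulk N`, every `N`, every `ζ ≠ 0`;
* `FNz_ZP`: the same with the polynomial `ZP N` (nonnegative coefficients) at `n' = 2 cos (π d)`;
* `FNz_one`: `FNz 1 N = PV.FN N`; `FNz_le`: `‖FNz (zt d) N‖ ≤ ‖FN N‖`; `FNz_neg`; `fVt_val`.
-/

set_option autoImplicit false
set_option linter.unusedSectionVars false

noncomputable section

open Complex Filter Topology Polynomial

namespace WX

open NUP1 (l lpos)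
open PBX (DZ)
open PBR (rh)
open Pool.Agent.PB (cn Rws_zero)
open PV (nv PfV DZ_self const_V LV)
open WND (zt zt_ne zt_neg zt_zero)

/-- **the unknown of plan X** -/
def FNz (ζ : ℂ) (N : ℕ) : ℂ := fVz ζ N 0 / rh 0 ^ 2

theorem FNz_one (N : ℕ) : FNz 1 N = PV.FN N := by
  unfold FNz PV.FN
  rw [fVz_one]

/-- the function without legs is the disc function at loop weight `ζ + ζ⁻¹`, relative to the bulk -/
theorem FNz_Wd {ζ : ℂ} (hζ : ζ ≠ 0) (N : ℕ) : FNz ζ N =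
    (Pool.Agent.NUF.near_WW (ζ + ζ⁻¹)).Wd (List.replicate N 1) (List.replicate N 1) /
      (Pool.Agent.NUF.bulk N : ℂ) := by
  have hb : (Pool.Agent.NUF.bulk N : ℂ) ≠ 0 := by
    exact_mod_cast (Pool.Agent.NUF.bulk_pos N).ne'
  rw [eq_div_iff hb, PVN.Wd_DZ hζ, NUP1.ExM.A0_sq (by rw [← NUP1.Mu.four_sin_sq]; ring), ← const_V]
  have h1 : fVz ζ N 0 = nvz ζ 0 0 (fun _ : Fin N => (0 : ℂ)) (fun _ : Fin N => (0 : ℂ)) := by
    unfold fVz xz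
    simp
  unfold FNz
  rw [h1]
  unfold nvz nvn
  rw [Finset.sum_congr rfl fun n _ => by
    rw [DZ_self (Rws_zero N) (Rws_zero N) (cn N) (cn N) n, mul_left_comm], ← Finset.mul_sum]
  ring

/-- **the value** -/
theorem FNz_val {ζ : ℂ} (hζ : ζ ≠ 0) (N : ℕ) : FNz ζ N =
    (NUI.W0 N : ℂ) * Pool.Agent.NUF.ZZ (ζ + ζ⁻¹) N / (Pool.Agent.NUF.bulk N : ℂ) := by
  have h0 : ∃ w : ℝ, 0 ≤ w ∧ (Pool.Agent.NUF.near_WW 0).Wd (List.replicate N 1)
      (List.replicate N 1) = (w : ℂ) := ⟨_, by positivity, Pool.Agent.NUQ.Wd0_val N⟩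
  obtain ⟨w, hw, h0⟩ := h0
  have hW : NUI.W0 N = w := by
    unfold NUI.W0
    rw [h0, Complex.norm_real, Real.norm_eq_abs, abs_of_nonneg hw]
  have hw0 : (w : ℂ) ≠ 0 := by
    have := (NUI.W0_pos N).ne'
    rw [hW] at this
    exact_mod_cast this
  have h3 : (Pool.Agent.NUF.near_WW (ζ + ζ⁻¹)).Wd (List.replicate N 1) (List.replicate N 1) =
      (w : ℂ) * Pool.Agent.NUF.ZZ (ζ + ζ⁻¹) N := by
    unfold Pool.Agent.NUF.ZZ
    rw [h0]
    field_simp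
  rw [FNz_Wd hζ, h3, hW]

/-- `ζ + ζ⁻¹` for `ζ = exp (i π d)` -/
theorem zt_add_inv (d : ℝ) : zt d + (zt d)⁻¹ = ((2 * Real.cos (Real.pi * d) : ℝ) : ℂ) := by
  unfold WND.zt
  rw [← Complex.exp_neg]
  push_cast
  rw [Complex.cos]
  ring_nf

/-- **the value, loop weight `n' = 2 cos (π d)`** -/
theorem FNz_ZP (d : ℝ) (N : ℕ) : FNz (zt d) N =
    ((NUI.W0 N * (NUI.ZP N).eval (2 * Real.cos (Real.pi * d)) / Pool.Agent.NUF.bulk N : ℝ) : ℂ) := by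
  rw [FNz_val (zt_ne d), zt_add_inv, NUI.ZP_eq]
  have h3 : aeval ((2 * Real.cos (Real.pi * d) : ℝ) : ℂ) (NUI.ZP N) =
      (((NUI.ZP N).eval (2 * Real.cos (Real.pi * d)) : ℝ) : ℂ) := by
    exact Polynomial.aeval_algebraMap_apply ℂ (2 * Real.cos (Real.pi * d)) (NUI.ZP N)
  rw [h3]
  push_cast
  rfl

/-- the polynomial at a loop weight of modulus at most `2` -/
theorem ZP_abs_le {n' : ℝ} (hn : |n'| ≤ 2) (N : ℕ) :
    |(NUI.ZP N).eval n'| ≤ (NUI.ZP N).eval 2 := by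
  rw [Polynomial.eval_eq_sum_range, Polynomial.eval_eq_sum_range]
  refine (Finset.abs_sum_le_sum_abs _ _).trans (Finset.sum_le_sum fun i _ => ?_)
  rw [abs_mul, abs_pow, abs_of_nonneg (NUI.ZP_nonneg N i)]
  exact mul_le_mul_of_nonneg_left (pow_le_pow_left₀ (abs_nonneg _) hn i) (NUI.ZP_nonneg N i)

/-- **never larger than the value at loop weight `2`** -/
theorem FNz_le (d : ℝ) (N : ℕ) : ‖FNz (zt d) N‖ ≤ ‖PV.FN N‖ := by
  have hb := Pool.Agent.NUF.bulk_pos N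
  have hW := NUI.W0_pos N
  have hc : |2 * Real.cos (Real.pi * d)| ≤ 2 := by
    rw [abs_mul, abs_two]
    have := Real.abs_cos_le_one (Real.pi * d)
    linarith
  have h1 := ZP_abs_le hc N
  have h2 : PV.FN N = ((NUI.W0 N * (NUI.ZP N).eval 2 / Pool.Agent.NUF.bulk N : ℝ) : ℂ) := by
    rw [PV.FN_val, PVA.ZZ_real, Complex.ofReal_re]
  rw [FNz_ZP, h2, Complex.norm_real, Complex.norm_real, Real.norm_eq_abs, Real.norm_eq_abs,
    abs_div, abs_div, abs_mul, abs_mul, abs_of_pos hW, abs_of_pos hb,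
    abs_of_nonneg (PVA.ZP_pos N)]
  gcongr

/-- even in `d` -/
theorem FNz_neg (d : ℝ) (N : ℕ) : FNz (zt (-d : ℝ)) N = FNz (zt d) N := by
  rw [FNz_ZP, FNz_ZP]
  congr 5
  rw [mul_neg, Real.cos_neg]

/-- nonnegative loop weight: nonnegative value -/
theorem FNz_pos {d : ℝ} (hd : |d| ≤ 1 / 2) (N : ℕ) : 0 ≤ (FNz (zt d) N).re := by
  rw [FNz_ZP, Complex.ofReal_re]
  refine div_nonneg (mul_nonneg (NUI.W0_pos N).le ?_) (Pool.Agent.NUF.bulk_pos N).le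
  rw [Polynomial.eval_eq_sum_range]
  refine Finset.sum_nonneg fun i _ => mul_nonneg (NUI.ZP_nonneg N i) (pow_nonneg ?_ i)
  have hp := Real.pi_pos
  obtain ⟨h1, h2⟩ := abs_le.1 hd
  have := Real.cos_nonneg_of_mem_Icc (x := Real.pi * d) ⟨by nlinarith, by nlinarith⟩
  linarith

/-- the value in terms of the function with twist -/
theorem fVt_val (d : ℝ) (N : ℕ) : fVt d N 0 = rh 0 ^ 2 *
    ((NUI.W0 N * (NUI.ZP N).eval (2 * Real.cos (Real.pi * d)) / Pool.Agent.NUF.bulk N : ℝ) : ℂ) := by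
  have hR : rh 0 ≠ 0 := PBR.rh_ne_zero (by have := lpos; simp; linarith)
  rw [← FNz_ZP, fVt_at0]
  unfold FNz
  field_simp

end WX

end
end


/- part: Pool.Agent.WX.TwoXof -/
section
/-!
# Plan X: the laws at fixed loop weight `2 cos (π d)`, no hypothesis (helper31)

`FX d N = W0 N * (ZP N).eval (2 cos (π d)) / bulk N`.

* `chX`: the output of the function side (helper12) at the rows `0`;
* **`TwoX`** (`twoX`): `2/5 ≤ d ≤ 3/5`, every `N ≥ 1`: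
  `|FX d N - (G d N^(nuX d) + (-1)^N H d N^(nuX (1 - d)))| ≤ C N^(1/10)`;
* **`OneModeX`** (`oneModeX`): `|d| ≤ 2/5`, every `N ≥ 1`: `|FX d N - G d N^(nuX d)| ≤ C N^(3/20)`.
-/

set_option autoImplicit false

noncomputable section

open Filter Topology Set

namespace WX

open WXF (nuX)

/-- the unknown of plan X at the twist `d` -/
def FX (d : ℝ) (N : ℕ) : ℝ :=
  NUI.W0 N * (NUI.ZP N).eval (2 * Real.cos (Real.pi * d)) / Pool.Agent.NUF.bulk N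

theorem fVt_FX (d : ℝ) (N : ℕ) : fVt (d : ℂ) N 0 = ((PV.κV * FX d N : ℝ) : ℂ) := by
  rw [fVt_val, PV.rh0_sq, FX]
  push_cast
  ring

/-- the coefficients of the function with twist -/
def bX (i : {d : ℝ // |d| ≤ 3 / 5}) (j : ℕ) (k : ℤ) : ℂ := PBV.bK (fVt (i.1 : ℂ)) j k

/-- **the output of the function side at the rows `0`** -/
theorem chX : ∃ (K : ℕ) (C : ℝ), ChX (1 / 10) (fun i : {d : ℝ // |d| ≤ 3 / 5} => i.1) bX
    (fun i j => ((PV.κV * FX i.1 j : ℝ) : ℂ)) K C := by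
  obtain ⟨K, C, hC, h1, h2, h3, h4⟩ := WXF.funX (d := fun i : {d : ℝ // |d| ≤ 3 / 5} => i.1)
    (fun i => i.2.trans (by norm_num)) (p := 1 / 10) le_rfl (by norm_num)
  refine ⟨K, C + 1, by linarith, ?_, ?_, ?_, ?_⟩
  · filter_upwards [h1] with j hj i k hk
    refine (hj i k hk).trans (mul_le_mul_of_nonneg_right (by linarith) (by positivity))
  · filter_upwards [h2] with j hj i k hk
    exact (hj i k hk).trans (by linarith)
  · filter_upwards [h3] with j hj i k hk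
    exact (hj i k hk).trans (mul_le_mul_of_nonneg_right (by linarith) (by positivity))
  · filter_upwards [h4, eventually_ge_atTop 1] with j hj hj1 i
    have hj1' : (1 : ℝ) ≤ j := by exact_mod_cast hj1
    have e1 := hj i 0 (by simp [PBV.aL_pos.le]) (by simp)
    have e2 : Pool.Agent.PB.Rec.EL (8 / 3) K (PBV.bK (fVt (i.1 : ℂ)) j) 0 =
        ∑ k ∈ Finset.Icc (-(K : ℤ)) K, bX i j k := by
      unfold Pool.Agent.PB.Rec.EL bX
      simp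
    rw [e2, fVt_FX] at e1
    refine e1.trans ?_
    have : (j : ℝ) ^ (-(1 : ℝ)) ≤ 1 := Real.rpow_le_one_of_one_le_of_nonpos hj1' (by norm_num)
    linarith

/-- the values at one size are bounded -/
theorem FX_bdd (N : ℕ) : ∃ B : ℝ, ∀ d : ℝ, |FX d N| ≤ B := by
  refine ⟨NUI.W0 N * (NUI.ZP N).eval 2 / Pool.Agent.NUF.bulk N, fun d => ?_⟩
  have hb := Pool.Agent.NUF.bulk_pos N
  have hW := NUI.W0_pos N
  have hc : |2 * Real.cos (Real.pi * d)| ≤ 2 := by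
    rw [abs_mul, abs_two]
    have := Real.abs_cos_le_one (Real.pi * d)
    linarith
  unfold FX
  rw [abs_div, abs_mul, abs_of_pos hW, abs_of_pos hb]
  have := ZP_abs_le hc N
  gcongr

/-- **two modes** -/
def TwoX : Prop := ∃ (G H : ℝ → ℝ) (C : ℝ), 0 ≤ C ∧ ∀ N : ℕ, 1 ≤ N → ∀ d ∈ Icc (2 / 5 : ℝ) (3 / 5),
  |NUI.W0 N * (NUI.ZP N).eval (2 * Real.cos (Real.pi * d)) / Pool.Agent.NUF.bulk N -
    (G d * (N : ℝ) ^ nuX d + (-1) ^ N * H d * (N : ℝ) ^ nuX (1 - d))| ≤ C * (N : ℝ) ^ (1 / 10 : ℝ)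

/-- **one mode** -/
def OneModeX : Prop := ∃ (G : ℝ → ℝ) (C : ℝ), 0 ≤ C ∧ ∀ N : ℕ, 1 ≤ N → ∀ d : ℝ, |d| ≤ 2 / 5 →
  |NUI.W0 N * (NUI.ZP N).eval (2 * Real.cos (Real.pi * d)) / Pool.Agent.NUF.bulk N -
    G d * (N : ℝ) ^ nuX d| ≤ C * (N : ℝ) ^ (3 / 20 : ℝ)

theorem twoX : TwoX := by
  obtain ⟨K, C, h⟩ := chX
  exact two_real PV.κV_pos h fun N _ => FX_bdd N

theorem oneModeX : OneModeX := by
  obtain ⟨K, C, h⟩ := chX
  exact one_real PV.κV_pos h fun N _ => FX_bdd N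

end WX

end
end
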