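import Pool.Agent.REL.Base
set_option linter.all false

/- part: Pool.Agent.WX.TwoC -/
section
/-!
# Plan X: a two constants estimate for the derivative (helper71)

**`deriv_two`** : `f` analytic on `ball x0 (2 b)`, `‖f‖ ≤ M` there and `‖f‖ ≤ m` on the real segment
`[x0 - b, x0 + b]`, `0 ≤ m ≤ M`: `‖f' x0‖ ≤ (2 / b) √(m M)`.
-/

set_option autoImplicit false

noncomputable section

open Complex Set Filter Topology
open Complex.HadamardThreeLines

namespace WX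

/-- `‖cosh z‖ < 2` in the strip `|Re z| ≤ 1` -/
theorem norm_cosh_lt {z : ℂ} (hz : |z.re| ≤ 1) : ‖Complex.cosh z‖ < 2 := by
  have h1 : ‖Complex.cosh z‖ ≤ Real.cosh z.re := by
    rw [Complex.cosh, norm_div, Real.cosh_eq]
    have h2 := norm_add_le (cexp z) (cexp (-z))
    rw [norm_exp, norm_exp, neg_re] at h2
    have h3 : ‖(2 : ℂ)‖ = 2 := by norm_num
    rw [h3]
    gcongr
  refine h1.trans_lt ?_
  have h2 : Real.cosh z.re ≤ Real.cosh 1 := by
    rw [← Real.cosh_abs]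
    refine (Real.cosh_le_cosh).2 ?_
    rw [abs_abs, abs_one]
    exact hz
  refine h2.trans_lt ?_
  rw [Real.cosh_eq]
  have h3 : Real.exp 1 < 2.7182818286 := Real.exp_one_lt_d9
  have h4 : Real.exp (-1) < 1 := by
    rw [Real.exp_lt_one_iff]
    norm_num
  linarith

/-- **two constants, derivative at the centre** -/
theorem deriv_two {f : ℂ → ℂ} {x0 b M m : ℝ} (hb : 0 < b)
    (hf : DifferentiableOn ℂ f (Metric.ball (x0 : ℂ) (2 * b)))
    (hM : ∀ z ∈ Metric.ball (x0 : ℂ) (2 * b), ‖f z‖ ≤ M)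
    (hm : ∀ x : ℝ, |x - x0| ≤ b → ‖f (x : ℂ)‖ ≤ m) (hm0 : 0 ≤ m) (hmM : m ≤ M) :
    ‖deriv f (x0 : ℂ)‖ ≤ 2 / b * Real.sqrt (m * M) := by
  have hM0 : 0 ≤ M := hm0.trans hmM
  set G : ℂ → ℂ := fun z => f (x0 + b * Complex.cosh z) with hG
  -- the strip goes into the ball
  have hin : ∀ z : ℂ, |z.re| ≤ 1 → (x0 : ℂ) + b * Complex.cosh z ∈ Metric.ball (x0 : ℂ) (2 * b) := by
    intro z hz
    rw [Metric.mem_ball, dist_eq_norm, add_sub_cancel_left, norm_mul, norm_real, Real.norm_eq_abs,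
      abs_of_pos hb, mul_comm 2 b]
    exact mul_lt_mul_of_pos_left (norm_cosh_lt hz) hb
  have hin' : ∀ z : ℂ, |z.re| ≤ 1 → DifferentiableAt ℂ f ((x0 : ℂ) + b * Complex.cosh z) := fun z hz =>
    hf.differentiableAt (Metric.isOpen_ball.mem_nhds (hin z hz))
  have hGd : ∀ z : ℂ, |z.re| ≤ 1 → HasDerivAt G
      (deriv f (x0 + b * Complex.cosh z) * (b * Complex.sinh z)) z := by
    intro z hz
    have h1 : HasDerivAt (fun z : ℂ => (x0 : ℂ) + b * Complex.cosh z) (b * Complex.sinh z) z :=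
      ((Complex.hasDerivAt_cosh z).const_mul (b : ℂ)).const_add _
    exact (hin' z hz).hasDerivAt.comp z h1
  -- three lines
  have key : ∀ z : ℂ, z ∈ verticalClosedStrip 0 1 → ‖G z‖ ≤ m ^ (1 - z.re) * M ^ z.re := by
    intro z hz
    refine norm_le_interp_of_mem_verticalClosedStrip₀₁' G hz ?_ ?_ ?_ ?_
    · refine ⟨fun w hw => ?_, ?_⟩
      · have hw' : 0 < w.re ∧ w.re < 1 := hw
        exact (hGd w (by rw [abs_le]; constructor <;> linarith [hw'.1, hw'.2])).differentiableAt.differentiableWithinAt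
      · have e : closure (verticalStrip 0 1) = verticalClosedStrip 0 1 := by
          rw [verticalClosedStrip, ← closure_Ioo zero_ne_one, ← closure_preimage_re]
          rfl
        rw [e]
        intro w hw
        have hw' : 0 ≤ w.re ∧ w.re ≤ 1 := hw
        exact (hGd w (by rw [abs_le]; constructor <;> linarith [hw'.1, hw'.2])).continuousAt.continuousWithinAt
    · refine ⟨M, ?_⟩
      rintro _ ⟨w, hw, rfl⟩
      have hw' : 0 ≤ w.re ∧ w.re ≤ 1 := hw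
      exact hM _ (hin w (by rw [abs_le]; constructor <;> linarith [hw'.1, hw'.2]))
    · intro w hw
      have hw' : w.re = 0 := hw
      have e1 : w = (w.im : ℂ) * I := by
        conv_lhs => rw [← re_add_im w, hw', ofReal_zero, zero_add]
      have e2 : (x0 : ℂ) + b * Complex.cosh w = ((x0 + b * Real.cos w.im : ℝ) : ℂ) := by
        rw [e1, Complex.cosh_mul_I, ← Complex.ofReal_cos]
        push_cast
        simp
      show ‖f (x0 + b * Complex.cosh w)‖ ≤ m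
      rw [e2]
      refine hm _ ?_
      rw [add_sub_cancel_left, abs_mul, abs_of_pos hb]
      exact mul_le_of_le_one_right hb.le (Real.abs_cos_le_one _)
    · intro w hw
      have hw' : w.re = 1 := hw
      exact hM _ (hin w (by rw [hw', abs_one]))
  have key2 : ∀ z : ℂ, |z.re| ≤ 1 / 2 → ‖G z‖ ≤ Real.sqrt (m * M) := by
    have h0 : ∀ z : ℂ, 0 ≤ z.re → z.re ≤ 1 / 2 → ‖G z‖ ≤ Real.sqrt (m * M) := by
      intro z h0 h1
      refine (key z ⟨h0, by linarith⟩).trans ?_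
      rcases hm0.eq_or_lt with hm' | hm'
      · rw [← hm', Real.zero_rpow (by linarith), zero_mul]
        exact Real.sqrt_nonneg _
      · have hMp : 0 < M := hm'.trans_le hmM
        have e1 : Real.sqrt (m * M) = m ^ (1 - z.re) * M ^ z.re * (M / m) ^ (1 / 2 - z.re) := by
          rw [Real.sqrt_eq_rpow, Real.mul_rpow hm0 hM0, Real.div_rpow hM0 hm0, mul_div_assoc']
          rw [eq_div_iff (Real.rpow_pos_of_pos hm' _).ne']
          have a1 : m ^ (1 / 2 : ℝ) * m ^ (1 / 2 - z.re) = m ^ (1 - z.re) := by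
            rw [← Real.rpow_add hm']
            congr 1
            ring
          have a2 : M ^ z.re * M ^ (1 / 2 - z.re) = M ^ (1 / 2 : ℝ) := by
            rw [← Real.rpow_add hMp]
            congr 1
            ring
          calc m ^ (1 / 2 : ℝ) * M ^ (1 / 2 : ℝ) * m ^ (1 / 2 - z.re)
              = (m ^ (1 / 2 : ℝ) * m ^ (1 / 2 - z.re)) * M ^ (1 / 2 : ℝ) := by ring
            _ = m ^ (1 - z.re) * (M ^ z.re * M ^ (1 / 2 - z.re)) := by rw [a1, a2]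
            _ = _ := by ring
        rw [e1]
        refine le_mul_of_one_le_right (by positivity) ?_
        exact Real.one_le_rpow ((one_le_div hm').2 hmM) (by linarith)
    intro z hz
    rw [abs_le] at hz
    rcases le_total 0 z.re with h | h
    · exact h0 z h hz.2
    · have e1 : G z = G (-z) := by
        simp only [hG, Complex.cosh_neg]
      rw [e1]
      exact h0 (-z) (by rw [neg_re]; linarith) (by rw [neg_re]; linarith [hz.1])
  -- Cauchy
  set z0 : ℂ := ((Real.pi / 2 : ℝ) : ℂ) * I with hz0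
  have hz0r : z0.re = 0 := by simp [hz0]
  have hre : ∀ z : ℂ, z ∈ Metric.closedBall z0 (1 / 2) → |z.re| ≤ 1 / 2 := by
    intro z hz
    rw [Metric.mem_closedBall, dist_eq_norm] at hz
    have h1 := (Complex.abs_re_le_norm (z - z0)).trans hz
    rwa [sub_re, hz0r, sub_zero] at h1
  have hC := Complex.norm_deriv_le_of_forall_mem_sphere_norm_le (f := G) (c := z0) (R := 1 / 2)
    (C := Real.sqrt (m * M)) (by norm_num) ?_ (fun z hz => key2 z (hre z (Metric.sphere_subset_closedBall hz)))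
  · have hd := (hGd z0 (by rw [hz0r, abs_zero]; norm_num)).deriv
    have e3 : Complex.cosh z0 = 0 := by
      rw [hz0, Complex.cosh_mul_I, ← Complex.ofReal_cos, Real.cos_pi_div_two, ofReal_zero]
    have e4 : Complex.sinh z0 = I := by
      rw [hz0, Complex.sinh_mul_I, ← Complex.ofReal_sin, Real.sin_pi_div_two, ofReal_one, one_mul]
    rw [e3, e4, mul_zero, add_zero] at hd
    rw [hd, norm_mul, norm_mul, norm_I, mul_one, norm_real, Real.norm_eq_abs, abs_of_pos hb] at hC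
    rw [div_mul_eq_mul_div, le_div_iff₀ hb]
    refine hC.trans (le_of_eq ?_)
    ring
  · refine ⟨fun z hz => ?_, fun z hz => ?_⟩
    · have h1 := hre z (Metric.ball_subset_closedBall hz)
      exact (hGd z (by linarith)).differentiableAt.differentiableWithinAt
    · have h1 := hre z (Metric.closure_ball_subset_closedBall hz)
      exact (hGd z (by linarith)).continuousAt.continuousWithinAt

end WX

end
end


/- part: Pool.Agent.WX.DerLim -/
section
/-!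
# Plan X: limits of derivatives, with a rate (helper71)

* **`seq_dyad`** : `‖a M - a N‖ ≤ C N^(-θ)` for `1 ≤ N ≤ M ≤ 2 N` gives a limit with the rate `N^(-θ)`;
* **`derlim`** : `Q N` analytic on `ball x0 (2 b)` with `‖Q N‖ ≤ C N^η` there, and
  `‖Q N x - q x‖ ≤ C N^(-κ)` on the real segment `|x - x0| ≤ b`, `η < κ`: the derivatives of `Q N` at `x0`
  converge with the rate `N^(-(κ - η) / 2)`.
-/

set_option autoImplicit false

noncomputable section

open Complex Set Filter Topology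

namespace WX

/-- **dyadic Cauchy sequences** -/
theorem seq_dyad {a : ℕ → ℂ} {C θ : ℝ} (hθ : 0 < θ) (hC : 0 ≤ C)
    (h : ∀ N M : ℕ, 1 ≤ N → N ≤ M → M ≤ 2 * N → ‖a M - a N‖ ≤ C * (N : ℝ) ^ (-θ)) :
    ∃ (α : ℂ) (C' : ℝ), 0 ≤ C' ∧ ∀ N : ℕ, 1 ≤ N → ‖a N - α‖ ≤ C' * (N : ℝ) ^ (-θ) := by
  set q : ℝ := (2 : ℝ) ^ (-θ) with hq
  have hq0 : 0 < q := by positivity
  have hq1 : q < 1 := by
    rw [hq]
    exact Real.rpow_lt_one_of_one_lt_of_neg (by norm_num) (by linarith)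
  set D : ℝ := C / (1 - q) with hD
  have hD0 : 0 ≤ D := div_nonneg hC (by linarith)
  have hDq : D * q + C = D := by
    rw [hD]
    have : 1 - q ≠ 0 := by linarith
    field_simp
    ring
  have key : ∀ j N M : ℕ, 1 ≤ N → N ≤ M → M ≤ 2 ^ j * N → ‖a M - a N‖ ≤ D * (N : ℝ) ^ (-θ) := by
    intro j
    induction j with
    | zero =>
      intro N M h1 h2 h3
      have e : M = N := by omega
      rw [e, sub_self, norm_zero]
      positivity
    | succ j ih =>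
      intro N M h1 h2 h3
      have hN0 : (0 : ℝ) < N := by exact_mod_cast h1
      have hp : 0 ≤ (N : ℝ) ^ (-θ) := by positivity
      rcases le_total M (2 * N) with h4 | h4
      · refine (h N M h1 h2 h4).trans (mul_le_mul_of_nonneg_right ?_ hp)
        have : 0 ≤ D * q := by positivity
        linarith
      · have e1 := ih (2 * N) M (by omega) h4 (by rw [pow_succ] at h3; linarith)
        have e2 := h N (2 * N) h1 (by omega) le_rfl
        have e3 : (((2 * N : ℕ)) : ℝ) ^ (-θ) = q * (N : ℝ) ^ (-θ) := by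
          push_cast
          rw [Real.mul_rpow (by norm_num) hN0.le]
        have e4 : a M - a N = (a M - a (2 * N)) + (a (2 * N) - a N) := by ring
        rw [e4]
        refine (norm_add_le _ _).trans ?_
        rw [e3] at e1
        calc ‖a M - a (2 * N)‖ + ‖a (2 * N) - a N‖ ≤ D * (q * (N : ℝ) ^ (-θ)) + C * (N : ℝ) ^ (-θ) :=
              add_le_add e1 e2
          _ = (D * q + C) * (N : ℝ) ^ (-θ) := by ring
          _ = _ := by rw [hDq]
  have key' : ∀ N M : ℕ, 1 ≤ N → N ≤ M → ‖a M - a N‖ ≤ D * (N : ℝ) ^ (-θ) := by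
    intro N M h1 h2
    refine key M N M h1 h2 ?_
    have h3 : M < 2 ^ M := Nat.lt_two_pow_self
    calc M ≤ 2 ^ M * 1 := by omega
      _ ≤ 2 ^ M * N := Nat.mul_le_mul_left _ h1
  have hlim : Tendsto (fun N : ℕ => D * (N : ℝ) ^ (-θ)) atTop (𝓝 0) := by
    have h1 := ((tendsto_rpow_neg_atTop hθ).comp tendsto_natCast_atTop_atTop).const_mul D
    rwa [mul_zero] at h1
  have hcau : CauchySeq a := by
    rw [Metric.cauchySeq_iff']
    intro ε hε
    obtain ⟨N, hN⟩ := eventually_atTop.1 ((hlim.eventually_lt_const hε).and (eventually_ge_atTop 1))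
    refine ⟨N, fun n hn => ?_⟩
    rw [dist_eq_norm]
    exact (key' N n (hN N le_rfl).2 hn).trans_lt (hN N le_rfl).1
  obtain ⟨α, hα⟩ := cauchySeq_tendsto_of_complete hcau
  refine ⟨α, D, hD0, fun N hN => ?_⟩
  have h1 : Tendsto (fun M => ‖a M - a N‖) atTop (𝓝 ‖α - a N‖) := (hα.sub_const _).norm
  rw [norm_sub_rev]
  refine le_of_tendsto h1 ?_
  filter_upwards [eventually_ge_atTop N] with M hM
  exact key' N M hN hM

/-- **limits of derivatives** -/
theorem derlim {Q : ℕ → ℂ → ℂ} {q : ℝ → ℂ} {x0 b C η κ : ℝ} (hb : 0 < b) (hη : 0 ≤ η) (hκ : η < κ)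
    (hC : 0 ≤ C)
    (hd : ∀ N : ℕ, 1 ≤ N → DifferentiableOn ℂ (Q N) (Metric.ball (x0 : ℂ) (2 * b)))
    (hM : ∀ N : ℕ, 1 ≤ N → ∀ z ∈ Metric.ball (x0 : ℂ) (2 * b), ‖Q N z‖ ≤ C * (N : ℝ) ^ η)
    (hm : ∀ N : ℕ, 1 ≤ N → ∀ x : ℝ, |x - x0| ≤ b → ‖Q N (x : ℂ) - q x‖ ≤ C * (N : ℝ) ^ (-κ)) :
    ∃ (α : ℂ) (C' : ℝ), 0 ≤ C' ∧ ∀ N : ℕ, 1 ≤ N →
      ‖deriv (Q N) (x0 : ℂ) - α‖ ≤ C' * (N : ℝ) ^ (-((κ - η) / 2)) := by
  have hx0 : (x0 : ℂ) ∈ Metric.ball (x0 : ℂ) (2 * b) := Metric.mem_ball_self (by linarith)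
  refine seq_dyad (C := 2 / b * (Real.sqrt (2 * C * (C * (1 + (2 : ℝ) ^ η))))) (by linarith) (by positivity) ?_
  intro N M h1 h2 h3
  have hN1 : (1 : ℝ) ≤ N := by exact_mod_cast h1
  have hN0 : (0 : ℝ) < N := by linarith
  have hM1 : 1 ≤ M := h1.trans h2
  have hNM : (N : ℝ) ≤ M := by exact_mod_cast h2
  have hM2 : (M : ℝ) ≤ 2 * N := by exact_mod_cast h3
  have hop : (Metric.ball (x0 : ℂ) (2 * b)) ∈ 𝓝 (x0 : ℂ) := Metric.isOpen_ball.mem_nhds hx0
  have e1 : deriv (Q M) (x0 : ℂ) - deriv (Q N) (x0 : ℂ) = deriv (fun z => Q M z - Q N z) (x0 : ℂ) :=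
    (deriv_fun_sub ((hd M hM1).differentiableAt hop) ((hd N h1).differentiableAt hop)).symm
  have hpow : (M : ℝ) ^ η ≤ (2 : ℝ) ^ η * (N : ℝ) ^ η := by
    rw [← Real.mul_rpow (by norm_num) hN0.le]
    exact Real.rpow_le_rpow (by linarith) hM2 hη
  have hpow' : (M : ℝ) ^ (-κ) ≤ (N : ℝ) ^ (-κ) :=
    Real.rpow_le_rpow_of_nonpos hN0 hNM (by linarith)
  have hp1 : 0 < (N : ℝ) ^ η := by positivity
  have hp2 : 0 < (N : ℝ) ^ (-κ) := by positivity
  have h12 : (N : ℝ) ^ (-κ) ≤ (N : ℝ) ^ η := Real.rpow_le_rpow_of_exponent_le hN1 (by linarith)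
  have h2η : (1 : ℝ) ≤ (2 : ℝ) ^ η := Real.one_le_rpow (by norm_num) hη
  rw [e1]
  refine (deriv_two hb (M := C * (1 + (2 : ℝ) ^ η) * (N : ℝ) ^ η) (m := 2 * C * (N : ℝ) ^ (-κ))
    ((hd M hM1).sub (hd N h1)) ?_ ?_ (by positivity) ?_).trans ?_
  · intro z hz
    refine (norm_sub_le _ _).trans ?_
    have a1 := hM M hM1 z hz
    have a2 := hM N h1 z hz
    have a3 := mul_le_mul_of_nonneg_left hpow hC
    calc ‖Q M z‖ + ‖Q N z‖ ≤ C * ((2 : ℝ) ^ η * (N : ℝ) ^ η) + C * (N : ℝ) ^ η := by linarith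
      _ = _ := by ring
  · intro x hx
    have a1 := hm M hM1 x hx
    have a2 := hm N h1 x hx
    have e2 : Q M (x : ℂ) - Q N (x : ℂ) = (Q M (x : ℂ) - q x) - (Q N (x : ℂ) - q x) := by ring
    show ‖Q M (x : ℂ) - Q N (x : ℂ)‖ ≤ _
    rw [e2]
    refine (norm_sub_le _ _).trans ?_
    have a3 := mul_le_mul_of_nonneg_left hpow' hC
    calc ‖Q M (x : ℂ) - q x‖ + ‖Q N (x : ℂ) - q x‖ ≤ C * (N : ℝ) ^ (-κ) + C * (N : ℝ) ^ (-κ) := by linarith
      _ = _ := by ring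
  · calc 2 * C * (N : ℝ) ^ (-κ) = C * 2 * (N : ℝ) ^ (-κ) := by ring
      _ ≤ C * (1 + (2 : ℝ) ^ η) * (N : ℝ) ^ η := by
        refine mul_le_mul (mul_le_mul_of_nonneg_left (by linarith) hC) h12 hp2.le (by positivity)
  · have e3 : 2 * C * (N : ℝ) ^ (-κ) * (C * (1 + (2 : ℝ) ^ η) * (N : ℝ) ^ η) =
        (2 * C * (C * (1 + (2 : ℝ) ^ η))) * ((N : ℝ) ^ (-((κ - η) / 2))) ^ 2 := by
      have e4 : ((N : ℝ) ^ (-((κ - η) / 2))) ^ 2 = (N : ℝ) ^ (-κ) * (N : ℝ) ^ η := by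
        rw [← Real.rpow_natCast ((N : ℝ) ^ (-((κ - η) / 2))) 2, ← Real.rpow_mul hN0.le,
          ← Real.rpow_add hN0]
        congr 1
        push_cast
        ring
      rw [e4]
      ring
    rw [e3, Real.sqrt_mul (by positivity), Real.sqrt_sq (by positivity)]
    exact le_of_eq (by ring)

end WX

end
end


/- part: Pool.Agent.WX.SMass -/
section
/-!
# Plan X: the mass of one polygon from the laws of the partition functions (helper71)

`P N` : polynomials with nonnegative coefficients, `P N 0 = 1`, and for `2/5 ≤ d ≤ 3/5`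
`|P N (2 cos (π d)) - (g d N^(E d) + (-1)^N h d N^(E (1 - d)))| ≤ K N^(-c)`, `E d = 1/6 - (2/3) d²`.

**`smass`** : `(P N).coeff 1 = (1/(3π)) log N + a + (-1)^N b + O(N^(-c/4))`.
-/

set_option autoImplicit false

noncomputable section

open Complex Set Filter Topology Polynomial

namespace WX

/-- the hypotheses -/
structure LawP (P : ℕ → ℝ[X]) (g h : ℝ → ℝ) (K c : ℝ) : Prop where
  nn : ∀ N i, 0 ≤ (P N).coeff i
  one : ∀ N, (P N).eval 0 = 1
  K0 : 0 ≤ K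
  c0 : 0 < c
  c1 : c ≤ 1
  law : ∀ N : ℕ, 1 ≤ N → ∀ d : ℝ, 2 / 5 ≤ d → d ≤ 3 / 5 →
    |(P N).eval (2 * Real.cos (Real.pi * d)) - (g d * (N : ℝ) ^ (1 / 6 - 2 / 3 * d ^ 2 : ℝ) +
      (-1) ^ N * h d * (N : ℝ) ^ (1 / 6 - 2 / 3 * (1 - d) ^ 2 : ℝ))| ≤ K * (N : ℝ) ^ (-c)

/-- the function of the twist -/
def phiX (P : ℕ → ℝ[X]) (N : ℕ) (z : ℂ) : ℂ := aeval (2 * Complex.cos (Real.pi * z)) (P N)

/-- the exponent, complex twist -/
def eC (z : ℂ) : ℂ := 1 / 6 - 2 / 3 * z ^ 2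

variable {P : ℕ → ℝ[X]} {g h : ℝ → ℝ} {K c : ℝ}

theorem phiX_real (N : ℕ) (x : ℝ) :
    phiX P N x = (((P N).eval (2 * Real.cos (Real.pi * x)) : ℝ) : ℂ) := by
  unfold phiX
  have e : (2 * Complex.cos (Real.pi * (x : ℂ))) = ((2 * Real.cos (Real.pi * x) : ℝ) : ℂ) := by
    push_cast
    rfl
  rw [e]
  exact Polynomial.aeval_algebraMap_apply ℂ (2 * Real.cos (Real.pi * x)) (P N)

theorem norm_aeval_le {p : ℝ[X]} (hp : ∀ i, 0 ≤ p.coeff i) (w : ℂ) :
    ‖aeval w p‖ ≤ p.eval ‖w‖ := by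
  rw [aeval_eq_sum_range, Polynomial.eval_eq_sum_range]
  refine (norm_sum_le _ _).trans (Finset.sum_le_sum fun i _ => ?_)
  rw [norm_smul, norm_pow, Real.norm_of_nonneg (hp i)]

theorem eval_mono {p : ℝ[X]} (hp : ∀ i, 0 ≤ p.coeff i) {x y : ℝ} (hx : 0 ≤ x) (hxy : x ≤ y) :
    p.eval x ≤ p.eval y := by
  rw [Polynomial.eval_eq_sum_range, Polynomial.eval_eq_sum_range]
  exact Finset.sum_le_sum fun i _ => mul_le_mul_of_nonneg_left (pow_le_pow_left₀ hx hxy i) (hp i)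

theorem eval_abs_le {p : ℝ[X]} (hp : ∀ i, 0 ≤ p.coeff i) {x y : ℝ} (hxy : |x| ≤ y) :
    |p.eval x| ≤ p.eval y := by
  refine (?_ : |p.eval x| ≤ p.eval |x|).trans (eval_mono hp (abs_nonneg _) hxy)
  rw [Polynomial.eval_eq_sum_range, Polynomial.eval_eq_sum_range]
  refine (Finset.abs_sum_le_sum_abs _ _).trans (le_of_eq (Finset.sum_congr rfl fun i _ => ?_))
  rw [abs_mul, abs_pow, abs_of_nonneg (hp i)]

/-- the increments of a small power -/
theorem pow_succ_sub {N : ℕ} (hN : 1 ≤ N) {e : ℝ} (he : |e| ≤ 1) :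
    |((N : ℝ) + 1) ^ e - (N : ℝ) ^ e| ≤ (N : ℝ) ^ e / N := by
  have hN0 : (0 : ℝ) < N := by exact_mod_cast hN
  obtain ⟨e1, e2⟩ := abs_le.1 he
  set y : ℝ := 1 / N with hy
  have hy0 : 0 < y := by positivity
  have h1 : ((N : ℝ) + 1) ^ e = (N : ℝ) ^ e * (1 + y) ^ e := by
    rw [← Real.mul_rpow hN0.le (by positivity)]
    congr 1
    rw [hy]
    field_simp
  have hp : 0 < (N : ℝ) ^ e := Real.rpow_pos_of_pos hN0 _
  rw [h1, show (N : ℝ) ^ e * (1 + y) ^ e - (N : ℝ) ^ e = (N : ℝ) ^ e * ((1 + y) ^ e - 1) by ring, abs_mul,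
    abs_of_pos hp, div_eq_mul_one_div, ← hy]
  refine mul_le_mul_of_nonneg_left ?_ hp.le
  have h1y : (1 : ℝ) ≤ 1 + y := by linarith
  rw [abs_le]
  constructor
  · have h2 : (1 + y) ^ (-1 : ℝ) ≤ (1 + y) ^ e := Real.rpow_le_rpow_of_exponent_le h1y e1
    rw [Real.rpow_neg_one] at h2
    have h3 : 1 - y ≤ (1 + y)⁻¹ := by
      rw [← one_div, le_div_iff₀ (by positivity)]
      nlinarith
    linarith
  · have h2 : (1 + y) ^ e ≤ (1 + y) ^ (1 : ℝ) := Real.rpow_le_rpow_of_exponent_le h1y e2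
    rw [Real.rpow_one] at h2
    linarith


theorem LawP.P2 (L : LawP P g h K c) (N : ℕ) (d : ℝ) :
    |(P N).eval (2 * Real.cos (Real.pi * d))| ≤ (P N).eval 2 := by
  refine eval_abs_le (L.nn N) ?_
  rw [abs_mul, abs_two]
  have := Real.abs_cos_le_one (Real.pi * d)
  linarith

/-- `g`, `h` are bounded -/
theorem LawP.bd (L : LawP P g h K c) : ∃ B : ℝ, 0 ≤ B ∧ ∀ d : ℝ, 2 / 5 ≤ d → d ≤ 3 / 5 →
    |g d| ≤ B ∧ |h d| ≤ B := by
  have hP : ∀ N, 0 ≤ (P N).eval 2 := fun N => (abs_nonneg _).trans (L.P2 N 0)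
  have hK := L.K0
  set X : ℝ := (P 1).eval 2 + K with hX
  set Y : ℝ := (P 2).eval 2 + K with hY
  have hX0 : 0 ≤ X := by linarith [hP 1]
  have hY0 : 0 ≤ Y := by linarith [hP 2]
  refine ⟨3 * X + Y, by positivity, fun d h1 h2 => ?_⟩
  have a1 := L.law 1 le_rfl d h1 h2
  have a2 := L.law 2 (by norm_num) d h1 h2
  have b1 := L.P2 1 d
  have b2 := L.P2 2 d
  have e1 : ((1 : ℕ) : ℝ) = 1 := by norm_num
  have e2 : ((2 : ℕ) : ℝ) = 2 := by norm_num
  rw [e1, Real.one_rpow, Real.one_rpow, Real.one_rpow, pow_one] at a1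
  rw [e2] at a2
  have c2 : (2 : ℝ) ^ (-c) ≤ 1 := Real.rpow_le_one_of_one_le_of_nonpos (by norm_num) (by linarith [L.c0])
  set u : ℝ := (2 : ℝ) ^ (1 / 6 - 2 / 3 * d ^ 2 : ℝ) with hu
  set v : ℝ := (2 : ℝ) ^ (1 / 6 - 2 / 3 * (1 - d) ^ 2 : ℝ) with hv
  have lowpow : ∀ e : ℝ, |e| ≤ 1 → 1 / 2 ≤ (2 : ℝ) ^ e ∧ (2 : ℝ) ^ e ≤ 2 := by
    intro e he
    obtain ⟨p1, p2⟩ := abs_le.1 he
    constructor
    · have := Real.rpow_le_rpow_of_exponent_le (show (1 : ℝ) ≤ 2 by norm_num) p1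
      rwa [Real.rpow_neg_one, ← one_div] at this
    · have := Real.rpow_le_rpow_of_exponent_le (show (1 : ℝ) ≤ 2 by norm_num) p2
      rwa [Real.rpow_one] at this
  obtain ⟨u1, u2⟩ := lowpow (1 / 6 - 2 / 3 * d ^ 2) (by rw [abs_le]; constructor <;> nlinarith)
  obtain ⟨v1, v2⟩ := lowpow (1 / 6 - 2 / 3 * (1 - d) ^ 2) (by rw [abs_le]; constructor <;> nlinarith)
  rw [← hu] at u1 u2
  rw [← hv] at v1 v2
  have f1 : |g d - h d| ≤ X := by
    have e3 : g d * 1 + -1 * h d * 1 = g d - h d := by ring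
    rw [e3] at a1
    have := abs_sub_abs_le_abs_sub (g d - h d) ((P 1).eval (2 * Real.cos (Real.pi * d)))
    rw [abs_sub_comm] at a1
    linarith
  have f2 : |g d * u + h d * v| ≤ Y := by
    have e3 : g d * u + (-1) ^ 2 * h d * v = g d * u + h d * v := by ring
    rw [e3] at a2
    have := abs_sub_abs_le_abs_sub (g d * u + h d * v) ((P 2).eval (2 * Real.cos (Real.pi * d)))
    rw [abs_sub_comm] at a2
    have h5 : K * (2 : ℝ) ^ (-c) ≤ K := mul_le_of_le_one_right hK c2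
    linarith
  obtain ⟨f3, f4⟩ := abs_le.1 f1
  obtain ⟨f5, f6⟩ := abs_le.1 f2
  have g1 : g d * (u + v) = (g d * u + h d * v) + (g d - h d) * v := by ring
  have g2 : |g d| ≤ Y + 2 * X := by
    have h6 : |g d * (u + v)| ≤ Y + 2 * X := by
      rw [g1]
      refine (abs_add_le _ _).trans (add_le_add f2 ?_)
      rw [abs_mul, abs_of_pos (show 0 < v by linarith), mul_comm 2 X]
      exact mul_le_mul f1 v2 (by linarith) hX0
    rw [abs_mul, abs_of_pos (show 0 < u + v by linarith)] at h6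
    have : |g d| * 1 ≤ |g d| * (u + v) := mul_le_mul_of_nonneg_left (by linarith) (abs_nonneg _)
    linarith
  refine ⟨by linarith, ?_⟩
  have h7 : h d = g d - (g d - h d) := by ring
  have h8 : |h d| ≤ |g d| + |g d - h d| := by
    conv_lhs => rw [h7]
    exact abs_sub _ _
  linarith


/-- the bound on a disc, every small exponent -/
theorem LawP.disc (L : LawP P g h K c) {η : ℝ} (hη : 0 < η) : ∃ (C b : ℝ), 0 ≤ C ∧ 0 < b ∧
    b ≤ 1 / 10 ∧ (∀ z : ℂ, z ∈ Metric.ball ((1 / 2 : ℝ) : ℂ) (2 * b) →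
      |(eC z).re| ≤ η ∧ |(eC (1 - z)).re| ≤ η) ∧
    ∀ N : ℕ, 1 ≤ N → ∀ z : ℂ, z ∈ Metric.ball ((1 / 2 : ℝ) : ℂ) (2 * b) →
      ‖phiX P N z‖ ≤ C * (N : ℝ) ^ η := by
  obtain ⟨B, hB, hgh⟩ := L.bd
  -- the real point
  obtain ⟨d1, k1, k2, k3⟩ : ∃ d1 : ℝ, 2 / 5 ≤ d1 ∧ d1 < 1 / 2 ∧ 1 / 6 - 2 / 3 * d1 ^ 2 ≤ η := by
    refine ⟨max (2 / 5) (1 / 2 - η), le_max_left _ _, max_lt (by norm_num) (by linarith), ?_⟩
    have h1 : 1 / 2 - η ≤ max (2 / 5) (1 / 2 - η) := le_max_right _ _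
    have h2 : (2 / 5 : ℝ) ≤ max (2 / 5) (1 / 2 - η) := le_max_left _ _
    have h3 : max (2 / 5) (1 / 2 - η) < 1 / 2 := max_lt (by norm_num) (by linarith)
    nlinarith
  have hpi := Real.pi_pos
  have hw1 : 0 < 2 * Real.cos (Real.pi * d1) := by
    have := Real.cos_pos_of_mem_Ioo (x := Real.pi * d1) ⟨by nlinarith, by nlinarith⟩
    linarith
  -- continuity at the centre
  have c1 : ContinuousAt (fun z : ℂ => ‖2 * Complex.cos (Real.pi * z)‖) ((1 / 2 : ℝ) : ℂ) := by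
    fun_prop
  have c2 : ContinuousAt (fun z : ℂ => |(eC z).re|) ((1 / 2 : ℝ) : ℂ) := by
    unfold eC
    fun_prop
  have c3 : ContinuousAt (fun z : ℂ => |(eC (1 - z)).re|) ((1 / 2 : ℝ) : ℂ) := by
    unfold eC
    fun_prop
  have v1 : ‖2 * Complex.cos (Real.pi * ((1 / 2 : ℝ) : ℂ))‖ = 0 := by
    have : 2 * Complex.cos (Real.pi * ((1 / 2 : ℝ) : ℂ)) = ((2 * Real.cos (Real.pi * (1 / 2)) : ℝ) : ℂ) := by
      push_cast
      rfl
    rw [this, show Real.pi * (1 / 2) = Real.pi / 2 by ring, Real.cos_pi_div_two]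
    simp
  have v2 : eC ((1 / 2 : ℝ) : ℂ) = 0 := by
    unfold eC
    push_cast
    norm_num
  have v3 : eC (1 - ((1 / 2 : ℝ) : ℂ)) = 0 := by
    unfold eC
    push_cast
    norm_num
  have ev : ∀ᶠ z : ℂ in 𝓝 ((1 / 2 : ℝ) : ℂ), ‖2 * Complex.cos (Real.pi * z)‖ < 2 * Real.cos (Real.pi * d1) ∧
      |(eC z).re| < η ∧ |(eC (1 - z)).re| < η := by
    refine (c1.eventually (gt_mem_nhds ?_)).and ((c2.eventually (gt_mem_nhds ?_)).and
      (c3.eventually (gt_mem_nhds ?_)))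
    · beta_reduce
      rw [v1]
      exact hw1
    · beta_reduce
      rw [v2, Complex.zero_re, abs_zero]
      exact hη
    · beta_reduce
      rw [v3, Complex.zero_re, abs_zero]
      exact hη
  obtain ⟨ρ, hρ, hball⟩ := Metric.eventually_nhds_iff_ball.1 ev
  refine ⟨2 * B + K, min (ρ / 2) (1 / 10), by have := L.K0; positivity, lt_min (by linarith) (by norm_num),
    min_le_right _ _, fun z hz => ?_, fun N hN z hz => ?_⟩
  · have hz' : z ∈ Metric.ball ((1 / 2 : ℝ) : ℂ) ρ :=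
      Metric.ball_subset_ball (by have := min_le_left (ρ / 2) (1 / 10 : ℝ); linarith) hz
    exact ⟨(hball z hz').2.1.le, (hball z hz').2.2.le⟩
  · have hz' : z ∈ Metric.ball ((1 / 2 : ℝ) : ℂ) ρ :=
      Metric.ball_subset_ball (by have := min_le_left (ρ / 2) (1 / 10 : ℝ); linarith) hz
    have h1 := (hball z hz').1
    have hN1 : (1 : ℝ) ≤ N := by exact_mod_cast hN
    unfold phiX
    refine (norm_aeval_le (L.nn N) _).trans ((eval_mono (L.nn N) (norm_nonneg _) h1.le).trans ?_)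
    have h2 := (abs_le.1 (L.law N hN d1 k1 (by linarith))).2
    obtain ⟨g1, g2⟩ := hgh d1 k1 (by linarith)
    have p1 : (N : ℝ) ^ (1 / 6 - 2 / 3 * d1 ^ 2 : ℝ) ≤ (N : ℝ) ^ η :=
      Real.rpow_le_rpow_of_exponent_le hN1 k3
    have p2 : (N : ℝ) ^ (1 / 6 - 2 / 3 * (1 - d1) ^ 2 : ℝ) ≤ (N : ℝ) ^ η :=
      Real.rpow_le_rpow_of_exponent_le hN1 (by nlinarith)
    have p3 : (N : ℝ) ^ (-c) ≤ (N : ℝ) ^ η := Real.rpow_le_rpow_of_exponent_le hN1 (by linarith [L.c0])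
    have q1 : g d1 * (N : ℝ) ^ (1 / 6 - 2 / 3 * d1 ^ 2 : ℝ) ≤ B * (N : ℝ) ^ η := by
      refine (le_abs_self _).trans ?_
      rw [abs_mul, abs_of_nonneg (show 0 ≤ (N : ℝ) ^ (1 / 6 - 2 / 3 * d1 ^ 2 : ℝ) by positivity)]
      exact mul_le_mul g1 p1 (by positivity) hB
    have q2 : (-1) ^ N * h d1 * (N : ℝ) ^ (1 / 6 - 2 / 3 * (1 - d1) ^ 2 : ℝ) ≤ B * (N : ℝ) ^ η := by
      refine (le_abs_self _).trans ?_
      rw [abs_mul, abs_mul, abs_pow, abs_neg, abs_one, one_pow, one_mul,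
        abs_of_nonneg (show 0 ≤ (N : ℝ) ^ (1 / 6 - 2 / 3 * (1 - d1) ^ 2 : ℝ) by positivity)]
      exact mul_le_mul g2 p2 (by positivity) hB
    have q3 : K * (N : ℝ) ^ (-c) ≤ K * (N : ℝ) ^ η := mul_le_mul_of_nonneg_left p3 L.K0
    have : (2 * B + K) * (N : ℝ) ^ η = B * (N : ℝ) ^ η + B * (N : ℝ) ^ η + K * (N : ℝ) ^ η := by ring
    rw [this]
    linarith

/-- the normaliser -/
def nmX (N : ℕ) (e : ℂ) : ℂ := Complex.exp (-(e * Real.log N))

theorem norm_nmX {N : ℕ} (hN : 1 ≤ N) (e : ℂ) : ‖nmX N e‖ = (N : ℝ) ^ (-e.re) := by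
  have hN0 : (0 : ℝ) < N := by exact_mod_cast hN
  unfold nmX
  rw [Complex.norm_exp, Real.rpow_def_of_pos hN0]
  congr 1
  rw [Complex.neg_re, Complex.re_mul_ofReal]
  ring

theorem nmX_real {N : ℕ} (hN : 1 ≤ N) (e : ℝ) : nmX N (e : ℂ) = (((N : ℝ) ^ (-e) : ℝ) : ℂ) := by
  have hN0 : (0 : ℝ) < N := by exact_mod_cast hN
  unfold nmX
  rw [Real.rpow_def_of_pos hN0, Complex.ofReal_exp]
  congr 1
  push_cast
  ring

/-- the means, for `g` -/
def QA (P : ℕ → ℝ[X]) (N : ℕ) (z : ℂ) : ℂ := nmX N (eC z) * ((phiX P N z + phiX P (N + 1) z) / 2)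

/-- the differences, for `h` -/
def QB (P : ℕ → ℝ[X]) (N : ℕ) (z : ℂ) : ℂ :=
  (-1) ^ N * (nmX N (eC (1 - z)) * ((phiX P N z - phiX P (N + 1) z) / 2))

theorem phiX_hasDeriv (N : ℕ) (z : ℂ) : HasDerivAt (phiX P N)
    (aeval (2 * Complex.cos (Real.pi * z)) (derivative (P N)) *
      (2 * (-Complex.sin (Real.pi * z) * Real.pi))) z := by
  have h1 : HasDerivAt (fun z : ℂ => Real.pi * z) (Real.pi : ℂ) z := by
    simpa using (hasDerivAt_id z).const_mul (Real.pi : ℂ)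
  have h2 := (h1.ccos).const_mul (2 : ℂ)
  exact (Polynomial.hasDerivAt_aeval (P N) (2 * Complex.cos (Real.pi * z))).comp z h2

theorem nmX_hasDeriv (N : ℕ) (z : ℂ) : HasDerivAt (fun z => nmX N (eC z))
    (nmX N (eC z) * (4 / 3 * z * Real.log N)) z := by
  have h1 : HasDerivAt (fun z : ℂ => -(eC z * Real.log N)) (4 / 3 * z * Real.log N) z := by
    have h2 : HasDerivAt eC (-(4 / 3 * z)) z := by
      unfold eC
      have h3 := (((hasDerivAt_id z).pow 2).const_mul (2 / 3 : ℂ)).const_sub (1 / 6 : ℂ)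
      refine (h3.congr_deriv ?_)
      simp
      ring
    exact ((h2.mul_const (Real.log N : ℂ)).neg).congr_deriv (by ring)
  exact h1.cexp

theorem nmX_hasDeriv' (N : ℕ) (z : ℂ) : HasDerivAt (fun z => nmX N (eC (1 - z)))
    (-(nmX N (eC (1 - z)) * (4 / 3 * (1 - z) * Real.log N))) z := by
  have h1 : HasDerivAt (fun z : ℂ => 1 - z) (-1) z := by
    simpa using (hasDerivAt_id z).const_sub (1 : ℂ)
  exact ((nmX_hasDeriv N (1 - z)).comp z h1).congr_deriv (by ring)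

theorem QA_diff (N : ℕ) : Differentiable ℂ (QA P N) := fun z =>
  ((nmX_hasDeriv N z).mul (((phiX_hasDeriv N z).add (phiX_hasDeriv (N + 1) z)).div_const 2)).differentiableAt

theorem QB_diff (N : ℕ) : Differentiable ℂ (QB P N) := fun z =>
  (((nmX_hasDeriv' N z).mul (((phiX_hasDeriv N z).sub (phiX_hasDeriv (N + 1) z)).div_const 2)).const_mul
    ((-1 : ℂ) ^ N)).differentiableAt


/-- the real segment -/
theorem seg_bd {N : ℕ} (hN : 1 ≤ N) {η c K B G H s p1 p2 e e' : ℝ} (hη : 0 ≤ η) (hη1 : η ≤ 1) (hc1 : c ≤ 1)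
    (hK : 0 ≤ K) (hB : 0 ≤ B) (he : |e| ≤ η) (he' : |e'| ≤ η) (hG : |G| ≤ B) (hH : |H| ≤ B)
    (hs : |s| = 1)
    (h1 : |p1 - (G * (N : ℝ) ^ e + s * H * (N : ℝ) ^ e')| ≤ K * (N : ℝ) ^ (-c))
    (h2 : |p2 - (G * ((N : ℝ) + 1) ^ e + -s * H * ((N : ℝ) + 1) ^ e')| ≤ K * (N : ℝ) ^ (-c)) :
    |(N : ℝ) ^ (-e) * ((p1 + p2) / 2) - G| ≤ (B + K) * (N : ℝ) ^ (-(c - 2 * η)) ∧
      |s * ((N : ℝ) ^ (-e') * ((p1 - p2) / 2)) - H| ≤ (B + K) * (N : ℝ) ^ (-(c - 2 * η)) := by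
  have hN1 : (1 : ℝ) ≤ N := by exact_mod_cast hN
  have hN0 : (0 : ℝ) < N := by linarith
  set u : ℝ := (N : ℝ) ^ e with hu
  set u' : ℝ := ((N : ℝ) + 1) ^ e with hu'
  set v : ℝ := (N : ℝ) ^ e' with hv
  set v' : ℝ := ((N : ℝ) + 1) ^ e' with hv'
  obtain ⟨e1, e2⟩ := abs_le.1 he
  obtain ⟨e3, e4⟩ := abs_le.1 he'
  have du := pow_succ_sub hN (e := e) (he.trans hη1)
  have dv := pow_succ_sub hN (e := e') (he'.trans hη1)
  rw [← hu, ← hu'] at du
  rw [← hv, ← hv'] at dv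
  have hu0 : 0 < u := by positivity
  have hv0 : 0 < v := by positivity
  have eu : (N : ℝ) ^ (-e) = u⁻¹ := by rw [Real.rpow_neg hN0.le]
  have ev : (N : ℝ) ^ (-e') = v⁻¹ := by rw [Real.rpow_neg hN0.le]
  -- sizes
  set X : ℝ := (N : ℝ) ^ (-(c - 2 * η)) with hX
  have hX0 : 0 < X := by positivity
  have s1 : 1 / (N : ℝ) ≤ X := by
    rw [one_div, ← Real.rpow_neg_one]
    exact Real.rpow_le_rpow_of_exponent_le hN1 (by linarith)
  have s2 : v / N * u⁻¹ ≤ X := by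
    rw [← eu, hv, div_eq_mul_inv, ← Real.rpow_neg_one, ← Real.rpow_add hN0, ← Real.rpow_add hN0]
    exact Real.rpow_le_rpow_of_exponent_le hN1 (by linarith)
  have s2' : u / N * v⁻¹ ≤ X := by
    rw [← ev, hu, div_eq_mul_inv, ← Real.rpow_neg_one, ← Real.rpow_add hN0, ← Real.rpow_add hN0]
    exact Real.rpow_le_rpow_of_exponent_le hN1 (by linarith)
  have s3 : (N : ℝ) ^ (-c) * u⁻¹ ≤ X := by
    rw [← eu, ← Real.rpow_add hN0]
    exact Real.rpow_le_rpow_of_exponent_le hN1 (by linarith)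
  have s3' : (N : ℝ) ^ (-c) * v⁻¹ ≤ X := by
    rw [← ev, ← Real.rpow_add hN0]
    exact Real.rpow_le_rpow_of_exponent_le hN1 (by linarith)
  have hs2 : s * s = 1 := by
    have := abs_mul_abs_self s
    rw [hs] at this
    linarith
  set r1 : ℝ := p1 - (G * u + s * H * v) with hr1
  set r2 : ℝ := p2 - (G * u' + -s * H * v') with hr2
  constructor
  · have key : (N : ℝ) ^ (-e) * ((p1 + p2) / 2) - G =
        1 / 2 * (G * ((u' - u) * u⁻¹) - s * (H * ((v' - v) * u⁻¹)) + r1 * u⁻¹ + r2 * u⁻¹) := by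
      rw [eu, hr1, hr2]
      field_simp
      ring
    have t1 : |G * ((u' - u) * u⁻¹)| ≤ B * X := by
      rw [abs_mul]
      refine mul_le_mul hG ?_ (abs_nonneg _) hB
      rw [abs_mul, abs_of_pos (inv_pos.2 hu0)]
      refine (mul_le_mul_of_nonneg_right du (inv_pos.2 hu0).le).trans ?_
      have : u / N * u⁻¹ = 1 / N := by
        field_simp
      rw [this]
      exact s1
    have t2 : |s * (H * ((v' - v) * u⁻¹))| ≤ B * X := by
      rw [abs_mul, hs, one_mul, abs_mul]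
      refine mul_le_mul hH ?_ (abs_nonneg _) hB
      rw [abs_mul, abs_of_pos (inv_pos.2 hu0)]
      exact (mul_le_mul_of_nonneg_right dv (inv_pos.2 hu0).le).trans s2
    have t3 : |r1 * u⁻¹| ≤ K * X := by
      rw [abs_mul, abs_of_pos (inv_pos.2 hu0)]
      refine (mul_le_mul_of_nonneg_right h1 (inv_pos.2 hu0).le).trans ?_
      rw [mul_assoc]
      exact mul_le_mul_of_nonneg_left s3 hK
    have t4 : |r2 * u⁻¹| ≤ K * X := by
      rw [abs_mul, abs_of_pos (inv_pos.2 hu0)]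
      refine (mul_le_mul_of_nonneg_right h2 (inv_pos.2 hu0).le).trans ?_
      rw [mul_assoc]
      exact mul_le_mul_of_nonneg_left s3 hK
    rw [key, abs_mul, abs_of_pos (by norm_num : (0 : ℝ) < 1 / 2)]
    have t5 : |G * ((u' - u) * u⁻¹) - s * (H * ((v' - v) * u⁻¹)) + r1 * u⁻¹ + r2 * u⁻¹| ≤
        B * X + B * X + K * X + K * X := by
      refine (abs_add_le _ _).trans (add_le_add ((abs_add_le _ _).trans (add_le_add ?_ t3)) t4)
      exact (abs_sub _ _).trans (add_le_add t1 t2)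
    linarith
  · have key : s * ((N : ℝ) ^ (-e') * ((p1 - p2) / 2)) - H =
        1 / 2 * (H * ((v' - v) * v⁻¹) - s * (G * ((u' - u) * v⁻¹)) + s * (r1 * v⁻¹) - s * (r2 * v⁻¹)) := by
      rw [ev, hr1, hr2]
      field_simp
      linear_combination (H * v + H * v') * hs2
    have t1 : |H * ((v' - v) * v⁻¹)| ≤ B * X := by
      rw [abs_mul]
      refine mul_le_mul hH ?_ (abs_nonneg _) hB
      rw [abs_mul, abs_of_pos (inv_pos.2 hv0)]
      refine (mul_le_mul_of_nonneg_right dv (inv_pos.2 hv0).le).trans ?_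
      have : v / N * v⁻¹ = 1 / N := by
        field_simp
      rw [this]
      exact s1
    have t2 : |s * (G * ((u' - u) * v⁻¹))| ≤ B * X := by
      rw [abs_mul, hs, one_mul, abs_mul]
      refine mul_le_mul hG ?_ (abs_nonneg _) hB
      rw [abs_mul, abs_of_pos (inv_pos.2 hv0)]
      exact (mul_le_mul_of_nonneg_right du (inv_pos.2 hv0).le).trans s2'
    have t3 : |s * (r1 * v⁻¹)| ≤ K * X := by
      rw [abs_mul, hs, one_mul, abs_mul, abs_of_pos (inv_pos.2 hv0)]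
      refine (mul_le_mul_of_nonneg_right h1 (inv_pos.2 hv0).le).trans ?_
      rw [mul_assoc]
      exact mul_le_mul_of_nonneg_left s3' hK
    have t4 : |s * (r2 * v⁻¹)| ≤ K * X := by
      rw [abs_mul, hs, one_mul, abs_mul, abs_of_pos (inv_pos.2 hv0)]
      refine (mul_le_mul_of_nonneg_right h2 (inv_pos.2 hv0).le).trans ?_
      rw [mul_assoc]
      exact mul_le_mul_of_nonneg_left s3' hK
    rw [key, abs_mul, abs_of_pos (by norm_num : (0 : ℝ) < 1 / 2)]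
    have t5 : |H * ((v' - v) * v⁻¹) - s * (G * ((u' - u) * v⁻¹)) + s * (r1 * v⁻¹) - s * (r2 * v⁻¹)| ≤
        B * X + B * X + K * X + K * X := by
      refine (abs_sub _ _).trans (add_le_add ((abs_add_le _ _).trans (add_le_add ?_ t3)) t4)
      exact (abs_sub _ _).trans (add_le_add t1 t2)
    linarith


theorem eC_half : eC ((1 / 2 : ℝ) : ℂ) = 0 := by
  unfold eC
  push_cast
  norm_num

theorem one_sub_half : (1 : ℂ) - ((1 / 2 : ℝ) : ℂ) = ((1 / 2 : ℝ) : ℂ) := by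
  push_cast
  norm_num

theorem cos_half : Complex.cos (Real.pi * ((1 / 2 : ℝ) : ℂ)) = 0 := by
  have : Complex.cos (Real.pi * ((1 / 2 : ℝ) : ℂ)) = ((Real.cos (Real.pi * (1 / 2)) : ℝ) : ℂ) := by
    push_cast
    rfl
  rw [this, show Real.pi * (1 / 2) = Real.pi / 2 by ring, Real.cos_pi_div_two, Complex.ofReal_zero]

theorem sin_half : Complex.sin (Real.pi * ((1 / 2 : ℝ) : ℂ)) = 1 := by
  have : Complex.sin (Real.pi * ((1 / 2 : ℝ) : ℂ)) = ((Real.sin (Real.pi * (1 / 2)) : ℝ) : ℂ) := by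
    push_cast
    rfl
  rw [this, show Real.pi * (1 / 2) = Real.pi / 2 by ring, Real.sin_pi_div_two, Complex.ofReal_one]

theorem aeval_zero' (p : ℝ[X]) : aeval (0 : ℂ) p = ((p.eval 0 : ℝ) : ℂ) := by
  simpa using (Polynomial.aeval_algebraMap_apply ℂ (0 : ℝ) p)

theorem phiX_half (hone : ∀ N, (P N).eval 0 = 1) (N : ℕ) : phiX P N ((1 / 2 : ℝ) : ℂ) = 1 := by
  unfold phiX
  rw [cos_half, mul_zero, aeval_zero', hone, Complex.ofReal_one]

theorem phiX_deriv_half (N : ℕ) : HasDerivAt (phiX P N) (-(2 * Real.pi) * ((P N).coeff 1 : ℂ))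
    ((1 / 2 : ℝ) : ℂ) := by
  refine (phiX_hasDeriv N _).congr_deriv ?_
  rw [cos_half, sin_half, mul_zero, aeval_zero']
  have : (derivative (P N)).eval 0 = (P N).coeff 1 := by
    rw [← Polynomial.coeff_zero_eq_eval_zero, Polynomial.coeff_derivative]
    simp
  rw [this]
  ring

theorem QA_deriv (hone : ∀ N, (P N).eval 0 = 1) (N : ℕ) : deriv (QA P N) ((1 / 2 : ℝ) : ℂ) =
    ((2 / 3 * Real.log N - Real.pi * ((P N).coeff 1 + (P (N + 1)).coeff 1) : ℝ) : ℂ) := by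
  have h1 := ((nmX_hasDeriv N ((1 / 2 : ℝ) : ℂ)).mul
    (((phiX_deriv_half (P := P) N).add (phiX_deriv_half (P := P) (N + 1))).div_const 2)).deriv
  have h2 : deriv (QA P N) ((1 / 2 : ℝ) : ℂ) =
      deriv ((fun z => nmX N (eC z)) * fun z => (phiX P N z + phiX P (N + 1) z) / 2) ((1 / 2 : ℝ) : ℂ) := rfl
  rw [h2]
  refine h1.trans ?_
  have h3 : nmX N (eC ((1 / 2 : ℝ) : ℂ)) = 1 := by
    unfold nmX
    rw [eC_half]
    simp
  have h4 : phiX P N ((1 / 2 : ℝ) : ℂ) = 1 := phiX_half hone N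
  have h5 : phiX P (N + 1) ((1 / 2 : ℝ) : ℂ) = 1 := phiX_half hone (N + 1)
  simp only [h3, h4, h5, Pi.add_apply]
  push_cast
  ring

theorem QB_deriv (hone : ∀ N, (P N).eval 0 = 1) (N : ℕ) : deriv (QB P N) ((1 / 2 : ℝ) : ℂ) =
    (((-1) ^ N * (-(Real.pi) * ((P N).coeff 1 - (P (N + 1)).coeff 1)) : ℝ) : ℂ) := by
  have h1 := (((nmX_hasDeriv' N ((1 / 2 : ℝ) : ℂ)).mul
    (((phiX_deriv_half (P := P) N).sub (phiX_deriv_half (P := P) (N + 1))).div_const 2)).const_mul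
      ((-1 : ℂ) ^ N)).deriv
  have h2 : deriv (QB P N) ((1 / 2 : ℝ) : ℂ) =
      deriv (fun y => (-1 : ℂ) ^ N * ((fun z => nmX N (eC (1 - z))) *
        fun z => (phiX P N z - phiX P (N + 1) z) / 2) y) ((1 / 2 : ℝ) : ℂ) := rfl
  rw [h2]
  refine h1.trans ?_
  have h3 : nmX N (eC (1 - ((1 / 2 : ℝ) : ℂ))) = 1 := by
    unfold nmX
    rw [one_sub_half, eC_half]
    simp
  have h4 : phiX P N ((1 / 2 : ℝ) : ℂ) = 1 := phiX_half hone N
  have h5 : phiX P (N + 1) ((1 / 2 : ℝ) : ℂ) = 1 := phiX_half hone (N + 1)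
  simp only [h3, h4, h5, Pi.sub_apply]
  push_cast
  ring

/-- **the mass of one polygon** -/
theorem smass (L : LawP P g h K c) : ∃ a b C : ℝ, 0 ≤ C ∧ ∀ N : ℕ, 1 ≤ N →
    |(P N).coeff 1 - (1 / (3 * Real.pi) * Real.log N + a + (-1) ^ N * b)| ≤ C * (N : ℝ) ^ (-(c / 4)) := by
  have hpi := Real.pi_pos
  have hc := L.c0
  have hK := L.K0
  obtain ⟨B, hB, hgh⟩ := L.bd
  set η : ℝ := c / 8 with hη
  have hη0 : 0 < η := by positivity
  have hη1 : η ≤ 1 := by linarith [L.c1]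
  obtain ⟨C, b, hC, hb, hb10, he, hD⟩ := L.disc hη0
  set C1 : ℝ := 2 * C + (B + K) with hC1
  have hC10 : 0 ≤ C1 := by positivity
  -- norms on the disc
  have big : ∀ N : ℕ, 1 ≤ N → ∀ z ∈ Metric.ball ((1 / 2 : ℝ) : ℂ) (2 * b), ∀ e : ℂ, |e.re| ≤ η →
      ∀ w : ℂ, ‖w‖ ≤ ‖phiX P N z‖ + ‖phiX P (N + 1) z‖ → ‖nmX N e * (w / 2)‖ ≤ C1 * (N : ℝ) ^ (2 * η) := by
    intro N hN z hz e hez w hw
    have hN1 : (1 : ℝ) ≤ N := by exact_mod_cast hN
    have hN0 : (0 : ℝ) < N := by linarith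
    have f1 := hD N hN z hz
    have f2 := hD (N + 1) (by omega) z hz
    have f3 : (((N + 1 : ℕ)) : ℝ) ^ η ≤ 2 * (N : ℝ) ^ η := by
      have g1 : (((N + 1 : ℕ)) : ℝ) ^ η ≤ (2 * (N : ℝ)) ^ η :=
        Real.rpow_le_rpow (by positivity) (by push_cast; linarith) hη0.le
      rw [Real.mul_rpow (by norm_num) hN0.le] at g1
      have g2 : (2 : ℝ) ^ η ≤ 2 ^ (1 : ℝ) := Real.rpow_le_rpow_of_exponent_le (by norm_num) hη1
      rw [Real.rpow_one] at g2
      exact g1.trans (mul_le_mul_of_nonneg_right g2 (by positivity))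
    have f4 : ‖nmX N e‖ ≤ (N : ℝ) ^ η := by
      rw [norm_nmX hN]
      exact Real.rpow_le_rpow_of_exponent_le hN1 (by linarith [(abs_le.1 hez).1])
    have f5 : ‖w / 2‖ ≤ 3 / 2 * C * (N : ℝ) ^ η := by
      rw [norm_div]
      have : ‖(2 : ℂ)‖ = 2 := by norm_num
      rw [this, div_le_iff₀ (by norm_num)]
      have g3 := mul_le_mul_of_nonneg_left f3 hC
      linarith
    rw [norm_mul]
    have f6 : (N : ℝ) ^ (2 * η) = (N : ℝ) ^ η * (N : ℝ) ^ η := by
      rw [← Real.rpow_add hN0]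
      congr 1
      ring
    calc ‖nmX N e‖ * ‖w / 2‖ ≤ (N : ℝ) ^ η * (3 / 2 * C * (N : ℝ) ^ η) := by gcongr
      _ = 3 / 2 * C * (N : ℝ) ^ (2 * η) := by rw [f6]; ring
      _ ≤ _ := by
        refine mul_le_mul_of_nonneg_right ?_ (by positivity)
        rw [hC1]
        linarith
  -- the real segment
  have sb : ∀ N : ℕ, 1 ≤ N → ∀ x : ℝ, |x - 1 / 2| ≤ b →
      ‖QA P N x - ((g x : ℝ) : ℂ)‖ ≤ C1 * (N : ℝ) ^ (-(c - 2 * η)) ∧
      ‖QB P N x - ((h x : ℝ) : ℂ)‖ ≤ C1 * (N : ℝ) ^ (-(c - 2 * η)) := by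
    intro N hN x hx
    obtain ⟨x1, x2⟩ := abs_le.1 hx
    have hxz : ((x : ℝ) : ℂ) ∈ Metric.ball ((1 / 2 : ℝ) : ℂ) (2 * b) := by
      rw [Metric.mem_ball, dist_eq_norm, ← Complex.ofReal_sub, Complex.norm_real, Real.norm_eq_abs]
      linarith
    have hx25 : 2 / 5 ≤ x := by linarith
    have hx35 : x ≤ 3 / 5 := by linarith
    obtain ⟨r1, r2⟩ := he _ hxz
    have re1 : eC ((x : ℝ) : ℂ) = ((1 / 6 - 2 / 3 * x ^ 2 : ℝ) : ℂ) := by
      unfold eC
      push_cast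
      ring
    have re2 : eC (1 - ((x : ℝ) : ℂ)) = ((1 / 6 - 2 / 3 * (1 - x) ^ 2 : ℝ) : ℂ) := by
      unfold eC
      push_cast
      ring
    rw [re1, Complex.ofReal_re] at r1
    rw [re2, Complex.ofReal_re] at r2
    obtain ⟨b1, b2⟩ := hgh x hx25 hx35
    have l1 := L.law N hN x hx25 hx35
    have l2 := L.law (N + 1) (by omega) x hx25 hx35
    have l2' : |(P (N + 1)).eval (2 * Real.cos (Real.pi * x)) -
        (g x * ((N : ℝ) + 1) ^ (1 / 6 - 2 / 3 * x ^ 2 : ℝ) + -(-1) ^ N * h x *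
          ((N : ℝ) + 1) ^ (1 / 6 - 2 / 3 * (1 - x) ^ 2 : ℝ))| ≤ K * (N : ℝ) ^ (-c) := by
      have e1 : ((N + 1 : ℕ) : ℝ) = (N : ℝ) + 1 := by push_cast; ring
      have e2 : (-1 : ℝ) ^ (N + 1) = -(-1) ^ N := by rw [pow_succ]; ring
      rw [e1, e2] at l2
      refine l2.trans (mul_le_mul_of_nonneg_left ?_ hK)
      exact Real.rpow_le_rpow_of_nonpos (by exact_mod_cast hN) (by linarith) (by linarith)
    have hs : |(-1 : ℝ) ^ N| = 1 := by rw [abs_pow, abs_neg, abs_one, one_pow]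
    obtain ⟨w1, w2⟩ := seg_bd hN hη0.le hη1 L.c1 hK hB r1 r2 b1 b2 hs l1 l2'
    have hle : (B + K) * (N : ℝ) ^ (-(c - 2 * η)) ≤ C1 * (N : ℝ) ^ (-(c - 2 * η)) := by
      refine mul_le_mul_of_nonneg_right ?_ (by positivity)
      rw [hC1]
      linarith
    constructor
    · have e1 : QA P N x - ((g x : ℝ) : ℂ) = (((N : ℝ) ^ (-(1 / 6 - 2 / 3 * x ^ 2 : ℝ)) *
          (((P N).eval (2 * Real.cos (Real.pi * x)) + (P (N + 1)).eval (2 * Real.cos (Real.pi * x))) / 2) -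
          g x : ℝ) : ℂ) := by
        unfold QA
        rw [re1, nmX_real hN, phiX_real, phiX_real]
        push_cast
        ring
      rw [e1, Complex.norm_real, Real.norm_eq_abs]
      exact w1.trans hle
    · have e1 : QB P N x - ((h x : ℝ) : ℂ) = (((-1) ^ N * ((N : ℝ) ^ (-(1 / 6 - 2 / 3 * (1 - x) ^ 2 : ℝ)) *
          (((P N).eval (2 * Real.cos (Real.pi * x)) - (P (N + 1)).eval (2 * Real.cos (Real.pi * x))) / 2)) -
          h x : ℝ) : ℂ) := by
        unfold QB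
        rw [re2, nmX_real hN, phiX_real, phiX_real]
        push_cast
        ring
      rw [e1, Complex.norm_real, Real.norm_eq_abs]
      exact w2.trans hle
  obtain ⟨α, Ca, hCa, hα⟩ := derlim (Q := QA P) (q := fun x => ((g x : ℝ) : ℂ)) (x0 := 1 / 2) (b := b)
    (C := C1) (η := 2 * η) (κ := c - 2 * η) hb (by linarith) (by linarith) hC10
    (fun N _ => (QA_diff N).differentiableOn)
    (fun N hN z hz => big N hN z hz _ (he z hz).1 _ (norm_add_le _ _))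
    (fun N hN x hx => (sb N hN x hx).1)
  obtain ⟨β, Cb, hCb, hβ⟩ := derlim (Q := QB P) (q := fun x => ((h x : ℝ) : ℂ)) (x0 := 1 / 2) (b := b)
    (C := C1) (η := 2 * η) (κ := c - 2 * η) hb (by linarith) (by linarith) hC10
    (fun N _ => (QB_diff N).differentiableOn)
    (fun N hN z hz => by
      have h1 := big N hN z hz _ (he z hz).2 _ (norm_sub_le (phiX P N z) (phiX P (N + 1) z))
      unfold QB
      rw [norm_mul, norm_pow, norm_neg, norm_one, one_pow, one_mul]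
      exact h1)
    (fun N hN x hx => (sb N hN x hx).2)
  have hexp : (c - 2 * η - 2 * η) / 2 = c / 4 := by
    rw [hη]
    ring
  rw [hexp] at hα hβ
  refine ⟨-α.re / (2 * Real.pi), -β.re / (2 * Real.pi), (Ca + Cb) / (2 * Real.pi), by positivity,
    fun N hN => ?_⟩
  have a1 := hα N hN
  have a2 := hβ N hN
  rw [QA_deriv L.one] at a1
  rw [QB_deriv L.one] at a2
  have a1' : |(2 / 3 * Real.log N - Real.pi * ((P N).coeff 1 + (P (N + 1)).coeff 1)) - α.re| ≤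
      Ca * (N : ℝ) ^ (-(c / 4)) := by
    have h1 := (Complex.abs_re_le_norm _).trans a1
    rwa [Complex.sub_re, Complex.ofReal_re] at h1
  have a2' : |((-1) ^ N * (-(Real.pi) * ((P N).coeff 1 - (P (N + 1)).coeff 1))) - β.re| ≤
      Cb * (N : ℝ) ^ (-(c / 4)) := by
    have h1 := (Complex.abs_re_le_norm _).trans a2
    rwa [Complex.sub_re, Complex.ofReal_re] at h1
  have hs : |(-1 : ℝ) ^ N| = 1 := by rw [abs_pow, abs_neg, abs_one, one_pow]
  have hs2 : ((-1 : ℝ) ^ N) * (-1) ^ N = 1 := by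
    rw [← mul_pow]
    norm_num
  have key : (P N).coeff 1 - (1 / (3 * Real.pi) * Real.log N + -α.re / (2 * Real.pi) +
      (-1) ^ N * (-β.re / (2 * Real.pi))) =
      -(1 / (2 * Real.pi)) * (((2 / 3 * Real.log N - Real.pi * ((P N).coeff 1 + (P (N + 1)).coeff 1)) - α.re) +
        (-1) ^ N * (((-1) ^ N * (-(Real.pi) * ((P N).coeff 1 - (P (N + 1)).coeff 1))) - β.re)) := by
    have e1 : (-1 : ℝ) ^ N * (((-1) ^ N * (-(Real.pi) * ((P N).coeff 1 - (P (N + 1)).coeff 1))) - β.re) =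
        (-(Real.pi) * ((P N).coeff 1 - (P (N + 1)).coeff 1)) - (-1) ^ N * β.re := by
      linear_combination (-(Real.pi) * ((P N).coeff 1 - (P (N + 1)).coeff 1)) * hs2
    rw [e1]
    field_simp
    ring
  rw [key, abs_mul, abs_neg, abs_of_pos (show (0 : ℝ) < 1 / (2 * Real.pi) by positivity)]
  have t : |((2 / 3 * Real.log N - Real.pi * ((P N).coeff 1 + (P (N + 1)).coeff 1)) - α.re) +
        (-1) ^ N * (((-1) ^ N * (-(Real.pi) * ((P N).coeff 1 - (P (N + 1)).coeff 1))) - β.re)| ≤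
      (Ca + Cb) * (N : ℝ) ^ (-(c / 4)) := by
    refine (abs_add_le _ _).trans ?_
    rw [abs_mul, hs, one_mul]
    linarith
  calc 1 / (2 * Real.pi) * _ ≤ 1 / (2 * Real.pi) * ((Ca + Cb) * (N : ℝ) ^ (-(c / 4))) :=
        mul_le_mul_of_nonneg_left t (by positivity)
    _ = _ := by ring

end WX

end
end
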